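import Mathlib

set_option autoImplicit false

open Complex Metric Filter Topology Set

namespace Pool.Agent.P.MP_2e654e_an.Den

/-- growth `exp (o (|z|^2))` -/
def Gr (f : ℂ → ℂ) : Prop :=
  ∀ ε : ℝ, 0 < ε → ∃ C : ℝ, 1 ≤ C ∧ ∀ z : ℂ, ‖f z‖ ≤ C * Real.exp (ε * ‖z‖ ^ 2)

lemma exp_of_deriv {h g L : ℂ → ℂ} {s : Set ℂ} (hs : Convex ℝ s) (ho : IsOpen s)
    (hh : ∀ w ∈ s, HasDerivAt h (g w * h w) w) (hL : ∀ w ∈ s, HasDerivAt L (g w) w)
    {c w : ℂ} (hc : c ∈ s) (hw : w ∈ s) : h w = h c * exp (L w - L c) := by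
  have hd : ∀ x ∈ s, HasDerivAt (fun x => h x * exp (-L x)) 0 x := by
    intro x hx
    have := (hh x hx).mul ((hL x hx).neg.cexp)
    refine this.congr_deriv ?_
    simp only [Pi.neg_apply]
    ring
  have hc2 := ho.is_const_of_deriv_eq_zero hs.isPreconnected
    (fun x hx => (hd x hx).differentiableAt.differentiableWithinAt)
    (fun x hx => (hd x hx).deriv) hw hc
  have h3 : h w = h w * exp (-L w) * exp (L w) := by
    rw [mul_assoc, ← Complex.exp_add]; simp
  rw [h3, hc2, mul_assoc, ← Complex.exp_add]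
  congr 2
  ring

lemma hasDerivAt_logDeriv {h : ℂ → ℂ} {w : ℂ} (hd : DifferentiableAt ℂ h w) (h0 : h w ≠ 0) :
    HasDerivAt h (logDeriv h w * h w) w := by
  refine hd.hasDerivAt.congr_deriv ?_
  rw [logDeriv_apply]
  field_simp

lemma logDeriv_diffOn {h : ℂ → ℂ} {s : Set ℂ} (ho : IsOpen s) (hd : DifferentiableOn ℂ h s)
    (h0 : ∀ w ∈ s, h w ≠ 0) : DifferentiableOn ℂ (logDeriv h) s := by
  have : logDeriv h = fun w => deriv h w / h w := by ext w; rw [logDeriv_apply]
  rw [this]
  exact (hd.deriv ho).div hd h0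

/-- a logarithm on a disc together with the Borel-Caratheodory bound -/
lemma log_bc {h : ℂ → ℂ} {c : ℂ} {R A : ℝ} (hR : 0 < R) (hA : 0 < A)
    (hd : DifferentiableOn ℂ h (ball c R)) (h0 : ∀ w ∈ ball c R, h w ≠ 0)
    (hb : ∀ w ∈ ball c R, ‖h w‖ ≤ Real.exp A * ‖h c‖) :
    ∃ L : ℂ → ℂ, L c = 0 ∧ (∀ w ∈ ball c R, HasDerivAt L (logDeriv h w) w) ∧
      (∀ w ∈ ball c R, h w = h c * exp (L w)) ∧
      ∀ w ∈ ball c R, ‖L w‖ ≤ 2 * A * ‖w - c‖ / (R - ‖w - c‖) := by
  obtain ⟨L, hLc, hL⟩ := (logDeriv_diffOn isOpen_ball hd h0).isExactOn_ball.with_val_at c 0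
  have hc : c ∈ ball c R := mem_ball_self hR
  have he : ∀ w ∈ ball c R, h w = h c * exp (L w) := by
    intro w hw
    have := exp_of_deriv (convex_ball c R) isOpen_ball (fun x hx =>
      hasDerivAt_logDeriv (hd.differentiableAt (isOpen_ball.mem_nhds hx)) (h0 x hx)) hL hc hw
    rwa [hLc, sub_zero] at this
  refine ⟨L, hLc, hL, he, fun w hw => ?_⟩
  have hmem : ∀ x ∈ ball (0 : ℂ) R, c + x ∈ ball c R := by
    intro x hx
    simpa [mem_ball, dist_eq_norm] using hx
  have := Complex.borelCaratheodory_zero (f := fun x => L (c + x)) (z := w - c) hA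
    (fun x hx => (((hL _ (hmem x hx)).differentiableAt.comp x
      (differentiableAt_id.const_add c))).differentiableWithinAt)
    (fun x hx => ?_) hR (by simpa [mem_ball, dist_eq_norm] using hw) (by simpa using hLc)
  · simpa using this
  · have h1 := hb _ (hmem x hx)
    rw [he _ (hmem x hx), norm_mul, Complex.norm_exp, mul_comm] at h1
    have h2 : 0 < ‖h c‖ := norm_pos_iff.mpr (h0 c hc)
    exact Real.exp_le_exp.mp (le_of_mul_le_mul_right h1 h2)

lemma not_ev_zero {h : ℂ → ℂ} (hd : Differentiable ℂ h) {c : ℂ} (hc : h c ≠ 0) (a : ℂ) :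
    ¬ ∀ᶠ z in 𝓝 a, h z = 0 := by
  intro hev
  have han : AnalyticOnNhd ℂ h univ := fun z _ => hd.analyticAt z
  exact hc (han.eqOn_zero_of_preconnected_of_eventuallyEq_zero isPreconnected_univ
    (mem_univ a) hev (mem_univ c))

lemma factor_one {h : ℂ → ℂ} (hd : Differentiable ℂ h) {c : ℂ} (hc : h c ≠ 0) (a : ℂ) :
    ∃ (k : ℕ) (g : ℂ → ℂ), Differentiable ℂ g ∧ g a ≠ 0 ∧ ∀ w, h w = (w - a) ^ k * g w := by
  classical
  obtain ⟨k, g, hg, hg0, hev⟩ :=
    (hd.analyticAt a).exists_eventuallyEq_pow_smul_nonzero_iff.mpr (not_ev_zero hd hc a)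
  refine ⟨k, fun w => if w = a then g a else h w / (w - a) ^ k, fun w => ?_, by simpa, fun w => ?_⟩
  · by_cases hw : w = a
    · subst hw
      refine hg.differentiableAt.congr_of_eventuallyEq ?_
      filter_upwards [hev] with x hx
      split_ifs with hxa
      · rw [hxa]
      · rw [hx, smul_eq_mul, mul_div_cancel_left₀ _ (pow_ne_zero _ (sub_ne_zero.mpr hxa))]
    · have : DifferentiableAt ℂ (fun x => h x / (x - a) ^ k) w :=
        (hd w).div (by fun_prop) (pow_ne_zero _ (sub_ne_zero.mpr hw))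
      refine this.congr_of_eventuallyEq ?_
      filter_upwards [isOpen_ne.mem_nhds hw] with x hx
      rw [if_neg hx]
  · beta_reduce
    split_ifs with hw
    · subst hw
      simpa using hev.self_of_nhds
    · rw [mul_div_cancel₀ _ (pow_ne_zero _ (sub_ne_zero.mpr hw))]

lemma factor_fin {f : ℂ → ℂ} (hd : Differentiable ℂ f) {c : ℂ} (hc : f c ≠ 0) (T : Finset ℂ) :
    ∃ g : ℂ → ℂ, Differentiable ℂ g ∧ (∀ a ∈ T, g a ≠ 0) ∧
      ∀ w, f w = (∏ a ∈ T, (w - a) ^ analyticOrderNatAt f a) * g w := by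
  classical
  induction T using Finset.induction_on with
  | empty => exact ⟨f, hd, by simp, by simp⟩
  | insert a T ha ih =>
    obtain ⟨g, hg, hg0, he⟩ := ih
    have hgc : g c ≠ 0 := fun h => hc (by rw [he, h, mul_zero])
    obtain ⟨k, g1, hg1, hg10, he1⟩ := factor_one hg hgc a
    have hk : analyticOrderNatAt f a = k := by
      have h1 : analyticOrderAt f a = k := by
        rw [(hd.analyticAt a).analyticOrderAt_eq_natCast]
        refine ⟨fun w => (∏ b ∈ T, (w - b) ^ analyticOrderNatAt f b) * g1 w, ?_, ?_,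
          Eventually.of_forall fun w => ?_⟩
        · apply Differentiable.analyticAt
          exact Differentiable.mul (by fun_prop) hg1
        · refine mul_ne_zero (Finset.prod_ne_zero_iff.mpr fun b hb => pow_ne_zero _ ?_) hg10
          exact sub_ne_zero.mpr fun h => ha (h ▸ hb)
        · rw [he, he1, smul_eq_mul]
          ring
      unfold analyticOrderNatAt
      rw [h1]
      rfl
    refine ⟨g1, hg1, fun b hb => ?_, fun w => ?_⟩
    · rcases Finset.mem_insert.mp hb with rfl | hb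
      · exact hg10
      · exact fun h => hg0 b hb (by rw [he1, h, mul_zero])
    · rw [Finset.prod_insert ha, hk, he, he1]
      ring

lemma zeros_finite {f : ℂ → ℂ} (hd : Differentiable ℂ f) {c : ℂ} (hc : f c ≠ 0) {K : Set ℂ}
    (hK : IsCompact K) : {z | z ∈ K ∧ f z = 0}.Finite := by
  by_contra hinf
  obtain ⟨a, -, ha⟩ := Set.Infinite.exists_accPt_of_subset_isCompact hinf hK (fun z hz => hz.1)
  rcases (hd.analyticAt a).eventually_eq_zero_or_eventually_ne_zero with h | h
  · exact not_ev_zero hd hc a h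
  · rw [accPt_iff_frequently_nhdsNE] at ha
    exact ha (h.mono fun z hz hm => hz hm.2)

/-- the finite stage of the Hadamard factorisation around a point `c` -/
lemma stage {f : ℂ → ℂ} (hd : Differentiable ℂ f) (hg : Gr f) {c : ℂ} (hc : f c ≠ 0)
    {r η : ℝ} (hr : 0 < r) (hη : 0 < η) (R0 : ℝ) :
    ∃ (T : Finset ℂ) (g L : ℂ → ℂ), Differentiable ℂ g ∧ (∀ a ∈ T, f a = 0) ∧
      (∀ a, f a = 0 → ‖a - c‖ ≤ R0 → a ∈ T) ∧
      (∀ w, f w = (∏ a ∈ T, (w - a) ^ analyticOrderNatAt f a) * g w) ∧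
      (∀ w ∈ ball c r, g w ≠ 0 ∧ ‖logDeriv g w - logDeriv g c‖ ≤ η ∧
        g w = g c * exp (L w) ∧ ‖L w - logDeriv g c * (w - c)‖ ≤ η) := by
  classical
  have hfc : 0 < ‖f c‖ := norm_pos_iff.mpr hc
  set θ : ℝ := η / (r + r ^ 2) with hθ
  have hθ0 : 0 < θ := by positivity
  obtain ⟨C, hC1, hC⟩ := hg (θ / 1200) (by positivity)
  set B : ℝ := |Real.log (C / ‖f c‖)| + 1 with hB
  obtain ⟨R, hR1, hR2, hR3, hR4⟩ : ∃ R : ℝ, R0 ≤ R ∧ 4 * r ≤ R ∧ ‖c‖ ≤ R ∧
      128 * B ≤ θ * R ^ 2 := by
    have h1 : Tendsto (fun R : ℝ => θ * R ^ 2) atTop atTop :=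
      (tendsto_pow_atTop two_ne_zero).const_mul_atTop hθ0
    exact (((eventually_ge_atTop R0).and ((eventually_ge_atTop (4 * r)).and
      ((eventually_ge_atTop ‖c‖).and (h1.eventually_ge_atTop (128 * B))))).exists)
  have hR0 : 0 < R := by linarith
  set T := (zeros_finite hd hc (isCompact_closedBall c R)).toFinset with hT
  have hTm : ∀ a, a ∈ T ↔ ‖a - c‖ ≤ R ∧ f a = 0 := by
    intro a
    simp [hT, dist_eq_norm]
  obtain ⟨g, hgd, hg0, he⟩ := factor_fin hd hc T
  have hgne : ∀ w ∈ ball c R, g w ≠ 0 := by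
    intro w hw h
    have h1 : f w = 0 := by rw [he, h, mul_zero]
    exact hg0 w ((hTm w).mpr ⟨(mem_ball_iff_norm.mp hw).le, h1⟩) h
  set A : ℝ := B + θ / 1200 * (3 * R) ^ 2 with hA
  have hB0 : 0 < B := by positivity
  have hA0 : 0 < A := by positivity
  have hPc : 0 < ‖∏ a ∈ T, (c - a) ^ analyticOrderNatAt f a‖ := by
    refine norm_pos_iff.mpr fun h => hc ?_
    rw [he, h, zero_mul]
  have hb : ∀ w ∈ ball c R, ‖g w‖ ≤ Real.exp A * ‖g c‖ := by
    intro w hw
    refine Complex.norm_le_of_forall_mem_frontier_norm_le (U := ball c (2 * R)) isBounded_ball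
      hgd.diffContOnCl (fun x hx => ?_)
      (subset_closure (ball_subset_ball (by linarith) hw))
    rw [frontier_ball c (by linarith), mem_sphere_iff_norm] at hx
    have h1 : ‖∏ a ∈ T, (c - a) ^ analyticOrderNatAt f a‖ ≤
        ‖∏ a ∈ T, (x - a) ^ analyticOrderNatAt f a‖ := by
      rw [norm_prod, norm_prod]
      refine Finset.prod_le_prod (fun _ _ => norm_nonneg _) fun a ha => ?_
      rw [norm_pow, norm_pow]
      refine pow_le_pow_left₀ (norm_nonneg _) ?_ _
      have h2 := ((hTm a).mp ha).1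
      have h3 := norm_sub_le (x - a) (c - a)
      rw [show x - a - (c - a) = x - c by ring, hx] at h3
      rw [norm_sub_rev] at h2
      linarith
    have hx3 : ‖x‖ ≤ 3 * R := by
      have := norm_add_le (x - c) c
      rw [sub_add_cancel, hx] at this
      linarith
    have h2 : ‖f x‖ ≤ Real.exp A * ‖f c‖ := by
      refine (hC x).trans ?_
      rw [hA, Real.exp_add, mul_right_comm]
      have h4 : C ≤ Real.exp B * ‖f c‖ := by
        rw [← div_le_iff₀ hfc]
        have h5 : C / ‖f c‖ = Real.exp (Real.log (C / ‖f c‖)) :=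
          (Real.exp_log (by positivity)).symm
        rw [h5]
        exact Real.exp_le_exp.mpr (by linarith [le_abs_self (Real.log (C / ‖f c‖))])
      gcongr
    rw [he x, he c, norm_mul, norm_mul] at h2
    refine le_of_mul_le_mul_left ?_ hPc
    calc _ ≤ ‖∏ a ∈ T, (x - a) ^ analyticOrderNatAt f a‖ * ‖g x‖ := by gcongr
      _ ≤ _ := h2
      _ = _ := by ring
  obtain ⟨L, hL0, hL1, hL2, hL3⟩ := log_bc hR0 hA0 hgd.differentiableOn hgne hb
  have hLd : DifferentiableOn ℂ L (ball c R) :=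
    fun w hw => (hL1 w hw).differentiableAt.differentiableWithinAt
  have hsub : ball c r ⊆ ball c R := ball_subset_ball (by linarith)
  have hud := logDeriv_diffOn isOpen_ball hgd.differentiableOn hgne
  have h2nd : ∀ w ∈ ball c r, ‖deriv (logDeriv g) w‖ ≤ θ := by
    intro w hw
    have hw' := mem_ball_iff_norm.mp hw
    have hcl : closedBall w (R / 4) ⊆ ball c R := by
      intro x hx
      rw [mem_closedBall_iff_norm] at hx
      rw [mem_ball_iff_norm]
      have := norm_add_le (x - w) (w - c)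
      rw [sub_add_sub_cancel] at this
      linarith
    have hest := Complex.norm_iteratedDeriv_le_of_forall_mem_sphere_norm_le (f := L) (c := w)
      (R := R / 4) (C := 2 * A) 2 (by linarith)
      (DifferentiableOn.diffContOnCl (by
        rw [closure_ball w (by linarith)]
        exact hLd.mono hcl)) (fun x hx => by
        have hx1 := hcl (sphere_subset_closedBall hx)
        refine (hL3 x hx1).trans ?_
        rw [mem_sphere_iff_norm] at hx
        have h5 := norm_add_le (x - w) (w - c)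
        rw [sub_add_sub_cancel] at h5
        rw [div_le_iff₀ (by linarith)]
        have h6 : ‖x - c‖ ≤ R - ‖x - c‖ := by linarith
        gcongr)
    have hde : iteratedDeriv 2 L w = deriv (logDeriv g) w := by
      rw [iteratedDeriv_succ, iteratedDeriv_one]
      refine Filter.EventuallyEq.deriv_eq ?_
      filter_upwards [isOpen_ball.mem_nhds (hsub hw)] with x hx using (hL1 x hx).deriv
    rw [hde] at hest
    refine hest.trans ?_
    rw [div_le_iff₀ (by positivity)]
    simp only [Nat.factorial, hA]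
    push_cast
    nlinarith [sq_nonneg R]
  have hc' : c ∈ ball c r := mem_ball_self hr
  have h1st : ∀ w ∈ ball c r, ‖logDeriv g w - logDeriv g c‖ ≤ θ * r := by
    intro w hw
    refine ((convex_ball c r).norm_image_sub_le_of_norm_deriv_le (fun x hx =>
      hud.differentiableAt (isOpen_ball.mem_nhds (hsub hx))) h2nd hc' hw).trans ?_
    have := (mem_ball_iff_norm.mp hw).le
    gcongr
  have hθη : θ * (r + r ^ 2) = η := by rw [hθ]; field_simp
  refine ⟨T, g, L, hgd, fun a ha => ((hTm a).mp ha).2,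
    fun a ha hb => (hTm a).mpr ⟨hb.trans hR1, ha⟩, he, fun w hw =>
    ⟨hgne w (hsub hw), (h1st w hw).trans (by nlinarith [sq_nonneg r]), hL2 w (hsub hw), ?_⟩⟩
  have h0th := (convex_ball c r).norm_image_sub_le_of_norm_hasDerivWithin_le
    (f := fun x => L x - logDeriv g c * (x - c)) (f' := fun x => logDeriv g x - logDeriv g c)
    (C := θ * r) (fun x hx => by
      have := (hL1 x (hsub hx)).sub (((hasDerivAt_id x).sub_const c).const_mul (logDeriv g c))
      exact (this.congr_deriv (by rw [mul_one])).hasDerivWithinAt) h1st hc' hw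
  simp only [hL0, sub_self, mul_zero, sub_zero] at h0th
  refine h0th.trans ?_
  have := (mem_ball_iff_norm.mp hw).le
  have h7 : θ * r * ‖w - c‖ ≤ θ * r * r := by gcongr
  nlinarith

end Pool.Agent.P.MP_2e654e_an.Den
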