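import Pool.Agent.P.MP_2e654e_an.DenA

set_option autoImplicit false

open Complex Metric Filter Topology Set ComplexConjugate

namespace Pool.Agent.P.MP_2e654e_an.Den

/-- the logarithmic form of the Hadamard factorisation that is used below -/
structure Had (Δ : ℝ) (f : ℂ → ℂ) {ι : Type} (z : ι → ℂ) (m : ι → ℝ) : Prop where
  m0 : ∀ i, 0 ≤ m i
  zi : ∀ i, |(z i).im| ≤ Δ
  z0 : ∀ i, f (z i) = 0
  ne : ∀ w : ℂ, Δ < |w.im| → f w ≠ 0
  sm' : ∀ w : ℂ, f w ≠ 0 → Summable fun i => m i / ‖w - z i‖ ^ 2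
  hs' : ∀ w w' : ℂ, f w ≠ 0 → f w' ≠ 0 →
    HasSum (fun i => (m i : ℂ) * ((w - z i)⁻¹ - (w' - z i)⁻¹)) (logDeriv f w - logDeriv f w')
  ub' : ∀ w c : ℂ, f c ≠ 0 → ‖f w‖ ≤ ‖f c‖ *
    Real.exp ((logDeriv f c * (w - c)).re + ‖w - c‖ ^ 2 / 2 * ∑' i, m i / ‖c - z i‖ ^ 2)

lemma Had.sub_ne {Δ : ℝ} {f : ℂ → ℂ} {ι : Type} {z : ι → ℂ} {m : ι → ℝ} (h : Had Δ f z m)
    {w : ℂ} (hw : f w ≠ 0) (i : ι) : w - z i ≠ 0 :=
  fun e => hw (by rw [sub_eq_zero.mp e]; exact h.z0 i)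

lemma norm_one_add_le (t : ℂ) : ‖1 + t‖ ≤ Real.exp (t.re + ‖t‖ ^ 2 / 2) := by
  refine (pow_le_pow_iff_left₀ (norm_nonneg _) (Real.exp_pos _).le two_ne_zero).mp ?_
  rw [← Real.exp_nat_mul]
  have h1 : ‖1 + t‖ ^ 2 = 1 + (2 * t.re + ‖t‖ ^ 2) := by
    rw [Complex.sq_norm, Complex.sq_norm, normSq_apply, normSq_apply]
    simp
    ring
  rw [h1]
  have := Real.add_one_le_exp (2 * t.re + ‖t‖ ^ 2)
  push_cast
  rw [show 2 * (t.re + ‖t‖ ^ 2 / 2) = 2 * t.re + ‖t‖ ^ 2 by ring]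
  linarith

lemma logDeriv_stage {f g : ℂ → ℂ} (hg : Differentiable ℂ g) {T : Finset ℂ} {k : ℂ → ℕ}
    (he : ∀ w, f w = (∏ a ∈ T, (w - a) ^ k a) * g w) {w : ℂ} (hw : f w ≠ 0) :
    logDeriv f w = ∑ a ∈ T, (k a : ℂ) * (w - a)⁻¹ + logDeriv g w := by
  have hf : f = fun w => (∏ a ∈ T, (w - a) ^ k a) * g w := funext he
  rw [he] at hw
  have h1 := left_ne_zero_of_mul hw
  have h2 := right_ne_zero_of_mul hw
  rw [hf, logDeriv_mul w h1 h2 (by fun_prop) (hg w),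
    logDeriv_prod (Finset.prod_ne_zero_iff.mp h1) (fun _ _ => by fun_prop)]
  congr 1
  refine Finset.sum_congr rfl fun a _ => ?_
  rw [logDeriv_fun_pow (by fun_prop), logDeriv_apply]
  simp

lemma stage2 {f : ℂ → ℂ} (hd : Differentiable ℂ f) (hg : Gr f) {c : ℂ} (hc : f c ≠ 0)
    (w : ℂ) {η : ℝ} (hη : 0 < η) (t : Finset {a : ℂ // f a = 0}) :
    ∃ T : Finset {a : ℂ // f a = 0}, t ⊆ T ∧
      (f w ≠ 0 → ‖logDeriv f w - logDeriv f c - ∑ a ∈ T,
        ((analyticOrderNatAt f a : ℝ) : ℂ) * ((w - a)⁻¹ - (c - a)⁻¹)‖ ≤ η) ∧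
      ‖f w‖ ≤ ‖f c‖ * Real.exp ((logDeriv f c * (w - c)).re + ‖w - c‖ ^ 2 / 2 *
        ∑ a ∈ T, (analyticOrderNatAt f a : ℝ) / ‖c - a‖ ^ 2 + η) := by
  classical
  obtain ⟨T, g, L, hgd, hT1, hT2, he, hb⟩ := stage hd hg hc (r := ‖w - c‖ + 1) (by positivity) hη
    (∑ a ∈ t, ‖(a : ℂ) - c‖)
  obtain ⟨hg0, hg1, hg2, hg3⟩ := hb w (by rw [mem_ball_iff_norm]; linarith)
  refine ⟨T.subtype _, fun a ha => ?_, fun hw => ?_, ?_⟩
  · rw [Finset.mem_subtype]
    exact hT2 a a.2 (Finset.single_le_sum (f := fun a : {a : ℂ // f a = 0} => ‖(a : ℂ) - c‖)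
      (fun _ _ => norm_nonneg _) ha)
  · rw [Finset.sum_subtype_of_mem (fun a : ℂ =>
      ((analyticOrderNatAt f a : ℝ) : ℂ) * ((w - a)⁻¹ - (c - a)⁻¹)) hT1,
      logDeriv_stage hgd he hw, logDeriv_stage hgd he hc]
    simp only [mul_sub, Finset.sum_sub_distrib, ofReal_natCast]
    refine le_trans (le_of_eq ?_) hg1
    congr 1
    ring
  · rw [Finset.sum_subtype_of_mem (fun a : ℂ =>
      (analyticOrderNatAt f a : ℝ) / ‖c - a‖ ^ 2) hT1]
    have hca : ∀ a ∈ T, c - a ≠ 0 := fun a ha h => hc (by rw [sub_eq_zero.mp h]; exact hT1 a ha)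
    have h1 : ‖∏ a ∈ T, (w - a) ^ analyticOrderNatAt f a‖ ≤
        ‖∏ a ∈ T, (c - a) ^ analyticOrderNatAt f a‖ * Real.exp (∑ a ∈ T,
          (analyticOrderNatAt f a : ℝ) * (((c - a)⁻¹ * (w - c)).re +
            ‖w - c‖ ^ 2 / 2 / ‖c - a‖ ^ 2)) := by
      rw [norm_prod, norm_prod, Real.exp_sum, ← Finset.prod_mul_distrib]
      refine Finset.prod_le_prod (fun _ _ => norm_nonneg _) fun a ha => ?_
      rw [norm_pow, norm_pow, Real.exp_nat_mul, ← mul_pow]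
      refine pow_le_pow_left₀ (norm_nonneg _) ?_ _
      have h2 : w - a = (c - a) * (1 + (c - a)⁻¹ * (w - c)) := by
        have := hca a ha
        field_simp
        ring
      rw [h2, norm_mul]
      gcongr
      refine (norm_one_add_le _).trans (le_of_eq ?_)
      congr 2
      rw [norm_mul, norm_inv]
      ring
    have h3 : (L w).re ≤ (logDeriv g c * (w - c)).re + η := by
      have := (Complex.re_le_norm _).trans hg3
      rw [sub_re] at this
      linarith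
    have h4 : (logDeriv f c * (w - c)).re = ∑ a ∈ T, (analyticOrderNatAt f a : ℝ) *
        ((c - a)⁻¹ * (w - c)).re + (logDeriv g c * (w - c)).re := by
      rw [logDeriv_stage hgd he hc, add_mul, add_re, Finset.sum_mul, re_sum]
      congr 1
      refine Finset.sum_congr rfl fun a _ => ?_
      rw [mul_assoc, ← ofReal_natCast, re_ofReal_mul]
    rw [he w, he c, hg2, norm_mul, norm_mul, norm_mul, Complex.norm_exp, h4]
    calc _ ≤ (‖∏ a ∈ T, (c - a) ^ analyticOrderNatAt f a‖ * Real.exp (∑ a ∈ T,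
          (analyticOrderNatAt f a : ℝ) * (((c - a)⁻¹ * (w - c)).re +
            ‖w - c‖ ^ 2 / 2 / ‖c - a‖ ^ 2))) * (‖g c‖ *
              Real.exp ((logDeriv g c * (w - c)).re + η)) := by gcongr
      _ = _ := by
        rw [mul_mul_mul_comm, ← Real.exp_add]
        congr 2
        simp only [mul_add, Finset.sum_add_distrib, Finset.mul_sum]
        have : ∀ a ∈ T, (analyticOrderNatAt f a : ℝ) * (‖w - c‖ ^ 2 / 2 / ‖c - a‖ ^ 2) =
            ‖w - c‖ ^ 2 / 2 * ((analyticOrderNatAt f a : ℝ) / ‖c - a‖ ^ 2) :=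
          fun a _ => by ring
        rw [Finset.sum_congr rfl this]
        ring

lemma ne_of_im {Δ : ℝ} {w a : ℂ} (hw : Δ < |w.im|) (ha : |a.im| ≤ Δ) : w - a ≠ 0 := by
  intro h
  rw [sub_eq_zero.mp h] at hw
  linarith

lemma im_inv_diff {Δ : ℝ} {c a : ℂ} (hc : Δ < |c.im|) (ha : |a.im| ≤ Δ) :
    |c.im| * (|c.im| - Δ) / ‖c - a‖ ^ 2 ≤ c.im * ((conj c - a)⁻¹ - (c - a)⁻¹).im := by
  have h1 : 0 < normSq (c - a) := normSq_pos.mpr (ne_of_im hc ha)
  have h2 : 0 < normSq (conj c - a) := normSq_pos.mpr (ne_of_im (by simpa using hc) ha)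
  rw [sub_im, inv_im, inv_im, Complex.sq_norm]
  simp only [sub_im, conj_im]
  have h3 : |c.im * a.im| ≤ |c.im| * Δ := by
    rw [abs_mul]
    gcongr
  have h4 := abs_le.mp h3
  have h5 : |c.im| * |c.im| = c.im * c.im := abs_mul_abs_self _
  have h6 : |c.im| * Δ ≤ |c.im| * |c.im| := by gcongr
  have h7 : 0 ≤ c.im * (-(-c.im - a.im) / normSq (conj c - a)) := by
    rw [← mul_div_assoc]
    exact div_nonneg (by nlinarith) h2.le
  have h8 : |c.im| * (|c.im| - Δ) / normSq (c - a) ≤ c.im * ((c.im - a.im) / normSq (c - a)) := by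
    rw [← mul_div_assoc]
    exact div_le_div_of_nonneg_right (by nlinarith) h1.le
  rw [neg_div (normSq (c - a)), sub_neg_eq_add, mul_add]
  linarith

lemma norm_inv_diff {w c a : ℂ} (h1 : w - a ≠ 0) (h2 : c - a ≠ 0) :
    ‖(w - a)⁻¹ - (c - a)⁻¹‖ = ‖w - c‖ / (‖w - a‖ * ‖c - a‖) := by
  have : (w - a)⁻¹ - (c - a)⁻¹ = -(w - c) / ((w - a) * (c - a)) := by
    field_simp
    ring
  rw [this, norm_div, norm_neg, norm_mul]

lemma inv_mul_le {x y : ℝ} (hx : 0 < x) (hy : 0 < y) : 1 / (x * y) ≤ 1 / x ^ 2 + 1 / y ^ 2 := by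
  have h : 1 / x ^ 2 + 1 / y ^ 2 - 1 / (x * y) = (1 / x - 1 / y) ^ 2 + 1 / (x * y) := by
    field_simp
    ring
  have : 0 < 1 / (x * y) := by positivity
  nlinarith [sq_nonneg (1 / x - 1 / y)]

theorem exists_had {Δ : ℝ} {f : ℂ → ℂ} (hd : Differentiable ℂ f) (hg : Gr f)
    (hz : ∀ a, f a = 0 → |a.im| ≤ Δ) :
    Had Δ f (Subtype.val : {a : ℂ // f a = 0} → ℂ) fun a => (analyticOrderNatAt f a : ℝ) := by
  have hne : ∀ w : ℂ, Δ < |w.im| → f w ≠ 0 := fun w hw h => absurd (hz w h) (not_le.mpr hw)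
  set m : {a : ℂ // f a = 0} → ℝ := fun a => (analyticOrderNatAt f a : ℝ) with hm
  have hm0 : ∀ a, 0 ≤ m a := fun a => Nat.cast_nonneg _
  have hsm : ∀ w : ℂ, Δ < |w.im| → Summable fun i => m i / ‖w - (i : ℂ)‖ ^ 2 := by
    intro c hc
    by_cases hΔ : Δ < 0
    · have : IsEmpty {a : ℂ // f a = 0} :=
        ⟨fun a => absurd ((abs_nonneg _).trans (hz a a.2)) (not_le.mpr hΔ)⟩
      exact Summable.of_finite
    have hc0 : 0 < |c.im| := by linarith
    have hk : 0 < |c.im| * (|c.im| - Δ) := mul_pos hc0 (by linarith)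
    refine summable_of_sum_le (c := |c.im| * (‖logDeriv f (conj c) - logDeriv f c‖ + 1) /
      (|c.im| * (|c.im| - Δ))) (fun i => by have := hm0 i; positivity) fun t => ?_
    obtain ⟨T, hT, h1, -⟩ := stage2 hd hg (hne c hc) (conj c) one_pos t
    have h2 := h1 (hne _ (by simpa using hc))
    refine (Finset.sum_le_sum_of_subset_of_nonneg hT
      (fun i _ _ => by have := hm0 i; positivity)).trans ?_
    rw [le_div_iff₀ hk, Finset.sum_mul]
    set X := ∑ a ∈ T, ((analyticOrderNatAt f a : ℝ) : ℂ) * ((conj c - a)⁻¹ - (c - a)⁻¹) with hX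
    have h3 : ‖X‖ ≤ ‖logDeriv f (conj c) - logDeriv f c‖ + 1 := by
      have := norm_sub_le (logDeriv f (conj c) - logDeriv f c)
        (logDeriv f (conj c) - logDeriv f c - X)
      rw [sub_sub_cancel] at this
      linarith
    calc _ ≤ ∑ a ∈ T, c.im * (((analyticOrderNatAt f a : ℝ) : ℂ) *
          ((conj c - a)⁻¹ - (c - a)⁻¹)).im := by
          refine Finset.sum_le_sum fun a _ => ?_
          rw [im_ofReal_mul, mul_left_comm c.im, div_mul_eq_mul_div, mul_div_assoc]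
          exact mul_le_mul_of_nonneg_left (im_inv_diff hc (hz a a.2)) (hm0 a)
      _ = c.im * X.im := by rw [hX, im_sum, Finset.mul_sum]
      _ ≤ |c.im| * |X.im| := by rw [← abs_mul]; exact le_abs_self _
      _ ≤ _ := by
          gcongr
          exact (abs_im_le_norm X).trans h3
  have hsm' : ∀ w : ℂ, f w ≠ 0 → Summable fun i => m i / ‖w - (i : ℂ)‖ ^ 2 := by
    intro w hw
    obtain ⟨d, hd0, hdw⟩ := Metric.eventually_nhds_iff.mp ((hd w).continuousAt.eventually_ne hw)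
    set c : ℂ := (|Δ| + 1 : ℝ) * I with hc
    have hc1 : Δ < |c.im| := by
      refine lt_of_lt_of_le ?_ (le_abs_self _)
      simp only [hc, mul_I_im, ofReal_re]
      linarith [le_abs_self Δ]
    refine ((hsm c hc1).mul_left ((1 + ‖c - w‖ / d) ^ 2)).of_nonneg_of_le
      (fun i => by have := hm0 i; positivity) fun i => ?_
    have h1 : d ≤ ‖w - i‖ := by
      by_contra hlt
      exact hdw (by rw [dist_comm, dist_eq_norm]; exact lt_of_not_ge hlt) i.2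
    have h2 := norm_add_le (c - w) (w - i)
    rw [sub_add_sub_cancel] at h2
    have h3 : ‖c - w‖ ≤ ‖c - w‖ / d * ‖w - i‖ := by
      rw [div_mul_eq_mul_div, le_div_iff₀ hd0]
      gcongr
    have h4 : 0 < ‖c - i‖ := norm_pos_iff.mpr (ne_of_im hc1 (hz i i.2))
    have h5 : 0 < ‖w - i‖ := hd0.trans_le h1
    have h6 : ‖c - i‖ ^ 2 ≤ ((1 + ‖c - w‖ / d) * ‖w - i‖) ^ 2 := by
      gcongr
      linarith
    rw [← mul_div_assoc, div_le_div_iff₀ (by positivity) (by positivity)]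
    nlinarith [mul_le_mul_of_nonneg_left h6 (hm0 i)]
  have hsub : ∀ w : ℂ, f w ≠ 0 → ∀ i : {a : ℂ // f a = 0}, w - i ≠ 0 :=
    fun w hw i e => hw (by rw [sub_eq_zero.mp e]; exact i.2)
  refine ⟨hm0, fun a => hz a a.2, fun a => a.2, hne, hsm',
    fun w c hw hc => ?_, fun w c hc => ?_⟩
  · have hsum : Summable fun i : {a : ℂ // f a = 0} =>
        (m i : ℂ) * ((w - i)⁻¹ - (c - i)⁻¹) := by
      refine Summable.of_norm_bounded (((hsm' w hw).add (hsm' c hc)).mul_left ‖w - c‖) fun i => ?_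
      have h1 := hsub w hw i
      have h2 := hsub c hc i
      rw [norm_mul, norm_inv_diff h1 h2, Complex.norm_real, Real.norm_of_nonneg (hm0 i)]
      have h3 := inv_mul_le (norm_pos_iff.mpr h1) (norm_pos_iff.mpr h2)
      calc _ = ‖w - c‖ * m i * (1 / (‖w - i‖ * ‖c - i‖)) := by ring
        _ ≤ ‖w - c‖ * m i * (1 / ‖w - i‖ ^ 2 + 1 / ‖c - i‖ ^ 2) := by
            have := hm0 i
            gcongr
        _ = _ := by ring
    rw [hsum.hasSum_iff]
    refine eq_of_forall_dist_le fun ε hε => ?_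
    obtain ⟨t, ht⟩ := eventually_atTop.mp
      (Metric.tendsto_nhds.mp hsum.hasSum (ε / 2) (by linarith))
    obtain ⟨T, hT, h1, -⟩ := stage2 hd hg hc w (η := ε / 2) (by linarith) t
    have h2 := ht T hT
    have h3 := h1 hw
    rw [← dist_eq_norm] at h3
    have h4 := dist_triangle_left (∑' i : {a : ℂ // f a = 0}, (m i : ℂ) * ((w - i)⁻¹ - (c - i)⁻¹))
      (logDeriv f w - logDeriv f c) (∑ i ∈ T, (m i : ℂ) * ((w - i)⁻¹ - (c - i)⁻¹))
    rw [dist_comm] at h3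
    linarith
  · have key : ∀ η : ℝ, 0 < η → ‖f w‖ ≤ ‖f c‖ * Real.exp ((logDeriv f c * (w - c)).re +
        ‖w - c‖ ^ 2 / 2 * ∑' i, m i / ‖c - (i : ℂ)‖ ^ 2 + η) := by
      intro η hη
      obtain ⟨T, -, -, h1⟩ := stage2 hd hg hc w hη ∅
      refine h1.trans ?_
      gcongr
      exact (hsm' c hc).sum_le_tsum T fun i _ => by have := hm0 i; positivity
    have hlim : Tendsto (fun η : ℝ => ‖f c‖ * Real.exp ((logDeriv f c * (w - c)).re +
        ‖w - c‖ ^ 2 / 2 * ∑' i, m i / ‖c - (i : ℂ)‖ ^ 2 + η)) (𝓝[>] 0)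
        (𝓝 (‖f c‖ * Real.exp ((logDeriv f c * (w - c)).re +
          ‖w - c‖ ^ 2 / 2 * ∑' i, m i / ‖c - (i : ℂ)‖ ^ 2 + 0))) :=
      tendsto_nhdsWithin_of_tendsto_nhds (Continuous.tendsto (by fun_prop) 0)
    rw [add_zero] at hlim
    exact ge_of_tendsto hlim (eventually_nhdsWithin_of_forall key)

end Pool.Agent.P.MP_2e654e_an.Den
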