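import Pool.Agent.P.MP_2e654e_an.DenA

set_option autoImplicit false

open Complex Metric Filter Topology Set MeasureTheory

namespace Pool.Agent.P.MP_2e654e_an.Den

/-- The k-th term of the backward heat series. -/
noncomputable def hterm (lam : ℝ) (F : ℂ → ℂ) (z : ℂ) (k : ℕ) : ℂ :=
  (-(lam : ℂ)) ^ k / ((Nat.factorial k : ℕ) : ℂ) * iteratedDeriv (2 * k) F z

/-- The backward heat operator. -/
noncomputable def heat (lam : ℝ) (F : ℂ → ℂ) (z : ℂ) : ℂ := ∑' k : ℕ, hterm lam F z k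

lemma iteratedDeriv_differentiable {F : ℂ → ℂ} (hF : Differentiable ℂ F) (n : ℕ) :
    Differentiable ℂ (iteratedDeriv n F) := by
  have : ContDiff ℂ ⊤ F := hF.contDiff
  exact this.differentiable_iteratedDeriv n (by exact_mod_cast WithTop.coe_lt_top _)

lemma heat_const_mul (lam : ℝ) (F : ℂ → ℂ) (c w : ℂ) :
    heat lam (fun u => c * F u) w = c * heat lam F w := by
  unfold heat hterm
  rw [← tsum_mul_left]
  congr 1
  ext k
  rw [iteratedDeriv_const_mul_field]
  ring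

lemma heat_add (lam : ℝ) {F G : ℂ → ℂ} (hF : Differentiable ℂ F) (hG : Differentiable ℂ G) {w : ℂ}
    (h1 : Summable (hterm lam F w)) (h2 : Summable (hterm lam G w)) :
    heat lam (fun u => F u + G u) w = heat lam F w + heat lam G w := by
  unfold heat
  rw [← h1.tsum_add h2]
  congr 1
  ext k
  unfold hterm
  rw [iteratedDeriv_fun_add hF.contDiff.contDiffAt hG.contDiff.contDiffAt]
  ring

/-- the integrand of the heat kernel representation -/
noncomputable def ker (μ : ℝ) (F : ℂ → ℂ) (z w : ℂ) : ℂ := F w * exp ((μ : ℂ) / 2 * (w - z) ^ 2)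

/-- Gaussian moments -/
noncomputable def mom (μ : ℝ) (n : ℕ) : ℝ := ∫ s : ℝ, s ^ n * Real.exp (-(μ / 2) * s ^ 2)

lemma int_mom {μ : ℝ} (hμ : 0 < μ) (n : ℕ) :
    Integrable fun s : ℝ => s ^ n * Real.exp (-(μ / 2) * s ^ 2) := by
  have := integrable_rpow_mul_exp_neg_mul_sq (b := μ / 2) (by positivity) (s := n)
    (by have : (0 : ℝ) ≤ n := Nat.cast_nonneg n; linarith)
  simpa [Real.rpow_natCast] using this

lemma mom_succ {μ : ℝ} (hμ : 0 < μ) (n : ℕ) : μ * mom μ (n + 1) = n * mom μ (n - 1) := by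
  have h := integral_eq_zero_of_hasDerivAt_of_integrable
    (f := fun s : ℝ => s ^ n * Real.exp (-(μ / 2) * s ^ 2))
    (f' := fun s : ℝ => n * (s ^ (n - 1) * Real.exp (-(μ / 2) * s ^ 2)) -
      μ * (s ^ (n + 1) * Real.exp (-(μ / 2) * s ^ 2))) (fun s => by
      have := (hasDerivAt_pow n s).mul ((hasDerivAt_pow 2 s).const_mul (-(μ / 2))).exp
      refine this.congr_deriv ?_
      push_cast
      ring) (((int_mom hμ _).const_mul _).sub ((int_mom hμ _).const_mul _)) (int_mom hμ n)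
  rw [integral_sub ((int_mom hμ _).const_mul _) ((int_mom hμ _).const_mul _),
    integral_const_mul, integral_const_mul] at h
  unfold mom
  linarith

lemma mom_odd {μ : ℝ} (hμ : 0 < μ) (k : ℕ) : mom μ (2 * k + 1) = 0 := by
  induction k with
  | zero => simpa [hμ.ne'] using mom_succ hμ 0
  | succ k ih =>
    have := mom_succ hμ (2 * k + 2)
    rw [show 2 * k + 2 - 1 = 2 * k + 1 by omega, ih, mul_zero] at this
    exact (mul_eq_zero.mp this).resolve_left hμ.ne'

lemma mom_even {μ : ℝ} (hμ : 0 < μ) (k : ℕ) :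
    mom μ (2 * k) = ((2 * k).factorial : ℝ) / (k.factorial * (2 * μ) ^ k) * mom μ 0 := by
  induction k with
  | zero => simp
  | succ k ih =>
    have h := mom_succ hμ (2 * k + 1)
    rw [show 2 * k + 1 - 1 = 2 * k by omega, ih] at h
    have h2 : mom μ (2 * (k + 1)) = μ⁻¹ * (μ * mom μ (2 * k + 1 + 1)) := by
      rw [← mul_assoc, inv_mul_cancel₀ hμ.ne', one_mul]
      rfl
    rw [h2, h, show 2 * (k + 1) = 2 * k + 1 + 1 by ring, Nat.factorial_succ, Nat.factorial_succ,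
      Nat.factorial_succ k]
    have : (k.factorial : ℝ) ≠ 0 := by exact_mod_cast k.factorial_ne_zero
    push_cast
    field_simp
    ring

lemma mom_pos {μ : ℝ} (hμ : 0 < μ) : 0 < mom μ 0 := by
  unfold mom
  simp only [pow_zero, one_mul]
  rw [integral_gaussian]
  exact Real.sqrt_pos.mpr (by have := Real.pi_pos; positivity)

lemma norm_ker (μ : ℝ) (F : ℂ → ℂ) (z w : ℂ) :
    ‖ker μ F z w‖ = ‖F w‖ * Real.exp (μ / 2 * ((w - z).re ^ 2 - (w - z).im ^ 2)) := by
  unfold ker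
  rw [norm_mul, Complex.norm_exp]
  congr 2
  rw [show (μ : ℂ) / 2 = ((μ / 2 : ℝ) : ℂ) by push_cast; rfl, re_ofReal_mul, sq, mul_re]
  ring

lemma gauss_bound {F : ℂ → ℂ} (hg : Gr F) {μ : ℝ} (hμ : 0 < μ) (ρ : ℝ) :
    ∃ C : ℝ, 0 ≤ C ∧ ∀ ζ z : ℂ, ‖ζ‖ ≤ ρ → ‖z‖ ≤ ρ → ∀ s : ℝ,
      (1 + |s|) * ‖ker μ F z (ζ + s * I)‖ ≤ C * Real.exp (-(μ / 16) * s ^ 2) := by
  obtain ⟨C, hC1, hC⟩ := hg (μ / 16) (by positivity)
  refine ⟨C * Real.exp (4 / μ + 5 * μ * ρ ^ 2), by positivity, fun ζ z hζ hz s => ?_⟩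
  have hρ : 0 ≤ ρ := (norm_nonneg _).trans hζ
  have h1 : ‖ζ + s * I‖ ≤ ρ + |s| := by
    refine (norm_add_le _ _).trans ?_
    simp [hζ]
  have h2 : ‖ζ + s * I‖ ^ 2 ≤ 2 * ρ ^ 2 + 2 * s ^ 2 := by
    have := pow_le_pow_left₀ (norm_nonneg _) h1 2
    nlinarith [sq_nonneg (ρ - |s|), sq_abs s]
  have h3 : ‖ζ - z‖ ≤ 2 * ρ := (norm_sub_le _ _).trans (by linarith)
  have h4 : (ζ - z).re ^ 2 + (ζ - z).im ^ 2 ≤ 4 * ρ ^ 2 := by
    have := pow_le_pow_left₀ (norm_nonneg _) h3 2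
    rw [Complex.sq_norm, normSq_apply] at this
    nlinarith
  have h5 : (ζ + s * I - z).re ^ 2 - (ζ + s * I - z).im ^ 2 ≤ 8 * ρ ^ 2 - s ^ 2 / 2 := by
    have e1 : (ζ + s * I - z).re = (ζ - z).re := by simp
    have e2 : (ζ + s * I - z).im = (ζ - z).im + s := by simp; ring
    rw [e1, e2]
    nlinarith [sq_nonneg (s + 2 * (ζ - z).im), sq_nonneg (ζ - z).re]
  have h6 : 1 + |s| ≤ Real.exp (4 / μ + μ / 16 * s ^ 2) := by
    have h7 : |s| ≤ 4 / μ + μ / 16 * s ^ 2 := by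
      have h8 : 4 / μ + μ / 16 * s ^ 2 - |s| = (μ * |s| - 8) ^ 2 / (16 * μ) := by
        rw [← sq_abs s]
        field_simp
        ring
      have : 0 ≤ (μ * |s| - 8) ^ 2 / (16 * μ) := by positivity
      linarith
    exact le_trans (by linarith) (Real.add_one_le_exp _)
  rw [norm_ker]
  calc _ ≤ Real.exp (4 / μ + μ / 16 * s ^ 2) * (C * Real.exp (μ / 16 * (2 * ρ ^ 2 + 2 * s ^ 2)) *
        Real.exp (μ / 2 * (8 * ρ ^ 2 - s ^ 2 / 2))) := by
        gcongr
        exact (hC _).trans (by gcongr)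
    _ = C * Real.exp (4 / μ + μ / 16 * s ^ 2 + μ / 16 * (2 * ρ ^ 2 + 2 * s ^ 2) +
        μ / 2 * (8 * ρ ^ 2 - s ^ 2 / 2)) := by
        rw [Real.exp_add _ (μ / 2 * _), Real.exp_add _ (μ / 16 * (_ + _))]
        ring
    _ ≤ _ := by
        rw [mul_assoc C, ← Real.exp_add]
        refine mul_le_mul_of_nonneg_left (Real.exp_le_exp.mpr ?_) (by linarith)
        nlinarith [mul_nonneg hμ.le (sq_nonneg ρ)]

lemma gauss_bound' {F : ℂ → ℂ} (hg : Gr F) {μ : ℝ} (hμ : 0 < μ) (ρ : ℝ) :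
    ∃ C : ℝ, 0 ≤ C ∧ ∀ ζ z : ℂ, ‖ζ‖ ≤ ρ → ‖z‖ ≤ ρ → ∀ s : ℝ,
      ‖ker μ F z (ζ + s * I)‖ ≤ C * Real.exp (-(μ / 16) * s ^ 2) := by
  obtain ⟨C, hC0, hC⟩ := gauss_bound hg hμ ρ
  refine ⟨C, hC0, fun ζ z h1 h2 s => le_trans ?_ (hC ζ z h1 h2 s)⟩
  nlinarith [mul_nonneg (abs_nonneg s) (norm_nonneg (ker μ F z (ζ + s * I)))]

lemma ker_diff {F : ℂ → ℂ} (hd : Differentiable ℂ F) (μ : ℝ) (z : ℂ) :
    Differentiable ℂ (ker μ F z) := by
  unfold ker
  fun_prop

lemma ker_cont {F : ℂ → ℂ} (hd : Differentiable ℂ F) (μ : ℝ) (z ζ : ℂ) :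
    Continuous fun s : ℝ => ker μ F z (ζ + s * I) :=
  (ker_diff hd μ z).continuous.comp (by fun_prop)

lemma ker_int {F : ℂ → ℂ} (hd : Differentiable ℂ F) (hg : Gr F) {μ : ℝ} (hμ : 0 < μ) (z ζ : ℂ) :
    Integrable fun s : ℝ => ker μ F z (ζ + s * I) := by
  obtain ⟨C, -, hC⟩ := gauss_bound' hg hμ (‖z‖ + ‖ζ‖)
  exact ((integrable_exp_neg_mul_sq (b := μ / 16) (by positivity)).const_mul C).mono'
    (ker_cont hd μ z ζ).aestronglyMeasurable (Eventually.of_forall
      (hC ζ z (by linarith [norm_nonneg z]) (by linarith [norm_nonneg ζ])))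

lemma ker_shift {F : ℂ → ℂ} (hd : Differentiable ℂ F) (hg : Gr F) {μ : ℝ} (hμ : 0 < μ)
    (z ζ ζ' : ℂ) : ∫ s : ℝ, ker μ F z (ζ + s * I) = ∫ s : ℝ, ker μ F z (ζ' + s * I) := by
  obtain ⟨P, hP⟩ := (ker_diff hd μ z).isExactOn_univ
  have hP' : ∀ w, HasDerivAt P (ker μ F z w) w := fun w => hP w (mem_univ w)
  have hPc : Continuous P := continuous_iff_continuousAt.mpr fun w => (hP' w).continuousAt
  obtain ⟨C, -, hC⟩ := gauss_bound' hg hμ (‖z‖ + ‖ζ‖ + ‖ζ'‖)
  have hl : ∀ (c : ℂ) (s : ℝ), HasDerivAt (fun s : ℝ => P (c + s * I))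
      (ker μ F z (c + s * I) * I) s := fun c s => by
    have h1 : HasDerivAt (fun w : ℂ => c + w * I) I s := by
      simpa using ((hasDerivAt_id (s : ℂ)).mul_const I).const_add c
    exact ((hP' _).comp (s : ℂ) h1).comp_ofReal
  have i1 := (ker_int hd hg hμ z ζ).mul_const I
  have i2 := (ker_int hd hg hμ z ζ').mul_const I
  have h := integral_eq_zero_of_hasDerivAt_of_integrable (fun s => (hl ζ s).sub (hl ζ' s))
    (i1.sub i2) (by
      refine (((integrable_exp_neg_mul_sq (b := μ / 16) (by positivity)).const_mul C).mul_const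
        ‖ζ - ζ'‖).mono' (Continuous.aestronglyMeasurable (by fun_prop))
        (Eventually.of_forall fun s => ?_)
      have n1 := norm_nonneg z
      have n2 := norm_nonneg ζ
      have n3 := norm_nonneg ζ'
      exact (convex_closedBall (0 : ℂ) (‖z‖ + ‖ζ‖ + ‖ζ'‖)).norm_image_sub_le_of_norm_hasDerivWithin_le
        (f := fun w => P (w + s * I)) (f' := fun w => ker μ F z (w + s * I))
        (fun w _ => ((hP' _).comp_add_const w _).hasDerivWithinAt)
        (fun w hw => hC w z (mem_closedBall_zero_iff.mp hw) (by linarith) s)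
        (mem_closedBall_zero_iff.mpr (by linarith)) (mem_closedBall_zero_iff.mpr (by linarith)))
  rw [integral_sub i1 i2, integral_mul_const, integral_mul_const, sub_eq_zero] at h
  exact mul_right_cancel₀ I_ne_zero h

lemma ker_self (μ : ℝ) (F : ℂ → ℂ) (z : ℂ) (s : ℝ) :
    ker μ F z (z + s * I) = F (z + s * I) * (Real.exp (-(μ / 2) * s ^ 2) : ℝ) := by
  unfold ker
  rw [add_sub_cancel_left, mul_pow, I_sq]
  push_cast
  congr 2
  ring

lemma hasSum_heat {F : ℂ → ℂ} (hd : Differentiable ℂ F) (hg : Gr F) {lam μ : ℝ} (hμ : 0 < μ)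
    (hl : 2 * lam * μ = 1) (z : ℂ) : HasSum (fun k : ℕ => hterm lam F z k * (mom μ 0 : ℝ))
      (∫ s : ℝ, ker μ F z (z + s * I)) := by
  obtain ⟨C, hC1, hC⟩ := hg (μ / 32) (by positivity)
  set C' : ℝ := C * Real.exp (μ / 16 * (‖z‖ + 1) ^ 2) with hC'
  have h1 := hasSum_integral_of_dominated_convergence (μ := volume)
    (F := fun (n : ℕ) (s : ℝ) => ((n.factorial : ℂ)⁻¹ * I ^ n * iteratedDeriv n F z) *
      ((s ^ n * Real.exp (-(μ / 2) * s ^ 2) : ℝ) : ℂ))
    (f := fun s => ker μ F z (z + s * I))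
    (fun n s => (1 / 2 : ℝ) ^ n * (C' * Real.exp (-(μ / 4) * s ^ 2)))
    (fun n => Continuous.aestronglyMeasurable (by fun_prop))
    (fun n => Eventually.of_forall fun s => ?_)
    (Eventually.of_forall fun s => summable_geometric_two.mul_right _)
    (by
      simp only [tsum_mul_right, tsum_geometric_two]
      exact ((integrable_exp_neg_mul_sq (b := μ / 4) (by positivity)).const_mul C').const_mul 2)
    (Eventually.of_forall fun s => ?_)
  · simp only [integral_const_mul, integral_complex_ofReal] at h1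
    have h2 : HasSum (fun k : ℕ => hterm lam F z k * (mom μ 0 : ℝ))
        (∫ s : ℝ, ker μ F z (z + s * I)) := by
      rw [← (mul_right_injective₀ (two_ne_zero' ℕ)).hasSum_iff] at h1
      · refine h1.congr_fun fun k => ?_
        have e := mom_even hμ k
        have hlam : (lam : ℂ) = (2 * (μ : ℂ))⁻¹ := by
          refine eq_inv_of_mul_eq_one_left ?_
          have : ((2 * lam * μ : ℝ) : ℂ) = 1 := by rw [hl]; simp
          push_cast at this
          linear_combination this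
        unfold mom at e
        simp only [Function.comp, hterm]
        rw [e, pow_mul, I_sq, hlam, neg_pow ((2 * (μ : ℂ))⁻¹), inv_pow]
        have : ((2 * k).factorial : ℂ) ≠ 0 := by exact_mod_cast (2 * k).factorial_ne_zero
        unfold mom
        push_cast
        field_simp
      · intro n hn
        obtain ⟨k, rfl | rfl⟩ := Nat.even_or_odd' n
        · exact absurd ⟨k, rfl⟩ hn
        · have e := mom_odd hμ k
          unfold mom at e
          rw [e]
          simp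
    exact h2
  · have hR : 0 < 2 * |s| + 1 := by positivity
    have hest := Complex.norm_iteratedDeriv_le_of_forall_mem_sphere_norm_le (f := F) (c := z)
      (C := C' * Real.exp (μ / 4 * s ^ 2)) n hR hd.diffContOnCl (fun w hw => by
        refine (hC w).trans ?_
        rw [hC', mul_assoc, ← Real.exp_add]
        gcongr
        have h3 := norm_add_le (w - z) z
        rw [sub_add_cancel, mem_sphere_iff_norm.mp hw] at h3
        have h4 := pow_le_pow_left₀ (norm_nonneg _) h3 2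
        have h5 : ‖w‖ ^ 2 ≤ 2 * (‖z‖ + 1) ^ 2 + 8 * s ^ 2 := by
          nlinarith [sq_nonneg (2 * |s| - (‖z‖ + 1)), sq_abs s]
        nlinarith)
    have hf : (0 : ℝ) < n.factorial := by exact_mod_cast n.factorial_pos
    have h6 : |s| ^ n ≤ (1 / 2) ^ n * (2 * |s| + 1) ^ n := by
      rw [← mul_pow]
      exact pow_le_pow_left₀ (abs_nonneg s) (by linarith) n
    rw [norm_mul, norm_mul, norm_mul, norm_inv, norm_pow, norm_I, one_pow, mul_one,
      Complex.norm_natCast, Complex.norm_real, norm_mul, norm_pow, Real.norm_eq_abs,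
      Real.norm_of_nonneg (Real.exp_pos _).le]
    calc _ ≤ (n.factorial : ℝ)⁻¹ * (n.factorial * (C' * Real.exp (μ / 4 * s ^ 2)) /
          (2 * |s| + 1) ^ n) * ((1 / 2) ^ n * (2 * |s| + 1) ^ n *
            Real.exp (-(μ / 2) * s ^ 2)) := by gcongr
      _ = (1 / 2) ^ n * (C' * (Real.exp (μ / 4 * s ^ 2) * Real.exp (-(μ / 2) * s ^ 2))) := by
          field_simp
      _ = _ := by
          rw [← Real.exp_add]
          congr 3
          ring
  · have h7 := (Complex.hasSum_taylorSeries_of_entire hd z (z + s * I)).mul_right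
      ((Real.exp (-(μ / 2) * s ^ 2) : ℝ) : ℂ)
    rw [← ker_self] at h7
    refine h7.congr_fun fun n => ?_
    rw [add_sub_cancel_left, smul_eq_mul, smul_eq_mul, mul_pow, ofReal_mul, ofReal_pow]
    ring

lemma heat_eq_self {F : ℂ → ℂ} (hd : Differentiable ℂ F) (hg : Gr F) {lam μ : ℝ} (hμ : 0 < μ)
    (hl : 2 * lam * μ = 1) (z : ℂ) :
    heat lam F z * (mom μ 0 : ℝ) = ∫ s : ℝ, ker μ F z (z + s * I) := by
  rw [← (hasSum_heat hd hg hμ hl z).tsum_eq, tsum_mul_right]
  rfl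

lemma mom_ne {μ : ℝ} (hμ : 0 < μ) : ((mom μ 0 : ℝ) : ℂ) ≠ 0 := by exact_mod_cast (mom_pos hμ).ne'

lemma two_mul_mu {lam : ℝ} (hlam : 0 < lam) : 2 * lam * (1 / (2 * lam)) = 1 := by field_simp

lemma summable_hterm {F : ℂ → ℂ} (hd : Differentiable ℂ F) (hg : Gr F) {lam : ℝ} (hlam : 0 < lam)
    (z : ℂ) : Summable (hterm lam F z) :=
  (summable_mul_right_iff (mom_ne (μ := 1 / (2 * lam)) (by positivity))).mp
    (hasSum_heat hd hg (by positivity) (two_mul_mu hlam) z).summable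

/-- the heat kernel representation along an arbitrary vertical line -/
lemma heat_eq {F : ℂ → ℂ} (hd : Differentiable ℂ F) (hg : Gr F) {lam μ : ℝ} (hμ : 0 < μ)
    (hl : 2 * lam * μ = 1) (z ζ : ℂ) :
    heat lam F z * (mom μ 0 : ℝ) = ∫ s : ℝ, ker μ F z (ζ + s * I) :=
  (heat_eq_self hd hg hμ hl z).trans (ker_shift hd hg hμ z z ζ)

lemma heat_deriv {F : ℂ → ℂ} (hd : Differentiable ℂ F) (hg : Gr F) {lam μ : ℝ} (hμ : 0 < μ)
    (hl : 2 * lam * μ = 1) (z ζ : ℂ) :
    Integrable (fun s : ℝ => -μ * (ζ + s * I - z) * ker μ F z (ζ + s * I)) ∧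
    HasDerivAt (heat lam F) ((∫ s : ℝ, -μ * (ζ + s * I - z) * ker μ F z (ζ + s * I)) /
      (mom μ 0 : ℝ)) z := by
  set ρ := ‖z‖ + 1 + ‖ζ‖ with hρ
  obtain ⟨C, hC0, hC⟩ := gauss_bound hg hμ ρ
  have h := hasDerivAt_integral_of_dominated_loc_of_deriv_le (μ := volume)
    (F := fun (x : ℂ) (s : ℝ) => ker μ F x (ζ + s * I))
    (F' := fun (x : ℂ) (s : ℝ) => -μ * (ζ + s * I - x) * ker μ F x (ζ + s * I))
    (bound := fun s => μ * (2 * ρ) * (C * Real.exp (-(μ / 16) * s ^ 2)))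
    (ball_mem_nhds z one_pos)
    (Eventually.of_forall fun x => (ker_cont hd μ x ζ).aestronglyMeasurable)
    (ker_int hd hg hμ z ζ)
    (Continuous.aestronglyMeasurable (Continuous.mul (by fun_prop) (ker_cont hd μ z ζ)))
    (Eventually.of_forall fun s x hx => ?_)
    (((integrable_exp_neg_mul_sq (b := μ / 16) (by positivity)).const_mul C).const_mul _)
    (Eventually.of_forall fun s x _ => ?_)
  · refine ⟨h.1, ?_⟩
    have hJ : ((mom μ 0 : ℝ) : ℂ) ≠ 0 := by exact_mod_cast (mom_pos hμ).ne'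
    have e : heat lam F = fun x => (∫ s : ℝ, ker μ F x (ζ + s * I)) / (mom μ 0 : ℝ) := by
      ext x
      rw [← heat_eq hd hg hμ hl x ζ, mul_div_cancel_right₀ _ hJ]
    rw [e]
    exact h.2.div_const _
  · have n1 := norm_nonneg z
    have n2 := norm_nonneg ζ
    have h1 : ‖x‖ ≤ ρ := by
      have := norm_add_le (x - z) z
      rw [sub_add_cancel] at this
      linarith [mem_ball_iff_norm.mp hx]
    have h2 : ‖ζ + s * I - x‖ ≤ 2 * ρ * (1 + |s|) := by
      have h3 := norm_sub_le (ζ + s * I) x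
      have h4 := norm_add_le ζ (s * I)
      have h5 : ‖(s : ℂ) * I‖ = |s| := by simp
      nlinarith [abs_nonneg s]
    rw [norm_mul, norm_mul, norm_neg, Complex.norm_real, Real.norm_of_nonneg hμ.le]
    calc _ ≤ μ * (2 * ρ * (1 + |s|)) * ‖ker μ F x (ζ + s * I)‖ := by gcongr
      _ = μ * (2 * ρ) * ((1 + |s|) * ‖ker μ F x (ζ + s * I)‖) := by ring
      _ ≤ _ := mul_le_mul_of_nonneg_left (hC ζ x (by linarith) h1 s) (by positivity)
  · unfold ker
    have h1 := ((((hasDerivAt_id x).const_sub (ζ + s * I)).pow 2).const_mul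
      ((μ : ℂ) / 2)).cexp.const_mul (F (ζ + s * I))
    refine h1.congr_deriv ?_
    simp
    ring

end Pool.Agent.P.MP_2e654e_an.Den
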