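import Pool.Agent.P.MP_2e654e_an.DenB

set_option autoImplicit false

open Complex Metric Filter Topology Set ComplexConjugate

namespace Pool.Agent.P.MP_2e654e_an.Den

lemma conj_of_real' {f : ℂ → ℂ} (hd : Differentiable ℂ f) (t : ℝ)
    (hr : ∀ x : ℝ, x ≠ t → (f x).im = 0) (w : ℂ) : f (conj w) = conj (f w) := by
  have h1 : Differentiable ℂ (conj ∘ f ∘ conj) := fun x => by
    simpa using (hd (conj x)).conj_conj
  have h2 : f = conj ∘ f ∘ conj := by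
    refine AnalyticOnNhd.eq_of_frequently_eq (z₀ := t) (fun z _ => hd.analyticAt z)
      (fun z _ => h1.analyticAt z) ?_
    have h3 : Tendsto (fun x : ℝ => (x : ℂ)) (𝓝[≠] t) (𝓝[≠] t) := by
      refine tendsto_nhdsWithin_iff.mpr ⟨?_, ?_⟩
      · exact (continuous_ofReal.tendsto t).mono_left nhdsWithin_le_nhds
      · exact eventually_nhdsWithin_of_forall fun x hx => by simpa using hx
    refine h3.frequently (Eventually.frequently (eventually_nhdsWithin_of_forall fun x hx => ?_))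
    simp only [Function.comp, conj_ofReal]
    exact (conj_eq_iff_im.mpr (hr x hx)).symm
  simpa using congrFun h2 (conj w)

lemma conj_of_real {f : ℂ → ℂ} (hd : Differentiable ℂ f) (hr : ∀ x : ℝ, (f x).im = 0) (w : ℂ) :
    f (conj w) = conj (f w) := conj_of_real' hd 0 (fun x _ => hr x) w

lemma real_of_conj {f : ℂ → ℂ} (hr : ∀ w, f (conj w) = conj (f w)) (x : ℝ) : (f x).im = 0 :=
  conj_eq_iff_im.mp (by rw [← hr, conj_ofReal])

lemma deriv_conj {f : ℂ → ℂ} (hr : ∀ w, f (conj w) = conj (f w)) (w : ℂ) :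
    deriv f (conj w) = conj (deriv f w) := by
  have h2 : conj ∘ f ∘ conj = f := by
    ext x
    simp [hr]
  have h3 := congrFun (deriv_conj_conj (f := f)) (conj w)
  rw [h2] at h3
  simpa using h3

lemma logDeriv_conj {f : ℂ → ℂ} (hr : ∀ w, f (conj w) = conj (f w)) (w : ℂ) :
    logDeriv f (conj w) = conj (logDeriv f w) := by
  rw [logDeriv_apply, logDeriv_apply, deriv_conj hr, hr, map_div₀]

/-- the symmetric kernel -/
noncomputable def cc (w a : ℂ) : ℂ := ((w - a) * (conj w - a))⁻¹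

lemma sq_le_of {x y : ℂ} {k : ℝ} (hk : 1 ≤ k) (h1 : x.re = y.re) (h2 : x.im ^ 2 ≤ k * y.im ^ 2) :
    ‖x‖ ^ 2 ≤ k * ‖y‖ ^ 2 := by
  rw [Complex.sq_norm, Complex.sq_norm, normSq_apply, normSq_apply, h1]
  nlinarith [mul_self_nonneg y.re]

lemma norm_cc {w a : ℂ} {k : ℝ} (hk : 1 ≤ k) (h0 : 0 < w.im - a.im)
    (h : w.im - a.im ≤ k * (w.im + a.im)) : ‖cc w a‖ ≤ k / ‖w - a‖ ^ 2 := by
  have h1 : ‖w - a‖ ≤ k * ‖conj w - a‖ := by
    refine (pow_le_pow_iff_left₀ (norm_nonneg _) (by positivity) two_ne_zero).mp ?_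
    rw [mul_pow]
    refine sq_le_of (by nlinarith) (by simp) ?_
    simp only [sub_im, conj_im]
    nlinarith
  have h2 : 0 < ‖w - a‖ := h0.trans_le ((le_abs_self _).trans (abs_im_le_norm (w - a)))
  have h3 : 0 < ‖conj w - a‖ := by
    by_contra h
    nlinarith [norm_nonneg (conj w - a)]
  unfold cc
  rw [norm_inv, norm_mul, inv_eq_one_div, div_le_div_iff₀ (by positivity) (by positivity)]
  nlinarith

lemma conj_sq_le {w a : ℂ} {k : ℝ} (hk : 1 ≤ k) (h0 : 0 < w.im + a.im)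
    (h : w.im + a.im ≤ k * (w.im - a.im)) :
    0 < normSq (conj w - a) ∧
      normSq (conj w - a) ≤ k * ((w.re - a.re) ^ 2 + w.im ^ 2 - a.im ^ 2) := by
  rw [normSq_apply]
  simp only [sub_re, conj_re, sub_im, conj_im]
  constructor <;> nlinarith [mul_self_nonneg (w.re - a.re)]

lemma re_cc {w a : ℂ} {k : ℝ} (h1 : 0 < normSq (conj w - a))
    (h2 : normSq (conj w - a) ≤ k * ((w.re - a.re) ^ 2 + w.im ^ 2 - a.im ^ 2)) :
    1 / ‖w - a‖ ^ 2 ≤ k * (cc w a).re := by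
  have h3 : ((w - a) * (conj w - a)).re = (w.re - a.re) ^ 2 + w.im ^ 2 - a.im ^ 2 := by
    simp
    ring
  unfold cc
  rw [inv_re, h3, map_mul, Complex.sq_norm, ← mul_div_assoc, mul_comm (normSq (w - a)),
    ← div_div]
  exact div_le_div_of_nonneg_right ((one_le_div h1).mpr h2) (normSq_nonneg _)

lemma im_term {Δ : ℝ} {w1 w a : ℂ} (hΔ : 0 < Δ) (ha : |a.im| ≤ Δ) (h1 : 3 * Δ ≤ w1.im)
    (h2 : 3 * Δ ≤ w.im) (hre : w.re = w1.re) :
    (w.im - 3 * Δ) / 2 / (‖w1 - a‖ ^ 2 * ‖w - a‖ ^ 2) ≤ -(cc w1 a * (w - a)⁻¹).im := by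
  obtain ⟨ha1, ha2⟩ := abs_le.mp ha
  obtain ⟨h3, h4⟩ := conj_sq_le (w := w1) (a := a) (k := 2) (by norm_num) (by linarith)
    (by linarith)
  have h5 : ((w1 - a) * (conj w1 - a) * (w - a)).im = (w1.re - a.re) ^ 2 * (w.im - 3 * a.im) +
      (w1.im ^ 2 - a.im ^ 2) * (w.im - a.im) := by
    simp [hre]
    ring
  unfold cc
  rw [← mul_inv, inv_im, h5, neg_div, neg_neg, map_mul, map_mul, Complex.sq_norm, Complex.sq_norm,
    mul_right_comm, mul_comm _ (normSq (conj w1 - a)), ← div_div _ (normSq (conj w1 - a))]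
  refine div_le_div_of_nonneg_right ?_ (mul_nonneg (normSq_nonneg _) (normSq_nonneg _))
  rw [le_div_iff₀ h3]
  have h6 : 0 ≤ w1.im ^ 2 - a.im ^ 2 := by nlinarith
  nlinarith [mul_le_mul_of_nonneg_left h4 (by linarith : 0 ≤ (w.im - 3 * Δ) / 2),
    mul_nonneg (sq_nonneg (w1.re - a.re)) (by linarith : 0 ≤ Δ - a.im),
    mul_nonneg h6 (by linarith : 0 ≤ 3 * Δ - a.im)]

variable {Δ : ℝ} {f : ℂ → ℂ} {ι : Type} {z : ι → ℂ} {m : ι → ℝ}

/-- sum of the inverse squares of the distances to the zeros -/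
noncomputable def SS (z : ι → ℂ) (m : ι → ℝ) (w : ℂ) : ℝ := ∑' i, m i / ‖w - z i‖ ^ 2

/-- sum of the inverse fourth powers of the distances to the zeros -/
noncomputable def BB (z : ι → ℂ) (m : ι → ℝ) (w : ℂ) : ℝ := ∑' i, m i / ‖w - z i‖ ^ 4

/-- the cofactor in the factorisation of the phase -/
noncomputable def HH (z : ι → ℂ) (m : ι → ℝ) (w1 w : ℂ) : ℂ :=
  ∑' i, m i * (cc w1 (z i) * (w - z i)⁻¹)

/-- normalised imaginary part of the logarithmic derivative -/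
noncomputable def WW (f : ℂ → ℂ) (w : ℂ) : ℝ := -(logDeriv f w).im / w.im

lemma Had.dist (h : Had Δ f z m) (w : ℂ) (i : ι) : w.im - Δ ≤ ‖w - z i‖ := by
  have := (abs_le.mp (h.zi i)).2
  have h2 := (le_abs_self _).trans (abs_im_le_norm (w - z i))
  rw [sub_im] at h2
  linarith

lemma Had.ne' (h : Had Δ f z m) {w : ℂ} (hw : Δ < w.im) : f w ≠ 0 :=
  h.ne w (hw.trans_le (le_abs_self _))

lemma Had.sS' (h : Had Δ f z m) {w : ℂ} (hw : f w ≠ 0) :
    HasSum (fun i => m i / ‖w - z i‖ ^ 2) (SS z m w) := (h.sm' w hw).hasSum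

lemma Had.sS (h : Had Δ f z m) {w : ℂ} (hw : Δ < w.im) :
    HasSum (fun i => m i / ‖w - z i‖ ^ 2) (SS z m w) := h.sS' (h.ne' hw)

lemma Had.four (h : Had Δ f z m) {w : ℂ} (hw : Δ < w.im) (i : ι) :
    m i / ‖w - z i‖ ^ 4 ≤ 1 / (w.im - Δ) ^ 2 * (m i / ‖w - z i‖ ^ 2) := by
  have h1 := h.dist w i
  have h2 := h.m0 i
  have h3 : 0 < w.im - Δ := by linarith
  calc _ = 1 / ‖w - z i‖ ^ 2 * (m i / ‖w - z i‖ ^ 2) := by ring
    _ ≤ _ := by gcongr

lemma Had.sB (h : Had Δ f z m) {w : ℂ} (hw : Δ < w.im) :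
    HasSum (fun i => m i / ‖w - z i‖ ^ 4) (BB z m w) :=
  (((h.sS hw).summable.mul_left _).of_nonneg_of_le
    (fun i => by have := h.m0 i; positivity) (h.four hw)).hasSum

lemma Had.B0 (h : Had Δ f z m) (w : ℂ) : 0 ≤ BB z m w :=
  tsum_nonneg fun i => by have := h.m0 i; positivity

lemma Had.S0 (h : Had Δ f z m) (w : ℂ) : 0 ≤ SS z m w :=
  tsum_nonneg fun i => by have := h.m0 i; positivity

lemma Had.sW (h : Had Δ f z m) (hr : ∀ w, f (conj w) = conj (f w)) {w : ℂ} (h1 : f w ≠ 0)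
    (hw : 0 < w.im) : HasSum (fun i => m i * cc w (z i)) (WW f w : ℝ) := by
  have h2 : f (conj w) ≠ 0 := by simpa [hr] using h1
  have h3 := (h.hs' w (conj w) h1 h2).mul_left (conj w - w)⁻¹
  have h4 : conj w - w = -(2 * w.im * I) := by
    rw [← neg_sub, sub_conj]
    push_cast
    ring
  have h5 : (w.im : ℂ) ≠ 0 := by exact_mod_cast hw.ne'
  have h6 : conj w - w ≠ 0 := by
    rw [h4]
    simpa using h5
  have e : (conj w - w)⁻¹ * (logDeriv f w - logDeriv f (conj w)) = (WW f w : ℝ) := by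
    rw [logDeriv_conj hr, sub_conj, h4, WW]
    push_cast
    field_simp
  rw [e] at h3
  refine h3.congr_fun fun i => ?_
  have h7 := h.sub_ne h1 i
  have h8 := h.sub_ne h2 i
  unfold cc
  field_simp
  ring

lemma Had.S_le' (h : Had Δ f z m) (hr : ∀ w, f (conj w) = conj (f w)) {w : ℂ} {k : ℝ}
    (h0 : f w ≠ 0) (hw : 0 < w.im) (hk : ∀ i, normSq (conj w - z i) ≤
      k * ((w.re - (z i).re) ^ 2 + w.im ^ 2 - (z i).im ^ 2)) : SS z m w ≤ k * WW f w := by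
  have h1 := (hasSum_re (h.sW hr h0 hw)).mul_left k
  rw [ofReal_re] at h1
  refine hasSum_le (fun i => ?_) (h.sS' h0) h1
  rw [re_ofReal_mul, mul_left_comm, div_eq_mul_one_div]
  exact mul_le_mul_of_nonneg_left (re_cc (normSq_pos.mpr
    (h.sub_ne (by simpa [hr] using h0) i)) (hk i)) (h.m0 i)

lemma Had.S_le (h : Had Δ f z m) (hΔ : 0 < Δ) (hr : ∀ w, f (conj w) = conj (f w)) {w : ℂ}
    {k : ℝ} (hk : 1 ≤ k) (hw : Δ < w.im) (hw2 : (k + 1) * Δ ≤ (k - 1) * w.im) :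
    SS z m w ≤ k * WW f w :=
  h.S_le' hr (h.ne' hw) (hΔ.trans hw) fun i => by
    obtain ⟨h2, h3⟩ := abs_le.mp (h.zi i)
    exact (conj_sq_le hk (by linarith) (by nlinarith)).2

lemma Had.W_le (h : Had Δ f z m) (hΔ : 0 < Δ) (hr : ∀ w, f (conj w) = conj (f w)) {w : ℂ}
    (hw : 2 * Δ ≤ w.im) : WW f w ≤ 3 * SS z m w := by
  have h1 := (h.sW hr (w := w) (h.ne' (by linarith)) (by linarith)).norm_le_of_bounded
    ((h.sS (w := w) (by linarith)).mul_left 3) (fun i => by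
      obtain ⟨h2, h3⟩ := abs_le.mp (h.zi i)
      rw [norm_mul, Complex.norm_real, Real.norm_of_nonneg (h.m0 i), ← mul_div_assoc, mul_comm 3,
        mul_div_assoc]
      exact mul_le_mul_of_nonneg_left (norm_cc (by norm_num) (by linarith) (by linarith)) (h.m0 i))
  rw [Complex.norm_real] at h1
  exact (le_abs_self _).trans h1

lemma Had.Hterm (h : Had Δ f z m) (hΔ : 0 < Δ) {w1 w : ℂ} (h1 : 6 * Δ ≤ w1.im) {d : ℝ}
    (h7 : 0 < d) (hw : ∀ i, d ≤ ‖w - z i‖) (i : ι) :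
    ‖m i * (cc w1 (z i) * (w - z i)⁻¹)‖ ≤ 7 / 5 / d * (m i / ‖w1 - z i‖ ^ 2) := by
  obtain ⟨h2, h3⟩ := abs_le.mp (h.zi i)
  have h4 := norm_cc (w := w1) (a := z i) (k := 7 / 5) (by norm_num) (by linarith) (by linarith)
  have h5 := hw i
  have h6 := h.m0 i
  rw [norm_mul, norm_mul, norm_inv, Complex.norm_real, Real.norm_of_nonneg h6]
  calc _ ≤ m i * (7 / 5 / ‖w1 - z i‖ ^ 2 * d⁻¹) := by gcongr
    _ = _ := by ring

lemma Had.sH' (h : Had Δ f z m) (hΔ : 0 < Δ) {w1 w : ℂ} (h1 : 6 * Δ ≤ w1.im) {d : ℝ}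
    (h7 : 0 < d) (hw : ∀ i, d ≤ ‖w - z i‖) :
    HasSum (fun i => m i * (cc w1 (z i) * (w - z i)⁻¹)) (HH z m w1 w) :=
  (((h.sS (w := w1) (by linarith)).summable.mul_left _).of_norm_bounded
    (h.Hterm hΔ h1 h7 hw)).hasSum

lemma Had.sH (h : Had Δ f z m) (hΔ : 0 < Δ) {w1 w : ℂ} (h1 : 6 * Δ ≤ w1.im) (hw : Δ < w.im) :
    HasSum (fun i => m i * (cc w1 (z i) * (w - z i)⁻¹)) (HH z m w1 w) :=
  h.sH' hΔ h1 (sub_pos.mpr hw) (h.dist w)

lemma Had.H_norm (h : Had Δ f z m) (hΔ : 0 < Δ) {w1 w : ℂ} (h1 : 6 * Δ ≤ w1.im) {d : ℝ}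
    (h7 : 0 < d) (hw : ∀ i, d ≤ ‖w - z i‖) : ‖HH z m w1 w‖ ≤ 7 / 5 / d * SS z m w1 :=
  (h.sH' hΔ h1 h7 hw).norm_le_of_bounded ((h.sS (w := w1) (by linarith)).mul_left _)
    (h.Hterm hΔ h1 h7 hw)

lemma Had.fac' (h : Had Δ f z m) (hΔ : 0 < Δ) (hr : ∀ w, f (conj w) = conj (f w)) {w1 w : ℂ}
    (h1 : 6 * Δ ≤ w1.im) (h3 : f w ≠ 0) {d : ℝ} (hd : 0 < d) (hw : ∀ i, d ≤ ‖w - z i‖) :
    logDeriv f w - logDeriv f w1 + (WW f w1 : ℝ) * (w - w1) =
      (w - w1) * (w - conj w1) * HH z m w1 w := by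
  have h2 : f w1 ≠ 0 := h.ne' (by linarith)
  refine ((h.hs' w w1 h3 h2).add ((h.sW hr h2 (by linarith)).mul_right (w - w1))).unique
    (((h.sH' hΔ h1 hd hw).mul_left _).congr_fun fun i => ?_)
  have h7 := h.sub_ne h2 i
  have h8 := h.sub_ne (w := conj w1) (by simpa [hr] using h2) i
  have h9 := h.sub_ne h3 i
  unfold cc
  field_simp
  ring

lemma Had.fac (h : Had Δ f z m) (hΔ : 0 < Δ) (hr : ∀ w, f (conj w) = conj (f w)) {w1 w : ℂ}
    (h1 : 6 * Δ ≤ w1.im) (hw : Δ < w.im) :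
    logDeriv f w - logDeriv f w1 + (WW f w1 : ℝ) * (w - w1) =
      (w - w1) * (w - conj w1) * HH z m w1 w :=
  h.fac' hΔ hr h1 (h.ne' hw) (sub_pos.mpr hw) (h.dist w)

lemma Had.imH (h : Had Δ f z m) (hΔ : 0 < Δ) {w1 w : ℂ} (h1 : 6 * Δ ≤ w1.im) (hw : 3 * Δ ≤ w.im)
    (hre : w.re = w1.re) {L : ℝ}
    (hL : ∀ i, L * ‖w - z i‖ ^ 2 ≤ (w.im - 3 * Δ) / 2 * ‖w1 - z i‖ ^ 2) :
    L * BB z m w1 ≤ -(HH z m w1 w).im := by
  refine hasSum_le (fun i => ?_) ((h.sB (w := w1) (by linarith)).mul_left L)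
    (hasSum_im (h.sH hΔ h1 (w := w) (by linarith))).neg
  have h2 := im_term hΔ (h.zi i) (w1 := w1) (by linarith) hw hre
  have h3 : 0 < ‖w1 - z i‖ := by linarith [h.dist w1 i]
  have h4 : 0 < ‖w - z i‖ := by linarith [h.dist w i]
  rw [im_ofReal_mul, ← mul_neg, ← mul_div_assoc, mul_comm L, mul_div_assoc]
  refine mul_le_mul_of_nonneg_left (le_trans ?_ h2) (h.m0 i)
  rw [div_le_div_iff₀ (by positivity) (by positivity)]
  nlinarith [mul_le_mul_of_nonneg_left (hL i) (sq_nonneg ‖w1 - z i‖)]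

lemma Had.imH_up (h : Had Δ f z m) (hΔ : 0 < Δ) {w1 w : ℂ} (h1 : 6 * Δ ≤ w1.im)
    (hw : w1.im ≤ w.im) (hre : w.re = w1.re) :
    w1.im ^ 2 * BB z m w1 / 8 ≤ w.im * -(HH z m w1 w).im := by
  have h0 : 0 < w1.im := by linarith
  have h0' : 0 < w.im := by linarith
  have h2 := h.imH hΔ h1 (by linarith) hre (L := w1.im ^ 2 / (8 * w.im)) (fun i => by
    obtain ⟨h2, h3⟩ := abs_le.mp (h.zi i)
    have h4 : 1 ≤ w.im / w1.im := (one_le_div h0).mpr hw
    have h5 := sq_le_of (x := w - z i) (y := w1 - z i) (k := 2 * (w.im / w1.im) ^ 2)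
      (by nlinarith) (by simp [hre]) (by
        simp only [sub_im]
        have h6 : w.im - (z i).im ≤ 7 / 5 * (w.im / w1.im) * (w1.im - (z i).im) := by
          rw [mul_div_assoc', div_mul_eq_mul_div, le_div_iff₀ h0]
          nlinarith
        have h7 := pow_le_pow_left₀ (by linarith) h6 2
        nlinarith [sq_nonneg (w.im / w1.im * (w1.im - (z i).im))])
    calc _ ≤ w1.im ^ 2 / (8 * w.im) * (2 * (w.im / w1.im) ^ 2 * ‖w1 - z i‖ ^ 2) := by gcongr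
      _ = w.im / 4 * ‖w1 - z i‖ ^ 2 := by field_simp; ring
      _ ≤ _ := mul_le_mul_of_nonneg_right (by linarith) (sq_nonneg _))
  calc _ = w.im * (w1.im ^ 2 / (8 * w.im) * BB z m w1) := by field_simp
    _ ≤ _ := by gcongr

lemma Had.Hlip (h : Had Δ f z m) (hΔ : 0 < Δ) {w1 w : ℂ} (h1 : 6 * Δ ≤ w1.im)
    (hw : ‖w - w1‖ ≤ w1.im / 50) : ‖HH z m w1 w - HH z m w1 w1‖ ≤ 2 * BB z m w1 * ‖w - w1‖ := by
  have h2 := (abs_le.mp ((abs_im_le_norm _).trans hw)).1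
  rw [sub_im] at h2
  rw [mul_right_comm]
  refine ((h.sH hΔ h1 (w := w) (by linarith)).sub
    (h.sH hΔ h1 (w := w1) (by linarith))).norm_le_of_bounded
    ((h.sB (w := w1) (by linarith)).mul_left _) fun i => ?_
  obtain ⟨h3, h4⟩ := abs_le.mp (h.zi i)
  have h5 := norm_cc (w := w1) (a := z i) (k := 7 / 5) (by norm_num) (by linarith) (by linarith)
  have h6 := h.dist w1 i
  have h7 := norm_sub_le (w - z i) (w - w1)
  rw [sub_sub_sub_cancel_left] at h7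
  have h8 : 9 / 10 * ‖w1 - z i‖ ≤ ‖w - z i‖ := by linarith
  have h9 : 0 < ‖w1 - z i‖ := by linarith
  have h10 := h.m0 i
  rw [← mul_sub, ← mul_sub, norm_mul, norm_mul, norm_inv_diff (norm_pos_iff.mp (by linarith))
    (norm_pos_iff.mp h9), Complex.norm_real, Real.norm_of_nonneg h10]
  calc _ ≤ m i * (7 / 5 / ‖w1 - z i‖ ^ 2 * (‖w - w1‖ / (9 / 10 * ‖w1 - z i‖ * ‖w1 - z i‖))) := by
        gcongr
    _ = 14 / 9 * ‖w - w1‖ * (m i / ‖w1 - z i‖ ^ 4) := by field_simp; ring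
    _ ≤ _ := by gcongr; norm_num

lemma Had.H_le (h : Had Δ f z m) (hΔ : 0 < Δ) (hr : ∀ w, f (conj w) = conj (f w)) {w1 : ℂ}
    (h1 : 6 * Δ ≤ w1.im) : 2 * w1.im * ‖HH z m w1 w1‖ ≤ 7 * WW f w1 ∧
      w1.im ^ 2 * BB z m w1 ≤ 3 * WW f w1 := by
  have h0 : Δ < w1.im := by linarith
  have h2 := h.H_norm hΔ h1 (sub_pos.mpr h0) (h.dist w1)
  have h3 := hasSum_le (h.four h0) (h.sB h0) ((h.sS h0).mul_left _)
  have h4 := h.S_le hΔ hr (k := 2) (by norm_num) h0 (by linarith)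
  have h5 := h.S0 w1
  have h6 : 0 < w1.im - Δ := by linarith
  rw [div_mul_eq_mul_div, le_div_iff₀ (by positivity)] at h2 h3
  constructor
  · nlinarith [norm_nonneg (HH z m w1 w1)]
  · have h7 : (5 / 6 * w1.im) ^ 2 ≤ (w1.im - Δ) ^ 2 := by
      gcongr
      · linarith
      · linarith
    nlinarith [mul_le_mul_of_nonneg_left h7 (h.B0 w1)]

lemma Had.W_anti (h : Had Δ f z m) (hΔ : 0 < Δ) (hr : ∀ w, f (conj w) = conj (f w))
    {ξ v q : ℝ} (hv : 6 * Δ ≤ v) (hq : v ≤ q) : WW f (ξ + q * I) ≤ WW f (ξ + v * I) := by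
  have h1 := h.fac hΔ hr (w1 := ξ + v * I) (w := ξ + q * I) (by simpa) (by simp; linarith)
  have h2 := h.imH hΔ (w1 := ξ + v * I) (w := ξ + q * I) (by simpa) (by simp; linarith)
    (by simp) (L := 0) (fun i => by
      rw [zero_mul]
      exact mul_nonneg (by simp; linarith) (sq_nonneg _))
  have h4 := congrArg Complex.im h1
  have h5 : WW f (ξ + v * I) * v = -(logDeriv f (ξ + v * I)).im := by
    simp only [WW, add_im, ofReal_im, mul_I_im, ofReal_re, zero_add]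
    exact div_mul_cancel₀ _ (by linarith)
  have h6 : WW f (ξ + q * I) * q = -(logDeriv f (ξ + q * I)).im := by
    simp only [WW, add_im, ofReal_im, mul_I_im, ofReal_re, zero_add]
    exact div_mul_cancel₀ _ (by linarith)
  rw [zero_mul] at h2
  simp at h4
  have h8 : 0 ≤ (q - v) * (q + v) * -(HH z m (ξ + v * I) (ξ + q * I)).im :=
    mul_nonneg (mul_nonneg (by linarith) (by linarith)) h2
  refine le_of_mul_le_mul_right ?_ (show 0 < q by linarith)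
  nlinarith

lemma Had.bottom (h : Had Δ f z m) (hΔ : 0 < Δ) (hr : ∀ w, f (conj w) = conj (f w)) {c : ℂ}
    (hc : 3 * Δ ≤ c.im) {p : ℝ} (h0 : 0 ≤ p) (h1 : p ≤ c.im) : ‖f (c - p * I)‖ ≤ ‖f c‖ := by
  refine (h.ub' _ c (h.ne' (by linarith))).trans
    (mul_le_of_le_one_right (norm_nonneg _) (Real.exp_le_one_iff.mpr ?_))
  have h2 := h.S_le hΔ hr (k := 2) (w := c) (by norm_num) (by linarith) (by linarith)
  have h3 : WW f c * c.im = -(logDeriv f c).im := div_mul_cancel₀ _ (by linarith)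
  have h4 := h.S0 c
  change _ + _ * SS z m c ≤ 0
  rw [sub_sub_cancel_left, norm_neg, norm_mul, norm_I, Complex.norm_real, Real.norm_of_nonneg h0]
  simp
  nlinarith [mul_le_mul_of_nonneg_left h2 (mul_nonneg h0 h0), mul_nonneg h0 (by linarith : 0 ≤ WW f c)]

end Pool.Agent.P.MP_2e654e_an.Den
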