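import Mathlib

set_option autoImplicit false

open Complex Metric Filter Topology Set MeasureTheory

namespace Pool.Agent.P.MP_2e654e_an.Den

lemma norm_le_of_deriv {g k : ℝ → ℂ} {ρ ρ' : ℝ → ℝ} {a b : ℝ} (hab : a ≤ b)
    (hg : ∀ t ∈ Icc a b, HasDerivAt g (k t * g t) t) (hρ : ∀ t ∈ Icc a b, HasDerivAt ρ (ρ' t) t)
    (hk : ∀ t ∈ Icc a b, (k t).re ≤ ρ' t) : ‖g b‖ ≤ ‖g a‖ * Real.exp (ρ b - ρ a) := by
  have hd : ∀ t ∈ Icc a b, HasDerivAt (fun t => ‖g t‖ ^ 2 * Real.exp (-2 * ρ t))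
      (2 * ((k t).re - ρ' t) * (‖g t‖ ^ 2 * Real.exp (-2 * ρ t))) t := by
    intro t ht
    refine ((hg t ht).norm_sq.mul ((hρ t ht).const_mul (-2)).exp).congr_deriv ?_
    rw [Complex.inner, mul_assoc (k t), mul_conj, re_mul_ofReal, Complex.sq_norm]
    ring
  have h := antitoneOn_of_hasDerivWithinAt_nonpos (convex_Icc a b)
    (fun t ht => (hd t ht).continuousAt.continuousWithinAt)
    (fun t ht => (hd t (interior_subset ht)).hasDerivWithinAt)
    (fun t ht => mul_nonpos_of_nonpos_of_nonneg (by linarith [hk t (interior_subset ht)])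
      (by positivity)) (left_mem_Icc.mpr hab) (right_mem_Icc.mpr hab) hab
  refine (pow_le_pow_iff_left₀ (norm_nonneg _) (by positivity) two_ne_zero).mp ?_
  have e : ‖g b‖ ^ 2 = ‖g b‖ ^ 2 * Real.exp (-2 * ρ b) * Real.exp (2 * ρ b) := by
    rw [mul_assoc, ← Real.exp_add]
    simp
  rw [e, mul_pow, ← Real.exp_nat_mul]
  calc _ ≤ ‖g a‖ ^ 2 * Real.exp (-2 * ρ a) * Real.exp (2 * ρ b) := by gcongr
    _ = _ := by
      rw [mul_assoc, ← Real.exp_add]
      congr 2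
      push_cast
      ring

/-- the second order coefficient near the saddle point -/
noncomputable def KK (v β : ℝ) (H : ℂ → ℂ) (τ : ℂ) : ℂ := β + (τ + 2 * v * I) * H τ

/-- the data of a normalised saddle point problem -/
structure Sad (v p0 β B A : ℝ) (e H : ℂ → ℂ) : Prop where
  hv : 100 ≤ v
  hp : p0 ≤ -(v / 50)
  hβ : 0 ≤ β
  hB : 0 ≤ B
  hA : 1 ≤ A
  ed : Differentiable ℂ e
  e0 : e 0 = 1
  de : ∀ τ : ℂ, p0 ≤ τ.im → HasDerivAt e (τ * KK v β H τ * e τ) τ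
  v1 : ∀ p : ℝ, p0 ≤ p → (H (p * I)).im ≤ 0
  v2 : ∀ p : ℝ, 0 ≤ p → v ^ 2 * B / 8 ≤ -(p + 2 * v) * (H (p * I)).im
  h0 : v * B / 4 ≤ -(H 0).im
  hl : ∀ τ : ℂ, ‖τ‖ ≤ v / 50 → ‖H τ - H 0‖ ≤ 2 * B * ‖τ‖
  bot : ∀ p : ℝ, -v ≤ p → p ≤ p0 → ‖e (p * I)‖ ≤ A * ‖e (p0 * I)‖
  big1 : 300000000 ≤ v ^ 2 * (β + v ^ 2 * B)
  big2 : 3 * v ^ 2 * A * Real.exp (-(β + v ^ 2 * B) * (v / 100) ^ 2 / 16) *
    (1 + ‖KK v β H 0‖) ≤ 1 / 2

variable {v p0 β B A : ℝ} {e H : ℂ → ℂ}

lemma Sad.ray (S : Sad v p0 β B A e H) (c : ℂ) (t : ℝ) (h : p0 ≤ (t * c).im) :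
    HasDerivAt (fun t : ℝ => e (t * c)) (c ^ 2 * t * KK v β H (t * c) * e (t * c)) t := by
  have h1 : HasDerivAt (fun w : ℂ => w * c) c t := by simpa using (hasDerivAt_id (t : ℂ)).mul_const c
  refine (((S.de _ h).comp (t : ℂ) h1).comp_ofReal).congr_deriv ?_
  ring

lemma Sad.im_ok (S : Sad v p0 β B A e H) {τ : ℂ} (h : ‖τ‖ ≤ v / 50) : p0 ≤ τ.im := by
  have := (abs_le.mp ((abs_im_le_norm τ).trans h)).1
  linarith [S.hp]

lemma norm_ray {c : ℂ} (hc : ‖c‖ ≤ 3 / 2) {t : ℝ} (h0 : 0 ≤ t) : ‖(t : ℂ) * c‖ ≤ 3 / 2 * t := by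
  rw [norm_mul, Complex.norm_real, Real.norm_of_nonneg h0, mul_comm]
  gcongr

lemma norm_dir {p σ : ℝ} (hp : |p| ≤ 1 / 2) (hσ : σ ^ 2 = 1) : ‖(p : ℂ) + σ * I‖ ≤ 3 / 2 := by
  refine (norm_add_le _ _).trans ?_
  have : |σ| = 1 := by rwa [← sq_eq_sq₀ (abs_nonneg _) zero_le_one, sq_abs, one_pow]
  simp only [Complex.norm_real, Real.norm_eq_abs, norm_mul, norm_I, this]
  linarith

lemma Sad.conn (S : Sad v p0 β B A e H) {p σ : ℝ} (hp : |p| ≤ 1 / 2) (hσ : σ ^ 2 = 1)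
    (hs : 0 ≤ (H 0).re * p * σ) :
    ‖e ((v / 100 : ℝ) * (p + σ * I))‖ ≤ Real.exp (-(β + v ^ 2 * B) * (v / 100) ^ 2 / 16) := by
  have hv := S.hv
  have hc := norm_dir hp hσ
  set c : ℂ := p + σ * I with hcd
  have h := norm_le_of_deriv (g := fun t : ℝ => e (t * c))
    (k := fun t => c ^ 2 * t * KK v β H (t * c)) (ρ := fun t => -(β + v ^ 2 * B) * t ^ 2 / 16)
    (ρ' := fun t => -(β + v ^ 2 * B) * t / 8) (a := 0) (b := v / 100) (by linarith)
    (fun t ht => S.ray c t (S.im_ok ((norm_ray hc ht.1).trans (by linarith [ht.2]))))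
    (fun t _ => (((hasDerivAt_pow 2 t).const_mul _).div_const 16).congr_deriv (by simp; ring))
    (fun t ht => ?_)
  · simpa [S.e0] using h
  obtain ⟨ht0, ht1⟩ := ht
  have h1 := norm_ray hc ht0
  have h2 := S.hl _ (h1.trans (by linarith))
  have h3 : ‖c ^ 2 * (t * c + 2 * v * I) * (H (t * c) - H 0)‖ ≤ 7 / 50 * (v ^ 2 * B) := by
    have h4 : ‖(t : ℂ) * c + 2 * v * I‖ ≤ 203 / 100 * v / 1 := by
      refine (norm_add_le _ _).trans ?_
      have : ‖2 * (v : ℂ) * I‖ = 2 * v := by simp [abs_of_nonneg (by linarith : 0 ≤ v)]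
      linarith
    have hB := S.hB
    rw [norm_mul, norm_mul, norm_pow]
    calc _ ≤ (3 / 2) ^ 2 * (203 / 100 * v / 1) * (2 * B * (3 / 2 * (v / 100))) := by
          gcongr
          refine h2.trans ?_
          gcongr
          linarith
      _ ≤ _ := by nlinarith [mul_nonneg (sq_nonneg v) hB]
  have h5 := (re_le_norm _).trans h3
  have h6 : (c ^ 2 * t * KK v β H (t * c)).re = t * (β * (p ^ 2 - σ ^ 2) +
      (H 0).re * (t * p * (p ^ 2 - 3 * σ ^ 2) - 4 * v * p * σ) -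
      (H 0).im * (t * σ * (3 * p ^ 2 - σ ^ 2) + 2 * v * (p ^ 2 - σ ^ 2)) +
      (c ^ 2 * (t * c + 2 * v * I) * (H (t * c) - H 0)).re) := by
    have : c ^ 2 * t * KK v β H (t * c) = t * (c ^ 2 * β + c ^ 2 * (t * c + 2 * v * I) * H 0 +
        c ^ 2 * (t * c + 2 * v * I) * (H (t * c) - H 0)) := by
      unfold KK
      ring
    rw [this, re_ofReal_mul, add_re]
    congr 2
    simp [hcd, sq]
    ring
  rw [h6, hσ]
  have hp2 : p ^ 2 ≤ 1 / 4 := by nlinarith [sq_abs p, abs_nonneg p]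
  have hσ1 : |σ| = 1 := by rwa [← sq_eq_sq₀ (abs_nonneg _) zero_le_one, sq_abs, one_pow]
  have hσ2 := abs_le.mp hσ1.le
  have h7 : (H 0).re * (t * p * (p ^ 2 - 3 * 1) - 4 * v * p * σ) ≤ 0 := by
    have : (H 0).re * (t * p * (p ^ 2 - 3 * 1) - 4 * v * p * σ) =
        (H 0).re * p * σ * (t * (σ * (p ^ 2 - 3)) - 4 * v) := by
      linear_combination (-(H 0).re * t * p * (p ^ 2 - 3)) * hσ
    rw [this]
    refine mul_nonpos_of_nonneg_of_nonpos hs ?_
    have : σ * (p ^ 2 - 3) ≤ 3 := by nlinarith [sq_nonneg p]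
    nlinarith
  have h8 : t * σ * (3 * p ^ 2 - 1) + 2 * v * (p ^ 2 - 1) ≤ -(149 / 100) * v := by
    have : σ * (3 * p ^ 2 - 1) ≤ 1 := by nlinarith [sq_nonneg p]
    nlinarith
  have h9 := S.h0
  have h10 : 0 ≤ v * B := mul_nonneg (by linarith) S.hB
  have h11 : -(H 0).im * (t * σ * (3 * p ^ 2 - 1) + 2 * v * (p ^ 2 - 1)) ≤
      -(149 / 400) * (v ^ 2 * B) := by nlinarith
  have h12 : β * (p ^ 2 - 1) ≤ -(3 / 4) * β := by nlinarith [S.hβ]
  have h13 : 0 ≤ v ^ 2 * B := mul_nonneg (sq_nonneg v) S.hB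
  rw [show -(β + v ^ 2 * B) * t / 8 = t * (-(β + v ^ 2 * B) / 8) by ring]
  refine mul_le_mul_of_nonneg_left ?_ ht0
  linarith [S.hβ]

lemma KK_re (p : ℝ) : (KK v β H (p * I)).re = β - (p + 2 * v) * (H (p * I)).im := by
  unfold KK
  simp
  ring

lemma Sad.up (S : Sad v p0 β B A e H) {p : ℝ} (hp : v / 100 ≤ p) :
    ‖e (p * I)‖ ≤ Real.exp (-(β + v ^ 2 * B) * (v / 100) ^ 2 / 16) *
      Real.exp (-(2 / v) * (p - v / 100)) := by
  have hv := S.hv
  have h := norm_le_of_deriv (g := fun t : ℝ => e (t * I))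
    (k := fun t => I ^ 2 * t * KK v β H (t * I)) (ρ := fun t => -(2 / v) * t)
    (ρ' := fun _ => -(2 / v)) hp
    (fun t ht => S.ray I t (by simp; linarith [S.hp, ht.1]))
    (fun t _ => ((hasDerivAt_id t).const_mul (-(2 / v))).congr_deriv (mul_one _))
    (fun t ht => ?_)
  · have h2 := S.conn (p := 0) (σ := 1) (by simp) (by simp) (by simp)
    simp only [ofReal_zero, ofReal_one, one_mul, zero_add] at h2
    refine h.trans ?_
    rw [mul_sub]
    gcongr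
  · have h1 := S.v2 t (by linarith [ht.1])
    have h3 : 2 / v ≤ v / 100 * ((β + v ^ 2 * B) / 8) := by
      rw [div_le_iff₀ (by linarith)]
      linarith [S.big1]
    have h4 : (β + v ^ 2 * B) / 8 ≤ (KK v β H (t * I)).re := by
      rw [KK_re]
      linarith [S.hβ]
    have h5 : v / 100 * ((β + v ^ 2 * B) / 8) ≤ t * (KK v β H (t * I)).re := by
      have := S.hβ
      have := mul_nonneg (sq_nonneg v) S.hB
      gcongr
      exacts [by linarith [ht.1], ht.1]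
    rw [I_sq, neg_mul, neg_mul, one_mul, neg_re, re_ofReal_mul]
    linarith

lemma Sad.low (S : Sad v p0 β B A e H) {p : ℝ} (hp : -v ≤ p) (hp' : p ≤ -(v / 100)) :
    ‖e (p * I)‖ ≤ A * Real.exp (-(β + v ^ 2 * B) * (v / 100) ^ 2 / 16) := by
  have hv := S.hv
  have key : ∀ q : ℝ, -v ≤ q → p0 ≤ q → q ≤ -(v / 100) →
      ‖e (q * I)‖ ≤ Real.exp (-(β + v ^ 2 * B) * (v / 100) ^ 2 / 16) := by
    intro q h0 h1 h2
    have h := norm_le_of_deriv (g := fun t : ℝ => e (t * -I))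
      (k := fun t => (-I) ^ 2 * t * KK v β H (t * -I)) (ρ := fun _ => 0)
      (ρ' := fun _ => 0) (a := v / 100) (b := -q) (by linarith)
      (fun t ht => S.ray (-I) t (by simp; linarith [ht.2]))
      (fun t _ => hasDerivAt_const t 0) (fun t ht => ?_)
    · have h3 := S.conn (p := 0) (σ := -1) (by simp) (by simp) (by simp)
      rw [ofReal_zero, ofReal_neg, ofReal_one, neg_mul (1 : ℂ), one_mul, zero_add] at h3
      rw [ofReal_neg, neg_mul_neg, sub_self, Real.exp_zero, mul_one] at h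
      exact h.trans h3
    · have h4 := S.v1 (-t) (by linarith [ht.2])
      have h5 := KK_re (v := v) (β := β) (H := H) (-t)
      rw [ofReal_neg, neg_mul, ← mul_neg] at h4 h5
      rw [neg_sq, I_sq, neg_mul, neg_mul, one_mul, neg_re, re_ofReal_mul, h5]
      have h6 : 0 ≤ (-t + 2 * v) * -(H (t * -I)).im :=
        mul_nonneg (by linarith [ht.2]) (by linarith)
      have h7 : 0 ≤ t := by linarith [ht.1]
      nlinarith [S.hβ, mul_nonneg h7 h6, mul_nonneg h7 S.hβ]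
  rcases le_total p0 p with h | h
  · refine (key p hp h hp').trans (le_mul_of_one_le_left (Real.exp_pos _).le S.hA)
  · refine (S.bot p hp h).trans ?_
    have := S.hA
    gcongr
    exact key p0 (by linarith) le_rfl (by linarith [S.hp])

lemma Sad.re_le (S : Sad v p0 β B A e H) :
    (β + v ^ 2 * B) / 2 ≤ (KK v β H 0).re ∧ v * (v * B) ≤ 2 * ‖KK v β H 0‖ ∧
      2 * v * ‖H 0‖ ≤ ‖KK v β H 0‖ := by
  have hv := S.hv
  have h1 := KK_re (v := v) (β := β) (H := H) 0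
  simp only [ofReal_zero, zero_mul, zero_add] at h1
  have h2 : v * (v * B / 4) ≤ v * -(H 0).im := mul_le_mul_of_nonneg_left S.h0 (by linarith)
  have h3 := re_le_norm (KK v β H 0)
  have h4 := S.hβ
  have h5 : 0 ≤ v * (v * B) := by have := S.hB; positivity
  refine ⟨by nlinarith, by nlinarith, ?_⟩
  refine (pow_le_pow_iff_left₀ (by positivity) (norm_nonneg _) two_ne_zero).mp ?_
  have h6 : (KK v β H 0).im = 2 * v * (H 0).re := by simp [KK]
  rw [mul_pow, Complex.sq_norm, Complex.sq_norm, normSq_apply, normSq_apply, h1, h6]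
  nlinarith [mul_nonneg h4 (h5.trans' le_rfl), mul_nonneg h4 (by linarith : 0 ≤ v * -(H 0).im)]

lemma Sad.Kdiff (S : Sad v p0 β B A e H) {τ : ℂ} (h : ‖τ‖ ≤ v / 50) :
    ‖KK v β H τ - KK v β H 0‖ ≤ 9 * ‖τ‖ * (‖KK v β H 0‖ / v) := by
  have hv := S.hv
  obtain ⟨-, h1, h2⟩ := S.re_le
  have e1 : KK v β H τ - KK v β H 0 = τ * H 0 + (τ + 2 * v * I) * (H τ - H 0) := by
    unfold KK
    ring
  have h3 : ‖τ + 2 * v * I‖ ≤ 101 / 50 * v := by
    refine (norm_add_le _ _).trans ?_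
    have : ‖2 * (v : ℂ) * I‖ = 2 * v := by simp [abs_of_nonneg (by linarith : 0 ≤ v)]
    linarith
  have h4 : ‖H 0‖ ≤ ‖KK v β H 0‖ / v / 2 := by
    rw [div_div, le_div_iff₀ (by positivity)]
    linarith
  have h5 : v * B ≤ 2 * (‖KK v β H 0‖ / v) := by
    rw [← mul_div_assoc, le_div_iff₀ (by positivity)]
    linarith
  rw [e1]
  refine (norm_add_le _ _).trans ?_
  rw [norm_mul, norm_mul]
  have h6 : ‖τ + 2 * v * I‖ * ‖H τ - H 0‖ ≤ 101 / 50 * v * (2 * B * ‖τ‖) := by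
    gcongr
    exact S.hl τ h
  have h7 : 0 ≤ ‖KK v β H 0‖ / v := by positivity
  nlinarith [norm_nonneg τ, mul_le_mul_of_nonneg_left h4 (norm_nonneg τ),
    mul_le_mul_of_nonneg_left h5 (norm_nonneg τ), mul_nonneg (norm_nonneg τ) h7]

lemma Sad.cen (S : Sad v p0 β B A e H) {c b : ℂ} (hc : ‖c‖ ≤ 3 / 2) (hc2 : ‖c‖ ^ 2 ≤ 5 / 4)
    (hb : b = -(KK v β H 0 * c ^ 2 / 2)) (hb2 : 3 / 8 * ‖KK v β H 0‖ ≤ b.re) {t : ℝ}
    (h0 : 0 ≤ t) (h1 : t ≤ v / 100) :
    ‖e (t * c)‖ ≤ Real.exp (-(11 / 40) * ‖KK v β H 0‖ * t ^ 2) ∧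
    ‖e (t * c) - exp (-b * t ^ 2)‖ ≤
      17 * (‖KK v β H 0‖ / v) * t ^ 3 * Real.exp (-(11 / 40) * ‖KK v β H 0‖ * t ^ 2) := by
  have hv := S.hv
  set N := ‖KK v β H 0‖ with hN
  have hN0 : 0 ≤ N := norm_nonneg _
  set g : ℝ → ℂ := fun t => e (t * c) * exp (b * t ^ 2) with hg
  set k : ℝ → ℂ := fun t => c ^ 2 * t * (KK v β H (t * c) - KK v β H 0) with hk
  have hn : ∀ x ∈ Icc 0 t, ‖(x : ℂ) * c‖ ≤ v / 50 := fun x hx =>
    (norm_ray hc hx.1).trans (by linarith [hx.2])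
  have hd : ∀ x ∈ Icc 0 t, HasDerivAt g (k x * g x) x := by
    intro x hx
    have h2 : HasDerivAt (fun x : ℝ => exp (b * x ^ 2)) (exp (b * x ^ 2) * (b * (2 * x))) x := by
      have := (((hasDerivAt_pow 2 (x : ℂ)).const_mul b).cexp).comp_ofReal
      simpa using this
    refine ((S.ray c x (S.im_ok (hn x hx))).mul h2).congr_deriv ?_
    simp only [hg, hk, hb]
    ring
  have hkb : ∀ x ∈ Icc 0 t, ‖k x‖ ≤ 17 * (N / v) * x ^ 2 := by
    intro x hx
    have h3 := S.Kdiff (hn x hx)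
    have h4 := norm_ray hc hx.1
    have h5 := hx.1
    simp only [hk]
    rw [norm_mul, norm_mul, norm_pow, Complex.norm_real, Real.norm_of_nonneg hx.1]
    calc _ ≤ 5 / 4 * x * (9 * (3 / 2 * x) * (N / v)) := by
          gcongr
          exact h3.trans (by gcongr)
      _ ≤ _ := by nlinarith [mul_nonneg (sq_nonneg x) (by positivity : 0 ≤ N / v)]
  have hg0 : g 0 = 1 := by simp [hg, S.e0]
  have hgb : ∀ x ∈ Icc 0 t, ‖g x‖ ≤ Real.exp (N * x ^ 2 / 10) := by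
    intro x hx
    have := norm_le_of_deriv (ρ := fun y => N * y ^ 2 / 10) (ρ' := fun y => N * y / 5) hx.1
      (fun y hy => hd y ⟨hy.1, hy.2.trans hx.2⟩)
      (fun y _ => (((hasDerivAt_pow 2 y).const_mul _).div_const 10).congr_deriv (by simp; ring))
      (fun y hy => by
        refine (re_le_norm _).trans ((hkb y ⟨hy.1, hy.2.trans hx.2⟩).trans ?_)
        have h6 : N / v * y ≤ N / 100 := by
          rw [div_mul_eq_mul_div, div_le_iff₀ (by linarith)]
          nlinarith [hy.2, hx.2]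
        nlinarith [hy.1, mul_nonneg hN0 hy.1])
    simpa [hg0] using this
  have hg1 : ‖g t - g 0‖ ≤ 17 * (N / v) * t ^ 2 * Real.exp (N * t ^ 2 / 10) * (t - 0) :=
    norm_image_sub_le_of_norm_deriv_le_segment' (fun x hx => (hd x hx).hasDerivWithinAt)
      (fun x hx => by
        rw [norm_mul]
        have h7 := hx.1
        have h8 := hx.2.le
        gcongr
        · exact (hkb x ⟨h7, h8⟩).trans (by gcongr)
        · exact (hgb x ⟨h7, h8⟩).trans (by gcongr)) t ⟨h0, le_rfl⟩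
  have he : e (t * c) = g t * exp (-b * t ^ 2) := by
    simp only [hg]
    rw [mul_assoc, ← Complex.exp_add]
    simp
  have hx : Real.exp (N * t ^ 2 / 10) * ‖exp (-b * t ^ 2)‖ ≤
      Real.exp (-(11 / 40) * N * t ^ 2) := by
    rw [Complex.norm_exp, ← Real.exp_add, ← ofReal_pow, re_mul_ofReal, neg_re]
    exact Real.exp_le_exp.mpr (by nlinarith [sq_nonneg t])
  constructor
  · rw [he, norm_mul]
    refine le_trans ?_ hx
    gcongr
    exact hgb t ⟨h0, le_rfl⟩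
  · rw [he, ← sub_one_mul, norm_mul, ← hg0]
    calc _ ≤ 17 * (N / v) * t ^ 2 * Real.exp (N * t ^ 2 / 10) * (t - 0) * ‖exp (-b * t ^ 2)‖ := by
          gcongr
      _ = 17 * (N / v) * t ^ 3 * (Real.exp (N * t ^ 2 / 10) * ‖exp (-b * t ^ 2)‖) := by ring
      _ ≤ _ := by gcongr

lemma ftc_line {P Ψ : ℂ → ℂ} (hP : ∀ w, HasDerivAt P (Ψ w) w) (hΨ : Continuous Ψ) (c : ℂ)
    (a b : ℝ) : (∫ t in a..b, Ψ (t * c)) * c = P (b * c) - P (a * c) := by
  rw [← intervalIntegral.integral_mul_const]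
  refine intervalIntegral.integral_eq_sub_of_hasDerivAt (f := fun t : ℝ => P (t * c))
    (fun t _ => ?_) (Continuous.intervalIntegrable (by fun_prop) _ _)
  have h1 : HasDerivAt (fun w : ℂ => w * c) c t := by simpa using (hasDerivAt_id (t : ℂ)).mul_const c
  exact ((hP _).comp (t : ℂ) h1).comp_ofReal

lemma Sad.outer (S : Sad v p0 β B A e H) {s : ℝ} (hs : s ^ 2 = 1) (hs' : 0 ≤ (H 0).re * s)
    {ω : ℂ → ℂ} (hω : Differentiable ℂ ω)
    (hb : ∀ τ : ℂ, 1 ≤ ‖τ‖ → (‖τ‖ ≤ v ∨ (τ.re = 0 ∧ 0 ≤ τ.im)) → ‖ω τ‖ ≤ ‖τ‖) :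
    IntegrableOn (fun p : ℝ => e (p * I) * ω (p * I)) (Ioi (-v)) ∧
    ‖(∫ p : ℝ in Ioi (-v), e (p * I) * ω (p * I)) * I -
      (∫ t in (-(v / 100))..(v / 100), e (t * (s / 2 + I)) * ω (t * (s / 2 + I))) * (s / 2 + I)‖ ≤
      3 * v ^ 2 * A * Real.exp (-(β + v ^ 2 * B) * (v / 100) ^ 2 / 16) := by
  have hv := S.hv
  have hA := S.hA
  set X := Real.exp (-(β + v ^ 2 * B) * (v / 100) ^ 2 / 16) with hX
  have hX0 : 0 < X := Real.exp_pos _
  set a := v / 100 with ha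
  have hΨ : Differentiable ℂ fun τ => e τ * ω τ := S.ed.mul hω
  obtain ⟨P, hP⟩ := hΨ.isExactOn_univ
  have hP' : ∀ w, HasDerivAt P (e w * ω w) w := fun w => hP w (mem_univ w)
  have hc : Continuous fun p : ℝ => e (p * I) * ω (p * I) := hΨ.continuous.comp (by fun_prop)
  have hpI : ∀ p : ℝ, ‖(p : ℂ) * I‖ = |p| := fun p => by simp
  have hv1 : 0 < 1 / v := by positivity
  have hi : IntegrableOn (fun p : ℝ => v * X * Real.exp (1 / v * a) * Real.exp (-(1 / v) * p))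
      (Ioi a) := (exp_neg_integrableOn_Ioi a hv1).const_mul _
  have hup : ∀ᵐ p : ℝ ∂(volume.restrict (Ioi a)), ‖e (p * I) * ω (p * I)‖ ≤
      v * X * Real.exp (1 / v * a) * Real.exp (-(1 / v) * p) := by
    refine ae_restrict_of_forall_mem measurableSet_Ioi fun p hp => ?_
    have hp' : a ≤ p := le_of_lt hp
    have h1 := S.up hp'
    have h2 := hb (p * I) (by rw [hpI, abs_of_nonneg (by linarith)]; linarith)
      (Or.inr (by simp; linarith))
    rw [hpI, abs_of_nonneg (by linarith)] at h2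
    have h3 : p ≤ v * Real.exp (1 / v * (p - a)) := by
      have h4 := mul_le_mul_of_nonneg_left (Real.add_one_le_exp (1 / v * (p - a)))
        (by linarith : 0 ≤ v)
      rw [mul_add, ← mul_assoc, mul_one_div_cancel (by linarith)] at h4
      linarith
    rw [norm_mul]
    calc _ ≤ X * Real.exp (-(2 / v) * (p - a)) * (v * Real.exp (1 / v * (p - a))) := by
          gcongr
          exact h2.trans h3
      _ = v * X * (Real.exp (-(2 / v) * (p - a)) * Real.exp (1 / v * (p - a))) := by ring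
      _ = _ := by
          rw [mul_assoc (v * X), ← Real.exp_add, ← Real.exp_add]
          congr 2
          ring
  have hi2 : IntegrableOn (fun p : ℝ => e (p * I) * ω (p * I)) (Ioi a) :=
    hi.mono' hc.aestronglyMeasurable hup
  have b1 : ‖∫ p : ℝ in Ioi a, e (p * I) * ω (p * I)‖ ≤ v * X * v := by
    refine (norm_integral_le_of_norm_le hi hup).trans (le_of_eq ?_)
    rw [integral_const_mul, integral_exp_mul_Ioi (by linarith), mul_assoc (v * X), neg_div_neg_eq,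
      ← mul_div_assoc, ← Real.exp_add]
    simp
  have b2 : ‖∫ p : ℝ in (-v)..(-a), e (p * I) * ω (p * I)‖ ≤ A * X * v * v := by
    refine (intervalIntegral.norm_integral_le_of_norm_le_const (C := A * X * v)
      fun p hp => ?_).trans ?_
    · rw [uIoc_of_le (by linarith)] at hp
      have h4 : |p| ≤ v := abs_le.mpr ⟨hp.1.le, by linarith [hp.2]⟩
      have h2 := hb (p * I) (by rw [hpI]; linarith [neg_le_abs p, hp.2]) (Or.inl (by rwa [hpI]))
      rw [hpI] at h2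
      rw [norm_mul]
      gcongr
      exacts [S.low hp.1.le hp.2, h2.trans h4]
    · gcongr
      rw [abs_of_nonneg (by linarith)]
      linarith
  have b3 : ∀ σ : ℝ, σ ^ 2 = 1 →
      ‖P ((σ * a : ℝ) * (s / 2 + I)) - P ((σ * a : ℝ) * I)‖ ≤ X * v * a * (1 / 2 - 0) := by
    intro σ hσ
    have h1 := norm_image_sub_le_of_norm_deriv_le_segment' (a := 0) (b := 1 / 2)
      (f := fun p : ℝ => P (a * ((σ * s * p : ℝ) + σ * I)))
      (f' := fun p : ℝ => (e (a * ((σ * s * p : ℝ) + σ * I)) *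
        ω (a * ((σ * s * p : ℝ) + σ * I))) * (a * (σ * s))) (C := X * v * a)
      (fun p _ => by
        have h2 : HasDerivAt (fun w : ℂ => a * (σ * s * w + σ * I)) (a * (σ * s)) p := by
          simpa using ((((hasDerivAt_id (p : ℂ)).const_mul (σ * s : ℂ)).add_const
            (σ * I)).const_mul (a : ℂ))
        have h3 := ((hP' _).comp (p : ℂ) h2).comp_ofReal
        push_cast
        exact h3.hasDerivWithinAt)
      (fun p hp => by
        have h0 : |σ * s| = 1 := by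
          rw [← sq_eq_sq₀ (abs_nonneg _) zero_le_one, sq_abs, mul_pow, hσ, hs, one_pow, one_mul]
        have h4 : |σ * s * p| ≤ 1 / 2 := by
          rw [abs_mul, h0, one_mul, abs_of_nonneg hp.1]
          exact hp.2.le
        have h5 := S.conn h4 hσ (by
          have : (H 0).re * (σ * s * p) * σ = σ ^ 2 * ((H 0).re * s * p) := by ring
          rw [this, hσ, one_mul]
          exact mul_nonneg hs' hp.1)
        have h6 := norm_ray (norm_dir h4 hσ) (t := a) (by linarith)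
        have h7 : 1 ≤ ‖(a : ℂ) * ((σ * s * p : ℝ) + σ * I)‖ := by
          refine le_trans ?_ (abs_im_le_norm _)
          have h8 : |σ| = 1 := by rwa [← sq_eq_sq₀ (abs_nonneg _) zero_le_one, sq_abs, one_pow]
          rw [im_ofReal_mul, add_im, ofReal_im, zero_add, mul_I_im, ofReal_re, abs_mul, h8,
            abs_of_nonneg (by linarith)]
          linarith
        have h9 := hb _ h7 (Or.inl (by linarith))
        have h10 : ‖(a : ℂ) * (σ * s)‖ = a := by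
          rw [← ofReal_mul, ← ofReal_mul, Complex.norm_real, Real.norm_eq_abs, abs_mul, h0,
            mul_one, abs_of_nonneg (by linarith)]
        rw [norm_mul, norm_mul, h10]
        gcongr
        linarith) (1 / 2) ⟨by norm_num, le_rfl⟩
    refine le_trans (le_of_eq ?_) h1
    congr 3 <;> push_cast <;> ring
  have hi3 : IntegrableOn (fun p : ℝ => e (p * I) * ω (p * I)) (Ioi (-v)) := by
    rw [← Ioc_union_Ioi_eq_Ioi (show -v ≤ a by linarith)]
    exact (hc.integrableOn_Ioc).union hi2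
  refine ⟨hi3, ?_⟩
  rw [← intervalIntegral.integral_interval_add_Ioi hi3 hi2,
    ← intervalIntegral.integral_add_adjacent_intervals (b := -a) (hc.intervalIntegrable _ _)
      (hc.intervalIntegrable _ _), add_mul, add_mul, ftc_line hP' hΨ.continuous I (-a) a,
    ftc_line hP' hΨ.continuous (s / 2 + I)]
  have c1 := b3 1 (by simp)
  have c2 := b3 (-1) (by simp)
  rw [one_mul] at c1
  rw [neg_one_mul] at c2
  have e1 : ∀ x1 x2 y1 y2 y3 y4 : ℂ, x1 * I + (y1 - y2) + x2 * I - (y3 - y4) =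
      (x1 + x2) * I + (y4 - y2) - (y3 - y1) := fun _ _ _ _ _ _ => by ring
  rw [e1]
  refine (norm_sub_le _ _).trans ((add_le_add_left (norm_add_le _ _) _).trans ?_)
  rw [norm_mul, norm_I, mul_one]
  have c3 := norm_add_le (∫ p : ℝ in (-v)..(-a), e (p * I) * ω (p * I))
    (∫ p : ℝ in Ioi a, e (p * I) * ω (p * I))
  have c4 : X * v * a + v * X * v ≤ 2 * (v ^ 2 * 1 * X) := by
    nlinarith [mul_pos hX0 (by linarith : 0 < v)]
  have c5 : v ^ 2 * 1 * X ≤ v ^ 2 * A * X := by gcongr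
  linarith

lemma pow_exp_bounds (x : ℝ) :
    x ≤ 4 * Real.exp (3 / 20 * x ^ 2) ∧ x ^ 3 ≤ 45 * Real.exp (3 / 20 * x ^ 2) := by
  have h := Real.quadratic_le_exp_of_nonneg (x := 3 / 20 * x ^ 2) (by positivity)
  constructor
  · nlinarith [sq_nonneg (x - 1), sq_nonneg (x ^ 2)]
  · nlinarith [mul_nonneg (sq_nonneg x) (sq_nonneg (x - 1)), sq_nonneg x, sq_nonneg (x ^ 2)]

lemma Sad.cen2 (S : Sad v p0 β B A e H) {d b : ℂ} {N ν : ℝ} (hN : N = ‖KK v β H 0‖)
    (hd3 : ‖d‖ ≤ 3 / 2) (hd2 : ‖d‖ ^ 2 = 5 / 4) (hbd : b = -(KK v β H 0 * d ^ 2 / 2))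
    (hb2 : 3 / 8 * N ≤ b.re) (hν0 : 0 < ν) (hν2 : ν ^ 2 = N) (r4 : 10000 ≤ v * ν) {t : ℝ}
    (ht : |t| ≤ v / 100) : |t| * ‖e (t * d)‖ ≤ 4 / ν * Real.exp (-(N / 8) * t ^ 2) ∧
      ‖e (t * d) - exp (-b * t ^ 2)‖ ≤ 1 / 10 * Real.exp (-(N / 8) * t ^ 2) := by
  have hv := S.hv
  subst hN
  set N := ‖KK v β H 0‖ with hN
  have h1 : ‖e (t * d)‖ ≤ Real.exp (-(11 / 40) * N * |t| ^ 2) ∧ ‖e (t * d) - exp (-b * t ^ 2)‖ ≤
      17 * (N / v) * |t| ^ 3 * Real.exp (-(11 / 40) * N * |t| ^ 2) := by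
    rcases le_total 0 t with h | h
    · rw [abs_of_nonneg h] at ht ⊢
      exact S.cen hd3 hd2.le hbd hb2 h ht
    · rw [abs_of_nonpos h] at ht ⊢
      have := S.cen (c := -d) (b := b) (by rwa [norm_neg]) (by rw [norm_neg, hd2])
        (by rw [neg_sq]; exact hbd) hb2 (neg_nonneg.mpr h) ht
      rwa [ofReal_neg, neg_mul_neg, neg_sq (t : ℂ)] at this
  obtain ⟨h2, h3⟩ := pow_exp_bounds (ν * |t|)
  have h4 : Real.exp (3 / 20 * (ν * |t|) ^ 2) * Real.exp (-(11 / 40) * N * |t| ^ 2) =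
      Real.exp (-(N / 8) * t ^ 2) := by
    rw [← Real.exp_add, mul_pow, hν2, sq_abs]
    congr 1
    ring
  rw [← h4]
  constructor
  · calc _ ≤ |t| * Real.exp (-(11 / 40) * N * |t| ^ 2) := by gcongr; exact h1.1
      _ = 1 / ν * (ν * |t|) * Real.exp (-(11 / 40) * N * |t| ^ 2) := by field_simp
      _ ≤ 1 / ν * (4 * Real.exp (3 / 20 * (ν * |t|) ^ 2)) *
          Real.exp (-(11 / 40) * N * |t| ^ 2) := by gcongr
      _ = _ := by ring
  · calc _ ≤ _ := h1.2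
      _ = 17 / (v * ν) * (ν * |t|) ^ 3 * Real.exp (-(11 / 40) * N * |t| ^ 2) := by
          rw [← hν2]
          field_simp
      _ ≤ 17 / 10000 * (45 * Real.exp (3 / 20 * (ν * |t|) ^ 2)) *
          Real.exp (-(11 / 40) * N * |t| ^ 2) := by gcongr
      _ ≤ _ := by
          nlinarith [mul_pos (Real.exp_pos (3 / 20 * (ν * |t|) ^ 2))
            (Real.exp_pos (-(11 / 40) * N * |t| ^ 2))]

lemma Sad.central (S : Sad v p0 β B A e H) {s : ℝ} (hs : s ^ 2 = 1) (hs' : 0 ≤ (H 0).re * s)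
    {ω : ℂ → ℂ} (hb : ∀ τ : ℂ, ‖τ‖ ≤ v → ‖ω τ‖ ≤ ‖τ‖) :
    ∃ J ν : ℝ, 0 < J ∧ 0 < ν ∧ ν ^ 2 = ‖KK v β H 0‖ ∧ 5 ≤ J * ν ∧
      3 / 10 * J ≤ ‖∫ t in (-(v / 100))..(v / 100), e (t * (s / 2 + I))‖ ∧
      ‖∫ t in (-(v / 100))..(v / 100), e (t * (s / 2 + I)) * ω (t * (s / 2 + I))‖ ≤
        v / 1000 * J := by
  have hv := S.hv
  have hA := S.hA
  obtain ⟨r1, -, -⟩ := S.re_le
  have hbig := S.big1
  set κ := β + v ^ 2 * B with hκ
  set N := ‖KK v β H 0‖ with hN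
  set d : ℂ := s / 2 + I with hd
  set a := v / 100 with ha
  have hN0 : 0 ≤ N := norm_nonneg _
  have r2 : κ / 2 ≤ N := r1.trans (re_le_norm _)
  have r3 : 150000000 ≤ v ^ 2 * N := by nlinarith
  have hNp : 0 < N := by
    by_contra h
    nlinarith
  set ν := Real.sqrt N with hν
  have hν0 : 0 < ν := Real.sqrt_pos.mpr hNp
  have hν2 : ν ^ 2 = N := Real.sq_sqrt hN0
  have r4 : 10000 ≤ v * ν := by
    refine (pow_le_pow_iff_left₀ (by norm_num) (by positivity) two_ne_zero).mp ?_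
    rw [mul_pow, hν2]
    linarith
  have hd2 : ‖d‖ ^ 2 = 5 / 4 := by
    rw [Complex.sq_norm, normSq_apply]
    simp [hd]
    nlinarith
  have hd1 : 1 ≤ ‖d‖ := by nlinarith [norm_nonneg d]
  have hd3 : ‖d‖ ≤ 3 / 2 := by nlinarith [norm_nonneg d]
  set b : ℂ := -(KK v β H 0 * d ^ 2 / 2) with hbd
  have hb1 : ‖b‖ = 5 / 8 * N := by
    rw [hbd, norm_neg, norm_div, norm_mul, norm_pow, hd2, ← hN]
    simp
    ring
  have hb2 : 3 / 8 * N ≤ b.re := by
    have h1 : b.re = 3 / 8 * (KK v β H 0).re + 1 / 2 * ((KK v β H 0).im * s) := by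
      simp [hbd, hd, sq]
      linear_combination (-(KK v β H 0).re / 8) * hs
    have h2 : (KK v β H 0).im * s = 2 * v * ((H 0).re * s) := by
      simp [KK]
      ring
    have h3 : 0 ≤ (KK v β H 0).im * s := by rw [h2]; positivity
    have h4 : |(KK v β H 0).im| = (KK v β H 0).im * s := by
      rw [← sq_eq_sq₀ (abs_nonneg _) h3, sq_abs, mul_pow, hs, mul_one]
    have h5 := Complex.norm_le_abs_re_add_abs_im (KK v β H 0)
    rw [abs_of_nonneg (by nlinarith), h4] at h5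
    linarith
  have hcen := fun (t : ℝ) (ht : |t| ≤ a) => S.cen2 hN hd3 hd2 hbd hb2 hν0 hν2 r4 ht
  have ig := integrable_exp_neg_mul_sq (b := N / 8) (by positivity)
  set J := ∫ t : ℝ, Real.exp (-(N / 8) * t ^ 2) with hJ
  have hJ2 : J ^ 2 = 8 * Real.pi / N := by
    rw [hJ, integral_gaussian, Real.sq_sqrt (by have := Real.pi_pos; positivity)]
    field_simp
  have hJ0 : 0 < J := by
    rw [hJ, integral_gaussian]
    exact Real.sqrt_pos.mpr (by have := Real.pi_pos; positivity)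
  have hbre : 0 < b.re := by linarith
  have g1 : 2 / 5 * J ≤ ‖∫ t : ℝ, exp (-b * t ^ 2)‖ := by
    refine (pow_le_pow_iff_left₀ (by positivity) (norm_nonneg _) two_ne_zero).mp ?_
    rw [← norm_pow, integral_gaussian_sq_complex hbre, norm_div, hb1, Complex.norm_real,
      Real.norm_of_nonneg Real.pi_pos.le, mul_pow, hJ2, le_div_iff₀ (by positivity)]
    have : (2 / 5) ^ 2 * (8 * Real.pi / N) * (5 / 8 * N) = 4 / 5 * Real.pi := by
      field_simp
      ring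
    rw [this]
    linarith [Real.pi_pos]
  have haa : -a ≤ a := by linarith
  have hmem : ∀ t ∈ Ioc (-a) a, |t| ≤ a := fun t ht => abs_le.mpr ⟨ht.1.le, ht.2⟩
  have g2 : ‖(∫ t in (-a)..a, e (t * d)) - ∫ t : ℝ, exp (-b * t ^ 2)‖ ≤ 1 / 10 * J := by
    have hce : Continuous fun t : ℝ => e (t * d) := S.ed.continuous.comp (by fun_prop)
    rw [intervalIntegral.integral_of_le haa, ← integral_indicator measurableSet_Ioc,
      ← integral_sub (hce.integrableOn_Ioc.integrable_indicator measurableSet_Ioc)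
        (integrable_cexp_neg_mul_sq hbre), hJ, ← integral_const_mul]
    refine norm_integral_le_of_norm_le (ig.const_mul _) (Eventually.of_forall fun t => ?_)
    by_cases ht : t ∈ Ioc (-a) a
    · rw [indicator_of_mem ht]
      exact (hcen t (hmem t ht)).2
    · rw [indicator_of_notMem ht, zero_sub, norm_neg, Complex.norm_exp, ← ofReal_pow,
        re_mul_ofReal, neg_re]
      have h1 : a ^ 2 ≤ t ^ 2 := by
        simp only [mem_Ioc, not_and_or, not_lt, not_le] at ht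
        rcases ht with h | h <;> nlinarith
      have h2 : 10 ≤ N / 4 * t ^ 2 := by
        have : N / 4 * a ^ 2 ≤ N / 4 * t ^ 2 := by gcongr
        nlinarith
      have h3 : Real.exp (-10) ≤ 1 / 10 := by
        rw [Real.exp_neg, one_div]
        exact inv_anti₀ (by norm_num) (by linarith [Real.add_one_le_exp 10])
      calc _ ≤ Real.exp (-10 + -(N / 8) * t ^ 2) :=
            Real.exp_le_exp.mpr (by nlinarith [sq_nonneg t])
        _ ≤ _ := by rw [Real.exp_add]; gcongr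
  have g3 : ‖∫ t in (-a)..a, e (t * d) * ω (t * d)‖ ≤ 6 / ν * J := by
    rw [intervalIntegral.integral_of_le haa, ← integral_indicator measurableSet_Ioc, hJ,
      ← integral_const_mul]
    refine norm_integral_le_of_norm_le (ig.const_mul _) (Eventually.of_forall fun t => ?_)
    by_cases ht : t ∈ Ioc (-a) a
    · rw [indicator_of_mem ht, norm_mul]
      have h1 : ‖(t : ℂ) * d‖ ≤ 3 / 2 * |t| := by
        rw [norm_mul, Complex.norm_real, Real.norm_eq_abs, mul_comm]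
        gcongr
      have h2 := hb (t * d) (by linarith [hmem t ht])
      calc _ ≤ ‖e (t * d)‖ * (3 / 2 * |t|) := by gcongr; exact h2.trans h1
        _ = 3 / 2 * (|t| * ‖e (t * d)‖) := by ring
        _ ≤ 3 / 2 * (4 / ν * Real.exp (-(N / 8) * t ^ 2)) :=
            mul_le_mul_of_nonneg_left (hcen t (hmem t ht)).1 (by norm_num)
        _ = _ := by ring
    · rw [indicator_of_notMem ht, norm_zero]
      positivity
  have f3 := norm_sub_norm_le (∫ t : ℝ, exp (-b * t ^ 2)) (∫ t in (-a)..a, e (t * d))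
  rw [norm_sub_rev] at f3
  have f6 : 6 / ν ≤ v / 1000 := by
    rw [div_le_div_iff₀ hν0 (by norm_num)]
    linarith
  refine ⟨J, ν, hJ0, hν0, hν2, ?_, by linarith, g3.trans (by gcongr)⟩
  refine (pow_le_pow_iff_left₀ (by norm_num) (by positivity) two_ne_zero).mp ?_
  rw [mul_pow, hJ2, hν2, div_mul_cancel₀ _ hNp.ne']
  linarith [Real.pi_gt_d2]

/-- the saddle point estimate -/
theorem Sad.saddle (S : Sad v p0 β B A e H) {ω : ℂ → ℂ} (hω : Differentiable ℂ ω)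
    (hb : ∀ τ : ℂ, (‖τ‖ ≤ v ∨ (τ.re = 0 ∧ 0 ≤ τ.im)) → ‖ω τ‖ ≤ ‖τ‖) :
    IntegrableOn (fun p : ℝ => e (p * I)) (Ioi (-v)) ∧
    IntegrableOn (fun p : ℝ => e (p * I) * ω (p * I)) (Ioi (-v)) ∧
    ‖∫ p : ℝ in Ioi (-v), e (p * I) * ω (p * I)‖ ≤ v / 2 * ‖∫ p : ℝ in Ioi (-v), e (p * I)‖ ∧
    1 ≤ (1 + ‖KK v β H 0‖) * ‖∫ p : ℝ in Ioi (-v), e (p * I)‖ := by
  have hv := S.hv
  have hA := S.hA
  obtain ⟨s, hs, hs'⟩ : ∃ s : ℝ, s ^ 2 = 1 ∧ 0 ≤ (H 0).re * s := by
    rcases le_total 0 (H 0).re with h | h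
    exacts [⟨1, by simp, by simpa⟩, ⟨-1, by simp, by simpa⟩]
  obtain ⟨i1, o1⟩ := S.outer hs hs' (ω := fun _ => 1) (by fun_prop) (fun τ h _ => by simpa)
  obtain ⟨i2, o2⟩ := S.outer hs hs' hω (fun τ _ h => hb τ h)
  simp only [mul_one] at i1 o1
  refine ⟨i1, i2, ?_⟩
  obtain ⟨J, ν, hJ0, hν0, hν2, h1, g2, g3⟩ := S.central hs hs' (fun τ h => hb τ (Or.inl h))
  have h2 : ν ≤ 1 + ‖KK v β H 0‖ := by nlinarith [sq_nonneg (ν - 1)]
  have g4 : 3 * v ^ 2 * A * Real.exp (-(β + v ^ 2 * B) * (v / 100) ^ 2 / 16) ≤ 1 / 10 * J := by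
    refine le_of_mul_le_mul_right (le_trans ?_ (S.big2.trans (by linarith))) hν0
    gcongr
  set d : ℂ := s / 2 + I with hd
  set a := v / 100 with ha
  have hd2 : ‖d‖ ^ 2 = 5 / 4 := by
    rw [Complex.sq_norm, normSq_apply]
    simp [hd]
    nlinarith
  have hd1 : 1 ≤ ‖d‖ := by nlinarith [norm_nonneg d]
  have hd3 : ‖d‖ ≤ 3 / 2 := by nlinarith [norm_nonneg d]
  have f1 := norm_sub_norm_le ((∫ t in (-a)..a, e (t * d)) * d)
    ((∫ p : ℝ in Ioi (-v), e (p * I)) * I)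
  have f2 := norm_sub_norm_le ((∫ p : ℝ in Ioi (-v), e (p * I) * ω (p * I)) * I)
    ((∫ t in (-a)..a, e (t * d) * ω (t * d)) * d)
  rw [norm_sub_rev] at f1
  rw [norm_mul, norm_mul, norm_I, mul_one] at f1 f2
  have f4 := le_mul_of_one_le_right (norm_nonneg (∫ t in (-a)..a, e (t * d))) hd1
  have f5 : ‖∫ t in (-a)..a, e (t * d) * ω (t * d)‖ * ‖d‖ ≤ v / 1000 * J * (3 / 2) := by gcongr
  have f7 : 1 / 5 * J ≤ ‖∫ p : ℝ in Ioi (-v), e (p * I)‖ := by linarith
  have f8 : v * (1 / 5 * J) ≤ v * ‖∫ p : ℝ in Ioi (-v), e (p * I)‖ := by gcongr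
  refine ⟨by nlinarith, le_trans (by linarith : 1 ≤ ν * (1 / 5 * J)) ?_⟩
  gcongr

end Pool.Agent.P.MP_2e654e_an.Den
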