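import Pool.Agent.P.MP_2e654e_an.DenC
import Pool.Agent.P.MP_2e654e_an.DenD
import Pool.Agent.P.MP_2e654e_an.DenF

set_option autoImplicit false

open Complex Metric Filter Topology Set MeasureTheory ComplexConjugate

namespace Pool.Agent.P.MP_2e654e_an.Den

variable {Δ μ : ℝ} {f : ℂ → ℂ} {ι : Type} {zz : ι → ℂ} {m : ι → ℝ}

lemma ker_deriv (hd : Differentiable ℂ f) (μ : ℝ) (z : ℂ) {w : ℂ} (hw : f w ≠ 0) :
    HasDerivAt (ker μ f z) ((logDeriv f w + μ * (w - z)) * ker μ f z w) w := by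
  unfold ker
  refine ((hasDerivAt_logDeriv (hd w) hw).mul ((((hasDerivAt_id w).sub_const z).pow 2).const_mul
    ((μ : ℂ) / 2)).cexp).congr_deriv ?_
  simp
  ring

lemma Had.sad (h : Had Δ f zz m) (hΔ : 0 < Δ) (hμ : 0 < μ) (hd : Differentiable ℂ f)
    (hr : ∀ w, f (conj w) = conj (f w)) {z w1 : ℂ} {g : ℝ} (hg : 0 < g)
    (hgy : g ≤ μ * z.im) (hs : logDeriv f w1 = -μ * (w1 - z)) (hv1 : 100 ≤ w1.im)
    (hv2 : 7 * Δ ≤ w1.im) (hv3 : 300000000 ≤ w1.im * g)
    (hv4 : 3 * w1.im ^ 2 * Real.exp (36 * μ * Δ ^ 2) * Real.exp (-(g / 160000 * w1.im)) *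
      (1 + 7 * μ) ≤ 1 / 2) :
    ‖KK w1.im (μ - WW f w1) (fun τ => HH zz m w1 (w1 + τ)) 0‖ ≤ 7 * μ ∧
    Sad w1.im (6 * Δ - w1.im) (μ - WW f w1) (BB zz m w1) (Real.exp (36 * μ * Δ ^ 2))
      (fun τ => ker μ f z (w1 + τ) / ker μ f z w1) (fun τ => HH zz m w1 (w1 + τ)) := by
  set v := w1.im with hv
  have hv0 : 0 < v := by linarith
  have h6 : 6 * Δ ≤ v := by linarith
  have hy : 0 ≤ z.im := by
    by_contra hc
    nlinarith
  have hne : ∀ w : ℂ, Δ < w.im → f w ≠ 0 := fun w hw => h.ne' hw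
  have hk0 : ker μ f z w1 ≠ 0 := mul_ne_zero (hne w1 (by linarith)) (exp_ne_zero _)
  have hW : WW f w1 * v = μ * (v - z.im) := by
    rw [WW, div_mul_cancel₀ _ hv0.ne', hs]
    simp [hv]
  have hβ : 0 ≤ μ - WW f w1 := by
    by_contra hc
    nlinarith
  obtain ⟨b1, b2⟩ := h.H_le hΔ hr h6
  have hB := h.B0 w1
  have hB' : 0 ≤ v ^ 2 * BB zz m w1 := by positivity
  have hA : 1 ≤ Real.exp (36 * μ * Δ ^ 2) := Real.one_le_exp (by positivity)
  have hvκ : g ≤ v * (μ - WW f w1 + v ^ 2 * BB zz m w1) := by nlinarith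
  have hN : ‖KK v (μ - WW f w1) (fun τ => HH zz m w1 (w1 + τ)) 0‖ ≤ 7 * μ := by
    unfold KK
    refine (norm_add_le _ _).trans ?_
    beta_reduce
    rw [Complex.norm_real, Real.norm_of_nonneg hβ, zero_add, add_zero, norm_mul, norm_mul,
      norm_mul, norm_I, Complex.norm_real, Real.norm_of_nonneg hv0.le, Complex.norm_ofNat]
    linarith
  refine ⟨hN, hv1, by linarith, hβ, hB, hA, ?_, by simp [hk0], fun τ hτ => ?_, fun p hp => ?_,
    fun p hp => ?_, ?_, fun τ hτ => ?_, fun p hp hp' => ?_, by nlinarith, ?_⟩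
  · exact ((ker_diff hd μ z).comp (differentiable_id.const_add w1)).div_const _
  · have h1 : Δ < (w1 + τ).im := by rw [add_im]; linarith
    refine (((ker_deriv hd μ z (hne _ h1)).comp_const_add w1 τ).div_const _).congr_deriv ?_
    have h2 := h.fac hΔ hr h6 h1
    have h3 : w1 + τ - conj w1 = τ + 2 * v * I := by
      rw [add_sub_right_comm, sub_conj]
      push_cast
      ring
    rw [hs, h3] at h2
    unfold KK
    push_cast
    linear_combination (ker μ f z (w1 + τ) / ker μ f z w1) * h2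
  · have := h.imH hΔ h6 (w := w1 + p * I) (by simp; linarith) (by simp) (L := 0) (fun i => by
      rw [zero_mul]
      exact mul_nonneg (by simp; linarith) (sq_nonneg _))
    linarith
  · have h1 := h.imH_up hΔ h6 (w := w1 + p * I) (by simpa) (by simp)
    have h2 := h.imH hΔ h6 (w := w1 + p * I) (by simp; linarith) (by simp) (L := 0) (fun i => by
      rw [zero_mul]
      exact mul_nonneg (by simp; linarith) (sq_nonneg _))
    simp only [add_im, mul_I_im, ofReal_re] at h1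
    nlinarith
  · have := h.imH hΔ h6 (w := w1) (by linarith) rfl (L := v / 4) (fun i =>
      mul_le_mul_of_nonneg_right (by linarith) (sq_nonneg _))
    simp only [add_zero]
    linarith
  · simpa using h.Hlip hΔ h6 (w := w1 + τ) (by simpa using hτ)
  · simp only [norm_div]
    rw [← mul_div_assoc]
    refine div_le_div_of_nonneg_right ?_ (norm_nonneg _)
    have h1 := h.bottom hΔ hr (c := w1 + (6 * Δ - v : ℝ) * I) (p := 6 * Δ - v - p)
      (by simp; linarith) (by linarith) (by simp; linarith)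
    rw [show w1 + (6 * Δ - v : ℝ) * I - (6 * Δ - v - p : ℝ) * I = w1 + p * I by
      push_cast; ring] at h1
    rw [norm_ker, norm_ker, mul_left_comm, ← Real.exp_add]
    gcongr
    simp only [sub_re, add_re, mul_I_re, ofReal_im, sub_im, add_im, mul_I_im, ofReal_re, ← hv]
    have h2 : 0 ≤ (6 * Δ - (v + p)) * z.im := mul_nonneg (by linarith) hy
    have h3 : (v + (6 * Δ - v) - z.im) ^ 2 - (v + p - z.im) ^ 2 ≤ 72 * Δ ^ 2 := by
      nlinarith [sq_nonneg (v + p), sq_nonneg Δ]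
    nlinarith
  · refine le_trans ?_ hv4
    gcongr
    nlinarith

lemma split_refl {g : ℝ → ℂ} (hg : Integrable g) (c : ℝ) :
    ∫ p, g p = (∫ p in Ioi c, g p) + ∫ p in Ioi c, g (2 * c - p) := by
  have h := (Measure.measurePreserving_sub_left volume (2 * c)).setIntegral_preimage_emb
    (Homeomorph.subLeft (2 * c)).measurableEmbedding g (Iio c)
  have e : (fun t => 2 * c - t) ⁻¹' Iio c = Ioi c := by
    ext t
    simp only [mem_preimage, mem_Iio, mem_Ioi]
    constructor <;> intro h <;> linarith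
  rw [e] at h
  rw [h, ← integral_Iic_eq_integral_Iio, add_comm,
    intervalIntegral.integral_Iic_add_Ioi hg.integrableOn hg.integrableOn]

lemma refl_pt (w1 : ℂ) (p : ℝ) : w1 + (2 * -w1.im - p : ℝ) * I = conj (w1 + p * I) := by
  apply Complex.ext <;> simp
  ring

lemma ker_conj (hr : ∀ w, f (conj w) = conj (f w)) (z w : ℂ) :
    ker μ f z (conj w) = conj (ker μ f z w * exp (2 * μ * z.im * I * (w - z.re))) := by
  unfold ker
  rw [hr, mul_assoc, ← Complex.exp_add, map_mul, ← exp_conj]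
  congr 2
  simp only [map_add, map_mul, map_sub, map_pow, map_div₀, conj_ofReal, conj_I, map_ofNat]
  have h1 : conj z = z.re - z.im * I := by apply Complex.ext <;> simp
  have h2 : z = z.re + z.im * I := (re_add_im z).symm
  rw [h1]
  nth_rewrite 1 [h2]
  ring

lemma weight_bound {c v : ℝ} (hc : 0 < c) (hv : 0 < v) (τ : ℂ)
    (h : ‖τ‖ ≤ v ∨ (τ.re = 0 ∧ 0 ≤ τ.im)) :
    ‖exp (c * I * τ) - 1‖ ≤ (Real.exp (c * v) - 1) / v * ‖τ‖ := by
  rcases h with h | ⟨h1, h2⟩
  · have h1 := norm_exp_sub_sum_le_exp_norm_sub_sum (c * I * τ) 1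
    simp only [Finset.range_one, Finset.sum_singleton, pow_zero, Nat.factorial_zero, Nat.cast_one,
      div_one, norm_mul, norm_I, mul_one, Complex.norm_real, Real.norm_of_nonneg hc.le] at h1
    have h2 := convexOn_exp.2 (mem_univ 0) (mem_univ (c * v))
      (sub_nonneg.mpr ((div_le_one hv).mpr h)) (div_nonneg (norm_nonneg τ) hv.le) (by ring)
    simp only [smul_eq_mul, mul_zero, zero_add, Real.exp_zero, mul_one] at h2
    rw [show ‖τ‖ / v * (c * v) = c * ‖τ‖ by field_simp] at h2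
    calc _ ≤ _ := h1
      _ ≤ 1 - ‖τ‖ / v + ‖τ‖ / v * Real.exp (c * v) - 1 := by linarith
      _ = _ := by ring
  · have h3 : τ = τ.im * I := by apply Complex.ext <;> simp [h1]
    have h4 : exp (c * I * τ) - 1 = ((Real.exp (-(c * τ.im)) - 1 : ℝ) : ℂ) := by
      push_cast
      congr 2
      nth_rewrite 1 [h3]
      linear_combination (c * τ.im : ℂ) * I_mul_I
    have h5 : ‖τ‖ = τ.im := by
      nth_rewrite 1 [h3]
      simp [h2]
    have h6 : c ≤ (Real.exp (c * v) - 1) / v := by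
      rw [le_div_iff₀ hv]
      linarith [Real.add_one_le_exp (c * v)]
    have h7 : Real.exp (-(c * τ.im)) ≤ 1 := Real.exp_le_one_iff.mpr (by nlinarith)
    rw [h4, h5, Complex.norm_real, Real.norm_of_nonpos (by linarith)]
    nlinarith [Real.add_one_le_exp (-(c * τ.im))]

lemma Sad.heat_lower {lam p0 β B A : ℝ} {H : ℂ → ℂ} {z w1 : ℂ} (hd : Differentiable ℂ f)
    (hg : Gr f) (hμ : 0 < μ) (hl : 2 * lam * μ = 1) (hr : ∀ w, f (conj w) = conj (f w))
    (hk0 : ker μ f z w1 ≠ 0)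
    (S : Sad w1.im p0 β B A (fun τ => ker μ f z (w1 + τ) / ker μ f z w1) H)
    (hy : 1 ≤ 2 * μ * z.im * w1.im) :
    ‖ker μ f z w1‖ ≤ 4 * (1 + ‖KK w1.im β H 0‖) * ‖heat lam f z * (mom μ 0 : ℝ)‖ := by
  set v := w1.im with hv
  have hv0 : 0 < v := by linarith [S.hv]
  set c := 2 * μ * z.im with hc
  have hc0 : 0 < c := by
    by_contra hc
    nlinarith
  set L := (Real.exp (c * v) - 1) / v with hL
  have hL0 : 0 < L := div_pos (by linarith [Real.add_one_le_exp (c * v), mul_pos hc0 hv0]) hv0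
  have hLc : (L : ℂ) ≠ 0 := by exact_mod_cast hL0.ne'
  obtain ⟨i1, i2, hlt, hlow⟩ := S.saddle (ω := fun τ => (exp (c * I * τ) - 1) / L) (by fun_prop)
    (fun τ hτ => by
      rw [norm_div, Complex.norm_real, Real.norm_of_nonneg hL0.le, div_le_iff₀' hL0]
      exact weight_bound hc0 hv0 τ hτ)
  have h1 := heat_eq hd hg hμ hl z w1
  rw [split_refl (ker_int hd hg hμ z w1) (-v)] at h1
  simp only [hv, refl_pt, ker_conj hr] at h1
  rw [integral_conj] at h1
  set E0 := ker μ f z w1 with hE0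
  set P := ∫ p : ℝ in Ioi (-v), ker μ f z (w1 + p * I) / E0 with hP
  set Q := ∫ p : ℝ in Ioi (-v), ker μ f z (w1 + p * I) / E0 * ((exp (c * I * (p * I)) - 1) / L)
    with hQ
  have e1 : ∫ p : ℝ in Ioi (-v), ker μ f z (w1 + p * I) = E0 * P := by
    rw [hP, ← integral_const_mul]
    congr 1
    ext p
    field_simp
  have e2 : ∫ p : ℝ in Ioi (-v), ker μ f z (w1 + p * I) *
      exp (2 * μ * z.im * I * (w1 + p * I - z.re)) =
        E0 * exp (c * I * (w1 - z.re)) * (P + L * Q) := by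
    rw [hP, hQ, ← integral_const_mul, ← integral_add i1 (i2.const_mul _), ← integral_const_mul]
    congr 1
    ext p
    rw [show 2 * μ * z.im * I * (w1 + p * I - z.re) = c * I * (w1 - z.re) + c * I * (p * I) by
      rw [hc]; push_cast; ring, Complex.exp_add]
    field_simp
    ring
  rw [← hv, e1, e2] at h1
  have h2 := norm_sub_le (heat lam f z * (mom μ 0 : ℝ))
    (conj (E0 * exp (c * I * (w1 - z.re)) * (P + L * Q)))
  rw [h1, add_sub_cancel_right, ← h1, Complex.norm_conj, norm_mul E0, norm_mul _ (P + _),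
    norm_mul E0, Complex.norm_exp] at h2
  have h3 : (c * I * (w1 - z.re)).re = -(c * v) := by simp [hv]
  have h4 : ‖P + L * Q‖ ≤ (Real.exp (c * v) + 1) / 2 * ‖P‖ := by
    refine (norm_add_le _ _).trans ?_
    rw [norm_mul, Complex.norm_real, Real.norm_of_nonneg hL0.le]
    have h5 := mul_le_mul_of_nonneg_left hlt hL0.le
    rw [← mul_assoc, mul_div_assoc', hL, div_mul_cancel₀ _ hv0.ne'] at h5
    linarith
  have h5 : Real.exp (-(c * v)) * Real.exp (c * v) = 1 := by rw [← Real.exp_add]; simp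
  have h6 : Real.exp (-(c * v)) ≤ 1 / 2 := by
    nlinarith [Real.add_one_le_exp (c * v), Real.exp_pos (-(c * v))]
  have h7 : Real.exp (-(c * v)) * ‖P + L * Q‖ ≤ 3 / 4 * ‖P‖ := by
    calc _ ≤ Real.exp (-(c * v)) * ((Real.exp (c * v) + 1) / 2 * ‖P‖) := by gcongr
      _ = (1 + Real.exp (-(c * v))) / 2 * ‖P‖ := by linear_combination ‖P‖ / 2 * h5
      _ ≤ _ := mul_le_mul_of_nonneg_right (by linarith) (norm_nonneg _)
  rw [h3, mul_assoc] at h2
  have h8 := mul_le_mul_of_nonneg_left h7 (norm_nonneg E0)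
  have h9 : ‖E0‖ * ‖P‖ ≤ 4 * ‖heat lam f z * (mom μ 0 : ℝ)‖ := by linarith
  calc _ ≤ ‖E0‖ * ((1 + ‖KK v β H 0‖) * ‖P‖) := le_mul_of_one_le_right (norm_nonneg _) hlow
    _ = (1 + ‖KK v β H 0‖) * (‖E0‖ * ‖P‖) := by ring
    _ ≤ (1 + ‖KK v β H 0‖) * (4 * ‖heat lam f z * (mom μ 0 : ℝ)‖) := by gcongr
    _ = _ := by ring

/-- real entire functions of small growth whose zeros lie in a strip -/
structure Cl (Δ : ℝ) (f : ℂ → ℂ) : Prop where
  d : Differentiable ℂ f
  g : Gr f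
  z : ∀ a, f a = 0 → |a.im| ≤ Δ
  r : ∀ w, f (conj w) = conj (f w)

lemma Cl.had (h : Cl Δ f) : ∃ (ι : Type) (z : ι → ℂ) (m : ι → ℝ), Had Δ f z m :=
  ⟨_, _, _, exists_had h.d h.g h.z⟩

/-- lower bound at a high saddle point -/
lemma saddle_lower {lam ε : ℝ} (hΔ : 0 < Δ) (hμ : 0 < μ) (hl : 2 * lam * μ = 1) (hε : 0 < ε) :
    ∃ v0 : ℝ, 6 * Δ < v0 ∧ ∀ f : ℂ → ℂ, Cl Δ f → ∀ z w : ℂ, ε ≤ z.im → v0 ≤ w.im →
      logDeriv f w = -μ * (w - z) →
      ‖ker μ f z w‖ ≤ 4 * (1 + 7 * μ) * ‖heat lam f z * (mom μ 0 : ℝ)‖ := by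
  have hg : 0 < μ * ε := by positivity
  have h1 : Tendsto (fun v : ℝ => 3 * Real.exp (36 * μ * Δ ^ 2) * (1 + 7 * μ) *
      (v ^ 2 * Real.exp (-(μ * ε / 160000 * v)))) atTop
      (𝓝 (3 * Real.exp (36 * μ * Δ ^ 2) * (1 + 7 * μ) * 0)) := by
    refine Tendsto.const_mul _ ?_
    have h2 := ((Real.tendsto_pow_mul_exp_neg_atTop_nhds_zero 2).comp
      (tendsto_id.const_mul_atTop (show 0 < μ * ε / 160000 by positivity))).const_mul
      ((μ * ε / 160000) ^ 2)⁻¹
    rw [mul_zero] at h2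
    refine h2.congr fun v => ?_
    simp only [Function.comp, id]
    field_simp
  rw [mul_zero] at h1
  obtain ⟨v0, hv0⟩ := eventually_atTop.mp ((h1.eventually_le_const (show (0 : ℝ) < 1 / 2 by
    norm_num)).and ((eventually_ge_atTop 100).and ((eventually_ge_atTop (7 * Δ)).and
      ((tendsto_id.atTop_mul_const hg).eventually_ge_atTop 300000000))))
  refine ⟨v0, by linarith [(hv0 v0 le_rfl).2.2.1], fun f hf z w hz hw hs => ?_⟩
  obtain ⟨ι, zz, m, h⟩ := hf.had
  obtain ⟨a1, a2, a3, a4⟩ := hv0 _ hw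
  have hgy : μ * ε ≤ μ * z.im := by gcongr
  obtain ⟨hN, S⟩ := h.sad hΔ hμ hf.d hf.r hg hgy hs a2 a3 a4 (by linarith)
  refine (S.heat_lower hf.d hf.g hμ hl hf.r (mul_ne_zero (h.ne' (by linarith)) (exp_ne_zero _))
    (by simp only [id] at a4; nlinarith)).trans ?_
  gcongr

end Pool.Agent.P.MP_2e654e_an.Den
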