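import Pool.Agent.P.MP_2e654e_an.DenE

set_option autoImplicit false

open Complex Metric Filter Topology Set MeasureTheory ComplexConjugate

namespace Pool.Agent.P.MP_2e654e_an.Den

variable {Δ μ : ℝ} {f : ℂ → ℂ} {ι : Type} {zz : ι → ℂ} {m : ι → ℝ}

lemma Had.sublin (h : Had Δ f zz m) (hΔ : 0 < Δ) (M : ℝ) {δ : ℝ} (hδ : 0 < δ) :
    ∃ C : ℝ, 0 ≤ C ∧ ∀ w : ℂ, f w ≠ 0 → SS zz m w ≤ M →
      ‖logDeriv f w‖ ≤ δ * ‖w‖ + C := by
  set c : ℂ := (2 * Δ : ℝ) * I with hc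
  have hci : c.im = 2 * Δ := by simp [hc]
  set θ : ℝ := δ / (2 * (|M| + 1)) with hθ
  have hθ0 : 0 < θ := by positivity
  obtain ⟨s, hs⟩ := ((tendsto_tsum_compl_atTop_zero fun i => m i / ‖c - zz i‖ ^ 2).eventually_lt_const
    (show 0 < θ * δ / 2 by positivity)).exists
  refine ⟨‖logDeriv f c‖ + ∑ i ∈ s, (|M| + m i + m i * Δ⁻¹) + δ * ‖c‖, by
    have : 0 ≤ ∑ i ∈ s, (|M| + m i + m i * Δ⁻¹) :=
      Finset.sum_nonneg fun i _ => by have := h.m0 i; positivity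
    positivity, fun w hw hM => ?_⟩
  have h1 := h.hs' w c hw (h.ne' (by linarith))
  have s1 := (h.sS' hw).summable
  have s2 := (h.sS (w := c) (by linarith)).summable
  have h2 := h1.summable.sum_add_tsum_subtype_compl s
  rw [h1.tsum_eq] at h2
  have d1 : ∀ i, 0 < ‖w - zz i‖ := fun i => norm_pos_iff.mpr (h.sub_ne hw i)
  have d2 : ∀ i, Δ ≤ ‖c - zz i‖ := fun i => by linarith [h.dist c i]
  have h3 : ‖∑ i ∈ s, (m i : ℂ) * ((w - zz i)⁻¹ - (c - zz i)⁻¹)‖ ≤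
      ∑ i ∈ s, (|M| + m i + m i * Δ⁻¹) := by
    refine norm_sum_le_of_le _ fun i _ => ?_
    have p0 := h.m0 i
    have p1 := d1 i
    have p2 : m i / ‖w - zz i‖ ^ 2 ≤ |M| := (s1.le_tsum i fun j _ => by
      have := h.m0 j; positivity).trans (hM.trans (le_abs_self M))
    have p3 := mul_le_mul_of_nonneg_left (inv_mul_le p1 one_pos) p0
    rw [norm_mul, Complex.norm_real, Real.norm_of_nonneg p0]
    refine (mul_le_mul_of_nonneg_left (norm_sub_le _ _) p0).trans ?_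
    rw [norm_inv, norm_inv, mul_add]
    simp only [mul_one, one_pow, div_one, mul_add, mul_one_div] at p3
    rw [div_eq_mul_inv] at p3
    exact add_le_add (by linarith) (mul_le_mul_of_nonneg_left (inv_anti₀ hΔ (d2 i)) p0)
  have h4 := tsum_of_norm_bounded
    (f := fun i : {i // i ∉ s} => (m i : ℂ) * ((w - zz i)⁻¹ - (c - zz i)⁻¹))
    ((((s1.subtype (fun i => i ∉ s)).hasSum.mul_left θ).add
      ((s2.subtype (fun i => i ∉ s)).hasSum.mul_left θ⁻¹)).mul_left ‖w - c‖) (fun i => by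
      have p1 : 0 < ‖w - zz i‖ := d1 i
      have p2 : 0 < ‖c - zz i‖ := hΔ.trans_le (d2 i)
      have p3 := h.m0 i
      rw [norm_mul, norm_inv_diff (norm_pos_iff.mp p1) (norm_pos_iff.mp p2), Complex.norm_real,
        Real.norm_of_nonneg p3]
      have p4 := inv_mul_le p1 (mul_pos hθ0 p2)
      calc _ = ‖w - c‖ * m i * θ * (1 / (‖w - zz i‖ * (θ * ‖c - zz i‖))) := by field_simp
        _ ≤ ‖w - c‖ * m i * θ * (1 / ‖w - zz i‖ ^ 2 + 1 / (θ * ‖c - zz i‖) ^ 2) := by gcongr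
        _ = _ := by
          simp only [Function.comp]
          field_simp)
  have h5 : ∑' i : {i // i ∉ s}, m i / ‖w - zz i‖ ^ 2 ≤ |M| + 1 :=
    (s1.tsum_subtype_le _ {i | i ∉ s} fun i => by have := h.m0 i; positivity).trans
      (hM.trans (by linarith [le_abs_self M]))
  have h6 : θ * ∑' i : {i // i ∉ s}, m i / ‖w - zz i‖ ^ 2 +
      θ⁻¹ * ∑' i : {i // i ∉ s}, m i / ‖c - zz i‖ ^ 2 ≤ δ := by
    calc _ ≤ θ * (|M| + 1) + θ⁻¹ * (θ * δ / 2) := by gcongr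
      _ = δ := by rw [hθ]; field_simp; ring
  have h7 := h4.trans (mul_le_mul_of_nonneg_left h6 (norm_nonneg _))
  have h8 := norm_add_le (logDeriv f w - logDeriv f c) (logDeriv f c)
  rw [sub_add_cancel, ← h2] at h8
  have h9 := norm_add_le (∑ i ∈ s, (m i : ℂ) * ((w - zz i)⁻¹ - (c - zz i)⁻¹))
    (∑' i : {i // i ∉ s}, (m i : ℂ) * ((w - zz i)⁻¹ - (c - zz i)⁻¹))
  nlinarith [mul_le_mul_of_nonneg_left (norm_sub_le w c) hδ.le]

lemma exists_cont_root {F : ℝ → ℝ → ℝ} {a : ℝ} (hc : ∀ q, a ≤ q → Continuous fun ξ => F ξ q)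
    (hc' : ∀ ξ, ContinuousOn (F ξ) (Ici a)) (hm : ∀ ξ v q, a ≤ v → v < q → F ξ q < F ξ v)
    (hn : ∀ ξ, ∃ q, a ≤ q ∧ F ξ q < 0) :
    ∃ v : ℝ → ℝ, Continuous v ∧ ∀ ξ, a ≤ v ξ ∧ (F ξ (v ξ) = 0 ∨ (v ξ = a ∧ F ξ a < 0)) := by
  have key : ∀ ξ, ∃ v, a ≤ v ∧ (F ξ v = 0 ∨ (v = a ∧ F ξ a < 0)) := by
    intro ξ
    rcases lt_or_ge (F ξ a) 0 with h | h
    · exact ⟨a, le_rfl, Or.inr ⟨rfl, h⟩⟩
    · obtain ⟨q, hq, hq'⟩ := hn ξ
      obtain ⟨v, hv, hv'⟩ := intermediate_value_Icc' hq ((hc' ξ).mono Icc_subset_Ici_self)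
        (show (0 : ℝ) ∈ Icc (F ξ q) (F ξ a) from ⟨hq'.le, h⟩)
      exact ⟨v, hv.1, Or.inl hv'⟩
  choose v hv using key
  have hle : ∀ ξ, F ξ (v ξ) ≤ 0 := fun ξ => by
    rcases (hv ξ).2 with h | ⟨h1, h2⟩
    exacts [h.le, by rw [h1]; exact h2.le]
  refine ⟨v, OrderTopology.continuous_iff.mpr fun q => ⟨?_, ?_⟩, hv⟩
  · rcases lt_or_ge q a with h | h
    · rw [eq_univ_of_forall (s := v ⁻¹' Ioi q) fun ξ => h.trans_le (hv ξ).1]
      exact isOpen_univ
    · have : v ⁻¹' Ioi q = {ξ | 0 < F ξ q} := by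
        ext ξ
        refine ⟨fun h1 => ?_, fun h1 => (lt_of_not_ge fun h2 => ?_ : q < v ξ)⟩
        · rcases (hv ξ).2 with h2 | ⟨h2, -⟩
          · exact h2.symm.trans_lt (hm ξ q _ h h1)
          · exact absurd (h2 ▸ h1 : q < a) (not_lt.mpr h)
        · rcases h2.eq_or_lt with h3 | h3
          · exact absurd (h3 ▸ hle ξ) (not_le.mpr h1)
          · exact absurd ((hm ξ _ q (hv ξ).1 h3).trans_le (hle ξ)) (not_lt.mpr (le_of_lt h1))
      rw [this]
      exact isOpen_lt continuous_const (hc q h)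
  · rcases le_or_gt q a with h | h
    · rw [eq_empty_of_forall_notMem (s := v ⁻¹' Iio q) fun ξ h1 =>
        absurd (h.trans (hv ξ).1) (not_le.mpr h1)]
      exact isOpen_empty
    · have : v ⁻¹' Iio q = {ξ | F ξ q < 0} := by
        ext ξ
        refine ⟨fun h1 => (hm ξ _ q (hv ξ).1 h1).trans_le (hle ξ),
          fun h1 => (lt_of_not_ge fun h2 => ?_ : v ξ < q)⟩
        rcases (hv ξ).2 with h3 | ⟨h3, -⟩
        · rcases h2.eq_or_lt with h4 | h4
          · exact absurd (h4 ▸ h3 : F ξ q = 0) (ne_of_lt h1)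
          · exact absurd ((hm ξ q _ h.le h4).trans h1) (by rw [h3]; exact lt_irrefl 0)
        · exact absurd (h3 ▸ h2 : q ≤ a) (not_le.mpr h)
      rw [this]
      exact isOpen_lt (hc q h.le) continuous_const

lemma Had.exists_pre (h : Had Δ f zz m) (hΔ : 0 < Δ) (hμ : 0 < μ) (hd : Differentiable ℂ f)
    (hr : ∀ w, f (conj w) = conj (f w)) :
    ∃ C : ℝ, 0 ≤ C ∧ ∀ z : ℂ, 0 < z.im → ∃ w : ℂ, 6 * Δ ≤ w.im ∧
      WW f w + μ * z.im / w.im ≤ μ ∧ z.re = w.re + (logDeriv f w).re / μ ∧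
      (logDeriv f w = -μ * (w - z) ∨ w.im = 6 * Δ) ∧
      |z.re| - 5 * (z.im + C) ≤ 2 * (|w.re| - w.im) := by
  have hne : ∀ w : ℂ, Δ < w.im → f w ≠ 0 := fun w hw => h.ne' hw
  have hu : ∀ w : ℂ, Δ < w.im → ContinuousAt (logDeriv f) w := fun w hw =>
    ((logDeriv_diffOn (isOpen_lt continuous_const continuous_im) hd.differentiableOn
      hne).differentiableAt ((isOpen_lt continuous_const continuous_im).mem_nhds hw)).continuousAt
  have hW0 : ∀ w : ℂ, 6 * Δ ≤ w.im → SS zz m w ≤ 2 * WW f w := fun w hw =>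
    h.S_le hΔ hr (by norm_num) (by linarith) (by linarith)
  have hWq : ∀ ξ q : ℝ, WW f (ξ + q * I) = -(logDeriv f (ξ + q * I)).im / q := fun ξ q => by
    simp [WW]
  have hn : ∀ ξ q : ℝ, 0 ≤ q → ‖(ξ : ℂ) + q * I‖ ≤ |ξ| + q := fun ξ q hq => by
    simpa [abs_of_nonneg hq] using Complex.norm_le_abs_re_add_abs_im (ξ + q * I)
  obtain ⟨C, hC0, hC⟩ := h.sublin hΔ (2 * μ) (δ := μ / 4) (by positivity)
  refine ⟨C / μ + 6 * Δ, by positivity, fun z hy' => ?_⟩
  have hy := hy'.le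
  obtain ⟨v, hvc, hv⟩ := exists_cont_root (a := 6 * Δ)
    (F := fun ξ q => WW f (ξ + q * I) - μ + μ * z.im / q) (fun q hq => by
      simp only [hWq]
      have : Continuous fun ξ : ℝ => logDeriv f (ξ + q * I) :=
        continuous_iff_continuousAt.mpr fun ξ => ContinuousAt.comp (f := fun ξ : ℝ => ξ + q * I)
          (hu _ (by simp; linarith)) (by fun_prop)
      fun_prop) (fun ξ q hq => by
      simp only [hWq]
      have h1 : ContinuousAt (fun q : ℝ => logDeriv f (ξ + q * I)) q :=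
        ContinuousAt.comp (f := fun q : ℝ => ξ + q * I)
          (hu _ (by simp; linarith [mem_Ici.mp hq])) (by fun_prop)
      have h2 : q ≠ 0 := by linarith [mem_Ici.mp hq]
      refine ContinuousAt.continuousWithinAt ?_
      fun_prop (disch := assumption)) (fun ξ v q h1 h2 => by
      have h3 := h.W_anti hΔ hr (ξ := ξ) h1 h2.le
      have h4 : μ * z.im / q < μ * z.im / v :=
        div_lt_div_of_pos_left (by positivity) (by linarith) h2
      linarith) (fun ξ => by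
      obtain ⟨C', hC0', hC'⟩ := h.sublin hΔ (2 * WW f (ξ + (6 * Δ : ℝ) * I)) (δ := μ / 4)
        (by positivity)
      set q := 7 * Δ + |ξ| + 2 * (C' / μ) + 2 * z.im with hq
      have h1 : 0 ≤ C' / μ := by positivity
      have h2 : 6 * Δ < q := by linarith [abs_nonneg ξ]
      have h3 := hC' (ξ + q * I) (hne _ (by simp; linarith)) ((hW0 _ (by simp; linarith)).trans
        (by linarith [h.W_anti hΔ hr (ξ := ξ) le_rfl h2.le]))
      refine ⟨q, h2.le, ?_⟩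
      have h4 := (neg_le_abs _).trans (abs_im_le_norm (logDeriv f (ξ + q * I)))
      have h5 := hn ξ q (by linarith)
      have h6 : μ * (C' / μ) = C' := by field_simp
      rw [hWq, sub_add_eq_add_sub, ← add_div, sub_neg, div_lt_iff₀ (by linarith)]
      nlinarith [mul_pos hμ hΔ, mul_nonneg hμ.le (abs_nonneg ξ)])
  have hv0 : ∀ ξ, 0 < v ξ := fun ξ => by linarith [(hv ξ).1]
  have hWμ' : ∀ ξ : ℝ, WW f (ξ + v ξ * I) + μ * z.im / v ξ ≤ μ := fun ξ => by
    rcases (hv ξ).2 with h2 | ⟨h2, h3⟩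
    · linarith
    · rw [← h2] at h3
      linarith
  have hWμ : ∀ ξ : ℝ, WW f (ξ + v ξ * I) ≤ μ := fun ξ => by
    have h1 : 0 ≤ μ * z.im / v ξ := by have := hv0 ξ; positivity
    linarith [hWμ' ξ]
  have hroot : ∀ ξ : ℝ, WW f (ξ + v ξ * I) - μ + μ * z.im / v ξ = 0 →
      (logDeriv f (ξ + v ξ * I)).im = -μ * (v ξ - z.im) := fun ξ h1 => by
    rw [hWq] at h1
    have := (hv0 ξ).ne'
    field_simp at h1
    linarith
  set D := z.im + (C / μ + 6 * Δ) with hD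
  have hCμ : μ * (C / μ) = C := by field_simp
  have hb : ∀ ξ : ℝ, v ξ ≤ |ξ| / 3 + 4 / 3 * D ∧
      ‖logDeriv f (ξ + v ξ * I)‖ ≤ μ * (|ξ| / 3 + 2 * D) := fun ξ => by
    have h1 := hC (ξ + v ξ * I) (hne _ (by simp; linarith [(hv ξ).1]))
      ((hW0 _ (by simp; linarith [(hv ξ).1])).trans (by linarith [hWμ ξ]))
    have h2 := hn ξ (v ξ) (hv0 ξ).le
    have h3 : 0 ≤ C / μ := by positivity
    have h4 : v ξ ≤ |ξ| / 3 + 4 / 3 * D := by
      rcases (hv ξ).2 with h5 | ⟨h5, -⟩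
      · have h6 := (neg_le_abs _).trans (abs_im_le_norm (logDeriv f (ξ + v ξ * I)))
        rw [hroot ξ h5] at h6
        refine le_of_mul_le_mul_left ?_ hμ
        nlinarith [mul_pos hμ hΔ]
      · linarith [abs_nonneg ξ]
    exact ⟨h4, by nlinarith [mul_pos hμ hΔ, mul_nonneg hμ.le hy]⟩
  have hψ : Continuous fun ξ : ℝ => ξ + (logDeriv f (ξ + v ξ * I)).re / μ := by
    have : Continuous fun ξ : ℝ => logDeriv f (ξ + v ξ * I) :=
      continuous_iff_continuousAt.mpr fun ξ => ContinuousAt.comp (f := fun ξ : ℝ => ξ + v ξ * I)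
        (hu _ (by simp; linarith [(hv ξ).1])) (by fun_prop)
    fun_prop
  have hψb : ∀ ξ : ℝ, |(logDeriv f (ξ + v ξ * I)).re / μ| ≤ |ξ| / 3 + 2 * D := fun ξ => by
    rw [abs_div, abs_of_pos hμ, div_le_iff₀' hμ]
    exact (abs_re_le_norm _).trans (hb ξ).2
  have hD0 : 0 ≤ D := by positivity
  have hL : 0 ≤ 2 * |z.re| + 3 * D := by positivity
  obtain ⟨ξ, hξ⟩ := intermediate_value_univ (-(2 * |z.re| + 3 * D)) (2 * |z.re| + 3 * D) hψ
    (show z.re ∈ Icc _ _ from ⟨by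
      have := (abs_le.mp (hψb (-(2 * |z.re| + 3 * D)))).2
      rw [abs_neg, abs_of_nonneg hL] at this
      linarith [neg_abs_le z.re, abs_nonneg z.re], by
      have := (abs_le.mp (hψb (2 * |z.re| + 3 * D))).1
      rw [abs_of_nonneg hL] at this
      linarith [le_abs_self z.re, abs_nonneg z.re]⟩)
  refine ⟨ξ + v ξ * I, by simpa using (hv ξ).1, by simpa using hWμ' ξ, by simpa using hξ.symm,
    ?_, ?_⟩
  · rcases (hv ξ).2 with h1 | ⟨h1, h2⟩
    · left
      apply Complex.ext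
      · beta_reduce at hξ
        field_simp at hξ
        simp
        linarith
      · simpa using hroot ξ h1
    · exact Or.inr (by simpa using h1)
  · have h1 := abs_add_le ξ ((logDeriv f (ξ + v ξ * I)).re / μ)
    beta_reduce at hξ
    rw [hξ] at h1
    simp only [add_re, ofReal_re, mul_I_re, ofReal_im, neg_zero, add_zero, add_im, mul_I_im,
      zero_add]
    linarith [hψb ξ, (hb ξ).1, abs_nonneg z.re]

end Pool.Agent.P.MP_2e654e_an.Den
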