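import Pool.Agent.P.MP_2e654e_an.DenG

set_option autoImplicit false

open Complex Metric Filter Topology Set MeasureTheory ComplexConjugate

namespace Pool.Agent.P.MP_2e654e_an.Den

lemma gr_of_lin {f : ℂ → ℂ} {a b : ℝ} (h : ∀ z, ‖f z‖ ≤ Real.exp (a * ‖z‖ + b)) : Gr f := by
  intro ε hε
  refine ⟨Real.exp (a ^ 2 / ε + |b|), Real.one_le_exp (by positivity), fun z => (h z).trans ?_⟩
  rw [← Real.exp_add]
  refine Real.exp_le_exp.mpr ?_
  have h1 : a ^ 2 / ε + ε * ‖z‖ ^ 2 - a * ‖z‖ = ((a - ε * ‖z‖) ^ 2 + a ^ 2 + (ε * ‖z‖) ^ 2) /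
      (2 * ε) := by
    field_simp
    ring
  have h2 : 0 ≤ ((a - ε * ‖z‖) ^ 2 + a ^ 2 + (ε * ‖z‖) ^ 2) / (2 * ε) := by positivity
  linarith [le_abs_self b]

lemma gr_const (c : ℂ) : Gr fun _ => c :=
  gr_of_lin (a := 0) (b := ‖c‖) fun z => by simpa using by linarith [Real.add_one_le_exp ‖c‖]

lemma gr_sub (c : ℂ) : Gr fun w => w - c :=
  gr_of_lin (a := 1) (b := ‖c‖) fun z => by
    linarith [Real.add_one_le_exp (1 * ‖z‖ + ‖c‖), norm_sub_le z c]

lemma Gr.mul {f g : ℂ → ℂ} (hf : Gr f) (hg : Gr g) : Gr fun w => f w * g w := by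
  intro ε hε
  obtain ⟨C, hC1, hC⟩ := hf (ε / 2) (by positivity)
  obtain ⟨D, hD1, hD⟩ := hg (ε / 2) (by positivity)
  refine ⟨C * D, one_le_mul_of_one_le_of_one_le hC1 hD1, fun z => ?_⟩
  rw [norm_mul, show ε * ‖z‖ ^ 2 = ε / 2 * ‖z‖ ^ 2 + ε / 2 * ‖z‖ ^ 2 by ring, Real.exp_add,
    mul_mul_mul_comm]
  exact mul_le_mul (hC z) (hD z) (norm_nonneg _) (by positivity)

lemma Gr.add {f g : ℂ → ℂ} (hf : Gr f) (hg : Gr g) : Gr fun w => f w + g w := by
  intro ε hε
  obtain ⟨C, hC1, hC⟩ := hf ε hε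
  obtain ⟨D, hD1, hD⟩ := hg ε hε
  exact ⟨C + D, by linarith, fun z => (norm_add_le _ _).trans (by linarith [hC z, hD z])⟩

lemma Gr.near {f : ℂ → ℂ} (hf : Gr f) (r : ℝ) {ε : ℝ} (hε : 0 < ε) :
    ∃ C : ℝ, 1 ≤ C ∧ ∀ z w : ℂ, ‖w - z‖ ≤ r → ‖f w‖ ≤ C * Real.exp (ε * ‖z‖ ^ 2) := by
  obtain ⟨C, hC1, hC⟩ := hf (ε / 2) (by positivity)
  refine ⟨C * Real.exp (ε * r ^ 2),
    one_le_mul_of_one_le_of_one_le hC1 (Real.one_le_exp (by positivity)),
    fun z w hw => (hC w).trans ?_⟩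
  rw [mul_assoc, ← Real.exp_add]
  gcongr
  have h1 := norm_add_le (w - z) z
  rw [sub_add_cancel] at h1
  have h2 := pow_le_pow_left₀ (norm_nonneg _) (h1.trans (add_le_add_left hw _)) 2
  have h3 : ‖w‖ ^ 2 ≤ 2 * r ^ 2 + 2 * ‖z‖ ^ 2 := by nlinarith [sq_nonneg (r - ‖z‖)]
  nlinarith

lemma Gr.deriv {f : ℂ → ℂ} (hf : Gr f) (hd : Differentiable ℂ f) : Gr (deriv f) := by
  intro ε hε
  obtain ⟨C, hC1, hC⟩ := hf.near 1 hε
  exact ⟨C, hC1, fun z => by
    simpa using Complex.norm_deriv_le_of_forall_mem_sphere_norm_le one_pos hd.diffContOnCl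
      fun w hw => hC z w (mem_sphere_iff_norm.mp hw).le⟩

lemma Gr.shift {f : ℂ → ℂ} (hf : Gr f) (c : ℂ) : Gr fun w => f (c + w) := by
  intro ε hε
  obtain ⟨C, hC1, hC⟩ := hf.near ‖c‖ hε
  exact ⟨C, hC1, fun z => hC z _ (by simp)⟩

lemma slope_im {f : ℂ → ℂ} {f' : ℂ} {t M : ℝ} (h : HasDerivAt f f' t) (h0 : (f t).im = 0)
    (hM : ∀ᶠ y : ℝ in 𝓝[>] 0, M * y ≤ (f (t + y * I)).im) : M ≤ f'.re := by
  have h1 : HasDerivAt (fun w : ℂ => t + w * I) I (0 : ℝ) := by
    simpa using ((hasDerivAt_id ((0 : ℝ) : ℂ)).mul_const I).const_add (t : ℂ)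
  have h2 := (HasDerivAt.comp (h₂ := f) ((0 : ℝ) : ℂ) (by simpa using h) h1).comp_ofReal
  have h3 := (continuous_im.tendsto _).comp h2.tendsto_slope_zero_right
  rw [mul_I_im] at h3
  refine ge_of_tendsto h3 ?_
  filter_upwards [hM, self_mem_nhdsWithin] with y hy hy0
  simpa [h0, le_inv_mul_iff₀' (mem_Ioi.mp hy0)] using hy

lemma loc_pole {k κ : ℂ → ℂ} {κ' : ℂ} {t : ℝ} (h : HasDerivAt κ κ' t)
    (he : ∀ᶠ w in 𝓝[≠] (t : ℂ), κ w = k w * (w - t)) (hk : ∀ s : ℝ, (k s).im = 0)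
    (h0 : (κ t).re ≤ 0) {η : ℝ} (hη : 0 < η) : ∀ᶠ w in 𝓝 (t : ℂ), 0 < w.im → -η ≤ (k w).im := by
  have h3 : Tendsto (fun x : ℝ => (x : ℂ)) (𝓝[≠] t) (𝓝[≠] t) := by
    refine tendsto_nhdsWithin_iff.mpr ⟨?_, ?_⟩
    · exact (continuous_ofReal.tendsto t).mono_left nhdsWithin_le_nhds
    · exact eventually_nhdsWithin_of_forall fun x hx => by simpa using hx
  have h4 : ∀ᶠ s : ℝ in 𝓝[≠] t, (κ s).im = 0 := (h3.eventually he).mono fun s hs => by
    rw [hs, ← ofReal_sub, im_mul_ofReal, hk, zero_mul]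
  have h5 : (κ t).im = 0 := tendsto_nhds_unique (((continuous_im.tendsto _).comp
    (h.continuousAt.tendsto.mono_left nhdsWithin_le_nhds)).comp h3)
    (tendsto_const_nhds.congr' (h4.mono fun s hs => hs.symm))
  have h6 := (continuous_im.tendsto _).comp h.tendsto_slope
  have h7 : κ'.im = 0 := tendsto_nhds_unique (h6.comp h3)
    (tendsto_const_nhds.congr' (h4.mono fun s hs => by
      simp only [Function.comp, slope, vsub_eq_sub, smul_eq_mul]
      rw [← ofReal_sub, ← ofReal_inv, im_ofReal_mul, sub_im, hs, h5, sub_self, mul_zero]))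
  rw [h7] at h6
  have h8 := (h6.eventually_const_le (show -η < 0 by linarith)).and he
  rw [eventually_nhdsWithin_iff] at h8
  filter_upwards [h8] with w hw hy
  have h9 : w ≠ t := fun e => by simp [e] at hy
  obtain ⟨h10, h11⟩ := hw h9
  have h12 : k w = slope κ t w + κ t * (w - t)⁻¹ := by
    have := sub_ne_zero.mpr h9
    simp only [slope, vsub_eq_sub, smul_eq_mul, h11]
    field_simp
    ring
  have h13 : 0 ≤ (κ t * (w - t)⁻¹).im := by
    rw [mul_im, h5, zero_mul, add_zero, inv_im]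
    exact mul_nonneg_of_nonpos_of_nonpos h0 (div_nonpos_of_nonpos_of_nonneg (by simpa using hy.le)
      (normSq_nonneg _))
  rw [h12, add_im]
  exact h10.trans (le_add_of_nonneg_right h13)

lemma halfdisc {k : ℂ → ℂ} {x R g : ℝ} (hg : 0 ≤ g)
    (h1 : ∀ w : ℂ, 0 < w.im → ‖w - x‖ ≤ R → DifferentiableAt ℂ k w ∧ -g / w.im ≤ (k w).im)
    (h3 : ∀ t : ℝ, |t - x| ≤ R → ∀ η : ℝ, 0 < η → ∀ᶠ w in 𝓝 (t : ℂ), 0 < w.im → -η ≤ (k w).im)
    {y : ℝ} (hy : 0 < y) (hyR : y < R) : -(2 * g * y / R ^ 2) ≤ (k (x + y * I)).im := by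
  have hR : 0 < R := hy.trans hyR
  set j : ℂ → ℂ := fun w => ((x + R : ℝ) - w)⁻¹ + ((x - R : ℝ) - w)⁻¹ with hj
  have hji : ∀ w : ℂ, (j w).im = w.im / ((R - (w.re - x)) ^ 2 + w.im ^ 2) +
      w.im / ((R + (w.re - x)) ^ 2 + w.im ^ 2) := fun w => by
    simp only [hj, add_im, inv_im, normSq_apply, sub_im, sub_re, ofReal_im, ofReal_re]
    congr 2 <;> ring
  refine le_of_forall_pos_le_add fun η hη => ?_
  obtain ⟨δ, hδ0, hδ⟩ := ((isCompact_Icc (a := x - R) (b := x + R)).image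
    continuous_ofReal).exists_thickening_subset_open
    (isOpen_interior (s := {w : ℂ | 0 < w.im → -η ≤ (k w).im})) (by
      rintro _ ⟨t, ht, rfl⟩
      exact mem_interior_iff_mem_nhds.mpr (h3 t (abs_le.mpr ⟨by linarith [ht.1],
        by linarith [ht.2]⟩) η hη))
  set σ := min δ y / 2 with hσ
  have hσ0 : 0 < σ := by positivity
  have hσ1 : σ < δ := by linarith [min_le_left δ y]
  have hσ2 : σ < y := by linarith [min_le_right δ y]
  have hcl : ∀ w ∈ closure (ball (x : ℂ) R), ‖w - x‖ ≤ R := fun w hw => by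
    rwa [closure_ball _ hR.ne', mem_closedBall_iff_norm] at hw
  have h4 := Complex.norm_le_of_forall_mem_frontier_norm_le
    (f := fun w => exp (I * (k w + g * j w))) (U := ball (x : ℂ) R ∩ {w | σ < w.im})
    (isBounded_ball.subset inter_subset_left) (C := Real.exp η)
    (DifferentiableOn.diffContOnCl fun w hw => by
      have h5 := closure_inter_subset_inter_closure _ _ hw
      rw [closure_setOfPred_lt_im] at h5
      have h6 : 0 < w.im := hσ0.trans_le h5.2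
      have h7 : ∀ a : ℝ, (a : ℂ) - w ≠ 0 := fun a e => by
        rw [← sub_eq_zero.mp e] at h6
        simp at h6
      have h8 := (h1 w h6 (hcl w h5.1)).1
      have h9 := h7 (x + R)
      have h10 := h7 (x - R)
      refine DifferentiableAt.differentiableWithinAt ?_
      simp only [hj]
      fun_prop (disch := assumption)) (fun w hw => by
      rw [Complex.norm_exp, I_mul_re, add_im, im_ofReal_mul, Real.exp_le_exp, hji]
      rcases frontier_inter_subset _ _ hw with ⟨h5, h6⟩ | ⟨h5, h6⟩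
      · rw [closure_setOfPred_lt_im] at h6
        rw [frontier_ball _ hR.ne', mem_sphere_iff_norm] at h5
        have h7 : 0 < w.im := hσ0.trans_le h6
        have h8 := (h1 w h7 h5.le).2
        have h9 : (w.re - x) ^ 2 + w.im ^ 2 = R ^ 2 := by
          rw [← h5, Complex.sq_norm, normSq_apply]
          simp
          ring
        have h10 : w.im / ((R - (w.re - x)) ^ 2 + w.im ^ 2) +
            w.im / ((R + (w.re - x)) ^ 2 + w.im ^ 2) = 1 / w.im := by
          field_simp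
          linear_combination (-((w.re - x) ^ 2 + w.im ^ 2 - R ^ 2) + 2 * w.im ^ 2) * h9
        rw [h10, mul_one_div]
        rw [neg_div] at h8
        linarith
      · rw [frontier_setOfPred_lt_im] at h6
        have h7 : 0 < w.im := by rw [h6]; exact hσ0
        have h8 := abs_le.mp ((abs_re_le_norm _).trans (hcl w h5))
        simp only [sub_re, ofReal_re] at h8
        have h9 := interior_subset (hδ (mem_thickening_iff.mpr ⟨w.re, ⟨w.re, ⟨by linarith,
          by linarith⟩, rfl⟩, by rwa [dist_of_re_eq (by simp), ofReal_im, Real.dist_eq, sub_zero,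
            abs_of_pos h7, h6]⟩)) h7
        have h10 : 0 ≤ g * (w.im / ((R - (w.re - x)) ^ 2 + w.im ^ 2) +
            w.im / ((R + (w.re - x)) ^ 2 + w.im ^ 2)) := by positivity
        linarith) (z := x + y * I) (subset_closure ⟨by simp [abs_of_pos hy, hyR], by simpa⟩)
  rw [Complex.norm_exp, I_mul_re, add_im, im_ofReal_mul, Real.exp_le_exp, hji] at h4
  have h5 : y / (R ^ 2 + y ^ 2) ≤ y / R ^ 2 := by
    gcongr
    nlinarith
  simp only [add_im, ofReal_im, mul_I_im, ofReal_re, zero_add, add_re, mul_I_re, neg_zero,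
    add_zero, sub_self, sub_zero] at h4
  rw [mul_div_assoc]
  nlinarith

end Pool.Agent.P.MP_2e654e_an.Den
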