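import Pool.Agent.P.MP_2e654e_an.DenH

set_option autoImplicit false

open Complex Metric Filter Topology Set MeasureTheory ComplexConjugate

namespace Pool.Agent.P.MP_2e654e_an.Den

/-- the conjugate of multiplication by `w - α` under the heat operator -/
noncomputable def Lop (lam α : ℝ) (Φ : ℂ → ℂ) (w : ℂ) : ℂ := (w - α) * Φ w - 2 * lam * deriv Φ w

/-- the conjugate of multiplication by `(w - α)^2 + g` -/
noncomputable def Qop (lam α g : ℝ) (Φ : ℂ → ℂ) (w : ℂ) : ℂ :=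
  Lop lam α (Lop lam α Φ) w + g * Φ w

/-- the auxiliary quotient -/
noncomputable def kk (lam α g : ℝ) (Φ : ℂ → ℂ) (w : ℂ) : ℂ :=
  -α - 2 * lam * logDeriv (Lop lam α Φ) w + g * (Φ w / Lop lam α Φ w)

/-- real entire functions of small growth whose non-real zeros have modulus at most `X` -/
structure Fr (X : ℝ) (f : ℂ → ℂ) : Prop where
  x : 0 ≤ X
  d : Differentiable ℂ f
  g : Gr f
  z : ∀ a, f a = 0 → a.im = 0 ∨ ‖a‖ ≤ X
  r : ∀ w, f (conj w) = conj (f w)

variable {X lam α g : ℝ} {Φ : ℂ → ℂ}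

lemma Fr.cl (h : Fr X Φ) : Cl (X + 1) Φ :=
  ⟨h.d, h.g, fun a ha => by
    rcases h.z a ha with h1 | h1
    · rw [h1, abs_zero]
      linarith [h.x]
    · linarith [abs_im_le_norm a], h.r⟩

lemma Fr.ne (h : Fr X Φ) {w : ℂ} (hy : 0 < w.im) (hw : X < ‖w‖) : Φ w ≠ 0 := fun e => by
  rcases h.z w e with h1 | h1 <;> linarith

lemma Fr.mk' (hX : 0 ≤ X) (hd : Differentiable ℂ Φ) (hg : Gr Φ)
    (hr : ∀ w, Φ (conj w) = conj (Φ w)) (hz : ∀ w : ℂ, 0 < w.im → X < ‖w‖ → Φ w ≠ 0) : Fr X Φ := by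
  refine ⟨hX, hd, hg, fun a ha => ?_, hr⟩
  by_contra hc
  push Not at hc
  rcases lt_or_gt_of_ne hc.1 with h1 | h1
  · exact hz (conj a) (by simpa) (by simpa using hc.2) (by rw [hr, ha, map_zero])
  · exact hz a h1 hc.2 ha

lemma Fr.S_le (h : Fr X Φ) {Δ : ℝ} {ι : Type} {z : ι → ℂ} {m : ι → ℝ} (hh : Had Δ Φ z m) {w : ℂ}
    (hy : 0 < w.im) (hw : 4 * X < ‖w‖) : SS z m w ≤ 2 * WW Φ w := by
  refine hh.S_le' h.r (h.ne hy (by linarith [h.x])) hy fun i => ?_
  rw [normSq_apply]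
  simp only [sub_re, conj_re, sub_im, conj_im]
  rcases h.z _ (hh.z0 i) with h1 | h1
  · rw [h1]
    nlinarith [sq_nonneg (w.re - (z i).re), sq_nonneg w.im]
  · have h2 := (abs_im_le_norm (z i)).trans h1
    have h3 := norm_add_le (w - (z i).re) (z i).re
    rw [sub_add_cancel, Complex.norm_real] at h3
    have h4 := (abs_re_le_norm (z i)).trans h1
    have h5 : ‖w - (z i).re‖ ^ 2 = (w.re - (z i).re) ^ 2 + w.im ^ 2 := by
      rw [Complex.sq_norm, normSq_apply]
      simp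
      ring
    have h6 := (le_abs_self _).trans (abs_im_le_norm (w - (z i).re))
    simp only [sub_im, ofReal_im, sub_zero] at h6
    have h7 : 3 * |(z i).im| ≤ ‖w - (z i).re‖ := by linarith [Real.norm_eq_abs (z i).re]
    nlinarith [mul_nonneg (sub_nonneg.mpr h7) (add_nonneg (norm_nonneg (w - (z i).re))
      (abs_nonneg (z i).im)), sq_abs (z i).im, mul_le_mul h6 (le_abs_self (z i).im),
      mul_le_mul_of_nonneg_right h6 (abs_nonneg (z i).im),
      mul_le_mul_of_nonneg_left (le_abs_self (z i).im) hy.le]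

lemma WW_mul (f : ℂ → ℂ) {w : ℂ} (hy : 0 < w.im) : WW f w * w.im = -(logDeriv f w).im :=
  div_mul_cancel₀ _ hy.ne'

lemma Fr.im_le (h : Fr X Φ) {w : ℂ} (hy : 0 < w.im) (hw : 4 * X < ‖w‖) :
    (logDeriv Φ w).im ≤ 0 := by
  obtain ⟨ι, z, m, hh⟩ := h.cl.had
  nlinarith [h.S_le hh hy hw, hh.S0 w, WW_mul Φ hy]

lemma Lop_div {w : ℂ} (hw : Φ w ≠ 0) : Lop lam α Φ w / Φ w = w - α - 2 * lam * logDeriv Φ w := by
  rw [Lop, logDeriv_apply]
  field_simp

lemma Lop_im {w : ℂ} (hw : Φ w ≠ 0) :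
    (Lop lam α Φ w / Φ w).im = w.im - 2 * lam * (logDeriv Φ w).im := by
  rw [Lop_div hw]
  simp

lemma Lop_diff (hd : Differentiable ℂ Φ) : Differentiable ℂ (Lop lam α Φ) := by
  have := hd.deriv
  unfold Lop
  fun_prop

lemma Lop_gr (hd : Differentiable ℂ Φ) (hg : Gr Φ) : Gr (Lop lam α Φ) := by
  have := ((gr_sub α).mul hg).add ((gr_const (-(2 * lam))).mul (hg.deriv hd))
  refine (congrArg Gr (funext fun w => ?_)).mp this
  rw [Lop]
  ring

lemma Lop_conj (hr : ∀ w, Φ (conj w) = conj (Φ w)) (w : ℂ) :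
    Lop lam α Φ (conj w) = conj (Lop lam α Φ w) := by
  simp [Lop, hr, deriv_conj hr, map_ofNat]

lemma Fr.A_im (h : Fr X Φ) (hlam : 0 < lam) {w : ℂ} (hy : 0 < w.im) (hw : 4 * X < ‖w‖) :
    w.im ≤ (Lop lam α Φ w / Φ w).im := by
  rw [Lop_im (h.ne hy (by linarith [h.x]))]
  nlinarith [h.im_le hy hw]

lemma Fr.lin (h : Fr X Φ) (hlam : 0 < lam) (α : ℝ) : Fr (4 * X) (Lop lam α Φ) :=
  Fr.mk' (by linarith [h.x]) (Lop_diff h.d) (Lop_gr h.d h.g) (Lop_conj h.r) fun w hy hw e => by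
    have := h.A_im (α := α) hlam hy hw
    rw [e, zero_div, zero_im] at this
    linarith

lemma Qop_eq {w : ℂ} (hw : Lop lam α Φ w ≠ 0) :
    Qop lam α g Φ w = (w + kk lam α g Φ w) * Lop lam α Φ w := by
  rw [Qop, kk, Lop, logDeriv_apply]
  field_simp
  ring

lemma kk_diff (hd : Differentiable ℂ Φ) {w : ℂ} (hw : Lop lam α Φ w ≠ 0) :
    DifferentiableAt ℂ (kk lam α g Φ) w := by
  have h1 := Lop_diff (lam := lam) (α := α) hd
  have h2 := h1.deriv
  unfold kk
  simp only [logDeriv_apply]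
  fun_prop (disch := assumption)

lemma Fr.kk_ge (h : Fr X Φ) (hlam : 0 < lam) (hg : 0 ≤ g) {w : ℂ} (hy : 0 < w.im)
    (hw : 16 * X < ‖w‖) : -g / w.im ≤ (kk lam α g Φ w).im := by
  have h1 := (h.lin hlam α).im_le hy (by linarith)
  have h2 := (h.A_im (α := α) hlam hy (by linarith [h.x])).trans
    ((le_abs_self _).trans (abs_im_le_norm _))
  have h3 : ‖Φ w / Lop lam α Φ w‖ ≤ (w.im)⁻¹ := by
    rw [← inv_div, norm_inv]
    exact inv_anti₀ hy h2
  have h4 := (abs_le.mp ((abs_im_le_norm _).trans h3)).1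
  have h5 : (kk lam α g Φ w).im = -(2 * lam * (logDeriv (Lop lam α Φ) w).im) +
      g * (Φ w / Lop lam α Φ w).im := by simp [kk]
  rw [h5, div_eq_mul_inv]
  nlinarith [mul_le_mul_of_nonneg_left h4 hg]

/-- the condition on the residues -/
def Res (lam α g : ℝ) (Φ : ℂ → ℂ) (t : ℝ) : Prop :=
  Φ t ≠ 0 → Lop lam α Φ t = 0 → ∃ M : ℝ, g < 2 * lam * M ∧
    ∀ᶠ y : ℝ in 𝓝[>] 0, M * y ≤ (Lop lam α Φ (t + y * I) / Φ (t + y * I)).im

lemma Res.lt {t : ℝ} (hR : Res lam α g Φ t) (hd : Differentiable ℂ Φ)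
    (hr : ∀ w, Φ (conj w) = conj (Φ w)) (hlam : 0 < lam) (h0 : Φ t ≠ 0) (h1 : Lop lam α Φ t = 0) :
    ∃ a : ℝ, g < 2 * lam * a ∧ deriv (Lop lam α Φ) t = a * Φ t := by
  obtain ⟨M, hM, hev⟩ := hR h0 h1
  have h2 := slope_im ((Lop_diff (lam := lam) (α := α) hd t).hasDerivAt.div (hd t).hasDerivAt h0)
    (by simp [h1]) hev
  have h3 : (deriv (Lop lam α Φ) t * Φ t - Lop lam α Φ t * deriv Φ t) / Φ t ^ 2 =
      deriv (Lop lam α Φ) t / Φ t := by
    rw [h1]
    field_simp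
    ring
  have h4 : (deriv (Lop lam α Φ) t / Φ t).im = 0 :=
    real_of_conj (f := fun w => deriv (Lop lam α Φ) w / Φ w) (fun w => by
      rw [deriv_conj (Lop_conj hr), hr, map_div₀]) t
  rw [h3] at h2
  refine ⟨(deriv (Lop lam α Φ) t / Φ t).re, by nlinarith, ?_⟩
  rw [← div_eq_iff h0]
  exact Complex.ext (by simp) (by simpa using h4)

lemma kk_pole (hr : ∀ w, Φ (conj w) = conj (Φ w)) {t : ℝ} {n : ℕ}
    {g1 q : ℂ → ℂ} (hg1 : Differentiable ℂ g1) (hq : Differentiable ℂ q) (h0 : g1 t ≠ 0)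
    (e1 : ∀ w, Lop lam α Φ w = (w - t) ^ n * g1 w) (e2 : ∀ w, (w - t) * Φ w = (w - t) ^ n * q w)
    (hle : (g * (q t / g1 t)).re ≤ 2 * lam * n) {η : ℝ} (hη : 0 < η) :
    ∀ᶠ w in 𝓝 (t : ℂ), 0 < w.im → -η ≤ (kk lam α g Φ w).im := by
  have h1 := hg1.deriv
  have h2 : DifferentiableAt ℂ (fun w => -(2 * lam * n) + (w - t) * (-α - 2 * lam *
      (deriv g1 w / g1 w)) + g * (q w / g1 w)) t := by fun_prop (disch := assumption)
  refine loc_pole h2.hasDerivAt ?_ (real_of_conj fun w => ?_) ?_ hη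
  · filter_upwards [self_mem_nhdsWithin,
      mem_nhdsWithin_of_mem_nhds ((hg1 t).continuousAt.eventually_ne h0)] with w hw hw0
    have h3 : w - t ≠ 0 := sub_ne_zero.mpr hw
    have h4 : logDeriv (Lop lam α Φ) w = n / (w - t) + deriv g1 w / g1 w := by
      rw [show Lop lam α Φ = fun w => (w - t) ^ n * g1 w from funext e1,
        logDeriv_mul (f := fun w : ℂ => (w - t) ^ n) w (pow_ne_zero _ h3) hw0 (by fun_prop) (hg1 w),
        logDeriv_fun_pow (by fun_prop), logDeriv_apply, logDeriv_apply]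
      simp [div_eq_mul_inv]
    have h5 : Φ w = (w - t) ^ n * q w / (w - t) := by
      rw [← e2]
      field_simp
    rw [kk, h4, e1, h5]
    field_simp
    ring
  · simp [kk, hr, Lop_conj hr, logDeriv_conj (Lop_conj hr), map_ofNat]
  · simp only [sub_self, zero_mul, add_zero, add_re]
    rw [← ofReal_natCast, ← ofReal_ofNat, ← ofReal_mul, ← ofReal_mul, neg_re, ofReal_re]
    linarith

lemma Fr.core (h : Fr X Φ) (hlam : 0 < lam) (hg : 0 ≤ g) {x R : ℝ}
    (H1 : ∀ t : ℝ, |t - x| ≤ R → 16 * X ≤ |t| ∧ Res lam α g Φ t) {y : ℝ} (hy : 0 < y)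
    (hyR : y < R) : -(2 * g * y / R ^ 2) ≤ (kk lam α g Φ (x + y * I)).im := by
  have hd := h.d
  have hd' := h.d.deriv
  have hL := Lop_diff (lam := lam) (α := α) h.d
  refine halfdisc hg (fun w hw hwR => ?_) (fun t ht η hη => ?_) hy hyR
  · have h1 := (H1 w.re (by simpa using (abs_re_le_norm _).trans hwR)).1
    have h2 : 16 * X < ‖w‖ := h1.trans_lt (abs_re_lt_norm.mpr hw.ne')
    exact ⟨kk_diff h.d ((h.lin hlam α).ne hw (by linarith [h.x])), h.kk_ge hlam hg hw h2⟩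
  · by_cases h0 : Φ t = 0
    · obtain ⟨n, g0, hg0, hg1, he⟩ := factor_one h.d (c := (X + 1 : ℝ) * I)
        (h.ne (by simp; linarith [h.x]) (by
          simp only [norm_mul, norm_I, Complex.norm_real, Real.norm_eq_abs]
          linarith [le_abs_self (X + 1)])) t
      have hg0' := hg0.deriv
      obtain _ | n := n
      · exact absurd (by simpa [h0] using (he t).symm) hg1
      refine kk_pole h.r (n := n) (g1 := fun w => (w - α) * (w - t) * g0 w -
        2 * lam * ((n + 1) * g0 w + (w - t) * deriv g0 w)) (q := fun w => (w - t) ^ 2 * g0 w)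
        (by fun_prop) (by fun_prop) ?_ (fun w => ?_) (fun w => by rw [he]; ring) ?_ hη
      · have : (n + 1 : ℂ) ≠ 0 := by exact_mod_cast n.succ_ne_zero
        simp [hg1, hlam.ne', this]
      · have h3 := ((((hasDerivAt_id w).sub_const (t : ℂ)).pow (n + 1)).mul
          (hg0 w).hasDerivAt).congr_of_eventuallyEq (f₁ := Φ) (Eventually.of_forall he)
        rw [Lop, h3.deriv, he]
        simp
        ring
      · simp
        positivity
    · by_cases h1 : Lop lam α Φ t = 0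
      · obtain ⟨a, ha, he⟩ := (H1 t ht).2.lt h.d h.r hlam h0 h1
        have ha0 : 0 < a := by
          by_contra hc
          nlinarith
        have ha1 : (a : ℂ) ≠ 0 := by exact_mod_cast ha0.ne'
        refine kk_pole h.r (n := 1) (g1 := dslope (Lop lam α Φ) t) (q := Φ)
          (differentiableOn_univ.mp ((differentiableOn_dslope univ_mem).mpr hL.differentiableOn))
          h.d (by rw [dslope_same, he]; exact mul_ne_zero ha1 h0) (fun w => by
            rw [pow_one, ← smul_eq_mul, sub_smul_dslope, h1, sub_zero]) (fun w => by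
            rw [pow_one]) ?_ hη
        rw [dslope_same, he, show (g : ℂ) * (Φ t / (a * Φ t)) = ((g / a : ℝ) : ℂ) by
          push_cast; field_simp, ofReal_re, div_le_iff₀ ha0]
        push_cast
        linarith
      · exact kk_pole h.r (n := 0) (g1 := Lop lam α Φ) (q := fun w => (w - t) * Φ w) hL
          (by fun_prop) h1 (by simp) (by simp) (by simp) hη

lemma Qop_diff (hd : Differentiable ℂ Φ) : Differentiable ℂ (Qop lam α g Φ) :=
  (Lop_diff (Lop_diff hd)).add (hd.const_mul _)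

lemma Fr.quad (h : Fr X Φ) (hlam : 0 < lam) (hg : 0 ≤ g) {R X' : ℝ} (hR : 0 < R)
    (hRg : 2 * g < R ^ 2) (hX : 16 * X ≤ X')
    (H1 : ∀ w : ℂ, X' < ‖w‖ → 0 < w.im → w.im < R → ∀ t : ℝ, |t - w.re| ≤ R →
      16 * X ≤ |t| ∧ Res lam α g Φ t) : Fr X' (Qop lam α g Φ) := by
  refine Fr.mk' (by linarith [h.x]) (Qop_diff h.d)
    ((Lop_gr (Lop_diff h.d) (Lop_gr h.d h.g)).add ((gr_const g).mul h.g))
    (fun w => by simp [Qop, Lop_conj (Lop_conj h.r), h.r]) fun w hy hw => ?_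
  have h1 := (h.lin hlam α).ne hy (by linarith [h.x])
  rw [Qop_eq h1]
  refine mul_ne_zero (fun e => ?_) h1
  have h2 := congrArg im e
  rw [add_im, zero_im] at h2
  rcases lt_or_ge w.im R with h3 | h3
  · have h4 := h.core hlam hg (H1 w hw hy h3) hy h3
    rw [re_add_im, neg_le, le_div_iff₀ (by positivity)] at h4
    nlinarith
  · have h4 := h.kk_ge (α := α) hlam hg hy (by linarith)
    rw [div_le_iff₀ hy] at h4
    nlinarith

lemma Fr.res_one (h : Fr X Φ) (hlam : 0 < lam) (hg : g < 2 * lam) {t : ℝ} (ht : 4 * X ≤ |t|) :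
    Res lam α g Φ t := fun _ _ => ⟨1, by linarith, eventually_nhdsWithin_of_forall fun y hy => by
  have h1 : 0 < (t + y * I : ℂ).im := by simpa using hy
  have := h.A_im (α := α) hlam h1 (ht.trans_lt (by simpa using abs_re_lt_norm.mpr h1.ne'))
  simpa using this⟩

lemma Fr.quad_zero (h : Fr 0 Φ) (hlam : 0 < lam) (hg : 0 ≤ g) (hg2 : g < 2 * lam) (α : ℝ) :
    Fr 0 (Qop lam α g Φ) :=
  h.quad hlam hg (R := 2 * g + 1) (by linarith) (by nlinarith) (by simp)
    fun _ _ _ _ t _ => ⟨by simp, h.res_one hlam hg2 (by simp)⟩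

lemma Fr.res_far (h : Fr X Φ) (hlam : 0 < lam) (α g : ℝ) :
    ∃ X1 : ℝ, ∀ t : ℝ, X1 ≤ |t| → 16 * X ≤ |t| ∧ Res lam α g Φ t := by
  obtain ⟨ι, z, m, hh⟩ := h.cl.had
  obtain ⟨C, hC0, hC⟩ := hh.sublin (by linarith [h.x]) (|g| / lam ^ 2) (δ := 1 / (4 * lam))
    (by positivity)
  refine ⟨16 * X + 2 * |α| + 4 * lam * C + 1, fun t ht => ?_⟩
  have h1 : 0 ≤ lam * C := by positivity
  refine ⟨by linarith [abs_nonneg α], fun h0 h2 => ⟨1 + |g| / lam, ?_, ?_⟩⟩
  · have : lam * (|g| / lam) = |g| := by field_simp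
    nlinarith [le_abs_self g, abs_nonneg g]
  have h3 := Lop_div (lam := lam) (α := α) h0
  rw [h2, zero_div, eq_comm, sub_eq_zero] at h3
  have h4 : 1 / (4 * lam) * ‖((t : ℂ) + (0 : ℝ) * I)‖ + C < ‖logDeriv Φ (t + (0 : ℝ) * I)‖ := by
    have h5 := congrArg norm h3
    rw [← ofReal_sub, Complex.norm_real, Real.norm_eq_abs, norm_mul, norm_mul, Complex.norm_real,
      Real.norm_of_nonneg hlam.le, Complex.norm_ofNat] at h5
    simp only [ofReal_zero, zero_mul, add_zero, Complex.norm_real, Real.norm_eq_abs]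
    refine lt_of_mul_lt_mul_left ?_ (show 0 ≤ 2 * lam by positivity)
    rw [← h5, mul_add, show 2 * lam * (1 / (4 * lam) * |t|) = |t| / 2 by field_simp; ring]
    linarith [abs_sub_abs_le_abs_sub t α, h.x]
  have h5 : ContinuousAt (fun y : ℝ => logDeriv Φ (t + y * I)) 0 := by
    have h6 := h.d.deriv.continuous
    have h7 := h.d.continuous
    simp only [logDeriv_apply]
    refine ContinuousAt.div (by fun_prop) (by fun_prop) (by simpa using h0)
  have h6 := ContinuousAt.eventually_lt (f := fun y : ℝ => 1 / (4 * lam) * ‖(t : ℂ) + y * I‖ + C)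
    (by fun_prop) h5.norm h4
  filter_upwards [mem_nhdsWithin_of_mem_nhds h6, self_mem_nhdsWithin] with y hy hy0
  have h7 : 0 < (t + y * I : ℂ).im := by simpa using hy0
  have h8 : |t| < ‖(t + y * I : ℂ)‖ := by simpa using abs_re_lt_norm.mpr h7.ne'
  have h9 := h.ne h7 (by linarith [abs_nonneg α, h.x])
  have h10 : |g| / lam ^ 2 < SS z m (t + y * I) := lt_of_not_ge fun hc =>
    absurd (hC _ h9 hc) (not_le.mpr hy)
  have h11 := h.S_le hh h7 (by linarith [abs_nonneg α, h.x])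
  have h12 := WW_mul Φ h7
  rw [Lop_im h9]
  simp only [add_im, ofReal_im, mul_I_im, ofReal_re, zero_add] at h12 ⊢
  have h13 : |g| / lam = lam * (|g| / lam ^ 2) := by field_simp
  have h14 : lam * (|g| / lam ^ 2) * y ≤ lam * (2 * WW Φ (t + y * I)) * y := by
    have := mem_Ioi.mp hy0
    gcongr
    linarith
  rw [← h13] at h14
  linear_combination h14 + 2 * lam * h12

/-- finitely many non-real zeros and simple real zeros far out -/
def Good (Φ : ℂ → ℂ) : Prop :=
  ∃ X : ℝ, Fr X Φ ∧ ∀ x : ℝ, X ≤ |x| → Φ x = 0 → deriv Φ x ≠ 0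

lemma Good.quad (h : Good Φ) (hlam : 0 < lam) (hg : 0 ≤ g) (α : ℝ) : Good (Qop lam α g Φ) := by
  obtain ⟨X, h, hs⟩ := h
  obtain ⟨X1, hX1⟩ := h.res_far hlam α g
  set R := 2 * g + 1 with hR
  have hRg : 2 * g < R ^ 2 := by nlinarith
  have hX0 := h.x
  have hfar : ∀ x t : ℝ, |X1| + R ≤ |x| → |t - x| ≤ R → 16 * X ≤ |t| ∧ Res lam α g Φ t :=
    fun x t hx ht => hX1 t (by
      linarith [abs_sub_abs_le_abs_sub x t, abs_sub_comm x t, le_abs_self X1])
  refine ⟨16 * X + |X1| + 2 * R, h.quad hlam hg (by linarith) hRg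
    (by linarith [abs_nonneg X1]) fun w hw hy hyR t ht => hfar _ t (by
      linarith [Complex.norm_le_abs_re_add_abs_im w, abs_of_pos hy]) ht, fun x hx h0 h0' => ?_⟩
  by_cases h1 : Lop lam α Φ x = 0
  · rw [Qop, Lop, h1] at h0
    by_cases h2 : Φ x = 0
    · refine hs x (by linarith [abs_nonneg X1]) h2 ?_
      simpa [Lop, h2, hlam.ne'] using h1
    · obtain ⟨a, ha, he⟩ := (hfar x x (by linarith) (by simp; linarith)).2.lt h.d h.r hlam h2 h1
      rw [he] at h0
      have h3 : ((g - 2 * lam * a : ℝ) : ℂ) * Φ x = 0 := by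
        push_cast
        linear_combination h0
      have h4 := (mul_eq_zero.mp h3).resolve_right h2
      rw [ofReal_eq_zero] at h4
      linarith
  · have h2 := (hasDerivAt_id (x : ℂ)).add (kk_diff (g := g) h.d h1).hasDerivAt
    have h3 : (x : ℂ) + kk lam α g Φ x = 0 := by
      rw [Qop_eq h1] at h0
      exact (mul_eq_zero.mp h0).resolve_right h1
    have h4 := slope_im (M := 1 - 2 * g / R ^ 2) h2 (by simp [h3]) (by
      filter_upwards [Ioo_mem_nhdsGT (show 0 < R by linarith)] with y hy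
      have := h.core hlam hg (fun t => hfar x t (by linarith)) hy.1 hy.2
      simp only [Pi.add_apply, id, add_im, ofReal_im, mul_I_im, ofReal_re, zero_add]
      rw [mul_div_right_comm] at this
      linarith)
    have h5 := (h2.mul (Lop_diff (lam := lam) (α := α) h.d x).hasDerivAt).congr_of_eventuallyEq
      (f₁ := Qop lam α g Φ) (((Lop_diff h.d x).continuousAt.eventually_ne h1).mono
        fun w hw => Qop_eq hw)
    rw [h5.deriv] at h0'
    simp only [Pi.add_apply, id, h3, zero_mul, add_zero] at h0'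
    rw [(mul_eq_zero.mp h0').resolve_right h1, zero_re, sub_nonpos,
      one_le_div (by positivity)] at h4
    linarith

end Pool.Agent.P.MP_2e654e_an.Den
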