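import Pool.Agent.P.MP_2e654e_an.DenI

set_option autoImplicit false

open Complex Metric Filter Topology Set MeasureTheory ComplexConjugate

namespace Pool.Agent.P.MP_2e654e_an.Den

variable {lam : ℝ} {f : ℂ → ℂ}

lemma heat_diff (hd : Differentiable ℂ f) (hg : Gr f) (hlam : 0 < lam) :
    Differentiable ℂ (heat lam f) := fun z =>
  (heat_deriv hd hg (by positivity) (two_mul_mu hlam) z 0).2.differentiableAt

lemma heat_conj (hd : Differentiable ℂ f) (hg : Gr f) (hr : ∀ w, f (conj w) = conj (f w))
    (hlam : 0 < lam) (z : ℂ) : heat lam f (conj z) = conj (heat lam f z) := by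
  refine conj_of_real (heat_diff hd hg hlam) (fun x => ?_) z
  have hμ : 0 < 1 / (2 * lam) := by positivity
  have h1 := heat_eq hd hg hμ (two_mul_mu hlam) x x
  have h2 := split_refl (ker_int hd hg hμ x x) (-(x : ℂ).im)
  simp only [refl_pt, ker_conj hr] at h2
  simp only [ofReal_im, ofReal_zero, mul_zero, zero_mul, exp_zero, mul_one] at h2
  rw [h2, integral_conj, add_conj] at h1
  have h3 := congrArg im h1
  rw [im_mul_ofReal, ofReal_im] at h3
  exact (mul_eq_zero.mp h3).resolve_right (mom_pos hμ).ne'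

lemma heat_gr (hd : Differentiable ℂ f) (hg : Gr f) (hlam : 0 < lam) : Gr (heat lam f) := by
  intro ε hε
  set μ := 1 / (2 * lam) with hμd
  have hμ : 0 < μ := by positivity
  obtain ⟨C, hC1, hC⟩ := hg (min (ε / 2) (μ / 8)) (by positivity)
  have hJ := mom_pos hμ
  have hJ' := mom_pos (half_pos hμ)
  refine ⟨C * mom (μ / 2) 0 / mom μ 0 + 1, le_add_of_nonneg_left (by positivity), fun z => ?_⟩
  have h1 := norm_integral_le_of_norm_le (f := fun s : ℝ => ker μ f z (z + s * I))
    ((int_mom (half_pos hμ) 0).const_mul (C * Real.exp (ε * ‖z‖ ^ 2)))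
    (Eventually.of_forall fun s => by
      rw [ker_self, norm_mul, Complex.norm_real, Real.norm_of_nonneg (Real.exp_pos _).le, pow_zero,
        one_mul, mul_assoc, ← Real.exp_add]
      refine (mul_le_mul_of_nonneg_right (hC _) (Real.exp_pos _).le).trans ?_
      rw [mul_assoc, ← Real.exp_add]
      refine mul_le_mul_of_nonneg_left (Real.exp_le_exp.mpr ?_) (by linarith)
      have h2 := norm_add_le z (s * I)
      rw [norm_mul, norm_I, mul_one, Complex.norm_real, Real.norm_eq_abs] at h2
      have h3 := pow_le_pow_left₀ (norm_nonneg _) h2 2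
      have h4 : ‖z + s * I‖ ^ 2 ≤ 2 * ‖z‖ ^ 2 + 2 * s ^ 2 := by
        nlinarith [sq_nonneg (‖z‖ - |s|), sq_abs s]
      nlinarith [mul_le_mul_of_nonneg_left h4 (by positivity : 0 ≤ min (ε / 2) (μ / 8)),
        mul_le_mul_of_nonneg_right (min_le_left (ε / 2) (μ / 8)) (sq_nonneg ‖z‖),
        mul_le_mul_of_nonneg_right (min_le_right (ε / 2) (μ / 8)) (sq_nonneg s)])
  rw [← heat_eq_self hd hg hμ (two_mul_mu hlam), integral_const_mul, norm_mul, Complex.norm_real,
    Real.norm_of_nonneg hJ.le, ← le_div_iff₀ hJ] at h1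
  refine h1.trans ?_
  change C * _ * mom (μ / 2) 0 / _ ≤ _
  rw [add_mul, mul_right_comm, mul_div_right_comm]
  exact le_add_of_nonneg_right (by positivity)

lemma heat_lin (hd : Differentiable ℂ f) (hg : Gr f) (hlam : 0 < lam) (α : ℝ) :
    heat lam (fun w => (w - α) * f w) = Lop lam α (heat lam f) := by
  ext z
  set μ := 1 / (2 * lam) with hμd
  have hμ : 0 < μ := by positivity
  have hl : 2 * lam * μ = 1 := two_mul_mu hlam
  have hl' : 2 * (lam : ℂ) * μ = 1 := by exact_mod_cast hl
  obtain ⟨i1, h1⟩ := heat_deriv hd hg hμ hl z z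
  have hJ := mom_ne hμ
  refine mul_right_cancel₀ hJ ?_
  rw [heat_eq (by fun_prop) ((gr_sub α).mul hg) hμ hl z z, Lop, h1.deriv, sub_mul, mul_assoc,
    heat_eq hd hg hμ hl z z, mul_assoc, div_mul_cancel₀ _ hJ, ← integral_const_mul,
    ← integral_const_mul, ← integral_sub ((ker_int hd hg hμ z z).const_mul _) (i1.const_mul _)]
  congr 1
  ext s
  unfold ker
  linear_combination (-(s * I) * f (z + s * I) * exp (μ / 2 * (z + s * I - z) ^ 2)) * hl'

lemma heat_quad (hd : Differentiable ℂ f) (hg : Gr f) (hlam : 0 < lam) (α g : ℝ) :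
    heat lam (fun w => ((w - α) ^ 2 + g) * f w) = Qop lam α g (heat lam f) := by
  ext z
  have h1 : Differentiable ℂ fun w => (w - α) * f w := by fun_prop
  have h2 := (gr_sub α).mul hg
  rw [Qop, ← heat_lin hd hg hlam, ← heat_lin h1 h2 hlam, ← heat_const_mul,
    ← heat_add lam (by fun_prop) (by fun_prop) (summable_hterm (by fun_prop) ((gr_sub α).mul h2)
      hlam z) (summable_hterm (by fun_prop) ((gr_const g).mul hg) hlam z)]
  congr 1
  ext w
  ring

lemma heat_one (hlam : 0 < lam) : heat lam (fun _ => 1) = fun _ => 1 := by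
  ext z
  have hμ : 0 < 1 / (2 * lam) := by positivity
  refine mul_right_cancel₀ (mom_ne hμ) ?_
  rw [heat_eq_self (by fun_prop) (gr_const 1) hμ (two_mul_mu hlam)]
  simp only [ker_self, one_mul, integral_complex_ofReal, mom, pow_zero]

lemma deriv_heat (hd : Differentiable ℂ f) (hg : Gr f) (hlam : 0 < lam) :
    deriv (heat lam f) = heat lam (deriv f) := by
  ext z
  set μ := 1 / (2 * lam) with hμd
  have hμ : 0 < μ := by positivity
  have hl : 2 * lam * μ = 1 := two_mul_mu hlam
  obtain ⟨i1, h1⟩ := heat_deriv hd hg hμ hl z z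
  have i2 := ker_int hd.deriv (hg.deriv hd) hμ z z
  have h2 := integral_eq_zero_of_hasDerivAt_of_integrable
    (f := fun s : ℝ => ker μ f z (z + s * I)) (fun s => by
      have h3 : HasDerivAt (fun w : ℂ => z + w * I) I s := by
        simpa using ((hasDerivAt_id (s : ℂ)).mul_const I).const_add z
      have h4 : HasDerivAt (ker μ f z) (ker μ (deriv f) z (z + s * I) -
          -μ * (z + s * I - z) * ker μ f z (z + s * I)) (z + s * I) := by
        unfold ker
        refine ((hd _).hasDerivAt.mul ((((hasDerivAt_id _).sub_const z).pow 2).const_mul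
          ((μ : ℂ) / 2)).cexp).congr_deriv ?_
        simp
        ring
      exact (h4.comp (s : ℂ) h3).comp_ofReal) ((i2.sub i1).mul_const I) (ker_int hd hg hμ z z)
  rw [integral_mul_const, mul_eq_zero, or_iff_left I_ne_zero, integral_sub' i2 i1, sub_eq_zero,
    ← heat_eq hd.deriv (hg.deriv hd) hμ hl] at h2
  rw [h1.deriv, ← h2, mul_div_cancel_right₀ _ (mom_ne hμ)]

lemma Gr.iter (hg : Gr f) (hd : Differentiable ℂ f) (n : ℕ) : Gr (iteratedDeriv n f) := by
  induction n with
  | zero => simpa using hg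
  | succ n ih =>
    rw [iteratedDeriv_succ]
    exact ih.deriv (iteratedDeriv_differentiable hd n)

lemma iter_heat (hd : Differentiable ℂ f) (hg : Gr f) (hlam : 0 < lam) (n : ℕ) :
    iteratedDeriv n (heat lam f) = heat lam (iteratedDeriv n f) := by
  induction n with
  | zero => simp
  | succ n ih => rw [iteratedDeriv_succ, ih, iteratedDeriv_succ,
      deriv_heat (iteratedDeriv_differentiable hd n) (hg.iter hd n) hlam]

/-- the heat series at complex time -/
noncomputable def cheat (F : ℂ → ℂ) (z t : ℂ) : ℂ :=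
  ∑' k : ℕ, (-t) ^ k / ((Nat.factorial k : ℕ) : ℂ) * iteratedDeriv (2 * k) F z

lemma iter_two (F : ℂ → ℂ) (k : ℕ) :
    iteratedDeriv (2 * (k + 1)) F = iteratedDeriv (2 * k) (deriv (deriv F)) := by
  rw [show 2 * (k + 1) = 2 * k + 1 + 1 by ring, iteratedDeriv_succ', iteratedDeriv_succ']

lemma cheat_deriv (hd : Differentiable ℂ f) (hg : Gr f) (z t : ℂ) :
    HasDerivAt (cheat f z) (-cheat (deriv (deriv f)) z t) t := by
  have hΛ : 0 < ‖t‖ + 1 := by positivity
  have h1 := (summable_hterm hd.deriv.deriv ((hg.deriv hd).deriv hd.deriv) hΛ z).norm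
  have e : ∀ (y : ℂ) (k : ℕ), ((k + 1 : ℕ) : ℂ) * (-y) ^ (k + 1 - 1) * -1 /
      ((k + 1).factorial : ℂ) * iteratedDeriv (2 * (k + 1)) f z =
      -((-y) ^ k / (k.factorial : ℂ) * iteratedDeriv (2 * k) (deriv (deriv f)) z) := by
    intro y k
    have : (k.factorial : ℂ) ≠ 0 := by exact_mod_cast k.factorial_ne_zero
    have : ((k + 1 : ℕ) : ℂ) ≠ 0 := by exact_mod_cast k.succ_ne_zero
    rw [iter_two, Nat.factorial_succ, Nat.cast_mul, Nat.add_sub_cancel]
    field_simp
  have hb : ∀ (k : ℕ) (y : ℂ), y ∈ ball (0 : ℂ) (‖t‖ + 1) → ‖(k : ℂ) * (-y) ^ (k - 1) * -1 /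
      (k.factorial : ℂ) * iteratedDeriv (2 * k) f z‖ ≤
      (Nat.casesOn k 0 fun k => ‖hterm (‖t‖ + 1) (deriv (deriv f)) z k‖ : ℝ) := by
    rintro (_ | k) y hy
    · simp
    · rw [e]
      simp only [hterm, norm_neg, norm_mul, norm_div, norm_pow, Complex.norm_real,
        Real.norm_of_nonneg hΛ.le]
      gcongr
      exact (mem_ball_zero_iff.mp hy).le
  have hs : Summable fun k : ℕ =>
      (Nat.casesOn k 0 fun k => ‖hterm (‖t‖ + 1) (deriv (deriv f)) z k‖ : ℝ) :=
    (summable_nat_add_iff 1).mp h1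
  have ht : t ∈ ball (0 : ℂ) (‖t‖ + 1) := by simp
  have h2 := hasDerivAt_tsum_of_isPreconnected hs isOpen_ball (convex_ball _ _).isPreconnected
    (g := fun k y => (-y) ^ k / (k.factorial : ℂ) * iteratedDeriv (2 * k) f z)
    (fun k y _ => ((((hasDerivAt_neg' y).pow k).div_const _).mul_const _)) hb
    (mem_ball_self hΛ) (summable_of_ne_finset_zero (s := {0}) fun k hk => by
      simp [Finset.notMem_singleton.mp hk]) ht
  refine h2.congr_deriv ?_
  rw [(hs.of_norm_bounded fun k => hb k t ht).tsum_eq_zero_add]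
  simp only [e, tsum_neg]
  simp [cheat]

lemma iter_cheat (z t : ℂ) (k : ℕ) : ∀ f : ℂ → ℂ, Differentiable ℂ f → Gr f →
    iteratedDeriv k (cheat f z) t = (-1) ^ k * cheat (iteratedDeriv (2 * k) f) z t := by
  induction k with
  | zero => simp
  | succ k ih =>
    intro f hd hg
    rw [iteratedDeriv_succ', show deriv (cheat f z) = fun t => -cheat (deriv (deriv f)) z t from
      funext fun t => (cheat_deriv hd hg z t).deriv, iteratedDeriv_fun_neg,
      ih _ hd.deriv.deriv ((hg.deriv hd).deriv hd.deriv), iter_two]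
    ring

lemma heat_heat (hd : Differentiable ℂ f) (hg : Gr f) (hlam : 0 < lam) (l : ℝ) :
    heat l (heat lam f) = heat (lam + l) f := by
  ext z
  have h1 := Complex.taylorSeries_eq_of_entire (f := cheat f z)
    (fun t => (cheat_deriv hd hg z t).differentiableAt) lam (lam + l : ℝ)
  refine Eq.trans (tsum_congr fun k => ?_) h1
  rw [iter_cheat z lam k f hd hg, hterm, iter_heat hd hg hlam, neg_pow (l : ℂ)]
  simp only [smul_eq_mul, ofReal_add, add_sub_cancel_left]
  change _ * cheat _ z lam = _
  ring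

lemma Fr.deriv0 (h : Fr 0 f ∨ f = 0) : Fr 0 (deriv f) ∨ deriv f = 0 := by
  rcases h with h | rfl
  swap
  · simp
  by_cases hc : ∃ w : ℂ, 0 < w.im ∧ deriv f w = 0
  swap
  · push Not at hc
    exact Or.inl (Fr.mk' le_rfl h.d.deriv (h.g.deriv h.d) (deriv_conj h.r) fun w hw _ => hc w hw)
  obtain ⟨w, hw, h0⟩ := hc
  obtain ⟨ι, z, m, hh⟩ := h.cl.had
  have hn : 0 < ‖w‖ := hw.trans_le ((le_abs_self _).trans (abs_im_le_norm w))
  have h1 := h.ne hw hn
  have h2 := h.S_le hh hw (by simpa using hn)
  have h3 : logDeriv f w = 0 := by rw [logDeriv_apply, h0, zero_div]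
  rw [WW, h3, zero_im, neg_zero, zero_div, mul_zero] at h2
  have h4 : ∀ i, m i = 0 := fun i => by
    have h5 := ((hh.sm' w h1).le_tsum i fun j _ => by have := hh.m0 j; positivity).trans h2
    have h6 : 0 < ‖w - z i‖ ^ 2 := pow_pos (norm_pos_iff.mpr (hh.sub_ne h1 i)) 2
    rw [div_le_iff₀ h6, zero_mul] at h5
    exact le_antisymm h5 (hh.m0 i)
  refine Or.inr (funext fun x => by_contra fun hx => not_ev_zero h.d.deriv hx w ?_)
  filter_upwards [(h.d w).continuousAt.eventually_ne h1] with y hy
  have h7 := (hh.hs' y w hy h1).tsum_eq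
  simp only [h4, ofReal_zero, zero_mul, tsum_zero, h3, sub_zero] at h7
  rw [logDeriv_apply, eq_comm, div_eq_zero_iff] at h7
  exact h7.resolve_right hy

lemma Fr.laguerre (h : Fr 0 f ∨ f = 0) (x : ℝ) :
    (f x * deriv (deriv f) x - deriv f x ^ 2).re ≤ 0 := by
  rcases h with h | rfl
  swap
  · simp
  have r0 := real_of_conj h.r x
  have r1 := real_of_conj (deriv_conj h.r) x
  by_cases h0 : f x = 0
  · simp [h0, sq, r1, mul_self_nonneg]
  have h1 := slope_im (M := 0) ((h.d.deriv x).hasDerivAt.div (h.d x).hasDerivAt h0).neg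
    (by simp [div_im, r0, r1]) (eventually_nhdsWithin_of_forall fun y hy => by
      have h2 : 0 < (x + y * I : ℂ).im := by simpa using hy
      have := h.im_le h2 (by simpa using fun e => by simp [e] at h2)
      rw [logDeriv_apply] at this
      simpa using this)
  have h3 : f x = ((f x).re : ℂ) := Complex.ext (by simp) (by simpa using r0)
  have h4 : 0 < (f x).re ^ 2 := sq_pos_of_ne_zero fun e => h0 (by rw [h3, e]; simp)
  rw [neg_re, h3, ← ofReal_pow, div_ofReal_re, ← h3, neg_nonneg, div_le_iff₀ h4, zero_mul] at h1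
  rw [mul_comm, sq]
  exact h1

lemma heat_simple (hd : Differentiable ℂ f) (hg : Gr f) {l0 : ℝ} (hl0 : 0 < l0) (hl : l0 < lam)
    (h : ∀ l, l0 < l → l ≤ lam → Fr 0 (heat l f)) (x : ℝ) (h0 : heat lam f x = 0) :
    deriv (heat lam f) x ≠ 0 := by
  intro h1
  have hlam := hl0.trans hl
  have hF := h lam hl le_rfl
  have key : ∀ j : ℕ, iteratedDeriv j (heat lam f) x = 0 ∧
      iteratedDeriv (j + 1) (heat lam f) x = 0 := by
    intro j
    induction j with
    | zero => simpa using ⟨h0, h1⟩
    | succ j ih =>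
      refine ⟨ih.2, ?_⟩
      set F := iteratedDeriv j f with hFd
      have d0 : Differentiable ℂ F := iteratedDeriv_differentiable hd j
      have g0 : Gr F := hg.iter hd j
      have g1 := g0.deriv d0
      have g2 := g1.deriv d0.deriv
      have hr : (heat lam (deriv (deriv F)) x).im = 0 := by
        have h2 : ∀ n, ∀ w, iteratedDeriv n (heat lam f) (conj w) =
            conj (iteratedDeriv n (heat lam f) w) := fun n => by
          induction n with
          | zero => simpa using hF.r
          | succ n ih => rw [iteratedDeriv_succ]; exact deriv_conj ih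
        have := real_of_conj (h2 (j + 1 + 1)) x
        rwa [iter_heat hd hg hlam, iteratedDeriv_succ, iteratedDeriv_succ] at this
      simp only [iter_heat hd hg hlam, iteratedDeriv_succ, ← hFd] at ih ⊢
      have h2 := (((cheat_deriv d0 g0 x lam).mul (cheat_deriv d0.deriv.deriv g2 x lam)).sub
        ((cheat_deriv d0.deriv g1 x lam).pow 2)).comp_ofReal
      have a0 : cheat F x lam = 0 := ih.1
      have a1 : cheat (deriv F) x lam = 0 := ih.2
      have h3 := (continuous_re.tendsto _).comp h2.tendsto_slope_zero_left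
      have h4 := ge_of_tendsto (b := 0) h3 (by
        filter_upwards [Ioo_mem_nhdsLT (show l0 - lam < 0 by linarith)] with s hs
        have h5 : Fr 0 (heat (lam + s) F) ∨ heat (lam + s) F = 0 := by
          rw [hFd, ← iter_heat hd hg (by linarith [hs.1])]
          clear * - h hs
          induction j with
          | zero => exact Or.inl (by simpa using h _ (by linarith [hs.1]) (by linarith [hs.2]))
          | succ j ih => rw [iteratedDeriv_succ]; exact Fr.deriv0 ih
        have h6 := Fr.laguerre h5 x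
        rw [deriv_heat d0 g0 (by linarith [hs.1]), deriv_heat d0.deriv g1 (by linarith [hs.1])]
          at h6
        simp only [Function.comp, Pi.sub_apply, Pi.mul_apply, Pi.pow_apply, a0, a1, real_smul,
          re_ofReal_mul]
        simp only [zero_mul, ne_eq, OfNat.ofNat_ne_zero, not_false_eq_true, zero_pow, sub_zero]
        exact mul_nonneg_of_nonpos_of_nonpos (inv_nonpos.mpr hs.2.le) h6)
      simp only [a0, a1] at h4
      have h7 : cheat (deriv (deriv F)) x lam = heat lam (deriv (deriv F)) x := rfl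
      simp [h7, hr] at h4
      exact Complex.ext (mul_self_eq_zero.mp (le_antisymm h4 (mul_self_nonneg _))) hr
  have h2 := Complex.taylorSeries_eq_of_entire hF.d x I
  simp only [(key _).1, smul_zero, tsum_zero] at h2
  exact hF.ne (by simp) (by simp) h2.symm

end Pool.Agent.P.MP_2e654e_an.Den
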