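import Pool.Agent.P.MP_2e654e_an.DenJ

set_option autoImplicit false

open Complex Metric Filter Topology Set MeasureTheory ComplexConjugate

namespace Pool.Agent.P.MP_2e654e_an.Den

/-- real polynomials built from real linear and quadratic factors with roots in `Z` -/
inductive Poly (Z : Set ℂ) : (ℂ → ℂ) → Prop
  | one : Poly Z fun _ => 1
  | lin (α : ℝ) (p : ℂ → ℂ) : (α : ℂ) ∈ Z → Poly Z p → Poly Z fun w => (w - α) * p w
  | quad (a : ℂ) (p : ℂ → ℂ) : a ∈ Z → Poly Z p →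
      Poly Z fun w => ((w - a.re) ^ 2 + (a.im ^ 2 : ℝ)) * p w

variable {Z : Set ℂ} {p f : ℂ → ℂ} {lam μ Δ : ℝ}

lemma gr_quad (α g : ℝ) : Gr fun w => (w - α) ^ 2 + g := by
  simpa only [sq] using ((gr_sub α).mul (gr_sub α)).add (gr_const g)

lemma Poly.props (h : Poly Z p) : Differentiable ℂ p ∧ Gr p ∧ ∀ w, p (conj w) = conj (p w) := by
  induction h with
  | one => exact ⟨by fun_prop, gr_const 1, by simp⟩
  | lin α p _ _ ih =>
    have := ih.1
    exact ⟨by fun_prop, (gr_sub α).mul ih.2.1, fun w => by simp [ih.2.2]⟩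
  | quad a p _ _ ih =>
    have := ih.1
    exact ⟨by fun_prop, (gr_quad _ _).mul ih.2.1, fun w => by
      simp only [ih.2.2, map_mul, map_add, map_pow, map_sub, conj_ofReal]⟩

lemma Poly.mul {q : ℂ → ℂ} (h : Poly Z p) (hq : Poly Z q) : Poly Z fun w => p w * q w := by
  induction h with
  | one => simpa using hq
  | lin α p ha _ ih => simpa only [mul_assoc] using Poly.lin α _ ha ih
  | quad a p ha _ ih => simpa only [mul_assoc] using Poly.quad a _ ha ih

lemma Poly.ind (h : Poly Z p) (hlam : 0 < lam) {P : (ℂ → ℂ) → Prop}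
    (h1 : ∀ (α : ℝ) (Φ : ℂ → ℂ), (α : ℂ) ∈ Z → P Φ → P (Lop lam α Φ))
    (h2 : ∀ (a : ℂ) (Φ : ℂ → ℂ), a ∈ Z → P Φ → P (Qop lam a.re (a.im ^ 2) Φ))
    (hd : Differentiable ℂ f) (hg : Gr f) (h0 : P (heat lam f)) :
    P (heat lam fun w => p w * f w) := by
  induction h with
  | one => simpa using h0
  | lin α p ha hp ih =>
    simp only [mul_assoc]
    rw [heat_lin (hp.props.1.fun_mul hd) (hp.props.2.1.mul hg) hlam]
    exact h1 α _ ha ih
  | quad a p ha hp ih =>
    simp only [mul_assoc]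
    rw [heat_quad (hp.props.1.fun_mul hd) (hp.props.2.1.mul hg) hlam]
    exact h2 a _ ha ih

lemma Poly.heat_fr (h : Poly Z p) (hlam : 0 < lam) (hZ : ∀ a ∈ Z, a.im ^ 2 < 2 * lam) :
    Fr 0 (heat lam p) := by
  have := h.ind hlam (P := Fr 0) (fun α Φ _ h => by simpa using h.lin hlam α)
    (fun a Φ ha h => h.quad_zero hlam (sq_nonneg _) (hZ a ha) _) (f := fun _ => 1) (by fun_prop)
    (gr_const 1) (by
      rw [heat_one hlam]
      exact ⟨le_rfl, by fun_prop, gr_const 1, by simp, by simp⟩)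
  simpa using this

lemma Gr.of_mul {g : ℂ → ℂ} {a : ℂ} (hf : Gr fun w => (w - a) * g w) (hd : Differentiable ℂ g) :
    Gr g := by
  intro ε hε
  obtain ⟨C, hC1, hC⟩ := hf ε hε
  obtain ⟨B, hB⟩ := (isCompact_closedBall a 1).exists_bound_of_continuousOn
    hd.continuous.continuousOn
  refine ⟨C + |B|, by linarith [abs_nonneg B], fun z => ?_⟩
  have h1 : 1 ≤ Real.exp (ε * ‖z‖ ^ 2) := Real.one_le_exp (by positivity)
  rcases le_total ‖z - a‖ 1 with h | h
  · nlinarith [hB z (mem_closedBall_iff_norm.mpr h), le_abs_self B, abs_nonneg B]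
  · have h2 := hC z
    rw [norm_mul] at h2
    nlinarith [norm_nonneg (g z), abs_nonneg B]

lemma extract_one {a : ℂ} (ha : a ∈ Z) (k : ℕ) : ∀ f g : ℂ → ℂ, Differentiable ℂ g → g a ≠ 0 →
    (∀ w, f w = (w - a) ^ k * g w) → Gr f → (∀ w, f (conj w) = conj (f w)) →
    ∃ p g' : ℂ → ℂ, Poly Z p ∧ Differentiable ℂ g' ∧ Gr g' ∧ (∀ w, g' (conj w) = conj (g' w)) ∧
      (∀ w, f w = p w * g' w) ∧ g' a ≠ 0 := by
  induction k with
  | zero =>
    intro f g hd h0 he hg hr
    simp only [pow_zero, one_mul] at he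
    obtain rfl : f = g := funext he
    exact ⟨_, f, Poly.one, hd, hg, hr, by simp, h0⟩
  | succ k ih =>
    intro f g hd h0 he hg hr
    have hf : f = fun w => (w - a) * ((w - a) ^ k * g w) := funext fun w => by rw [he]; ring
    have hg1 : Gr fun w => (w - a) ^ k * g w := Gr.of_mul (a := a) (hf ▸ hg) (by fun_prop)
    by_cases hi : a.im = 0
    · obtain ⟨α, rfl⟩ : ∃ α : ℝ, a = α := ⟨a.re, Complex.ext (by simp) (by simpa using hi)⟩
      obtain ⟨p, g', h1, h2, h3, h4, h5, h6⟩ := ih (fun w => (w - α) ^ k * g w) g hd h0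
        (fun _ => rfl) hg1
        (conj_of_real' (f := fun w => (w - α) ^ k * g w) (by fun_prop) α fun x hx => by
          have h7 := real_of_conj hr x
          simp only [hf] at h7
          rw [← ofReal_sub, im_ofReal_mul] at h7
          rw [← ofReal_sub]
          exact (mul_eq_zero.mp h7).resolve_left (sub_ne_zero.mpr hx))
      exact ⟨_, g', Poly.lin α p ha h1, h2, h3, h4, fun w => by
        rw [mul_assoc, ← h5, hf], h6⟩
    · have h1 : conj a - a ≠ 0 := sub_ne_zero.mpr fun e => hi (conj_eq_iff_im.mp e)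
      have h2 : g (conj a) = 0 := by
        have h3 := hr a
        rw [he, he a, sub_self, zero_pow k.succ_ne_zero, zero_mul, map_zero] at h3
        exact (mul_eq_zero.mp h3).resolve_left (pow_ne_zero _ h1)
      have h3 : ∀ w, g w = (w - conj a) * dslope g (conj a) w := fun w => by
        rw [← smul_eq_mul, sub_smul_dslope, h2, sub_zero]
      have h4 : Differentiable ℂ (dslope g (conj a)) :=
        differentiableOn_univ.mp ((differentiableOn_dslope univ_mem).mpr hd.differentiableOn)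
      have h5 : ∀ w, f w = ((w - a.re) ^ 2 + (a.im ^ 2 : ℝ)) *
          ((w - a) ^ k * dslope g (conj a) w) := fun w => by
        have e1 : conj a = a.re - a.im * I := by apply Complex.ext <;> simp
        have e2 : (w - a) * (w - conj a) = (w - a.re) ^ 2 + (a.im ^ 2 : ℝ) := by
          rw [e1]
          nth_rewrite 1 [← re_add_im a]
          push_cast
          linear_combination (-(a.im : ℂ) ^ 2) * I_mul_I
        rw [he, h3 w, ← e2]
        ring
      obtain ⟨p, g', k1, k2, k3, k4, k5, k6⟩ := ih (fun w => (w - a) ^ k * dslope g (conj a) w)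
        (dslope g (conj a)) h4
        (fun e => h0 (by rw [h3, e, mul_zero])) (fun _ => rfl)
        (Gr.of_mul (a := conj a) ((congrArg Gr (funext fun w => by rw [h3 w]; ring)).mp hg1)
          (by fun_prop))
        (conj_of_real (f := fun w => (w - a) ^ k * dslope g (conj a) w) (by fun_prop) fun x => by
          have h7 := real_of_conj hr x
          rw [h5, ← ofReal_sub, ← ofReal_pow, ← ofReal_add, im_ofReal_mul] at h7
          exact (mul_eq_zero.mp h7).resolve_left (by positivity))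
      exact ⟨_, g', Poly.quad a p ha k1, k2, k3, k4, fun w => by rw [mul_assoc, ← k5, h5], k6⟩

lemma extract (hf : Cl Δ f) (T : Finset ℂ) (hT : ∀ a ∈ T, a ∈ Z) :
    ∃ p g : ℂ → ℂ, Poly Z p ∧ Cl Δ g ∧ (∀ w, f w = p w * g w) ∧ ∀ a ∈ T, g a ≠ 0 := by
  classical
  induction T using Finset.induction_on with
  | empty => exact ⟨_, f, Poly.one, hf, by simp, by simp⟩
  | insert a T _ ih =>
    obtain ⟨p, g, h1, h2, h3, h4⟩ := ih fun b hb => hT b (Finset.mem_insert_of_mem hb)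
    obtain ⟨k, g0, k1, k2, k3⟩ := factor_one h2.d (c := (|Δ| + 1 : ℝ) * I) (fun e => by
      have := (le_abs_self _).trans (h2.z _ e)
      simp only [mul_I_im, ofReal_re] at this
      linarith [le_abs_self Δ]) a
    obtain ⟨q, g', l1, l2, l3, l4, l5, l6⟩ :=
      extract_one (hT a (Finset.mem_insert_self a T)) k g g0 k1 k2 k3 h2.g h2.r
    refine ⟨_, g', h1.mul l1, ⟨l2, l3, fun b hb => h2.z b (by rw [l5, hb, mul_zero]), l4⟩,
      fun w => by rw [h3, l5, mul_assoc], fun b hb => ?_⟩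
    rcases Finset.mem_insert.mp hb with rfl | hb
    · exact l6
    · exact fun e => h4 b hb (by rw [l5, e, mul_zero])

/-- translation and removal of an exponential factor -/
noncomputable def nrm (f : ℂ → ℂ) (ξ c : ℝ) (w : ℂ) : ℂ := f (ξ + w) * exp (-c * w)

lemma Cl.nrm (hf : Cl Δ f) (ξ c : ℝ) : Cl Δ (nrm f ξ c) := by
  have := hf.d
  refine ⟨by unfold Den.nrm; fun_prop, (hf.g.shift ξ).mul (gr_of_lin (a := |c|) (b := 0)
    fun z => ?_), fun a ha => ?_, fun w => ?_⟩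
  · refine (Complex.norm_exp_le_exp_norm _).trans (le_of_eq ?_)
    simp
  · simpa using hf.z _ ((mul_eq_zero.mp ha).resolve_right (exp_ne_zero _))
  · unfold Den.nrm
    rw [map_mul, ← hf.r, ← exp_conj]
    simp

lemma logDeriv_nrm (hd : Differentiable ℂ f) (ξ c : ℝ) {w : ℂ} (h : f (ξ + w) ≠ 0) :
    logDeriv (nrm f ξ c) w = logDeriv f (ξ + w) - c := by
  have h1 := ((hd (ξ + w)).hasDerivAt.comp_const_add (ξ : ℂ) w).mul
    ((hasDerivAt_id w).const_mul (-c : ℂ)).cexp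
  have := exp_ne_zero (-c * w)
  rw [logDeriv_apply, logDeriv_apply, show deriv (nrm f ξ c) w = _ from h1.deriv, nrm]
  simp only [id]
  field_simp
  ring

lemma heat_nrm (hf : Cl Δ f) (hμ : 0 < μ) (hl : 2 * lam * μ = 1) (ξ c : ℝ) (ζ : ℂ) :
    heat lam f (ξ + c / μ + ζ) = exp (c ^ 2 / (2 * μ) + c * ζ) * heat lam (nrm f ξ c) ζ := by
  refine mul_right_cancel₀ (mom_ne hμ) ?_
  rw [heat_eq hf.d hf.g hμ hl _ ξ, mul_assoc, heat_eq (hf.nrm ξ c).d (hf.nrm ξ c).g hμ hl _ 0,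
    ← integral_const_mul]
  congr 1
  ext s
  have : (μ : ℂ) ≠ 0 := by exact_mod_cast hμ.ne'
  unfold ker nrm
  rw [zero_add, mul_assoc, mul_left_comm, ← Complex.exp_add, ← Complex.exp_add]
  congr 2
  field_simp
  ring

lemma Cl.vert (hf : Cl Δ f) (hΔ : 0 < Δ) {v : ℝ} (hv : 6 * Δ ≤ v) (s : ℝ) :
    ‖f (s * I)‖ ≤ ‖f (v * I)‖ * Real.exp (WW f (v * I) * s ^ 2 / 2) := by
  obtain ⟨ι, z, m, h⟩ := hf.had
  have hW : 0 ≤ WW f (v * I) := by
    linarith [h.S_le hΔ hf.r (w := v * I) (k := 2) (by norm_num) (by simp; linarith)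
      (by simp; linarith), h.S0 (v * I)]
  wlog hs : 0 ≤ s generalizing s
  · have := this (-s) (by linarith)
    rwa [neg_sq, show ((-s : ℝ) : ℂ) * I = conj (s * I) by simp, hf.r, Complex.norm_conj] at this
  rcases le_total s v with h1 | h1
  · have h2 := h.bottom hΔ hf.r (c := v * I) (p := v - s) (by simp; linarith) (by linarith)
      (by simpa)
    rw [show v * I - (v - s : ℝ) * I = s * I by push_cast; ring] at h2
    exact h2.trans (le_mul_of_one_le_right (norm_nonneg _) (Real.one_le_exp (by positivity)))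
  · refine (norm_le_of_deriv (g := fun t : ℝ => f (t * I)) (k := fun t => logDeriv f (t * I) * I)
      (ρ := fun t => WW f (v * I) * t ^ 2 / 2) (ρ' := fun t => WW f (v * I) * t) h1
      (fun t ht => ?_) (fun t _ => (((hasDerivAt_pow 2 t).const_mul _).div_const 2).congr_deriv
        (by simp; ring)) (fun t ht => ?_)).trans ?_
    · have h3 : HasDerivAt (fun w : ℂ => w * I) I t := by
        simpa using (hasDerivAt_id (t : ℂ)).mul_const I
      exact (((hasDerivAt_logDeriv (hf.d _) (h.ne' (by simp; linarith [ht.1]))).comp (t : ℂ)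
        h3).comp_ofReal).congr_deriv (by ring)
    · have h3 := h.W_anti hΔ hf.r (ξ := 0) hv ht.1
      have h4 := WW_mul f (w := t * I) (by simp; linarith [ht.1])
      simp only [ofReal_zero, zero_add, mul_I_im, ofReal_re] at h3 h4
      rw [mul_I_re, ← h4]
      exact mul_le_mul_of_nonneg_right h3 (by linarith [ht.1])
    · gcongr
      exact sub_le_self _ (by positivity)

lemma int_bound (hμ : 0 < μ) {ν : ℝ} (hν : 0 < ν) (ρ : ℝ) :
    ∃ C : ℝ, 0 < C ∧ ∀ (φ : ℝ → ℂ) (B : ℝ), (∀ s, ‖φ s‖ ≤ B * Real.exp ((μ - ν) * s ^ 2 / 2)) →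
      ∀ ζ : ℂ, ‖ζ‖ ≤ ρ → ‖∫ s : ℝ, φ s * exp ((μ : ℂ) / 2 * (s * I - ζ) ^ 2)‖ ≤ B * C := by
  have hν2 := half_pos hν
  refine ⟨Real.exp (μ ^ 2 * ρ ^ 2 / ν + μ * ρ ^ 2 / 2) * mom (ν / 2) 0,
    mul_pos (Real.exp_pos _) (mom_pos hν2), fun φ B hφ ζ hζ => ?_⟩
  have hB : 0 ≤ B := by simpa using (norm_nonneg _).trans (hφ 0)
  rw [← mul_assoc, mom, ← integral_const_mul]
  refine norm_integral_le_of_norm_le ((int_mom hν2 0).const_mul _) (Eventually.of_forall fun s => ?_)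
  have h1 := norm_ker μ (fun _ => φ s) ζ (s * I)
  unfold ker at h1
  rw [h1, pow_zero, one_mul, mul_assoc, ← Real.exp_add]
  refine (mul_le_mul_of_nonneg_right (hφ s) (Real.exp_pos _).le).trans ?_
  rw [mul_assoc, ← Real.exp_add]
  refine mul_le_mul_of_nonneg_left (Real.exp_le_exp.mpr ?_) hB
  have h2 := pow_le_pow_left₀ (norm_nonneg _) hζ 2
  rw [Complex.sq_norm, normSq_apply] at h2
  have h3 : μ * s * ζ.im ≤ ν / 4 * s ^ 2 + μ ^ 2 * ρ ^ 2 / ν := by
    have h4 : ν / 4 * s ^ 2 + μ ^ 2 * ζ.im ^ 2 / ν - μ * s * ζ.im =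
        (ν * s - 2 * μ * ζ.im) ^ 2 / (4 * ν) := by
      field_simp
      ring
    have h5 : 0 ≤ (ν * s - 2 * μ * ζ.im) ^ 2 / (4 * ν) := by positivity
    have h6 : μ ^ 2 * ζ.im ^ 2 / ν ≤ μ ^ 2 * ρ ^ 2 / ν := by
      gcongr ?_ / _
      exact mul_le_mul_of_nonneg_left (by nlinarith [mul_self_nonneg ζ.re]) (sq_nonneg μ)
    linarith
  simp only [sub_re, mul_I_re, ofReal_im, neg_zero, zero_sub, sub_im, mul_I_im, ofReal_re]
  nlinarith [mul_nonneg hμ.le (mul_self_nonneg ζ.im), mul_le_mul_of_nonneg_left h2 hμ.le]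

lemma harnack {ε D : ℝ} (hε : 0 < ε) (hD : ε ≤ D) :
    ∃ ρ : ℝ, D ≤ ρ ∧ ∀ A : ℝ, 0 < A → ∃ c : ℝ, 0 < c ∧ ∀ (h : ℂ → ℂ) (ζ1 ζ2 : ℂ),
      Differentiable ℂ h → ε ≤ ζ1.im → ε ≤ ζ2.im → ‖ζ1‖ ≤ D → ‖ζ2‖ ≤ D →
      (∀ ζ : ℂ, 0 < ζ.im → ‖ζ‖ ≤ ρ → h ζ ≠ 0 ∧ ‖h ζ‖ ≤ Real.exp A * ‖h ζ1‖) →
      c * ‖h ζ1‖ ≤ ‖h ζ2‖ := by
  have hD0 : 0 < D := hε.trans_le hD
  set θ := ε ^ 2 / (4 * D ^ 2) with hθ
  have hθ0 : 0 < θ := by positivity
  have hθ1 : θ ≤ 1 / 4 := by
    rw [hθ, div_le_div_iff₀ (by positivity) (by norm_num)]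
    nlinarith
  refine ⟨2 * D / θ, by rw [le_div_iff₀ hθ0]; nlinarith, fun A hA => ⟨Real.exp (-(2 * A / θ)),
    Real.exp_pos _, fun h ζ1 ζ2 hd h1 h2 h3 h4 hb => ?_⟩⟩
  set M : ℂ → ℂ := fun s => (ζ1 - s * conj ζ1) / (1 - s) with hM
  have hs : ∀ s ∈ ball (0 : ℂ) (1 - θ), θ ≤ ‖1 - s‖ := fun s hs => by
    have := norm_sub_norm_le 1 s
    rw [norm_one] at this
    linarith [mem_ball_zero_iff.mp hs]
  have hMb : ∀ s ∈ ball (0 : ℂ) (1 - θ), 0 < (M s).im ∧ ‖M s‖ ≤ 2 * D / θ := fun s hs' => by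
    have k1 := hs s hs'
    have k2 := mem_ball_zero_iff.mp hs'
    have k3 : 0 < normSq (1 - s) := normSq_pos.mpr (norm_pos_iff.mp (by linarith))
    have k4 : normSq s < 1 := by
      rw [← Complex.sq_norm]
      nlinarith [norm_nonneg s]
    constructor
    · have : (M s).im = ζ1.im * (1 - normSq s) / normSq (1 - s) := by
        simp only [hM, div_im, normSq_apply s]
        simp
        ring
      rw [this]
      exact div_pos (mul_pos (by linarith) (by linarith)) k3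
    · simp only [hM, norm_div]
      gcongr
      refine (norm_sub_le _ _).trans ?_
      rw [norm_mul, Complex.norm_conj]
      nlinarith [norm_nonneg s, norm_nonneg ζ1]
  have hM0 : M 0 = ζ1 := by simp [hM]
  obtain ⟨L, -, -, l2, l3⟩ := log_bc (h := fun s => h (M s)) (c := 0) (R := 1 - θ) (by linarith) hA
    (fun s hs' => by
      have : 1 - s ≠ 0 := norm_pos_iff.mp (by linarith [hs s hs'])
      refine DifferentiableAt.differentiableWithinAt ?_
      simp only [hM]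
      fun_prop (disch := assumption))
    (fun s hs' => (hb _ (hMb s hs').1 (hMb s hs').2).1)
    (fun s hs' => by rw [hM0]; exact (hb _ (hMb s hs').1 (hMb s hs').2).2)
  have k0 : 0 < (ζ2 - conj ζ1).im := by simp; linarith
  have k1 : ζ2 - conj ζ1 ≠ 0 := fun e => by simp [e] at k0
  have k2 : ζ1 - conj ζ1 ≠ 0 := fun e => by
    have := congrArg im e
    simp at this
    linarith
  set s0 := (ζ2 - ζ1) / (ζ2 - conj ζ1) with hs0
  have k3 : M s0 = ζ2 := by
    have : 1 - s0 = (ζ1 - conj ζ1) / (ζ2 - conj ζ1) := by rw [hs0]; field_simp; ring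
    simp only [hM]
    rw [this, hs0]
    field_simp
    ring
  have k4 : ‖s0‖ ≤ 1 - 2 * θ := by
    have k5 : ‖ζ2 - conj ζ1‖ ≤ 2 * D := by
      linarith [norm_sub_le ζ2 (conj ζ1), Complex.norm_conj ζ1]
    have k6 : ‖ζ2 - ζ1‖ ^ 2 = ‖ζ2 - conj ζ1‖ ^ 2 - 4 * (ζ1.im * ζ2.im) := by
      simp [Complex.sq_norm, normSq_apply]
      ring
    have k7 : ε ^ 2 ≤ ζ1.im * ζ2.im := by nlinarith
    have k8 : θ * (4 * D ^ 2) = ε ^ 2 := by rw [hθ]; field_simp
    have k9 := pow_le_pow_left₀ (norm_nonneg _) k5 2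
    rw [hs0, norm_div, div_le_iff₀ (norm_pos_iff.mpr k1)]
    refine (pow_le_pow_iff_left₀ (norm_nonneg _) (mul_nonneg (by linarith) (norm_nonneg _))
      two_ne_zero).mp ?_
    nlinarith [mul_le_mul_of_nonneg_left k9 hθ0.le, mul_nonneg (sq_nonneg θ)
      (sq_nonneg ‖ζ2 - conj ζ1‖)]
  have k5 : s0 ∈ ball (0 : ℂ) (1 - θ) := mem_ball_zero_iff.mpr (by linarith)
  have k6 := l2 s0 k5
  have k7 := l3 s0 k5
  rw [k3, hM0] at k6
  rw [sub_zero] at k7
  have k8 : ‖L s0‖ ≤ 2 * A / θ := by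
    exact k7.trans (div_le_div₀ (by positivity)
      (mul_le_of_le_one_right (by positivity) (by linarith)) hθ0 (by linarith))
  rw [k6, norm_mul, Complex.norm_exp, mul_comm]
  gcongr
  linarith [(abs_le.mp ((abs_re_le_norm _).trans k8)).1]

end Pool.Agent.P.MP_2e654e_an.Den
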