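import Pool.Agent.P.MP_2e654e_an.DenK

set_option autoImplicit false

open Complex Metric Filter Topology Set MeasureTheory ComplexConjugate

namespace Pool.Agent.P.MP_2e654e_an.Den

variable {lam μ Δ : ℝ} {f : ℂ → ℂ}

lemma Cl.ne (hf : Cl Δ f) {w : ℂ} (hw : Δ < w.im) : f w ≠ 0 := fun e => by
  linarith [le_abs_self w.im, hf.z w e]

lemma Cl.W0 (hf : Cl Δ f) (hΔ : 0 < Δ) {w : ℂ} (hw : 2 * Δ ≤ w.im) : 0 ≤ WW f w := by
  obtain ⟨ι, z, m, h⟩ := hf.had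
  linarith [h.S_le hΔ hf.r (w := w) (k := 3) (by norm_num) (by linarith) (by linarith), h.S0 w]

lemma Had.u_diff {ι : Type} {z : ι → ℂ} {m : ι → ℝ} (h : Had Δ f z m) {w c : ℂ} (hw : f w ≠ 0)
    (hc : f c ≠ 0) : ‖logDeriv f w - logDeriv f c‖ ≤ ‖w - c‖ * (SS z m w + SS z m c) := by
  refine (h.hs' w c hw hc).norm_le_of_bounded (((h.sS' hw).add (h.sS' hc)).mul_left _) fun i => ?_
  have h1 := h.sub_ne hw i
  have h2 := h.sub_ne hc i
  have h0 := h.m0 i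
  rw [norm_mul, norm_inv_diff h1 h2, Complex.norm_real, Real.norm_of_nonneg h0]
  have h3 := inv_mul_le (norm_pos_iff.mpr h1) (norm_pos_iff.mpr h2)
  calc _ = ‖w - c‖ * m i * (1 / (‖w - z i‖ * ‖c - z i‖)) := by ring
    _ ≤ ‖w - c‖ * m i * (1 / ‖w - z i‖ ^ 2 + 1 / ‖c - z i‖ ^ 2) := by gcongr
    _ = _ := by ring

/-- a factor without zeros in a large disc is close to a Gaussian -/
lemma Cl.gauss {F : ℂ → ℂ} (hF : Cl Δ F) (hΔ : 0 < Δ) {v s1 L θ : ℝ} (hv : 6 * Δ ≤ v)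
    (hs : v < s1) (hθ : 0 < θ) (hθ1 : θ ≤ 1) (hW : WW F (v * I) ≤ μ)
    (hL : 4 * s1 + 324 * μ * s1 ^ 3 / θ ≤ L) (hz : ∀ a, F a = 0 → L < ‖a‖) :
    ∃ (h0 : ℂ) (a1 : ℝ), h0 ≠ 0 ∧ ‖h0‖ ≤ ‖F (v * I)‖ ∧ ∀ s : ℝ, |s| ≤ s1 → ∃ t : ℂ, ‖t‖ ≤ θ ∧
      F (s * I) = h0 * exp (a1 * (s * I) - WW F (v * I) * (s * I) ^ 2 / 2) * (1 + t) := by
  obtain ⟨ι, z, m, h⟩ := hF.had
  set a1 := (logDeriv F (v * I)).re with ha1
  set a2 := WW F (v * I) with ha2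
  have hv0 : 0 < v := by linarith
  have hs0 : 0 < s1 := by linarith
  have hW0 : 0 ≤ a2 := hF.W0 hΔ (by simp; linarith)
  have hμ : 0 ≤ μ := hW0.trans hW
  have hL1 : 0 ≤ 324 * μ * s1 ^ 3 / θ := by positivity
  have hL0 : 0 < L := by linarith
  have hne : ∀ w ∈ ball (0 : ℂ) (2 * s1), F w ≠ 0 := fun w hw e => by
    linarith [hz w e, mem_ball_zero_iff.mp hw]
  have hvn : ‖(v : ℂ) * I‖ = v := by simp [abs_of_pos hv0]
  have hu : logDeriv F (v * I) = a1 - a2 * (v * I) := by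
    have := WW_mul F (w := v * I) (by simpa)
    simp only [mul_I_im, ofReal_re] at this
    apply Complex.ext <;> simp [ha1]
    linarith
  have herr : ∀ w ∈ ball (0 : ℂ) (2 * s1),
      ‖logDeriv F w - (a1 - a2 * w)‖ ≤ 54 * μ * s1 ^ 2 / L := by
    intro w hw
    have h1 := mem_ball_zero_iff.mp hw
    have hd : ∀ i, L / 2 ≤ ‖w - z i‖ := fun i => by
      linarith [hz _ (h.z0 i), norm_sub_norm_le (z i) w, norm_sub_rev (z i) w]
    have h2 := h.fac' hΔ hF.r (w1 := v * I) (by simpa) (hne w hw) (half_pos hL0) hd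
    have h3 := h.H_norm hΔ (w1 := v * I) (by simpa) (half_pos hL0) hd
    have h4 := h.S_le hΔ hF.r (w := v * I) (k := 2) (by norm_num) (by simp; linarith)
      (by simp; linarith)
    rw [show logDeriv F w - (a1 - a2 * w) = (w - v * I) * (w - conj (v * I)) * HH z m (v * I) w by
      rw [← h2, hu]
      ring, norm_mul, norm_mul]
    have h5 := norm_sub_le w (v * I)
    have h6 := norm_sub_le w (conj (v * I))
    rw [Complex.norm_conj] at h6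
    calc _ ≤ (3 * s1) * (3 * s1) * (7 / 5 / (L / 2) * (2 * μ)) := by
          gcongr
          · linarith
          · linarith
          · exact h3.trans (by gcongr; linarith)
      _ = 252 / 5 * (μ * s1 ^ 2 / L) := by field_simp; ring
      _ ≤ 54 * (μ * s1 ^ 2 / L) := by gcongr; norm_num
      _ = _ := by ring
  obtain ⟨Λ, hΛ⟩ := DifferentiableOn.isExactOn_ball (f := fun w => logDeriv F w - (a1 - a2 * w))
    ((logDeriv_diffOn isOpen_ball hF.d.differentiableOn hne).sub (by fun_prop))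
  have hv1 : (v : ℂ) * I ∈ ball (0 : ℂ) (2 * s1) := mem_ball_zero_iff.mpr (by linarith)
  refine ⟨F (v * I) * exp (-(a1 * (v * I) - a2 * (v * I) ^ 2 / 2)), a1,
    mul_ne_zero (hne _ hv1) (exp_ne_zero _), ?_, fun s hs1 => ?_⟩
  · rw [norm_mul, Complex.norm_exp]
    refine mul_le_of_le_one_right (norm_nonneg _) (Real.exp_le_one_iff.mpr ?_)
    have e : (-(a1 * (v * I) - a2 * (v * I) ^ 2 / 2) : ℂ).re = -(a2 * v ^ 2 / 2) := by
      simp [mul_pow, ← ofReal_pow]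
      ring
    rw [e]
    exact neg_nonpos.mpr (by positivity)
  · have hsn : ‖(s : ℂ) * I‖ = |s| := by simp
    have hs2 : (s : ℂ) * I ∈ ball (0 : ℂ) (2 * s1) := mem_ball_zero_iff.mpr (by linarith)
    have h1 := exp_of_deriv (h := fun w => F w * exp (-(a1 * w - a2 * w ^ 2 / 2)))
      (convex_ball _ _) isOpen_ball (fun w hw =>
        ((hasDerivAt_logDeriv (hF.d w) (hne w hw)).mul ((((hasDerivAt_id w).const_mul
          (a1 : ℂ)).sub ((((hasDerivAt_id w).pow 2).const_mul (a2 : ℂ)).div_const 2)).neg.cexp)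
          ).congr_deriv (by simp; ring)) hΛ hv1 hs2
    have h2 := (convex_ball _ _).norm_image_sub_le_of_norm_hasDerivWithin_le
      (fun w hw => (hΛ w hw).hasDerivWithinAt) herr hv1 hs2
    have h3 : ‖Λ (s * I) - Λ (v * I)‖ ≤ θ / 2 := by
      refine h2.trans ?_
      have h4 := norm_sub_le ((s : ℂ) * I) (v * I)
      have h5 : 324 * μ * s1 ^ 3 ≤ L * θ := by
        rw [← div_le_iff₀ hθ]
        linarith
      calc _ ≤ 54 * μ * s1 ^ 2 / L * (3 * s1) := by gcongr; linarith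
        _ ≤ _ := by
          rw [div_mul_eq_mul_div, div_le_iff₀ hL0]
          linarith
    refine ⟨exp (Λ (s * I) - Λ (v * I)) - 1,
      (Complex.norm_exp_sub_one_le (by linarith)).trans (by linarith), ?_⟩
    rw [add_sub_cancel, mul_right_comm, ← h1, mul_assoc, ← Complex.exp_add]
    simp

lemma tail_bound {ν θ N s1 : ℝ} {φ ψ : ℝ → ℂ} (hν : 0 < ν) (hθ : 0 < θ) (hN : 0 ≤ N)
    (hs1 : 1 + 8 / (ν * θ) ≤ s1) (b1 : ∀ s, ‖φ s‖ ≤ N * Real.exp ((μ - ν) * s ^ 2 / 2))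
    (b2 : ∀ s, ‖ψ s‖ ≤ N * Real.exp ((μ - ν) * s ^ 2 / 2))
    (k : ∀ s, |s| ≤ s1 → ∃ t : ℂ, ‖t‖ ≤ θ ∧ φ s = ψ s * (1 + t)) (s : ℝ) :
    ‖ψ s‖ ≤ N * Real.exp ((μ - ν / 2) * s ^ 2 / 2) ∧
      ‖φ s - ψ s‖ ≤ θ * N * Real.exp ((μ - ν / 2) * s ^ 2 / 2) := by
  have b0 := (b2 s).trans (mul_le_mul_of_nonneg_left (Real.exp_le_exp.mpr
    (show (μ - ν) * s ^ 2 / 2 ≤ (μ - ν / 2) * s ^ 2 / 2 by nlinarith [sq_nonneg s])) hN)
  have p4 : 0 < 8 / (ν * θ) := by positivity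
  refine ⟨b0, ?_⟩
  rcases le_total |s| s1 with hs | hs
  · obtain ⟨t, ht, e⟩ := k s hs
    rw [show φ s - ψ s = t * ψ s by rw [e]; ring, norm_mul, mul_assoc]
    gcongr
  · have q1 : s1 ≤ s ^ 2 := by nlinarith [sq_abs s]
    have q2 : 2 ≤ θ * Real.exp (ν / 4 * s ^ 2) := by
      have q3 : θ * (ν / 4 * (8 / (ν * θ))) = 2 := by field_simp; norm_num
      have q4 : ν / 4 * (8 / (ν * θ)) ≤ ν / 4 * s ^ 2 := by gcongr; linarith
      rw [← q3]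
      gcongr
      linarith [Real.add_one_le_exp (ν / 4 * s ^ 2)]
    calc _ ≤ 2 * (N * Real.exp ((μ - ν) * s ^ 2 / 2)) := by
          linarith [norm_sub_le (φ s) (ψ s), b1 s, b2 s]
      _ ≤ θ * Real.exp (ν / 4 * s ^ 2) * (N * Real.exp ((μ - ν) * s ^ 2 / 2)) := by gcongr
      _ = _ := by
          rw [mul_mul_mul_comm, ← Real.exp_add]
          congr 2
          ring

/-- the heat flow of a polynomial times a Gaussian -/
lemma gauss_heat {p : ℂ → ℂ} {h0 : ℂ} {a1 a2 : ℝ} (hμ : 0 < μ) (hl : 2 * lam * μ = 1)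
    (hp : Poly {a | a.im ^ 2 ≤ lam} p) (k1 : h0 ≠ 0) (h1 : 0 ≤ a2) (h2 : a2 < μ) :
    ∃ G : ℂ → ℂ, Differentiable ℂ G ∧ (∀ ζ : ℂ, 0 < ζ.im → G ζ ≠ 0) ∧ ∀ ζ : ℂ,
      Integrable (fun s : ℝ => p (s * I) * (h0 * exp (a1 * (s * I) - a2 * (s * I) ^ 2 / 2)) *
        exp ((μ : ℂ) / 2 * (s * I - ζ) ^ 2)) ∧
      G ζ = ∫ s : ℝ, p (s * I) * (h0 * exp (a1 * (s * I) - a2 * (s * I) ^ 2 / 2)) *
        exp ((μ : ℂ) / 2 * (s * I - ζ) ^ 2) := by
  obtain ⟨pd, pg, pr⟩ := hp.props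
  obtain ⟨μ', hμ'⟩ : ∃ μ', μ' = μ - a2 := ⟨_, rfl⟩
  have hlam : 0 < lam := by
    by_contra hc
    nlinarith
  have hμ0 : 0 < μ' := by linarith
  have hμ1 : (μ' : ℂ) ≠ 0 := by exact_mod_cast hμ0.ne'
  have hl' : 2 * (1 / (2 * μ')) * μ' = 1 := by field_simp
  have hfr := hp.heat_fr (lam := 1 / (2 * μ')) (by positivity) fun a ha => by
    have : lam * μ' < 2 * (1 / (2 * μ')) * μ' := by nlinarith
    exact lt_of_le_of_lt ha (lt_of_mul_lt_mul_right this hμ0.le)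
  have e1 : ∀ (ζ : ℂ) (s : ℝ), p (s * I) * (h0 * exp (a1 * (s * I) - a2 * (s * I) ^ 2 / 2)) *
      exp ((μ : ℂ) / 2 * (s * I - ζ) ^ 2) =
      h0 * exp (μ * ζ ^ 2 / 2 - μ' * ((μ * ζ - a1) / μ') ^ 2 / 2) *
        ker μ' p ((μ * ζ - a1) / μ') (0 + s * I) := by
    intro ζ s
    have e2 : (a2 : ℂ) = μ - μ' := by rw [hμ']; push_cast; ring
    simp only [ker, zero_add]
    rw [mul_assoc, mul_assoc h0, ← Complex.exp_add, mul_left_comm, mul_assoc h0,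
      mul_left_comm (exp _), ← Complex.exp_add, e2]
    congr 3
    field_simp
    ring
  refine ⟨fun ζ => h0 * exp (μ * ζ ^ 2 / 2 - μ' * ((μ * ζ - a1) / μ') ^ 2 / 2) *
    (heat (1 / (2 * μ')) p ((μ * ζ - a1) / μ') * (mom μ' 0 : ℝ)), ?_, fun ζ hζ => ?_, fun ζ => ?_⟩
  · have := hfr.d
    fun_prop
  · have q1 : 0 < ((μ * ζ - a1) / μ').im := by
      rw [div_ofReal_im]
      simpa using by positivity
    exact mul_ne_zero (mul_ne_zero k1 (exp_ne_zero _)) (mul_ne_zero (hfr.ne q1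
      (q1.trans_le ((le_abs_self _).trans (abs_im_le_norm _)))) (mom_ne hμ0))
  · simp only [e1]
    exact ⟨(ker_int pd pg hμ0 _ 0).const_mul _, by
      rw [heat_eq pd pg hμ0 hl' _ 0, integral_const_mul]⟩

/-- the local comparison with a polynomial times a Gaussian -/
lemma approx (hΔ : 0 < Δ) (hμ : 0 < μ) (hl : 2 * lam * μ = 1) {v0 ν ρ C θ : ℝ} (hν : 0 < ν)
    (hθ0 : 0 < θ) (hθ1 : θ ≤ 1)
    (hC : ∀ (φ : ℝ → ℂ) (B : ℝ), (∀ s, ‖φ s‖ ≤ B * Real.exp ((μ - ν / 2) * s ^ 2 / 2)) →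
      ∀ ζ : ℂ, ‖ζ‖ ≤ ρ → ‖∫ s : ℝ, φ s * exp ((μ : ℂ) / 2 * (s * I - ζ) ^ 2)‖ ≤ B * C) :
    ∃ L : ℝ, 0 < L ∧ ∀ f : ℂ → ℂ, Cl Δ f → ∀ v : ℝ, 6 * Δ ≤ v → v ≤ v0 → WW f (v * I) ≤ μ - ν →
      (∀ a, f a = 0 → ‖a‖ ≤ L → a.im ^ 2 ≤ lam) → ∃ G : ℂ → ℂ, Differentiable ℂ G ∧
        (∀ ζ : ℂ, 0 < ζ.im → G ζ ≠ 0) ∧ ∀ ζ : ℂ, ‖ζ‖ ≤ ρ → ‖G ζ‖ ≤ ‖f (v * I)‖ * C ∧
          ‖heat lam f ζ * (mom μ 0 : ℝ) - G ζ‖ ≤ θ * ‖f (v * I)‖ * C := by
  obtain ⟨s1, hs1⟩ : ∃ s1, s1 = |v0| + 1 + 8 / (ν * θ) := ⟨_, rfl⟩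
  have p4 : 0 < 8 / (ν * θ) := by positivity
  have p2 := abs_nonneg v0
  have p3 := le_abs_self v0
  have p5 : 0 < s1 := by linarith
  obtain ⟨L, hL⟩ : ∃ L, L = 4 * s1 + 324 * μ * s1 ^ 3 / θ := ⟨_, rfl⟩
  refine ⟨L, by rw [hL]; positivity, fun f hf v h1 h2 h6 h7 => ?_⟩
  have hN : f (v * I) ≠ 0 := hf.ne (by simp; linarith)
  obtain ⟨p, F, hp, hF, he, hT⟩ := extract (Z := {a | a.im ^ 2 ≤ lam}) hf
    (zeros_finite hf.d hN (isCompact_closedBall 0 L)).toFinset (fun a ha => by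
      rw [Finite.mem_toFinset] at ha
      exact h7 a ha.2 (mem_closedBall_zero_iff.mp ha.1))
  obtain ⟨pd, pg, pr⟩ := hp.props
  have hpc : Cl Δ p := ⟨pd, pg, fun a ha => hf.z a (by rw [he, ha, zero_mul]), pr⟩
  have hWs : WW f (v * I) = WW p (v * I) + WW F (v * I) := by
    rw [WW, WW, WW, show f = fun w => p w * F w from funext he, logDeriv_mul _
      (hpc.ne (by simp; linarith)) (hF.ne (by simp; linarith)) (pd _) (hF.d _), add_im]
    ring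
  have hWp := hpc.W0 hΔ (w := v * I) (by simp; linarith)
  have hWF := hF.W0 hΔ (w := v * I) (by simp; linarith)
  obtain ⟨h0, a1, k1, k2, k3⟩ := hF.gauss (μ := μ) (s1 := s1) (L := L) hΔ h1 (by linarith) hθ0
    hθ1 (by linarith) hL.ge (fun a ha => lt_of_not_ge fun hle => hT a (by
      rw [Finite.mem_toFinset]
      exact ⟨mem_closedBall_zero_iff.mpr hle, by rw [he, ha, mul_zero]⟩) ha)
  obtain ⟨G, g1, g2, g3⟩ := gauss_heat (a1 := a1) hμ hl hp k1 hWF (by linarith)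
  have b := tail_bound (μ := μ) (φ := fun s => f (s * I)) (ψ := fun s => p (s * I) *
    (h0 * exp (a1 * (s * I) - WW F (v * I) * (s * I) ^ 2 / 2))) (s1 := s1) hν hθ0
    (norm_nonneg (f (v * I))) (by linarith) (fun s => (hf.vert hΔ h1 s).trans (by gcongr))
    (fun s => by
      have e : (a1 * (s * I) - WW F (v * I) * (s * I) ^ 2 / 2 : ℂ).re =
          WW F (v * I) * s ^ 2 / 2 := by
        simp [mul_pow, ← ofReal_pow]
        ring
      simp only [norm_mul, Complex.norm_exp, e]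
      calc _ ≤ ‖p (v * I)‖ * Real.exp (WW p (v * I) * s ^ 2 / 2) *
            (‖F (v * I)‖ * Real.exp (WW F (v * I) * s ^ 2 / 2)) := by
            gcongr
            exact hpc.vert hΔ h1 s
        _ = ‖f (v * I)‖ * Real.exp (WW f (v * I) * s ^ 2 / 2) := by
            rw [mul_mul_mul_comm, ← Real.exp_add, hWs, he, norm_mul]
            congr 2
            ring
        _ ≤ _ := by gcongr)
    (fun s hs => (k3 s hs).imp fun t ht => ⟨ht.1, by rw [he, ht.2]; ring⟩)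
  refine ⟨G, g1, g2, fun ζ hζ => ⟨?_, ?_⟩⟩
  · rw [(g3 ζ).2]
    exact hC _ _ (fun s => (b s).1) ζ hζ
  · rw [heat_eq hf.d hf.g hμ hl ζ 0, (g3 ζ).2, ← integral_sub (ker_int hf.d hf.g hμ ζ 0) (g3 ζ).1]
    simp only [ker, zero_add, ← sub_mul]
    exact hC _ _ (fun s => (b s).2) ζ hζ

/-- a point of bounded size where the heat flow is not small -/
lemma high (hΔ : 0 < Δ) (hμ : 0 < μ) (hl : 2 * lam * μ = 1) {ε ν : ℝ} (v0 : ℝ) (hε : 0 < ε)
    (hν : 0 < ν) : ∃ D a0 : ℝ, ε ≤ D ∧ v0 ≤ D ∧ 0 < a0 ∧ ∀ f : ℂ → ℂ, Cl Δ f → ∀ v : ℝ,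
      6 * Δ ≤ v → v ≤ v0 → (logDeriv f (v * I)).re = 0 → WW f (v * I) ≤ μ - ν →
      ∃ z : ℂ, ‖z‖ ≤ D ∧ ε ≤ z.im ∧ a0 * ‖f (v * I)‖ ≤ ‖heat lam f z * (mom μ 0 : ℝ)‖ := by
  obtain ⟨v00, hv00, hsad⟩ := saddle_lower hΔ hμ hl hε
  obtain ⟨v1, hv1⟩ : ∃ v1, v1 = v00 + |v0| + ε * μ / ν + ε := ⟨_, rfl⟩
  have p1 : 0 < ε * μ / ν := by positivity
  have p2 := abs_nonneg v0
  have p3 := le_abs_self v0
  refine ⟨6 * v1, Real.exp (-(μ / 2 * (7 * v1) ^ 2)) / (4 * (1 + 7 * μ)), by linarith, by linarith,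
    by positivity, fun f hf v h1 h2 h5 h6 => ?_⟩
  have hv0 : 0 < v := by linarith
  have hN : f (v * I) ≠ 0 := hf.ne (by simp; linarith)
  have hWf := hf.W0 hΔ (w := v * I) (by simp; linarith)
  obtain ⟨ι, z, m, h⟩ := hf.had
  have hW1 := h.W_anti hΔ hf.r (ξ := 0) h1 (show v ≤ v1 by linarith)
  simp only [ofReal_zero, zero_add] at hW1
  have hv10 : 0 < v1 := by linarith
  have hu : ‖logDeriv f (v1 * I)‖ ≤ 5 * v1 * μ := by
    have q1 := h.u_diff (w := v1 * I) (hf.ne (by simp; linarith)) hN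
    have q2 := h.S_le hΔ hf.r (w := v * I) (k := 2) (by norm_num) (by simp; linarith)
      (by simp; linarith)
    have q3 := h.S_le hΔ hf.r (w := v1 * I) (k := 2) (by norm_num) (by simp; linarith)
      (by simp; linarith)
    have q4 : ‖(v1 : ℂ) * I - v * I‖ ≤ v1 := by
      rw [← sub_mul, ← ofReal_sub, norm_mul, norm_I, mul_one, Complex.norm_real,
        Real.norm_of_nonneg (by linarith)]
      linarith
    have q5 := Complex.norm_le_abs_re_add_abs_im (logDeriv f (v * I))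
    have q6 := WW_mul f (w := v * I) (by simpa)
    simp only [mul_I_im, ofReal_re] at q6
    rw [h5, abs_zero, zero_add, ← abs_neg, ← q6, abs_of_nonneg (mul_nonneg hWf hv0.le)] at q5
    have q7 := norm_add_le (logDeriv f (v1 * I) - logDeriv f (v * I)) (logDeriv f (v * I))
    rw [sub_add_cancel] at q7
    have q8 : ‖(v1 : ℂ) * I - v * I‖ * (SS z m (v1 * I) + SS z m (v * I)) ≤ v1 * (4 * μ) :=
      mul_le_mul q4 (by linarith) (add_nonneg (h.S0 _) (h.S0 _)) hv10.le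
    have q9 : WW f (v * I) * v ≤ μ * v1 := mul_le_mul (by linarith) (by linarith) hv0.le hμ.le
    linarith
  obtain ⟨z', hz'⟩ : ∃ z' : ℂ, z' = v1 * I + logDeriv f (v1 * I) / μ := ⟨_, rfl⟩
  have hμc : (μ : ℂ) ≠ 0 := by exact_mod_cast hμ.ne'
  have hv1n : ‖(v1 : ℂ) * I‖ = v1 := by simp [abs_of_pos hv10]
  have z1 : ‖z'‖ ≤ 6 * v1 := by
    rw [hz']
    refine (norm_add_le _ _).trans ?_
    rw [hv1n, norm_div, Complex.norm_real, Real.norm_of_nonneg hμ.le]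
    linarith [(div_le_iff₀ hμ).mpr hu]
  have z2 : ε ≤ z'.im := by
    have q1 := WW_mul f (w := v1 * I) (by simpa)
    simp only [mul_I_im, ofReal_re] at q1
    simp only [hz', add_im, mul_I_im, ofReal_re, div_ofReal_im]
    have q2 : ε * μ ≤ v1 * ν := by
      rw [← div_le_iff₀ hν]
      linarith
    rw [← sub_le_iff_le_add', le_div_iff₀ hμ]
    linarith [mul_le_mul_of_nonneg_right (hW1.trans h6) hv10.le]
  refine ⟨z', z1, z2, ?_⟩
  have q1 := hsad f hf z' (v1 * I) z2 (by simp; linarith) (by rw [hz']; field_simp; ring)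
  have q2 := h.bottom hΔ hf.r (c := v1 * I) (p := v1 - v) (by simp; linarith) (by linarith)
    (by simp; linarith)
  rw [show v1 * I - (v1 - v : ℝ) * I = v * I by push_cast; ring] at q2
  have q3 : |(v1 * I - z').im| ≤ 7 * v1 :=
    (abs_im_le_norm _).trans ((norm_sub_le _ _).trans (by linarith))
  have q4 := pow_le_pow_left₀ (abs_nonneg _) q3 2
  rw [sq_abs] at q4
  rw [norm_ker] at q1
  rw [div_mul_eq_mul_div, div_le_iff₀' (by positivity), mul_comm]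
  refine le_trans ?_ q1
  gcongr
  linarith [mul_nonneg hμ.le (sq_nonneg (v1 * I - z').re), mul_le_mul_of_nonneg_left q4 hμ.le]

lemma loc (hΔ : 0 < Δ) (hμ : 0 < μ) (hl : 2 * lam * μ = 1) {ε ν : ℝ} (v0 : ℝ) (hε : 0 < ε)
    (hν : 0 < ν) : ∃ L : ℝ, 0 < L ∧ ∀ f : ℂ → ℂ, Cl Δ f → ∀ v y : ℝ, 6 * Δ ≤ v → v ≤ v0 → ε ≤ y →
      y ≤ v0 → (logDeriv f (v * I)).re = 0 → WW f (v * I) ≤ μ - ν →
      (∀ a, f a = 0 → ‖a‖ ≤ L → a.im ^ 2 ≤ lam) → heat lam f (y * I) ≠ 0 := by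
  obtain ⟨D, a0, hD, hD', ha0, hh⟩ := high hΔ hμ hl v0 hε hν
  obtain ⟨ρ, hρ, hH⟩ := harnack hε hD
  obtain ⟨C, hC0, hC⟩ := int_bound hμ (half_pos hν) ρ
  obtain ⟨c, hc0, hc⟩ := hH (2 * C / a0) (by positivity)
  obtain ⟨θ, hθ⟩ : ∃ θ, θ = min 1 (min 1 c * a0 / (4 * C)) := ⟨_, rfl⟩
  have hθC : θ * C ≤ min 1 c * a0 / 4 := by
    have := mul_le_mul_of_nonneg_right (min_le_right 1 (min 1 c * a0 / (4 * C))) hC0.le
    rwa [show min 1 c * a0 / (4 * C) * C = min 1 c * a0 / 4 by field_simp, ← hθ] at this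
  obtain ⟨L, hL, hA⟩ := approx (v0 := v0) (θ := θ) hΔ hμ hl hν (by rw [hθ]; positivity)
    (hθ.trans_le (min_le_left _ _)) hC
  refine ⟨L, hL, fun f hf v y h1 h2 h3 h4 h5 h6 h7 e => ?_⟩
  obtain ⟨G, g1, g2, g3⟩ := hA f hf v h1 h2 h6 h7
  obtain ⟨z, z1, z2, z3⟩ := hh f hf v h1 h2 h5 h6
  have hN0 : 0 < ‖f (v * I)‖ := norm_pos_iff.mpr (hf.ne (by simp; linarith))
  generalize ‖f (v * I)‖ = N at *
  have m0 := mul_pos ha0 hN0
  have m1 := mul_le_mul_of_nonneg_right (min_le_left 1 c) m0.le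
  have m2 := mul_le_mul_of_nonneg_right (min_le_right 1 c) m0.le
  have m3 := mul_le_mul_of_nonneg_right hθC hN0.le
  have z4 : a0 * N / 2 ≤ ‖G z‖ := by
    linarith [(g3 z (z1.trans hρ)).2, norm_sub_norm_le (heat lam f z * (mom μ 0 : ℝ)) (G z)]
  have hyn : ‖(y : ℂ) * I‖ ≤ D := by
    rw [norm_mul, norm_I, mul_one, Complex.norm_real, Real.norm_of_nonneg (by linarith)]
    linarith
  have z5 := hc G z (y * I) g1 z2 (by simpa) z1 hyn fun ζ hζ hζ' => ⟨g2 ζ hζ, by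
    refine (g3 ζ hζ').1.trans ?_
    calc N * C = 2 * C / a0 * (a0 * N / 2) := by field_simp
      _ ≤ _ := by
        gcongr
        linarith [Real.add_one_le_exp (2 * C / a0)]⟩
  have z6 := (g3 _ (hyn.trans hρ)).2
  rw [e, zero_mul, zero_sub, norm_neg] at z6
  linarith [mul_le_mul_of_nonneg_left z4 hc0.le, mul_pos hc0 m0]

end Pool.Agent.P.MP_2e654e_an.Den
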