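import Pool.Agent.P.MP_2e654e_an.DenL

set_option autoImplicit false

open Complex Metric Filter Topology Set MeasureTheory ComplexConjugate

namespace Pool.Agent.P.MP_2e654e_an.Den

variable {lam μ Δ : ℝ} {f : ℂ → ℂ}

lemma core (hΔ : 0 < Δ) (hμ : 0 < μ) (hl : 2 * lam * μ = 1) {ε : ℝ} (hε : 0 < ε) :
    ∃ L v0 : ℝ, 0 < L ∧ 0 < v0 ∧ ∀ f : ℂ → ℂ, Cl Δ f → ∀ z w : ℂ, ε ≤ z.im → 6 * Δ ≤ w.im →
      WW f w + μ * z.im / w.im ≤ μ → z.re = w.re + (logDeriv f w).re / μ →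
      (logDeriv f w = -μ * (w - z) ∨ w.im = 6 * Δ) →
      (z.im ≤ w.im → w.im ≤ v0 → ∀ a, f a = 0 → |a.re - w.re| ≤ L → a.im ^ 2 ≤ lam) →
      heat lam f z ≠ 0 := by
  obtain ⟨v0, hv0, hsad⟩ := saddle_lower hΔ hμ hl hε
  have hv : 0 < v0 := by linarith
  obtain ⟨L, hL, hloc⟩ := loc hΔ hμ hl (ν := μ * ε / v0) v0 hε (by positivity)
  refine ⟨L, v0, hL, hv, fun f hf z w h1 h2 h3 h4 h5 h6 e => ?_⟩
  have hw : f w ≠ 0 := hf.ne (by linarith)
  rcases le_total v0 w.im with h7 | h7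
  · have := hsad f hf z w h1 h7 (h5.resolve_right (by linarith))
    rw [e, zero_mul, norm_zero, mul_zero, norm_le_zero_iff] at this
    exact mul_ne_zero hw (exp_ne_zero _) this
  · have hw0 : 0 < w.im := by linarith
    have k1 : z.im ≤ w.im := by
      have := (div_le_iff₀ hw0).mp
        (show μ * z.im / w.im ≤ μ by linarith [hf.W0 hΔ (w := w) (by linarith)])
      exact le_of_mul_le_mul_left this hμ
    have k2 : μ * ε / v0 ≤ μ * z.im / w.im :=
      div_le_div₀ (mul_nonneg hμ.le (by linarith)) (by gcongr) hw0 h7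
    have k3 := logDeriv_nrm hf.d w.re (logDeriv f w).re (w := w.im * I) (by rwa [re_add_im])
    rw [re_add_im] at k3
    refine hloc _ (hf.nrm w.re (logDeriv f w).re) w.im z.im h2 h7 h1 (by linarith)
      (by simp [k3]) ?_ (fun a ha hL => ?_) ?_
    · rw [show WW (nrm f w.re (logDeriv f w).re) (w.im * I) = WW f w by simp [WW, k3]]
      linarith
    · simpa using h6 k1 h7 _ ((mul_eq_zero.mp ha).resolve_right (exp_ne_zero _))
        (by simpa using (abs_re_le_norm a).trans hL)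
    · have k4 := heat_nrm hf hμ hl w.re (logDeriv f w).re (z.im * I)
      rw [← ofReal_div, ← ofReal_add, ← h4, re_add_im, e] at k4
      exact (mul_eq_zero.mp k4.symm).resolve_left (exp_ne_zero _)

/-- zeros in a narrow strip become real -/
lemma Cl.heat_fr (hf : Cl Δ f) (hΔ : 0 < Δ) (hlam : 0 < lam)
    (hz : ∀ a, f a = 0 → a.im ^ 2 ≤ lam) : Fr 0 (heat lam f) := by
  have hμ : 0 < 1 / (2 * lam) := by positivity
  refine Fr.mk' le_rfl (heat_diff hf.d hf.g hlam) (heat_gr hf.d hf.g hlam)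
    (heat_conj hf.d hf.g hf.r hlam) fun z hz0 _ => ?_
  obtain ⟨L, v0, -, -, hc⟩ := core hΔ hμ (two_mul_mu hlam) hz0
  obtain ⟨ι, zz, m, h⟩ := hf.had
  obtain ⟨C, -, hC⟩ := h.exists_pre hΔ hμ hf.d hf.r
  obtain ⟨w, h1, h2, h3, h4, -⟩ := hC z hz0
  exact hc f hf z w le_rfl h1 h2 h3 h4 fun _ _ a ha _ => hz a ha

lemma Had.S_cmp {ι : Type} {z : ι → ℂ} {m : ι → ℝ} (h : Had Δ f z m) (hΔ : 0 < Δ) {w w' : ℂ}
    {T : ℝ} (h1 : 2 * Δ ≤ w'.im) (h2 : Δ < w.im) (h3 : ‖w - w'‖ ≤ T) :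
    SS z m w' ≤ (1 + T / Δ) ^ 2 * SS z m w := by
  refine hasSum_le (fun i => ?_) (h.sS (by linarith)) ((h.sS h2).mul_left _)
  have k1 := h.dist w' i
  have k2 := h.dist w i
  have k3 := norm_add_le (w - w') (w' - z i)
  rw [sub_add_sub_cancel] at k3
  have k4 : 0 ≤ T := (norm_nonneg _).trans h3
  have k5 : T ≤ T / Δ * ‖w' - z i‖ := by
    rw [div_mul_eq_mul_div, le_div_iff₀ hΔ]
    exact mul_le_mul_of_nonneg_left (by linarith) k4
  have k6 := pow_le_pow_left₀ (norm_nonneg _)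
    (show ‖w - z i‖ ≤ (1 + T / Δ) * ‖w' - z i‖ by linarith) 2
  have k7 : 0 < ‖w' - z i‖ := by linarith
  have k8 : 0 < ‖w - z i‖ := by linarith
  rw [← mul_div_assoc, div_le_div_iff₀ (by positivity) (by positivity)]
  rw [mul_pow] at k6
  linarith [mul_le_mul_of_nonneg_left k6 (h.m0 i)]

/-- the condition on the zeros -/
def Hyp (Δ : ℝ) (f : ℂ → ℂ) : Prop := ∀ δ : ℝ, 0 < δ → ∀ K : ℝ,
  {ρ : ℂ | f ρ = 0 ∧ δ ≤ |ρ.im| ∧ -(logDeriv f (ρ.re + 2 * Δ * I)).im ≤ K}.Finite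

lemma stepA (hf : Cl Δ f) (hΔ : 0 < Δ) (hlam : 0 < lam) (H : Hyp Δ f) {ε : ℝ} (hε : 0 < ε) :
    ∃ R : ℝ, ∀ z : ℂ, heat lam f z = 0 → ε ≤ |z.im| → ‖z‖ ≤ R := by
  obtain ⟨μ, hμ'⟩ : ∃ μ, μ = 1 / (2 * lam) := ⟨_, rfl⟩
  have hμ : 0 < μ := by rw [hμ']; positivity
  obtain ⟨L, v0, hL, hv0, hc⟩ := core hΔ hμ (hμ' ▸ two_mul_mu hlam) hε
  obtain ⟨ι, zz, m, h⟩ := hf.had
  obtain ⟨C, hC0, hC⟩ := h.exists_pre hΔ hμ hf.d hf.r
  obtain ⟨B, hB⟩ := isBounded_iff_forall_norm_le.mp (H (min 1 lam) (by positivity)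
    (3 * ((1 + (L + v0) / Δ) ^ 2 * (2 * μ)) * (2 * Δ))).isBounded
  refine ⟨2 * (B + L) + 6 * v0 + 5 * C, fun z hz h0 => ?_⟩
  wlog hy : 0 ≤ z.im generalizing z
  · have := this (conj z) (by rw [heat_conj hf.d hf.g hf.r hlam, hz, map_zero]) (by simpa)
      (by simp; linarith)
    rwa [Complex.norm_conj] at this
  rw [abs_of_nonneg hy] at h0
  obtain ⟨w, h1, h2, h3, h4, h5⟩ := hC z (by linarith)
  by_contra hR
  refine hc f hf z w h0 h1 h2 h3 h4 (fun k1 k2 a ha k3 => ?_) hz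
  by_contra k4
  have k5 : min 1 lam ≤ |a.im| := by
    by_contra k5
    obtain ⟨k6, k7⟩ := lt_min_iff.mp (not_le.mp k5)
    nlinarith [sq_abs a.im, abs_nonneg a.im]
  have k6 := hB a ⟨ha, k5, by
    have e : (a.re + 2 * Δ * I : ℂ).im = 2 * Δ := by simp
    have q1 := h.S_cmp hΔ (w := w) (w' := a.re + 2 * Δ * I) (T := L + v0) e.ge (by linarith) (by
      refine (Complex.norm_le_abs_re_add_abs_im _).trans (add_le_add ?_ ?_)
      · simpa [abs_sub_comm] using k3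
      · rw [sub_im, e, abs_of_nonneg (by linarith)]
        linarith)
    have q2 := h.S_le hΔ hf.r (w := w) (k := 2) (by norm_num) (by linarith) (by linarith)
    have q3 : 0 ≤ μ * z.im / w.im := div_nonneg (by positivity) (by linarith)
    rw [← WW_mul f (by rw [e]; linarith), e]
    refine mul_le_mul_of_nonneg_right ((h.W_le hΔ hf.r e.ge).trans ?_) (by linarith)
    refine mul_le_mul_of_nonneg_left (q1.trans ?_) (by norm_num)
    gcongr
    linarith⟩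
  have k7 := Complex.norm_le_abs_re_add_abs_im z
  rw [abs_of_nonneg hy] at k7
  linarith [abs_re_le_norm a, abs_sub_abs_le_abs_sub w.re a.re, abs_sub_comm w.re a.re]

lemma Good.finite (h : Good f) : {z : ℂ | f z = 0 ∧ (z.im ≠ 0 ∨ deriv f z = 0)}.Finite := by
  obtain ⟨X, h, hs⟩ := h
  have hX := h.x
  refine (zeros_finite h.d (h.ne (w := (X + 1 : ℝ) * I) (by simp; linarith) (by
    rw [norm_mul, norm_I, mul_one, Complex.norm_real, Real.norm_of_nonneg] <;> linarith))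
    (isCompact_closedBall 0 X)).subset fun z hz => ⟨mem_closedBall_zero_iff.mpr ?_, hz.1⟩
  refine (h.z z hz.1).elim (fun e => ?_) id
  obtain ⟨x, rfl⟩ : ∃ x : ℝ, z = x := ⟨z.re, Complex.ext (by simp) (by simpa using e)⟩
  rw [Complex.norm_real]
  exact le_of_not_ge fun k => hs x k hz.1 (hz.2.resolve_left fun k => k e)

lemma stepB (hf : Cl Δ f) (hΔ : 0 < Δ) (hlam : 0 < lam) (H : Hyp Δ f) : Good (heat lam f) := by
  classical
  obtain ⟨l, rfl⟩ : ∃ l, lam = l + l := ⟨lam / 2, by ring⟩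
  have hl : 0 < l := by linarith
  obtain ⟨R, hR⟩ := stepA hf hΔ hl H one_pos
  obtain ⟨R', hR'⟩ := stepA hf hΔ hl H (ε := min 1 (l / 2)) (by positivity)
  have hG : Cl (|R| + 1) (heat l f) := ⟨heat_diff hf.d hf.g hl, heat_gr hf.d hf.g hl, fun a ha => by
    rcases le_total 1 |a.im| with k | k
    · linarith [hR a ha k, abs_im_le_norm a, le_abs_self R]
    · linarith [abs_nonneg R], heat_conj hf.d hf.g hf.r hl⟩
  have hR0 : 0 < |R| + 1 := by positivity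
  obtain ⟨p, g, hp, hg, he, hT⟩ := extract (Z := {a | l / 2 < a.im ^ 2}) hG
    ((zeros_finite hG.d (hG.ne (w := (|R| + 2 : ℝ) * I) (by simp))
      (isCompact_closedBall 0 R')).toFinset.filter fun a => l / 2 < a.im ^ 2)
    fun a ha => (Finset.mem_filter.mp ha).2
  have hz : ∀ a, g a = 0 → a.im ^ 2 ≤ l / 2 := fun a ha => le_of_not_gt fun k => by
    have k1 : heat l f a = 0 := by rw [he, ha, mul_zero]
    refine hT a (Finset.mem_filter.mpr ⟨(Finite.mem_toFinset _).mpr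
      ⟨mem_closedBall_zero_iff.mpr (hR' a k1 ?_), k1⟩, k⟩) ha
    by_contra k5
    obtain ⟨k6, k7⟩ := lt_min_iff.mp (not_le.mp k5)
    nlinarith [sq_abs a.im, abs_nonneg a.im]
  have hfr : ∀ t, l / 2 < t → t ≤ l → Fr 0 (heat t g) := fun t h1 _ =>
    hg.heat_fr hR0 (by linarith) fun a ha => (hz a ha).trans h1.le
  rw [← heat_heat hf.d hf.g hl, show heat l f = fun w => p w * g w from funext he]
  exact hp.ind hl (P := Good) (fun α Φ h _ => absurd h (by simp; linarith))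
    (fun a Φ _ h => h.quad hl (sq_nonneg _) _) hg.d hg.g ⟨0, hfr l (by linarith) le_rfl,
      fun x _ => heat_simple hg.d hg.g (half_pos hl) (by linarith) hfr x⟩

end Pool.Agent.P.MP_2e654e_an.Den
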