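import Pool.Agent.P.MP_2e654e_an.DenM

set_option autoImplicit false

open Complex Metric Filter Topology Set MeasureTheory ComplexConjugate

namespace Pool.Agent.P.MP_2e654e_an.Den

variable {lam μ Δ : ℝ} {f : ℂ → ℂ}

lemma mom_half (hμ : 0 < μ) : mom (μ / 2) 0 ≤ 2 * mom μ 0 := by
  simp only [mom, pow_zero, one_mul, integral_gaussian]
  rw [Real.sqrt_le_left (by positivity), mul_pow, Real.sq_sqrt (by positivity)]
  have : 0 < Real.pi / μ := by positivity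
  calc _ = 4 * (Real.pi / μ) := by field_simp; norm_num
    _ ≤ 8 * (Real.pi / μ) := by linarith
    _ = _ := by field_simp; norm_num

/-- for short times the heat flow is close to the identity -/
lemma heat_close {K ρ η : ℝ} (hK : 0 ≤ K) (hη : 0 < η) : ∃ μ : ℝ, 0 < μ ∧ ∀ (f : ℂ → ℂ) (N : ℝ),
    Differentiable ℂ f → Gr f → (∀ w, ‖f w‖ ≤ N * Real.exp (K * (1 + ‖w‖ ^ 2))) →
    ∀ ζ : ℂ, ‖ζ‖ ≤ ρ → ‖heat (1 / (2 * μ)) f ζ - f ζ‖ ≤ η * N := by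
  obtain ⟨M, hM⟩ : ∃ M, M = Real.exp (K * (1 + 2 * (ρ + 1) ^ 2)) := ⟨_, rfl⟩
  have hM0 : 0 < M := hM ▸ Real.exp_pos _
  obtain ⟨τ, hτ⟩ : ∃ τ, τ = η / (2 * M) := ⟨_, rfl⟩
  have hτ0 : 0 < τ := by rw [hτ]; positivity
  obtain ⟨μ, hμ'⟩ : ∃ μ, μ = 4 * (2 * K + 1 / τ ^ 2) := ⟨_, rfl⟩
  have hμ : 0 < μ := by rw [hμ']; positivity
  refine ⟨μ, hμ, fun f N hd hg hb ζ hζ => ?_⟩
  have hN : 0 ≤ N := nonneg_of_mul_nonneg_left ((norm_nonneg _).trans (hb 0)) (Real.exp_pos _)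
  have h1 : ∀ s : ℝ, ‖f (ζ + s * I) - f ζ‖ ≤ N * M * Real.exp (2 * K * s ^ 2) * |s| := by
    intro s
    have := (convex_closedBall ζ |s|).norm_image_sub_le_of_norm_deriv_le (f := f)
      (C := N * M * Real.exp (2 * K * s ^ 2)) (fun w _ => hd w) (fun w hw => ?_)
      (mem_closedBall_self (abs_nonneg s)) (y := ζ + s * I) (by simp)
    · simpa using this
    · refine (Complex.norm_deriv_le_of_forall_mem_sphere_norm_le one_pos hd.diffContOnCl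
        (C := N * M * Real.exp (2 * K * s ^ 2)) fun u hu => (hb u).trans ?_).trans (by simp)
      rw [mul_assoc, hM, ← Real.exp_add]
      refine mul_le_mul_of_nonneg_left (Real.exp_le_exp.mpr ?_) hN
      have k1 : ‖u‖ ≤ ρ + 1 + |s| := by
        linarith [mem_sphere_iff_norm.mp hu, mem_closedBall_iff_norm.mp hw, norm_sub_norm_le u w,
          norm_sub_norm_le w ζ]
      have k2 : ‖u‖ ^ 2 ≤ 2 * (ρ + 1) ^ 2 + 2 * s ^ 2 := by
        nlinarith [pow_le_pow_left₀ (norm_nonneg _) k1 2, sq_abs s, sq_nonneg (ρ + 1 - |s|)]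
      linarith [mul_le_mul_of_nonneg_left k2 hK]
  have h2 := heat_eq_self hd hg hμ (lam := 1 / (2 * μ)) (by field_simp) ζ
  have i1 := ker_int hd hg hμ ζ ζ
  simp only [ker_self] at h2 i1
  have i2 : Integrable fun s : ℝ => f ζ * (Real.exp (-(μ / 2) * s ^ 2) : ℝ) :=
    (by simpa only [pow_zero, one_mul] using int_mom hμ 0 : Integrable fun s : ℝ =>
      Real.exp (-(μ / 2) * s ^ 2)).ofReal.const_mul _
  have h3 : f ζ * (mom μ 0 : ℝ) = ∫ s : ℝ, f ζ * (Real.exp (-(μ / 2) * s ^ 2) : ℝ) := by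
    simp only [mom, pow_zero, one_mul]
    rw [integral_const_mul, integral_complex_ofReal]
  have h4 : ‖(heat (1 / (2 * μ)) f ζ - f ζ) * (mom μ 0 : ℝ)‖ ≤ τ * (N * M) * mom (μ / 2) 0 := by
    rw [sub_mul, h2, h3, ← integral_sub i1 i2, mom, ← integral_const_mul]
    refine norm_integral_le_of_norm_le ((int_mom (half_pos hμ) 0).const_mul _)
      (Eventually.of_forall fun s => ?_)
    rw [← sub_mul, norm_mul, Complex.norm_real, Real.norm_of_nonneg (Real.exp_pos _).le]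
    have k1 : |s| ≤ τ * Real.exp (1 / τ ^ 2 * s ^ 2) := by
      rw [← div_le_iff₀' hτ0, show 1 / τ ^ 2 * s ^ 2 = (|s| / τ) ^ 2 by rw [div_pow, sq_abs]; ring]
      nlinarith [Real.add_one_le_exp ((|s| / τ) ^ 2), sq_nonneg (|s| / τ - 1)]
    calc _ ≤ N * M * Real.exp (2 * K * s ^ 2) * (τ * Real.exp (1 / τ ^ 2 * s ^ 2)) *
          Real.exp (-(μ / 2) * s ^ 2) := by
          gcongr
          exact (h1 s).trans (by gcongr)
      _ = τ * (N * M) * (Real.exp (2 * K * s ^ 2) * Real.exp (1 / τ ^ 2 * s ^ 2) *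
          Real.exp (-(μ / 2) * s ^ 2)) := by ring
      _ = _ := by
          rw [← Real.exp_add, ← Real.exp_add, pow_zero, one_mul, hμ']
          congr 2
          ring
  have h5 := mom_pos hμ
  rw [norm_mul, Complex.norm_real, Real.norm_of_nonneg h5.le] at h4
  refine le_of_mul_le_mul_right (h4.trans ?_) h5
  calc _ ≤ τ * (N * M) * (2 * mom μ 0) := by
        gcongr
        exact mom_half hμ
    _ = _ := by rw [hτ]; field_simp

/-- a non-real zero persists for a short time that depends only on the local data -/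
lemma persist (hΔ : 0 < Δ) {δ : ℝ} (hδ : 0 < δ) (K : ℝ) : ∃ μ ρ : ℝ, 0 < μ ∧ ∀ f : ℂ → ℂ, Cl Δ f →
    (logDeriv f (2 * Δ * I)).re = 0 → WW f (2 * Δ * I) ≤ K → ∀ b : ℝ, δ ≤ b → f (b * I) = 0 →
    ∃ ζ : ℂ, 0 < ζ.im ∧ ‖ζ‖ ≤ ρ ∧ heat (1 / (2 * μ)) f ζ = 0 := by
  obtain ⟨ρ, hρ, hH⟩ := harnack (ε := min δ Δ) (D := 2 * Δ) (by positivity)
    ((min_le_right _ _).trans (by linarith))
  obtain ⟨K1, hK1⟩ : ∃ K1, K1 = (2 * Δ * |K| + 3 * |K| / 2) * (2 + 8 * Δ ^ 2) + 2 * Δ * |K| :=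
    ⟨_, rfl⟩
  have hK0 : 0 ≤ K1 := by rw [hK1]; positivity
  obtain ⟨M, hM⟩ : ∃ M, M = Real.exp (K1 * (1 + ρ ^ 2)) := ⟨_, rfl⟩
  have hM0 : 0 < M := hM ▸ Real.exp_pos _
  obtain ⟨c, hc0, hc⟩ := hH (2 * (M + 1)) (by positivity)
  obtain ⟨μ, hμ, hcl⟩ := heat_close (ρ := ρ) (η := min (1 / 2) (c / 4)) hK0 (by positivity)
  refine ⟨μ, ρ, hμ, fun f hf h1 h2 b h3 h4 => ?_⟩
  obtain ⟨ι, z, m, h⟩ := hf.had
  have e : (2 * Δ * I : ℂ).im = 2 * Δ := by simp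
  have en : ‖(2 * Δ * I : ℂ)‖ = 2 * Δ := by simp [abs_of_pos hΔ]
  have hN := hf.ne (w := 2 * Δ * I) (by linarith)
  have hW := hf.W0 hΔ e.ge
  have hb : ∀ w, ‖f w‖ ≤ ‖f (2 * Δ * I)‖ * Real.exp (K1 * (1 + ‖w‖ ^ 2)) := fun w => by
    refine (h.ub' w _ hN).trans (mul_le_mul_of_nonneg_left (Real.exp_le_exp.mpr ?_)
      (norm_nonneg _))
    have q1 := h.S_le hΔ hf.r (w := 2 * Δ * I) (k := 3) (by norm_num) (by linarith) (by linarith)
    have q2 := Complex.norm_le_abs_re_add_abs_im (logDeriv f (2 * Δ * I))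
    have q3 := WW_mul f (w := 2 * Δ * I) (by linarith)
    rw [h1, abs_zero, zero_add, ← abs_neg, ← q3, e, abs_of_nonneg (by positivity)] at q2
    have q4 := re_le_norm (logDeriv f (2 * Δ * I) * (w - 2 * Δ * I))
    have q5 := norm_sub_le w (2 * Δ * I)
    rw [norm_mul] at q4
    rw [en] at q5
    have q0 := norm_nonneg (w - 2 * Δ * I)
    generalize ‖w - 2 * Δ * I‖ = r at *
    have q6 : r ^ 2 ≤ (2 + 8 * Δ ^ 2) * (1 + ‖w‖ ^ 2) := by
      nlinarith [pow_le_pow_left₀ q0 q5 2, sq_nonneg (‖w‖ - 2 * Δ), sq_nonneg (Δ * ‖w‖)]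
    have q7 : ‖logDeriv f (2 * Δ * I)‖ * r ≤ 2 * Δ * |K| * (1 + r ^ 2) :=
      mul_le_mul (by nlinarith [le_abs_self K]) (by nlinarith [sq_nonneg (r - 1)]) q0
        (by positivity)
    have q8 : r ^ 2 / 2 * SS z m (2 * Δ * I) ≤ r ^ 2 / 2 * (3 * |K|) :=
      mul_le_mul_of_nonneg_left (by linarith [le_abs_self K]) (by positivity)
    have q9 := mul_le_mul_of_nonneg_left q6
      (show 0 ≤ 2 * Δ * |K| + 3 * |K| / 2 by positivity)
    have q10 : 0 ≤ 2 * Δ * |K| * ‖w‖ ^ 2 := by positivity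
    rw [hK1]
    unfold SS at q8
    linarith
  have hcl := hcl f _ hf.d hf.g hb
  have hN0 := norm_pos_iff.mpr hN
  have m1 := mul_le_mul_of_nonneg_right (min_le_left (1 / 2) (c / 4)) hN0.le
  have m2 := mul_le_mul_of_nonneg_right (min_le_right (1 / 2) (c / 4)) hN0.le
  have hlow : ‖f (2 * Δ * I)‖ / 2 ≤ ‖heat (1 / (2 * μ)) f (2 * Δ * I)‖ := by
    linarith [hcl (2 * Δ * I) (by linarith), norm_sub_rev (heat (1 / (2 * μ)) f (2 * Δ * I))
      (f (2 * Δ * I)), norm_sub_norm_le (f (2 * Δ * I)) (heat (1 / (2 * μ)) f (2 * Δ * I))]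
  have hbn : ‖(b : ℂ) * I‖ ≤ 2 * Δ := by
    have := hf.z _ h4
    simp only [mul_I_im, ofReal_re] at this
    rw [norm_mul, norm_I, mul_one, Complex.norm_real, Real.norm_eq_abs]
    linarith
  by_contra hno
  have k1 := hc _ (2 * Δ * I) (b * I) (heat_diff hf.d hf.g (lam := 1 / (2 * μ)) (by positivity))
    ((min_le_right _ _).trans (by linarith)) ((min_le_left _ _).trans (by simpa)) en.le hbn
    fun ζ hζ hζ' => ⟨fun k => hno ⟨ζ, hζ, hζ', k⟩, by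
      have q1 : ‖f ζ‖ ≤ ‖f (2 * Δ * I)‖ * M := (hb ζ).trans (by rw [hM]; gcongr)
      calc _ ≤ 2 * (M + 1) * (‖f (2 * Δ * I)‖ / 2) := by
            linarith [hcl ζ hζ', norm_sub_norm_le (heat (1 / (2 * μ)) f ζ) (f ζ)]
        _ ≤ _ := by
            gcongr
            linarith [Real.add_one_le_exp (2 * (M + 1))]⟩
  have k2 := hcl _ (hbn.trans hρ)
  rw [h4, sub_zero] at k2
  linarith [mul_le_mul_of_nonneg_left hlow hc0.le, mul_pos hc0 hN0]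

lemma necess (hf : Cl Δ f) (hΔ : 0 < Δ)
    (H : ∀ lam : ℝ, 0 < lam → {z : ℂ | heat lam f z = 0 ∧ z.im ≠ 0}.Finite) : Hyp Δ f := by
  intro δ hδ K
  obtain ⟨μ, ρ, hμ, hp⟩ := persist hΔ hδ (K / (2 * Δ))
  obtain ⟨B, hB⟩ := isBounded_iff_forall_norm_le.mp (H (1 / (2 * μ)) (by positivity)).isBounded
  obtain ⟨ι, z, m, h⟩ := hf.had
  obtain ⟨C, -, hC⟩ := h.sublin hΔ (3 * (K / (2 * Δ))) (half_pos hμ)
  refine (zeros_finite hf.d (hf.ne (w := (Δ + 1 : ℝ) * I) (by simp))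
    (isCompact_closedBall 0 (2 * (B + ρ + C / μ) + 3 * Δ))).subset
    fun a ⟨h1, h2, h3⟩ => ⟨mem_closedBall_zero_iff.mpr ?_, h1⟩
  have e : (a.re + 2 * Δ * I : ℂ).im = 2 * Δ := by simp
  have hw := hf.ne (w := a.re + 2 * Δ * I) (by linarith)
  have hW : WW f (a.re + 2 * Δ * I) ≤ K / (2 * Δ) := by
    rw [WW, e]
    gcongr
  obtain ⟨c, hc⟩ : ∃ c, c = (logDeriv f (a.re + 2 * Δ * I)).re := ⟨_, rfl⟩
  have k1 := logDeriv_nrm hf.d a.re c hw
  obtain ⟨ζ, k2, k3, k4⟩ := hp _ (hf.nrm a.re c) (by rw [k1, sub_re, ← hc]; simp)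
    (le_of_eq_of_le (by simp [WW, k1]) hW) |a.im| h2 (by
      refine mul_eq_zero_of_left ?_ _
      rcases abs_choice a.im with k | k
      · rwa [k, re_add_im]
      · rw [show a.re + (|a.im| : ℝ) * I = conj a by apply Complex.ext <;> simp [k], hf.r, h1,
          map_zero])
  have k5 := hB (a.re + c / μ + ζ) ⟨by
    rw [heat_nrm hf hμ (by field_simp), k4, mul_zero], by simpa [div_ofReal_im] using k2.ne'⟩
  have k6 := hC _ hw ((h.S_le hΔ hf.r (k := 3) (by norm_num) (by linarith) (by linarith)).trans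
    (by linarith))
  have k7 : ‖(a.re + 2 * Δ * I : ℂ)‖ ≤ |a.re| + 2 * Δ :=
    (norm_add_le _ _).trans (by simp [abs_of_pos hΔ])
  have k8 : |c / μ| ≤ (|a.re| + 2 * Δ) / 2 + C / μ := by
    rw [abs_div, abs_of_pos hμ, div_le_iff₀ hμ, add_mul, div_mul_cancel₀ _ hμ.ne', hc]
    linarith [abs_re_le_norm (logDeriv f (a.re + 2 * Δ * I)),
      mul_le_mul_of_nonneg_left k7 (half_pos hμ).le]
  have k9 := abs_re_le_norm (a.re + c / μ + ζ)
  simp only [add_re, ofReal_re, div_ofReal_re] at k9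
  have k10 := abs_add_three (a.re + c / μ + ζ.re) (-(c / μ)) (-ζ.re)
  rw [show a.re + c / μ + ζ.re + -(c / μ) + -ζ.re = a.re by ring, abs_neg, abs_neg] at k10
  linarith [Complex.norm_le_abs_re_add_abs_im a, hf.z a h1, abs_re_le_norm ζ]

lemma gr_of_ev (hd : Differentiable ℂ f)
    (hg : ∀ ε : ℝ, 0 < ε → ∃ R : ℝ, ∀ z : ℂ, R ≤ ‖z‖ → ‖f z‖ ≤ Real.exp (ε * ‖z‖ ^ 2)) : Gr f := by
  intro ε hε
  obtain ⟨R, hR⟩ := hg ε hε
  obtain ⟨B, hB⟩ := (isCompact_closedBall (0 : ℂ) R).exists_bound_of_continuousOn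
    hd.continuous.continuousOn
  refine ⟨1 + |B|, by linarith [abs_nonneg B], fun z => ?_⟩
  have h1 : 1 ≤ Real.exp (ε * ‖z‖ ^ 2) := Real.one_le_exp (by positivity)
  rcases le_total ‖z‖ R with h | h
  · nlinarith [hB z (mem_closedBall_zero_iff.mpr h), le_abs_self B, abs_nonneg B]
  · nlinarith [hR z h, abs_nonneg B]

theorem exact_crit (hf : Cl Δ f) (hΔ : 0 < Δ) : (∀ lam : ℝ, 0 < lam →
    {z : ℂ | heat lam f z = 0 ∧ (z.im ≠ 0 ∨ deriv (heat lam f) z = 0)}.Finite) ↔ Hyp Δ f :=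
  ⟨fun H => necess hf hΔ fun lam hl => (H lam hl).subset fun _ hz => ⟨hz.1, Or.inl hz.2⟩,
    fun H _ hl => (stepB hf hΔ hl H).finite⟩

lemma Had.cmp {ι : Type} {z : ι → ℂ} {m : ι → ℝ} (h : Had Δ f z m) (hΔ : 0 < Δ) {a : ℂ}
    (ha : |a.im| ≤ Δ) : Summable (fun i => m i / (1 + ‖a - z i‖ ^ 2)) ∧
      ∑' i, m i / (1 + ‖a - z i‖ ^ 2) ≤ (1 + 9 * Δ ^ 2) * SS z m (a.re + 2 * Δ * I) ∧
      SS z m (a.re + 2 * Δ * I) ≤ (5 + 1 / Δ ^ 2) * ∑' i, m i / (1 + ‖a - z i‖ ^ 2) := by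
  have hs := h.sS (w := a.re + 2 * Δ * I) (by simp; linarith)
  have key : ∀ i, m i / (1 + ‖a - z i‖ ^ 2) ≤
      (1 + 9 * Δ ^ 2) * (m i / ‖a.re + 2 * Δ * I - z i‖ ^ 2) ∧
      m i / ‖a.re + 2 * Δ * I - z i‖ ^ 2 ≤ (5 + 1 / Δ ^ 2) * (m i / (1 + ‖a - z i‖ ^ 2)) := by
    intro i
    obtain ⟨h1, h2⟩ := abs_le.mp ha
    obtain ⟨h3, h4⟩ := abs_le.mp (h.zi i)
    have e1 : ‖a - z i‖ ^ 2 = (a.re - (z i).re) ^ 2 + (a.im - (z i).im) ^ 2 := by
      rw [Complex.sq_norm, normSq_apply]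
      simp [sq]
    have e2 : ‖a.re + 2 * Δ * I - z i‖ ^ 2 = (a.re - (z i).re) ^ 2 + (2 * Δ - (z i).im) ^ 2 := by
      rw [Complex.sq_norm, normSq_apply]
      simp [sq]
    have k1 : (a.im - (z i).im) ^ 2 ≤ 4 * Δ ^ 2 := by nlinarith
    have k2 : Δ ^ 2 ≤ (2 * Δ - (z i).im) ^ 2 := by nlinarith
    have k3 : (2 * Δ - (z i).im) ^ 2 ≤ 9 * Δ ^ 2 := by nlinarith
    have k4 : 1 / Δ ^ 2 * Δ ^ 2 = 1 := by field_simp
    have k5 : 0 < 1 / Δ ^ 2 := by positivity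
    have k6 : 0 < Δ ^ 2 := by positivity
    rw [e1, e2]
    have k7 := sq_nonneg (a.re - (z i).re)
    have k8 := sq_nonneg (a.im - (z i).im)
    generalize (a.re - (z i).re) ^ 2 = t at *
    generalize (a.im - (z i).im) ^ 2 = p at *
    generalize (2 * Δ - (z i).im) ^ 2 = q at *
    rw [← mul_div_assoc, ← mul_div_assoc, div_le_div_iff₀ (by linarith) (by linarith),
      div_le_div_iff₀ (by linarith) (by linarith), mul_right_comm, mul_right_comm _ (m i),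
      mul_comm (m i), mul_comm (m i)]
    exact ⟨mul_le_mul_of_nonneg_right (by nlinarith) (h.m0 i), mul_le_mul_of_nonneg_right
      (by nlinarith [mul_le_mul_of_nonneg_left k2 k5.le]) (h.m0 i)⟩
  have h0 := (hs.summable.mul_left _).of_nonneg_of_le
    (fun i => by have := h.m0 i; positivity) fun i => (key i).1
  exact ⟨h0, hasSum_le (fun i => (key i).1) h0.hasSum (hs.mul_left _),
    hasSum_le (fun i => (key i).2) hs (h0.hasSum.mul_left _)⟩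

lemma hyp_iff (hf : Cl Δ f) (hΔ : 0 < Δ) : Hyp Δ f ↔ ∀ δ : ℝ, 0 < δ → ∀ K : ℝ,
    {ρ : ℂ | f ρ = 0 ∧ δ ≤ |ρ.im| ∧ ∑' a : {a : ℂ // f a = 0},
      (analyticOrderNatAt f (a : ℂ) : ℝ) / (1 + ‖ρ - a‖ ^ 2) ≤ K}.Finite := by
  have h := exists_had hf.d hf.g hf.z
  have e : ∀ a : ℂ, (a.re + 2 * Δ * I : ℂ).im = 2 * Δ := by simp
  have e2 : ∀ a : ℂ, -(logDeriv f (a.re + 2 * Δ * I)).im = WW f (a.re + 2 * Δ * I) * (2 * Δ) :=
    fun a => by rw [← WW_mul f (by rw [e]; linarith), e]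
  refine ⟨fun H δ hδ K => (H δ hδ (3 * ((5 + 1 / Δ ^ 2) * K) * (2 * Δ))).subset
    fun a ⟨h1, h2, h3⟩ => ⟨h1, h2, ?_⟩, fun H δ hδ K =>
      (H δ hδ ((1 + 9 * Δ ^ 2) * (3 * (K / (2 * Δ))))).subset fun a ⟨h1, h2, h3⟩ => ⟨h1, h2, ?_⟩⟩
  · rw [e2]
    refine mul_le_mul_of_nonneg_right ((h.W_le hΔ hf.r (e a).ge).trans ?_) (by linarith)
    refine mul_le_mul_of_nonneg_left ((h.cmp hΔ (hf.z a h1)).2.2.trans ?_) (by norm_num)
    exact mul_le_mul_of_nonneg_left h3 (by positivity)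
  · rw [e2, ← le_div_iff₀ (by linarith)] at h3
    refine (h.cmp hΔ (hf.z a h1)).2.1.trans (mul_le_mul_of_nonneg_left ?_ (by positivity))
    exact (h.S_le hΔ hf.r (k := 3) (by norm_num) (by linarith [e a]) (by linarith [e a])).trans
      (by linarith)

end Pool.Agent.P.MP_2e654e_an.Den
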