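import Mathlib

set_option autoImplicit false

open Complex Metric Filter Topology

namespace Pool.Agent.P.MP_2e654e_an

/-- The k-th term of the backward heat series. -/
noncomputable def hterm (lam : ℝ) (F : ℂ → ℂ) (z : ℂ) (k : ℕ) : ℂ :=
  (-(lam : ℂ)) ^ k / ((Nat.factorial k : ℕ) : ℂ) * iteratedDeriv (2 * k) F z

/-- The backward heat operator. -/
noncomputable def heat (lam : ℝ) (F : ℂ → ℂ) (z : ℂ) : ℂ := ∑' k : ℕ, hterm lam F z k

lemma fact_two_mul_le (k : ℕ) : (2 * k).factorial ≤ k.factorial * (2 * (k + 1)) ^ k := by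
  have h1 : (2 * k - k).factorial * (2 * k).descFactorial k = (2 * k).factorial :=
    Nat.factorial_mul_descFactorial (by omega)
  have h2 : (2 * k).descFactorial k ≤ (2 * k) ^ k := Nat.descFactorial_le_pow _ _
  have h3 : (2 * k) ^ k ≤ (2 * (k + 1)) ^ k := Nat.pow_le_pow_left (by omega) _
  rw [show 2 * k - k = k by omega] at h1
  rw [← h1]
  exact Nat.mul_le_mul_left _ (h2.trans h3)

lemma hterm_bound {F : ℂ → ℂ} (hF : Differentiable ℂ F) {z : ℂ} {K : ℝ}
    (hK : ∀ w : ℂ, ‖F (z + w)‖ ≤ K * Real.exp (‖w‖ ^ 2)) (k : ℕ) :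
    ‖hterm (1 / 12) F z k‖ ≤ 3 * K * (1 / 2) ^ k := by
  have hK0 : 0 ≤ K := by
    have := hK 0
    have h2 : 0 ≤ K * Real.exp (‖(0 : ℂ)‖ ^ 2) := (norm_nonneg _).trans this
    simpa using h2
  set R : ℝ := Real.sqrt (k + 1) with hR
  have hk1 : (0 : ℝ) < k + 1 := by positivity
  have hRpos : 0 < R := Real.sqrt_pos.mpr hk1
  have hR2 : R ^ 2 = k + 1 := Real.sq_sqrt hk1.le
  have hC : ∀ u ∈ sphere z R, ‖F u‖ ≤ K * Real.exp (k + 1) := by
    intro u hu
    have h1 := hK (u - z)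
    rw [add_sub_cancel] at h1
    rw [mem_sphere_iff_norm] at hu
    rwa [hu, hR2] at h1
  have hest := Complex.norm_iteratedDeriv_le_of_forall_mem_sphere_norm_le (2 * k) hRpos
    hF.diffContOnCl hC
  rw [pow_mul, hR2] at hest
  have hfac : (((2 * k).factorial : ℕ) : ℝ) ≤ (k.factorial : ℝ) * (2 * (k + 1)) ^ k := by
    exact_mod_cast fact_two_mul_le k
  have hfpos : (0 : ℝ) < k.factorial := by exact_mod_cast k.factorial_pos
  have he : Real.exp 1 ≤ 3 := by
    have := Real.exp_one_lt_d9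
    linarith
  have hexp : Real.exp (k + 1) ≤ 3 ^ k * 3 := by
    rw [Real.exp_add, ← Real.exp_one_pow]
    gcongr
  unfold hterm
  rw [norm_mul, norm_div, norm_pow, norm_neg, Complex.norm_natCast, Complex.norm_real]
  have h12 : ‖(1 / 12 : ℝ)‖ = 1 / 12 := by norm_num
  rw [h12]
  calc (1 / 12 : ℝ) ^ k / (k.factorial : ℝ) * ‖iteratedDeriv (2 * k) F z‖
      ≤ (1 / 12 : ℝ) ^ k / (k.factorial : ℝ) *
        (((2 * k).factorial : ℝ) * (K * Real.exp (k + 1)) / (k + 1) ^ k) := by gcongr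
    _ ≤ (1 / 12 : ℝ) ^ k / (k.factorial : ℝ) *
        (((k.factorial : ℝ) * (2 * (k + 1)) ^ k) * (K * (3 ^ k * 3)) / (k + 1) ^ k) := by gcongr
    _ = 3 * K * ((1 / 12 : ℝ) ^ k * 2 ^ k * 3 ^ k) := by
        rw [mul_pow]
        field_simp
    _ = 3 * K * (1 / 2) ^ k := by
        rw [← mul_pow, ← mul_pow]
        norm_num

lemma summable_geo (K : ℝ) : Summable (fun k : ℕ => 3 * K * (1 / 2 : ℝ) ^ k) :=
  summable_geometric_two.mul_left _

lemma hterm_summable {F : ℂ → ℂ} (hF : Differentiable ℂ F) {z : ℂ} {K : ℝ}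
    (hK : ∀ w : ℂ, ‖F (z + w)‖ ≤ K * Real.exp (‖w‖ ^ 2)) :
    Summable (hterm (1 / 12) F z) :=
  (summable_geo K).of_norm_bounded (hterm_bound hF hK)

lemma heat_bound {F : ℂ → ℂ} (hF : Differentiable ℂ F) {z : ℂ} {K : ℝ}
    (hK : ∀ w : ℂ, ‖F (z + w)‖ ≤ K * Real.exp (‖w‖ ^ 2)) :
    ‖heat (1 / 12) F z‖ ≤ 6 * K := by
  have h := tsum_of_norm_bounded (summable_geo K).hasSum (hterm_bound hF hK)
  rw [tsum_mul_left, tsum_geometric_two] at h
  unfold heat
  linarith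

lemma shift_bound {F : ℂ → ℂ} {K ρ : ℝ} (hK : ∀ w : ℂ, ‖F w‖ ≤ K * Real.exp (‖w‖ ^ 2 / 2))
    {z : ℂ} (hz : ‖z‖ ≤ ρ) (w : ℂ) :
    ‖F (z + w)‖ ≤ (K * Real.exp (ρ ^ 2)) * Real.exp (‖w‖ ^ 2) := by
  have hK0 : 0 ≤ K := by
    have := hK 0
    have h2 : 0 ≤ K * Real.exp (‖(0 : ℂ)‖ ^ 2 / 2) := (norm_nonneg _).trans this
    simpa using h2
  refine (hK _).trans ?_
  rw [mul_assoc, ← Real.exp_add]
  gcongr
  have h1 : ‖z + w‖ ≤ ρ + ‖w‖ := (norm_add_le _ _).trans (by linarith)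
  have h2 : ‖z + w‖ ^ 2 ≤ (ρ + ‖w‖) ^ 2 := by gcongr
  nlinarith [sq_nonneg (ρ - ‖w‖)]

lemma iteratedDeriv_differentiable {F : ℂ → ℂ} (hF : Differentiable ℂ F) (n : ℕ) :
    Differentiable ℂ (iteratedDeriv n F) := by
  have : ContDiff ℂ ⊤ F := hF.contDiff
  exact this.differentiable_iteratedDeriv n (by exact_mod_cast WithTop.coe_lt_top _)

lemma heat_differentiable {F : ℂ → ℂ} (hF : Differentiable ℂ F) {K : ℝ}
    (hK : ∀ w : ℂ, ‖F w‖ ≤ K * Real.exp (‖w‖ ^ 2 / 2)) :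
    Differentiable ℂ (heat (1 / 12) F) := by
  intro z
  have hd : DifferentiableOn ℂ (fun w : ℂ => ∑' k : ℕ, hterm (1 / 12) F w k)
      (ball 0 (‖z‖ + 1)) := by
    refine Complex.differentiableOn_tsum_of_summable_norm
      (summable_geo (K * Real.exp ((‖z‖ + 1) ^ 2))) (fun k => ?_) isOpen_ball (fun k w hw => ?_)
    · unfold hterm
      exact ((iteratedDeriv_differentiable hF _).const_mul _).differentiableOn
    · refine hterm_bound hF (shift_bound hK ?_) k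
      simpa using (mem_ball_zero_iff.mp hw).le
  exact hd.differentiableAt (isOpen_ball.mem_nhds (by simp))

lemma heat_shift (lam : ℝ) (F : ℂ → ℂ) (x w : ℂ) :
    heat lam F (x + w) = heat lam (fun u => F (x + u)) w := by
  unfold heat hterm
  simp only [iteratedDeriv_comp_const_add]

lemma heat_const_mul (lam : ℝ) (F : ℂ → ℂ) (c w : ℂ) :
    heat lam (fun u => c * F u) w = c * heat lam F w := by
  unfold heat hterm
  rw [← tsum_mul_left]
  congr 1
  ext k
  rw [iteratedDeriv_const_mul_field]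
  ring

lemma heat_add (lam : ℝ) {F G : ℂ → ℂ} (hF : Differentiable ℂ F) (hG : Differentiable ℂ G) {w : ℂ}
    (h1 : Summable (hterm lam F w)) (h2 : Summable (hterm lam G w)) :
    heat lam (fun u => F u + G u) w = heat lam F w + heat lam G w := by
  unfold heat
  rw [← h1.tsum_add h2]
  congr 1
  ext k
  unfold hterm
  rw [iteratedDeriv_fun_add hF.contDiff.contDiffAt hG.contDiff.contDiffAt]
  ring

lemma hasSum_cos_add (lam : ℝ) (c w : ℂ) :
    HasSum (hterm lam (fun u => c + cos u) w) (c + exp lam * cos w) := by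
  have h1 : HasSum (fun k : ℕ => (lam : ℂ) ^ k / (k.factorial : ℂ)) (exp lam) := by
    rw [Complex.exp_eq_exp_ℂ]
    exact NormedSpace.expSeries_div_hasSum_exp (lam : ℂ)
  have h2 := h1.mul_right (cos w)
  have h3 : HasSum (fun k : ℕ => if k = 0 then c else 0) c := hasSum_ite_eq 0 c
  refine (h3.add h2).congr_fun ?_
  intro k
  unfold hterm
  rcases Nat.eq_zero_or_pos k with rfl | hk
  · simp
  · rw [iteratedDeriv_const_add (by omega), if_neg hk.ne']
    have : iteratedDeriv (2 * k) (fun z => cos z) w = (-1) ^ k * cos w := by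
      simp
    rw [this, neg_pow (lam : ℂ)]
    have h4 : ((-1 : ℂ) ^ k) * (-1) ^ k = 1 := by rw [← mul_pow]; simp
    linear_combination ((lam : ℂ) ^ k / (k.factorial : ℂ) * cos w) * h4

/-- A zero forced by the minimum modulus principle. -/
lemma exists_zero {ψ : ℂ → ℂ} (hψ : Differentiable ℂ ψ) {c : ℂ} {r δ : ℝ} (hr : 0 < r)
    (h1 : ‖ψ c‖ < δ) (h2 : ∀ w ∈ sphere c r, δ ≤ ‖ψ w‖) : ∃ w ∈ closedBall c r, ψ w = 0 := by
  by_contra hcon
  push Not at hcon
  have hd : DifferentiableOn ℂ (fun w => (ψ w)⁻¹) (closedBall c r) :=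
    hψ.differentiableOn.inv hcon
  have hdc : DiffContOnCl ℂ (fun w => (ψ w)⁻¹) (ball c r) := by
    apply DifferentiableOn.diffContOnCl
    rwa [closure_ball c hr.ne']
  have hδ : 0 < δ := (norm_nonneg _).trans_lt h1
  have hb : ∀ w ∈ frontier (ball c r), ‖(ψ w)⁻¹‖ ≤ δ⁻¹ := by
    intro w hw
    rw [frontier_ball c hr.ne'] at hw
    rw [norm_inv]
    exact inv_anti₀ hδ (h2 w hw)
  have hc := Complex.norm_le_of_forall_mem_frontier_norm_le isBounded_ball hdc hb
    (subset_closure (mem_ball_self hr))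
  have hpos : 0 < ‖ψ c‖ := norm_pos_iff.mpr (hcon c (mem_closedBall_self hr.le))
  rw [norm_inv] at hc
  have := (inv_le_inv₀ hpos hδ).mp hc
  linarith

end Pool.Agent.P.MP_2e654e_an
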