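import Mathlib

set_option autoImplicit false

open Complex Metric Filter Topology

namespace Pool.Agent.P.MP_2e654e_an

variable {ι : Type} {a : ι → ℝ}

/-- The even canonical product with zeros at plus and minus `a i`. -/
noncomputable def cprod (a : ι → ℝ) (z : ℂ) : ℂ := ∏' i, (1 + -(z ^ 2 / (a i : ℂ) ^ 2))

lemma norm_fac (ha : ∀ i, 0 < a i) (z : ℂ) (i : ι) :
    ‖-(z ^ 2 / (a i : ℂ) ^ 2)‖ = ‖z‖ ^ 2 * (1 / a i ^ 2) := by
  rw [norm_neg, norm_div, norm_pow, norm_pow, Complex.norm_real, Real.norm_of_nonneg (ha i).le]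
  ring

lemma summable_fac (ha : ∀ i, 0 < a i) (hs : Summable fun i => 1 / a i ^ 2) (z : ℂ) :
    Summable fun i => ‖-(z ^ 2 / (a i : ℂ) ^ 2)‖ := by
  simp only [norm_fac ha]
  exact hs.mul_left _

lemma cprod_tendsto (ha : ∀ i, 0 < a i) (hs : Summable fun i => 1 / a i ^ 2) (z : ℂ) :
    Tendsto (fun s : Finset ι => ∏ i ∈ s, (1 + -(z ^ 2 / (a i : ℂ) ^ 2))) atTop
      (𝓝 (cprod a z)) :=
  (multipliable_one_add_of_summable (summable_fac ha hs z)).hasProd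

lemma cprod_differentiable (ha : ∀ i, 0 < a i) (hs : Summable fun i => 1 / a i ^ 2) :
    Differentiable ℂ (cprod a) := by
  intro z
  set ρ := ‖z‖ + 1 with hρ
  have h := Summable.hasProdLocallyUniformlyOn_one_add (K := ball (0 : ℂ) ρ)
    (f := fun i w => -(w ^ 2 / (a i : ℂ) ^ 2)) (u := fun i => ρ ^ 2 * (1 / a i ^ 2))
    isOpen_ball (hs.mul_left _) (Eventually.of_forall fun i w hw => by
      rw [norm_fac ha]
      have := (mem_ball_zero_iff.mp hw).le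
      gcongr) (fun i => by fun_prop)
  rw [hasProdLocallyUniformlyOn_iff_tendstoLocallyUniformlyOn] at h
  have hd := h.differentiableOn (Eventually.of_forall fun s => by
    apply Differentiable.differentiableOn
    fun_prop) isOpen_ball
  exact hd.differentiableAt (isOpen_ball.mem_nhds (by simp [hρ]))

lemma cprod_ne_zero (ha : ∀ i, 0 < a i) (hs : Summable fun i => 1 / a i ^ 2) {z : ℂ}
    (hz : ∀ i, z ^ 2 ≠ (a i : ℂ) ^ 2) : cprod a z ≠ 0 := by
  refine tprod_one_add_ne_zero_of_summable (fun i h => hz i ?_) (summable_fac ha hs z)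
  have hai : (a i : ℂ) ≠ 0 := by exact_mod_cast (ha i).ne'
  field_simp at h
  linear_combination -h

lemma cprod_zero_im (ha : ∀ i, 0 < a i) (hs : Summable fun i => 1 / a i ^ 2) {z : ℂ}
    (hz : cprod a z = 0) : z.im = 0 := by
  by_contra him
  refine cprod_ne_zero ha hs (fun i h => him ?_) hz
  rcases sq_eq_sq_iff_eq_or_eq_neg.mp h with h | h <;> simp [h]

lemma cprod_real (ha : ∀ i, 0 < a i) (hs : Summable fun i => 1 / a i ^ 2) (x : ℝ) :
    (cprod a x).im = 0 := by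
  have h := (Complex.continuous_im.tendsto _).comp (cprod_tendsto ha hs x)
  have h2 : (Complex.im ∘ fun s : Finset ι => ∏ i ∈ s, (1 + -((x : ℂ) ^ 2 / (a i : ℂ) ^ 2)))
      = fun _ => 0 := by
    ext s
    have : ∏ i ∈ s, (1 + -((x : ℂ) ^ 2 / (a i : ℂ) ^ 2))
        = ((∏ i ∈ s, (1 + -(x ^ 2 / a i ^ 2)) : ℝ) : ℂ) := by push_cast; rfl
    simp only [Function.comp, this, Complex.ofReal_im]
  rw [h2] at h
  exact tendsto_nhds_unique h tendsto_const_nhds

lemma cprod_even (z : ℂ) : cprod a (-z) = cprod a z := by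
  unfold cprod
  simp only [neg_sq]

lemma one_add_sq_le {t e : ℝ} (ht : 0 ≤ t) (he0 : 0 ≤ e) (he : e ≤ 1) :
    1 + t ^ 2 ≤ Real.exp (t ^ (1 + e)) := by
  rcases le_total t 1 with h | h
  · have h1 : t ^ 2 ≤ t ^ (1 + e) := by
      rw [← Real.rpow_natCast]
      exact Real.rpow_le_rpow_of_exponent_ge' ht h (by linarith) (by push_cast; linarith)
    have := Real.add_one_le_exp (t ^ (1 + e))
    linarith
  · have h1 : t ≤ t ^ (1 + e) := by
      conv_lhs => rw [← Real.rpow_one t]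
      exact Real.rpow_le_rpow_of_exponent_le h (by linarith)
    have h2 : ∑ i ∈ Finset.range 4, t ^ i / (i.factorial : ℝ) ≤ Real.exp t :=
      Real.sum_le_exp_of_nonneg ht 4
    simp only [Finset.sum_range_succ, Finset.sum_range_zero, Nat.factorial] at h2
    norm_num at h2
    have h3 : Real.exp t ≤ Real.exp (t ^ (1 + e)) := Real.exp_le_exp.mpr h1
    nlinarith [mul_nonneg ht (sq_nonneg (t - 3 / 2))]

lemma cprod_norm_le (ha : ∀ i, 0 < a i) (hs : Summable fun i => 1 / a i ^ 2) {e : ℝ}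
    (he0 : 0 ≤ e) (he : e ≤ 1) (hs' : Summable fun i => 1 / a i ^ (1 + e)) (z : ℂ) :
    ‖cprod a z‖ ≤ Real.exp ((∑' i, 1 / a i ^ (1 + e)) * ‖z‖ ^ (1 + e)) := by
  refine le_of_tendsto' (cprod_tendsto ha hs z).norm (fun s => ?_)
  have h1 : ∀ i, ‖1 + -(z ^ 2 / (a i : ℂ) ^ 2)‖ ≤
      Real.exp (1 / a i ^ (1 + e) * ‖z‖ ^ (1 + e)) := by
    intro i
    have hai := ha i
    refine (norm_add_le _ _).trans ?_
    rw [norm_one, norm_fac ha]
    have h2 := one_add_sq_le (t := ‖z‖ / a i) (by positivity) he0 he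
    rw [Real.div_rpow (norm_nonneg _) hai.le, div_pow] at h2
    rw [mul_one_div, one_div_mul_eq_div]
    exact h2
  calc ‖∏ i ∈ s, (1 + -(z ^ 2 / (a i : ℂ) ^ 2))‖
      = ∏ i ∈ s, ‖1 + -(z ^ 2 / (a i : ℂ) ^ 2)‖ := norm_prod _ _
    _ ≤ ∏ i ∈ s, Real.exp (1 / a i ^ (1 + e) * ‖z‖ ^ (1 + e)) :=
        Finset.prod_le_prod (fun i _ => norm_nonneg _) (fun i _ => h1 i)
    _ = Real.exp ((∑ i ∈ s, 1 / a i ^ (1 + e)) * ‖z‖ ^ (1 + e)) := by
        rw [← Real.exp_sum, Finset.sum_mul]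
    _ ≤ _ := by
        gcongr
        exact hs'.sum_le_tsum s (fun i _ => by have := ha i; positivity)

lemma cprod_lower (ha : ∀ i, 0 < a i) (hs : Summable fun i => 1 / a i ^ 2) {r : ℝ}
    (s : Finset ι) (hr : ∀ i ∈ s, a i ≤ r) : (2 : ℝ) ^ s.card ≤ ‖cprod a (I * r)‖ := by
  classical
  refine ge_of_tendsto (cprod_tendsto ha hs (I * r)).norm ?_
  filter_upwards [eventually_ge_atTop s] with t ht
  have h1 : ∀ i, ‖1 + -((I * r) ^ 2 / (a i : ℂ) ^ 2)‖ = 1 + r ^ 2 / a i ^ 2 := by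
    intro i
    have : 1 + -((I * r) ^ 2 / (a i : ℂ) ^ 2) = ((1 + r ^ 2 / a i ^ 2 : ℝ) : ℂ) := by
      rw [mul_pow, I_sq]
      push_cast
      ring
    rw [this, Complex.norm_real, Real.norm_of_nonneg (by positivity)]
  rw [norm_prod]
  simp only [h1]
  calc (2 : ℝ) ^ s.card = ∏ i ∈ s, (2 : ℝ) := by simp
    _ ≤ ∏ i ∈ s, (1 + r ^ 2 / a i ^ 2) := by
        refine Finset.prod_le_prod (fun _ _ => by norm_num) (fun i hi => ?_)
        have h2 := ha i
        have h3 := hr i hi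
        have : 1 ≤ r ^ 2 / a i ^ 2 := by
          rw [le_div_iff₀ (by positivity), one_mul]
          gcongr
        linarith
    _ ≤ ∏ i ∈ t, (1 + r ^ 2 / a i ^ 2) := by
        refine Finset.prod_le_prod_of_subset_of_one_le ht (fun i _ => by positivity)
          (fun i _ _ => ?_)
        have : 0 ≤ r ^ 2 / a i ^ 2 := by positivity
        linarith

lemma cprod_ratio (ha : ∀ i, 0 < a i) (hs : Summable fun i => 1 / a i ^ 2) {x η : ℝ}
    (hx : 0 ≤ x) (hne : ∀ i, a i ^ 2 ≠ x ^ 2)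
    (hη : ∀ s : Finset ι, ∑ i ∈ s, (2 * x + 1) / |a i ^ 2 - x ^ 2| ≤ η) (w : ℂ) :
    ‖cprod a (x + w) - cprod a x‖ ≤
      ‖cprod a x‖ * (Real.exp (η * (‖w‖ + ‖w‖ ^ 2)) - 1) := by
  have t1 := ((cprod_tendsto ha hs (x + w)).sub (cprod_tendsto ha hs x)).norm
  have t2 := (cprod_tendsto ha hs x).norm.mul_const (Real.exp (η * (‖w‖ + ‖w‖ ^ 2)) - 1)
  refine le_of_tendsto_of_tendsto' t1 t2 (fun s => ?_)
  set v : ι → ℂ := fun i => -((2 * x * w + w ^ 2) / ((a i : ℂ) ^ 2 - (x : ℂ) ^ 2)) with hv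
  have hfac : ∀ i, 1 + -((x + w) ^ 2 / (a i : ℂ) ^ 2) =
      (1 + -((x : ℂ) ^ 2 / (a i : ℂ) ^ 2)) * (1 + v i) := by
    intro i
    have hai : (a i : ℂ) ≠ 0 := by exact_mod_cast (ha i).ne'
    have h2 : (a i : ℂ) ^ 2 - (x : ℂ) ^ 2 ≠ 0 := by
      have := sub_ne_zero.mpr (hne i)
      exact_mod_cast this
    simp only [hv]
    field_simp
    ring
  have hvn : ∀ i, ‖v i‖ ≤ (2 * x + 1) / |a i ^ 2 - x ^ 2| * (‖w‖ + ‖w‖ ^ 2) := by
    intro i
    have h2 : ‖(a i : ℂ) ^ 2 - (x : ℂ) ^ 2‖ = |a i ^ 2 - x ^ 2| := by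
      rw [← Real.norm_eq_abs, ← Complex.norm_real]
      push_cast
      rfl
    simp only [hv]
    rw [norm_neg, norm_div, h2, div_mul_eq_mul_div]
    gcongr
    refine (norm_add_le _ _).trans ?_
    rw [norm_mul, norm_mul, norm_pow, Complex.norm_real, Real.norm_of_nonneg hx,
      Complex.norm_ofNat]
    have := norm_nonneg w
    nlinarith [mul_nonneg hx (sq_nonneg ‖w‖)]
  simp only [hfac]
  rw [Finset.prod_mul_distrib, ← mul_sub_one, norm_mul]
  gcongr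
  refine (Finset.norm_prod_one_add_sub_one_le s v).trans ?_
  gcongr
  calc ∑ i ∈ s, ‖v i‖ ≤ ∑ i ∈ s, (2 * x + 1) / |a i ^ 2 - x ^ 2| * (‖w‖ + ‖w‖ ^ 2) :=
        Finset.sum_le_sum fun i _ => hvn i
    _ = (∑ i ∈ s, (2 * x + 1) / |a i ^ 2 - x ^ 2|) * (‖w‖ + ‖w‖ ^ 2) := by
        rw [Finset.sum_mul]
    _ ≤ η * (‖w‖ + ‖w‖ ^ 2) := by
        gcongr
        exact hη s

end Pool.Agent.P.MP_2e654e_an
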