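import Mathlib

set_option autoImplicit false

open Filter Topology

namespace Pool.Agent.P.MP_2e654e_an

/-- multiplicity of the k-th cluster -/
def NN (k : ℕ) : ℕ := 2 ^ (2 * k ^ 2 + k)

/-- position of the k-th cluster -/
def RR (k : ℕ) : ℕ := 2 ^ (2 * k ^ 2)

/-- a point in the j-th gap -/
def MM (j : ℕ) : ℕ := 2 ^ (2 * j ^ 2 + 2 * j)

/-- index type of the zeros -/
abbrev Idx : Type := Σ k : ℕ, Fin (NN k)

/-- the zeros -/
noncomputable def aa (i : Idx) : ℝ := (RR i.1 : ℝ)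

lemma RR_pos (k : ℕ) : (0 : ℝ) < RR k := by unfold RR; positivity

lemma aa_pos (i : Idx) : 0 < aa i := RR_pos _

lemma summable_idx {g : ℕ → ℝ} (hg : ∀ k, 0 ≤ g k) (h : Summable fun k => (NN k : ℝ) * g k) :
    Summable fun i : Idx => g i.1 := by
  rw [summable_sigma_of_nonneg (fun i => hg _)]
  refine ⟨fun k => Summable.of_finite, ?_⟩
  simpa using h

lemma sum_idx_le {g : ℕ → ℝ} (hg : ∀ k, 0 ≤ g k) (h : Summable fun k => (NN k : ℝ) * g k)
    (s : Finset Idx) : ∑ i ∈ s, g i.1 ≤ ∑' k, (NN k : ℝ) * g k := by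
  have h1 := summable_idx hg h
  refine (h1.sum_le_tsum s (fun i _ => hg _)).trans (le_of_eq ?_)
  rw [h1.tsum_sigma]
  simp

lemma summable_aa {e : ℝ} (he : 0 < e) : Summable fun i : Idx => 1 / aa i ^ (1 + e) := by
  refine summable_idx (g := fun k => 1 / (RR k : ℝ) ^ (1 + e))
    (fun k => by have := RR_pos k; positivity) ?_
  refine Summable.of_norm_bounded_eventually_nat (g := fun k => (1 / 2 : ℝ) ^ k)
    summable_geometric_two ?_
  filter_upwards [tendsto_natCast_atTop_atTop.eventually_ge_atTop (1 / e : ℝ)] with k hk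
  have hR := RR_pos k
  rw [Real.norm_of_nonneg (by positivity), mul_one_div, div_le_iff₀ (by positivity)]
  unfold NN RR
  push_cast
  rw [← Real.rpow_natCast, ← Real.rpow_natCast (2 : ℝ) (2 * k ^ 2), ← Real.rpow_mul (by norm_num),
    one_div, inv_pow, ← Real.rpow_natCast, ← Real.rpow_neg (by norm_num),
    ← Real.rpow_add (by norm_num)]
  refine Real.rpow_le_rpow_of_exponent_le (by norm_num) ?_
  push_cast
  have h1 : 1 ≤ e * k := by
    rw [div_le_iff₀ he] at hk
    linarith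
  have h2 : (0 : ℝ) ≤ k := Nat.cast_nonneg k
  nlinarith [mul_le_mul_of_nonneg_right h1 h2]

lemma summable_aa_two : Summable fun i : Idx => 1 / aa i ^ 2 := by
  have := summable_aa (e := 1) one_pos
  refine this.congr (fun i => ?_)
  rw [show (1 : ℝ) + 1 = (2 : ℕ) by norm_num, Real.rpow_natCast]

lemma real_est {m R N b : ℝ} (hm : 1 ≤ m) (hR : 0 < R) (hN : 0 ≤ N) (hb : 0 < b)
    (h : (2 * R ≤ m ∧ N * b ≤ m) ∨ (2 * m ≤ R ∧ N * m * b ≤ R ^ 2)) :
    R ^ 2 ≠ m ^ 2 ∧ N * ((2 * m + 1) / |R ^ 2 - m ^ 2|) ≤ 4 / b := by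
  rcases h with ⟨h1, h2⟩ | ⟨h1, h2⟩
  · have h3 : 3 / 4 * m ^ 2 ≤ m ^ 2 - R ^ 2 := by nlinarith
    have h4 : 0 < m ^ 2 - R ^ 2 := by nlinarith
    refine ⟨by linarith, ?_⟩
    rw [abs_sub_comm, abs_of_pos h4, ← mul_div_assoc, div_le_div_iff₀ h4 hb]
    nlinarith [mul_le_mul_of_nonneg_right h2 (show 0 ≤ 2 * m + 1 by linarith)]
  · have h3 : 3 / 4 * R ^ 2 ≤ R ^ 2 - m ^ 2 := by nlinarith
    have h4 : 0 < R ^ 2 - m ^ 2 := by nlinarith
    refine ⟨by linarith, ?_⟩
    rw [abs_of_pos h4, ← mul_div_assoc, div_le_div_iff₀ h4 hb]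
    have h5 : N * b ≤ N * m * b := by
      have := mul_nonneg hN hb.le
      nlinarith
    nlinarith

lemma gap_est {j : ℕ} (hj : 1 ≤ j) (k : ℕ) :
    (RR k : ℝ) ^ 2 ≠ (MM j : ℝ) ^ 2 ∧
    (NN k : ℝ) * ((2 * MM j + 1) / |(RR k : ℝ) ^ 2 - (MM j : ℝ) ^ 2|) ≤ 4 / 2 ^ (max j k) := by
  refine real_est ?_ (RR_pos k) (Nat.cast_nonneg _) (by positivity) ?_
  · exact_mod_cast Nat.one_le_two_pow
  · rcases le_or_gt k j with h | h
    · left
      rw [max_eq_left h]
      have hsq : k ^ 2 ≤ j ^ 2 := Nat.pow_le_pow_left h 2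
      constructor
      · have : 2 * RR k ≤ MM j := by
          unfold RR MM
          rw [← pow_succ']
          exact Nat.pow_le_pow_right (by norm_num) (by omega)
        exact_mod_cast this
      · have : NN k * 2 ^ j ≤ MM j := by
          unfold NN MM
          rw [← pow_add]
          exact Nat.pow_le_pow_right (by norm_num) (by omega)
        exact_mod_cast this
    · right
      rw [max_eq_right h.le]
      obtain ⟨t, rfl⟩ := Nat.exists_eq_add_of_lt h
      constructor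
      · have : 2 * MM j ≤ RR (j + t + 1) := by
          unfold RR MM
          rw [← pow_succ']
          exact Nat.pow_le_pow_right (by norm_num) (by nlinarith [Nat.zero_le (j * t)])
        exact_mod_cast this
      · have : NN (j + t + 1) * MM j * 2 ^ (j + t + 1) ≤ RR (j + t + 1) ^ 2 := by
          unfold NN MM RR
          rw [← pow_add, ← pow_add, ← pow_mul]
          exact Nat.pow_le_pow_right (by norm_num) (by nlinarith [Nat.zero_le (j * t)])
        exact_mod_cast this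

lemma le_MM (j : ℕ) : j ≤ MM j := by
  unfold MM
  exact (Nat.lt_two_pow_self.le).trans (Nat.pow_le_pow_right (by norm_num) (by omega))

lemma le_RR (j : ℕ) : j ≤ RR j := by
  unfold RR
  exact (Nat.lt_two_pow_self.le).trans (Nat.pow_le_pow_right (by norm_num) (by nlinarith))

lemma exists_gap {η : ℝ} (hη : 0 < η) (M : ℕ) : ∃ m : ℕ, M ≤ m ∧
    (∀ i, aa i ^ 2 ≠ (m : ℝ) ^ 2) ∧
    ∀ s : Finset Idx, ∑ i ∈ s, (2 * (m : ℝ) + 1) / |aa i ^ 2 - (m : ℝ) ^ 2| ≤ η := by
  set t : ℕ → ℕ → ℝ := fun j k =>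
    (NN k : ℝ) * ((2 * MM j + 1) / |(RR k : ℝ) ^ 2 - (MM j : ℝ) ^ 2|) with ht
  have ht0 : ∀ j k, 0 ≤ t j k := fun j k => by simp only [ht]; positivity
  have hb1 : ∀ j, 1 ≤ j → ∀ k, t j k ≤ 4 * (1 / 2) ^ k := by
    intro j hj k
    refine (gap_est hj k).2.trans ?_
    rw [one_div, inv_pow, ← div_eq_mul_inv]
    gcongr
    · norm_num
    · exact le_max_right _ _
  have hb2 : ∀ j, 1 ≤ j → ∀ k, t j k ≤ 4 * (1 / 2) ^ j := by
    intro j hj k
    refine (gap_est hj k).2.trans ?_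
    rw [one_div, inv_pow, ← div_eq_mul_inv]
    gcongr
    · norm_num
    · exact le_max_left _ _
  have hlim : Tendsto (fun j => ∑' k, t j k) atTop (𝓝 (∑' _ : ℕ, (0 : ℝ))) := by
    refine tendsto_tsum_of_dominated_convergence (bound := fun k => 4 * (1 / 2) ^ k)
      (summable_geometric_two.mul_left _) (fun k => ?_) ?_
    · have h0 : Tendsto (fun j : ℕ => 4 * (1 / 2 : ℝ) ^ j) atTop (𝓝 (4 * 0)) :=
        (tendsto_pow_atTop_nhds_zero_of_lt_one (by norm_num) (by norm_num)).const_mul _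
      rw [mul_zero] at h0
      refine squeeze_zero' (Eventually.of_forall fun j => ht0 j k) ?_ h0
      filter_upwards [eventually_ge_atTop 1] with j hj using hb2 j hj k
    · filter_upwards [eventually_ge_atTop 1] with j hj k
      rw [Real.norm_of_nonneg (ht0 j k)]
      exact hb1 j hj k
  rw [tsum_zero] at hlim
  obtain ⟨j, hj1, hj2, hj3⟩ := ((hlim.eventually (ge_mem_nhds hη)).and
    ((eventually_ge_atTop 1).and (eventually_ge_atTop M))).exists
  refine ⟨MM j, hj3.trans (le_MM j), fun i => (gap_est hj2 i.1).1, fun s => ?_⟩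
  refine le_trans (sum_idx_le (g := fun k => (2 * MM j + 1) / |(RR k : ℝ) ^ 2 - (MM j : ℝ) ^ 2|)
    (fun k => by positivity) ?_ s) hj1
  exact Summable.of_nonneg_of_le (ht0 j) (hb1 j hj2) (summable_geometric_two.mul_left _)

lemma exists_cluster (C R : ℝ) : ∃ r : ℝ, R ≤ r ∧ 0 < r ∧ ∃ s : Finset Idx,
    (∀ i ∈ s, aa i ≤ r) ∧ C * r ≤ s.card := by
  obtain ⟨k, hk1, hk2⟩ := ((tendsto_natCast_atTop_atTop.eventually_ge_atTop R).and
    (tendsto_natCast_atTop_atTop.eventually_ge_atTop C)).exists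
  have h1 : (k : ℝ) ≤ RR k := by exact_mod_cast le_RR k
  refine ⟨RR k, hk1.trans h1, RR_pos k, Finset.univ.map (Function.Embedding.sigmaMk k), ?_, ?_⟩
  · intro i hi
    obtain ⟨x, -, rfl⟩ := Finset.mem_map.mp hi
    exact le_rfl
  · rw [Finset.card_map, Finset.card_univ, Fintype.card_fin]
    have h2 : k * RR k ≤ NN k := by
      unfold RR NN
      rw [pow_add, mul_comm]
      exact Nat.mul_le_mul_left _ Nat.lt_two_pow_self.le
    have h3 : (k : ℝ) * RR k ≤ NN k := by exact_mod_cast h2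
    have := RR_pos k
    nlinarith

end Pool.Agent.P.MP_2e654e_an
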