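import Pool.Agent.P.MP_2e654e_an.Heat
import Pool.Agent.P.MP_2e654e_an.Prod
import Pool.Agent.P.MP_2e654e_an.Seq

set_option autoImplicit false

open Complex Metric Filter Topology

namespace Pool.Agent.P.MP_2e654e_an

/-- the constant added to the cosine -/
noncomputable def cc : ℝ := Real.exp (1 / 12) * Real.cosh 1

/-- the lacunary canonical product, rescaled -/
noncomputable def pp (z : ℂ) : ℂ := cprod aa (z / (2 * Real.pi))

/-- the counterexample -/
noncomputable def ff (z : ℂ) : ℂ := (cc + cos z) * pp z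

lemma cc_pos : 0 < cc := by
  unfold cc
  have := Real.cosh_pos 1
  positivity

lemma norm_cos_le (w : ℂ) : ‖cos w‖ ≤ Real.exp ‖w‖ := by
  have h1 : ‖exp (w * I)‖ ≤ Real.exp ‖w‖ := by
    simpa using Complex.norm_exp_le_exp_norm (w * I)
  have h2 : ‖exp (-w * I)‖ ≤ Real.exp ‖w‖ := by
    simpa using Complex.norm_exp_le_exp_norm (-w * I)
  unfold Complex.cos
  rw [norm_div, Complex.norm_ofNat]
  have := norm_add_le (exp (w * I)) (exp (-w * I))
  linarith

lemma norm_cc_cos_le (w : ℂ) : ‖cc + cos w‖ ≤ (1 + cc) * Real.exp ‖w‖ := by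
  refine (norm_add_le _ _).trans ?_
  rw [Complex.norm_real, Real.norm_of_nonneg cc_pos.le]
  have h1 := norm_cos_le w
  have h2 : 1 ≤ Real.exp ‖w‖ := Real.one_le_exp (norm_nonneg _)
  nlinarith [cc_pos]

lemma norm_div_two_pi (z : ℂ) : ‖z / (2 * Real.pi)‖ = ‖z‖ / (2 * Real.pi) := by
  rw [norm_div, norm_mul, Complex.norm_real, Real.norm_of_nonneg Real.pi_pos.le,
    Complex.norm_ofNat]

lemma norm_div_two_pi_le (z : ℂ) : ‖z / (2 * Real.pi)‖ ≤ ‖z‖ := by
  rw [norm_div_two_pi]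
  refine div_le_self (norm_nonneg _) ?_
  linarith [Real.pi_gt_three]

lemma pp_differentiable : Differentiable ℂ pp :=
  (cprod_differentiable aa_pos summable_aa_two).comp (differentiable_id.div_const _)

lemma ff_differentiable : Differentiable ℂ ff :=
  (differentiable_cos.const_add _).mul pp_differentiable

lemma ff_real (x : ℝ) : (ff (x : ℂ)).im = 0 := by
  have h1 : (pp x).im = 0 := by
    unfold pp
    have := cprod_real aa_pos summable_aa_two (x / (2 * Real.pi))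
    push_cast at this
    exact this
  unfold ff
  rw [mul_im, h1, add_im, ofReal_im, ← Complex.ofReal_cos, ofReal_im]
  simp

lemma ff_even (z : ℂ) : ff (-z) = ff z := by
  unfold ff pp
  rw [Complex.cos_neg, neg_div, cprod_even]

lemma ff_order (ε : ℝ) (hε : 0 < ε) :
    ∃ R : ℝ, ∀ z : ℂ, R ≤ ‖z‖ → ‖ff z‖ ≤ Real.exp (‖z‖ ^ (1 + ε)) := by
  set e : ℝ := min (ε / 2) 1 with he
  have he0 : 0 < e := lt_min (by linarith) one_pos
  have he1 : e ≤ 1 := min_le_right _ _
  have he2 : e ≤ ε / 2 := min_le_left _ _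
  set S : ℝ := ∑' i, 1 / aa i ^ (1 + e) with hS
  have hS0 : 0 ≤ S := tsum_nonneg fun i => by have := aa_pos i; positivity
  have hlim : Tendsto (fun r : ℝ => r ^ (ε - e)) atTop atTop :=
    tendsto_rpow_atTop (by linarith)
  obtain ⟨R, hR⟩ := eventually_atTop.mp
    ((hlim.eventually_ge_atTop (S + 1 + cc)).and (eventually_ge_atTop 1))
  refine ⟨R, fun z hz => ?_⟩
  obtain ⟨h1, h2⟩ := hR _ hz
  have h3 : ‖pp z‖ ≤ Real.exp (S * ‖z‖ ^ (1 + e)) := by
    refine (cprod_norm_le aa_pos summable_aa_two he0.le he1 (summable_aa he0) _).trans ?_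
    have := norm_div_two_pi_le z
    gcongr
  have h4 : ‖cc + cos z‖ ≤ Real.exp (cc + ‖z‖) := by
    refine (norm_cc_cos_le z).trans ?_
    rw [Real.exp_add]
    gcongr
    linarith [Real.add_one_le_exp cc]
  have h5 : ‖z‖ ≤ ‖z‖ ^ (1 + e) := by
    conv_lhs => rw [← Real.rpow_one ‖z‖]
    exact Real.rpow_le_rpow_of_exponent_le h2 (by linarith)
  have h6 : ‖z‖ ^ (1 + ε) = ‖z‖ ^ (ε - e) * ‖z‖ ^ (1 + e) := by
    rw [← Real.rpow_add (by linarith)]
    congr 1
    ring
  unfold ff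
  rw [norm_mul]
  calc ‖cc + cos z‖ * ‖pp z‖ ≤ Real.exp (cc + ‖z‖) * Real.exp (S * ‖z‖ ^ (1 + e)) := by gcongr
    _ = Real.exp (cc + ‖z‖ + S * ‖z‖ ^ (1 + e)) := by rw [← Real.exp_add]
    _ ≤ Real.exp (‖z‖ ^ (1 + ε)) := by
        rw [h6]
        gcongr
        have h7 : (S + 1 + cc) * ‖z‖ ^ (1 + e) ≤ ‖z‖ ^ (ε - e) * ‖z‖ ^ (1 + e) := by gcongr
        have := cc_pos
        nlinarith

lemma ff_maxtype (C R : ℝ) : ∃ z : ℂ, R ≤ ‖z‖ ∧ Real.exp (C * ‖z‖) < ‖ff z‖ := by
  obtain ⟨r, hr1, hr0, s, hs1, hs2⟩ := exists_cluster (2 * (|C| + 1) * (2 * Real.pi)) R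
  have hpi := Real.pi_gt_three
  have hn : ‖(2 * Real.pi * r : ℝ) * I‖ = 2 * Real.pi * r := by
    rw [norm_mul, norm_I, mul_one, Complex.norm_real, Real.norm_of_nonneg (by positivity)]
  refine ⟨(2 * Real.pi * r : ℝ) * I, ?_, ?_⟩
  · rw [hn]
    nlinarith
  · rw [hn]
    have h1 : (2 : ℝ) ^ s.card ≤ ‖pp ((2 * Real.pi * r : ℝ) * I)‖ := by
      have := cprod_lower aa_pos summable_aa_two s hs1
      unfold pp
      convert this using 3
      have : (Real.pi : ℂ) ≠ 0 := by exact_mod_cast Real.pi_ne_zero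
      push_cast
      field_simp
    have h2 : 1 ≤ ‖cc + cos ((2 * Real.pi * r : ℝ) * I)‖ := by
      rw [Complex.cos_mul_I, ← Complex.ofReal_cosh, ← Complex.ofReal_add, Complex.norm_real]
      have := Real.one_le_cosh (2 * Real.pi * r)
      have := cc_pos
      rw [Real.norm_of_nonneg (by linarith)]
      linarith
    have h3 : Real.exp (1 / 2) ≤ 2 := by
      have h4 : Real.exp (1 / 2) ^ 2 = Real.exp 1 := by
        rw [← Real.exp_nat_mul]
        norm_num
      have := Real.exp_one_lt_d9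
      nlinarith [Real.exp_pos (1 / 2)]
    have h5 : Real.exp (s.card * (1 / 2)) ≤ 2 ^ s.card := by
      rw [Real.exp_nat_mul]
      gcongr
    have h6 : C * (2 * Real.pi * r) < s.card * (1 / 2) := by
      have h7 : C * (2 * Real.pi * r) ≤ |C| * (2 * Real.pi * r) := by
        gcongr
        exact le_abs_self C
      have h8 : 0 < 2 * Real.pi * r := by positivity
      nlinarith
    unfold ff
    rw [norm_mul]
    calc Real.exp (C * (2 * Real.pi * r)) < Real.exp (s.card * (1 / 2)) := Real.exp_lt_exp.mpr h6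
      _ ≤ 1 * 2 ^ s.card := by linarith
      _ ≤ _ := by gcongr

lemma ff_strip (z : ℂ) (hz : ff z = 0) : |z.im| < 2 * cc + 1 := by
  have hc := cc_pos
  rcases mul_eq_zero.mp hz with h | h
  · have h1 : exp (z * I) + exp (-z * I) = -(2 * cc) := by
      rw [← Complex.two_cos]
      linear_combination 2 * h
    have h2 : ‖exp (z * I)‖ = Real.exp (-z.im) := by simp [Complex.norm_exp]
    have h3 : ‖exp (-z * I)‖ = Real.exp z.im := by simp [Complex.norm_exp]
    have h4 : ‖-(2 * (cc : ℂ))‖ = 2 * cc := by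
      rw [norm_neg, norm_mul, Complex.norm_real, Real.norm_of_nonneg hc.le, Complex.norm_ofNat]
    have h5 : Real.exp z.im ≤ 2 * cc + Real.exp (-z.im) := by
      rw [← h2, ← h3, ← h4, ← h1]
      have := norm_sub_le (exp (z * I) + exp (-z * I)) (exp (z * I))
      simpa using this
    have h6 : Real.exp (-z.im) ≤ 2 * cc + Real.exp z.im := by
      rw [← h2, ← h3, ← h4, ← h1]
      have := norm_sub_le (exp (z * I) + exp (-z * I)) (exp (-z * I))
      simpa using this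
    rcases le_total 0 z.im with h7 | h7
    · rw [abs_of_nonneg h7]
      have : Real.exp (-z.im) ≤ 1 := Real.exp_le_one_iff.mpr (by linarith)
      linarith [Real.add_one_le_exp z.im]
    · rw [abs_of_nonpos h7]
      have : Real.exp z.im ≤ 1 := Real.exp_le_one_iff.mpr h7
      linarith [Real.add_one_le_exp (-z.im)]
  · have h1 := cprod_zero_im aa_pos summable_aa_two h
    have h2 : z = (2 * Real.pi : ℝ) * (z / (2 * Real.pi)) := by
      have : (Real.pi : ℂ) ≠ 0 := by exact_mod_cast Real.pi_ne_zero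
      push_cast
      field_simp
    rw [h2, Complex.im_ofReal_mul, h1]
    simp
    linarith

/-- the centre of the test disc -/
noncomputable def w0 : ℂ := Real.pi + I

lemma phi_eq (w : ℂ) : (cc : ℂ) + exp ((1 / 12 : ℝ) : ℂ) * cos w =
    exp ((1 / 12 : ℝ) : ℂ) * (cos w - cos w0) := by
  have : cos w0 = -cosh 1 := by
    unfold w0
    rw [add_comm, Complex.cos_add_pi, ← one_mul I, Complex.cos_mul_I]
  rw [this]
  unfold cc
  push_cast
  ring

lemma im_ge_of_mem {w : ℂ} (hw : w ∈ closedBall w0 (1 / 2)) : 1 / 2 ≤ w.im := by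
  rw [mem_closedBall_iff_norm] at hw
  have h1 := (Complex.abs_im_le_norm (w - w0)).trans hw
  have h2 : (w - w0).im = w.im - 1 := by simp [w0]
  rw [h2, abs_le] at h1
  linarith [h1.1]

lemma re_ge_of_mem {w : ℂ} (hw : w ∈ closedBall w0 (1 / 2)) : 0 ≤ w.re := by
  rw [mem_closedBall_iff_norm] at hw
  have h1 := (Complex.abs_re_le_norm (w - w0)).trans hw
  have h2 : (w - w0).re = w.re - Real.pi := by simp [w0]
  rw [h2, abs_le] at h1
  linarith [h1.1, Real.pi_gt_three]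

lemma norm_le_of_mem {w : ℂ} (hw : w ∈ closedBall w0 (1 / 2)) : ‖w‖ ≤ 6 := by
  rw [mem_closedBall_iff_norm] at hw
  have h1 : ‖w0‖ ≤ 5 := by
    unfold w0
    refine (norm_add_le _ _).trans ?_
    rw [Complex.norm_real, Real.norm_of_nonneg Real.pi_pos.le, norm_I]
    linarith [Real.pi_lt_four]
  have h2 := norm_add_le (w - w0) w0
  rw [sub_add_cancel] at h2
  linarith

lemma exists_delta : ∃ δ : ℝ, 0 < δ ∧ ∀ w ∈ sphere w0 (1 / 2),
    δ ≤ ‖(cc : ℂ) + exp ((1 / 12 : ℝ) : ℂ) * cos w‖ := by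
  have hcont : ContinuousOn (fun w : ℂ => ‖(cc : ℂ) + exp ((1 / 12 : ℝ) : ℂ) * cos w‖)
      (sphere w0 (1 / 2)) := by fun_prop
  obtain ⟨u, hu, hmin⟩ := (isCompact_sphere w0 (1 / 2)).exists_isMinOn
    (NormedSpace.sphere_nonempty.mpr (by norm_num)) hcont
  refine ⟨_, norm_pos_iff.mpr ?_, fun w hw => hmin hw⟩
  rw [phi_eq]
  refine mul_ne_zero (Complex.exp_ne_zero _) (sub_ne_zero.mpr fun h => ?_)
  obtain ⟨k, hk | hk⟩ := Complex.cos_eq_cos_iff.mp h.symm
  · rw [mem_sphere_iff_norm, hk, add_sub_cancel_right, norm_mul, norm_mul, Complex.norm_ofNat,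
      Complex.norm_real, Real.norm_of_nonneg Real.pi_pos.le, Complex.norm_intCast] at hu
    rcases eq_or_ne k 0 with rfl | hk0
    · norm_num at hu
    · have : (1 : ℝ) ≤ |(k : ℝ)| := by exact_mod_cast Int.one_le_abs hk0
      nlinarith [Real.pi_gt_three]
  · have h1 := im_ge_of_mem (sphere_subset_closedBall hu)
    rw [hk] at h1
    simp [w0] at h1
    linarith

lemma err_bound {θ s : ℝ} (h0 : 0 ≤ θ) (h1 : θ ≤ 1) (hs : 0 ≤ s) :
    Real.exp s * (Real.exp (θ / 8 * (s + s ^ 2)) - 1) ≤ θ * 3 * Real.exp (s ^ 2 / 2) := by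
  have hc := convexOn_exp.2 (Set.mem_univ 0) (Set.mem_univ ((s + s ^ 2) / 8))
    (show 0 ≤ 1 - θ by linarith) h0 (by ring)
  simp only [smul_eq_mul, mul_zero, zero_add, Real.exp_zero, mul_one] at hc
  rw [show θ * ((s + s ^ 2) / 8) = θ / 8 * (s + s ^ 2) by ring] at hc
  have h2 : Real.exp (θ / 8 * (s + s ^ 2)) - 1 ≤ θ * Real.exp ((s + s ^ 2) / 8) := by linarith
  have h3 : Real.exp s * Real.exp ((s + s ^ 2) / 8) ≤ 3 * Real.exp (s ^ 2 / 2) := by
    have he : Real.exp 1 ≤ 3 := by linarith [Real.exp_one_lt_d9]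
    calc Real.exp s * Real.exp ((s + s ^ 2) / 8) = Real.exp (s + (s + s ^ 2) / 8) := by
          rw [Real.exp_add]
      _ ≤ Real.exp (1 + s ^ 2 / 2) := by
          apply Real.exp_le_exp.mpr
          nlinarith [sq_nonneg (s - 3 / 2)]
      _ = Real.exp 1 * Real.exp (s ^ 2 / 2) := by rw [Real.exp_add]
      _ ≤ _ := by gcongr
  calc Real.exp s * (Real.exp (θ / 8 * (s + s ^ 2)) - 1)
      ≤ Real.exp s * (θ * Real.exp ((s + s ^ 2) / 8)) := by gcongr
    _ = θ * (Real.exp s * Real.exp ((s + s ^ 2) / 8)) := by ring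
    _ ≤ θ * (3 * Real.exp (s ^ 2 / 2)) := by gcongr
    _ = _ := by ring

lemma exists_far_zero (M : ℕ) :
    ∃ z : ℂ, (M : ℝ) ≤ ‖z‖ ∧ heat (1 / 12) ff z = 0 ∧ z.im ≠ 0 := by
  obtain ⟨δ, hδ, hδ2⟩ := exists_delta
  have hc := cc_pos
  set A : ℝ := 6 * ((1 + cc) * 3 * Real.exp (6 ^ 2)) with hA
  have hA0 : 0 < A := by positivity
  set θ : ℝ := min 1 (δ / 3 / A) with hθ
  have hθ0 : 0 < θ := lt_min one_pos (by positivity)
  have hθ1 : θ ≤ 1 := min_le_left _ _
  have hθ2 : θ * A ≤ δ / 3 := by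
    rw [← le_div_iff₀ hA0]
    exact min_le_right _ _
  obtain ⟨m, hm1, hm2, hm3⟩ := exists_gap (η := θ / 8) (by positivity) M
  have hpi : (Real.pi : ℂ) ≠ 0 := by exact_mod_cast Real.pi_ne_zero
  set P : ℂ := cprod aa ((m : ℝ) : ℂ) with hP
  have hP0 : P ≠ 0 := cprod_ne_zero aa_pos summable_aa_two (fun i h => hm2 i (by
    exact_mod_cast h.symm))
  set x : ℂ := m * (2 * Real.pi) with hx
  have hpp : ∀ u : ℂ, pp (x + u) = cprod aa (((m : ℝ) : ℂ) + u / (2 * Real.pi)) := by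
    intro u
    unfold pp
    congr 1
    simp only [hx]
    push_cast
    field_simp
  set E : ℂ → ℂ := fun u => (cc + cos u) * ((pp (x + u) - P) / P) with hE
  have hEd : Differentiable ℂ E :=
    (differentiable_cos.const_add _).mul
      (((pp_differentiable.comp (differentiable_id.const_add x)).sub_const P).div_const P)
  have hEb : ∀ u : ℂ, ‖E u‖ ≤ (θ * ((1 + cc) * 3)) * Real.exp (‖u‖ ^ 2 / 2) := by
    intro u
    have h1 := cprod_ratio aa_pos summable_aa_two (Nat.cast_nonneg m) hm2 hm3 (u / (2 * Real.pi))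
    rw [← hpp, ← hP] at h1
    have h2 : ‖(pp (x + u) - P) / P‖ ≤ Real.exp (θ / 8 * (‖u‖ + ‖u‖ ^ 2)) - 1 := by
      rw [norm_div, div_le_iff₀ (norm_pos_iff.mpr hP0), mul_comm]
      refine h1.trans ?_
      have := norm_div_two_pi_le u
      gcongr
    simp only [hE]
    rw [norm_mul]
    calc ‖cc + cos u‖ * ‖(pp (x + u) - P) / P‖
        ≤ ((1 + cc) * Real.exp ‖u‖) * (Real.exp (θ / 8 * (‖u‖ + ‖u‖ ^ 2)) - 1) :=
          mul_le_mul (norm_cc_cos_le u) h2 (norm_nonneg _) (by positivity)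
      _ = (1 + cc) * (Real.exp ‖u‖ * (Real.exp (θ / 8 * (‖u‖ + ‖u‖ ^ 2)) - 1)) := by ring
      _ ≤ (1 + cc) * (θ * 3 * Real.exp (‖u‖ ^ 2 / 2)) :=
          mul_le_mul_of_nonneg_left (err_bound hθ0.le hθ1 (norm_nonneg u)) (by positivity)
      _ = _ := by ring
  have hsplit : (fun u => ff (x + u)) = fun u => P * ((cc + cos u) + E u) := by
    ext u
    simp only [hE, ff]
    rw [add_comm x u, hx, Complex.cos_add_nat_mul_two_pi]
    field_simp
    ring
  have hheat : ∀ w : ℂ, heat (1 / 12) ff (x + w) =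
      P * ((cc + exp ((1 / 12 : ℝ) : ℂ) * cos w) + heat (1 / 12) E w) := by
    intro w
    rw [heat_shift, hsplit, heat_const_mul, heat_add _ (differentiable_cos.const_add _) hEd
      (hasSum_cos_add _ _ _).summable (hterm_summable hEd (shift_bound hEb le_rfl))]
    congr 2
    exact (hasSum_cos_add _ _ _).tsum_eq
  have hsmall : ∀ w ∈ closedBall w0 (1 / 2), ‖heat (1 / 12) E w‖ ≤ δ / 3 := by
    intro w hw
    refine (heat_bound hEd (shift_bound hEb (norm_le_of_mem hw))).trans ?_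
    refine le_trans (le_of_eq ?_) hθ2
    simp only [hA]
    ring
  obtain ⟨w, hw1, hw2⟩ := exists_zero
    (ψ := fun w => (cc + exp ((1 / 12 : ℝ) : ℂ) * cos w) + heat (1 / 12) E w)
    (((differentiable_cos.const_mul _).const_add _).add (heat_differentiable hEd hEb))
    (c := w0) (r := 1 / 2) (δ := 2 * δ / 3) (by norm_num)
    (by
      simp only [phi_eq, sub_self, mul_zero, zero_add]
      have := hsmall w0 (mem_closedBall_self (by norm_num))
      linarith)
    (fun w hw => by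
      have h1 := hδ2 w hw
      have h2 := hsmall w (sphere_subset_closedBall hw)
      have h3 := norm_sub_le ((cc + exp ((1 / 12 : ℝ) : ℂ) * cos w) + heat (1 / 12) E w)
        (heat (1 / 12) E w)
      rw [add_sub_cancel_right] at h3
      linarith)
  refine ⟨x + w, ?_, ?_, ?_⟩
  · refine le_trans ?_ (Complex.re_le_norm _)
    have h1 := re_ge_of_mem hw1
    have h2 : x.re = m * (2 * Real.pi) := by simp [hx]
    have h3 : (M : ℝ) ≤ m := by exact_mod_cast hm1
    rw [add_re, h2]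
    have h4 : (0 : ℝ) ≤ m := Nat.cast_nonneg m
    nlinarith [Real.pi_gt_three]
  · rw [hheat, hw2, mul_zero]
  · have h1 := im_ge_of_mem hw1
    have h2 : x.im = 0 := by simp [hx]
    rw [add_im, h2]
    linarith

theorem main :
    ¬ (∀ f : ℂ → ℂ, Differentiable ℂ f →
      (∀ x : ℝ, (f (x : ℂ)).im = 0) →
      (∀ z : ℂ, f (-z) = f z) →
      (∀ ε : ℝ, 0 < ε → ∃ R : ℝ, ∀ z : ℂ, R ≤ ‖z‖ → ‖f z‖ ≤ Real.exp (‖z‖ ^ (1 + ε))) →
      (∀ C R : ℝ, ∃ z : ℂ, R ≤ ‖z‖ ∧ Real.exp (C * ‖z‖) < ‖f z‖) →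
      ∀ Δ : ℝ, 0 < Δ → (∀ z : ℂ, f z = 0 → |z.im| < Δ) →
      ∀ lam : ℝ, 0 < lam →
      ∀ g : ℂ → ℂ,
        (∀ z : ℂ, g z = ∑' k : ℕ,
          (-(lam : ℂ)) ^ k / ((Nat.factorial k : ℕ) : ℂ) * iteratedDeriv (2 * k) f z) →
        {z : ℂ | g z = 0 ∧ (z.im ≠ 0 ∨ deriv g z = 0)}.Finite) := by
  intro h
  have hfin := h ff ff_differentiable ff_real ff_even ff_order ff_maxtype (2 * cc + 1)
    (by linarith [cc_pos]) ff_strip (1 / 12) (by norm_num) (heat (1 / 12) ff) (fun z => rfl)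
  obtain ⟨C, hC⟩ := hfin.isBounded.exists_norm_le
  obtain ⟨M, hM⟩ := exists_nat_gt C
  obtain ⟨z, hz1, hz2, hz3⟩ := exists_far_zero M
  have := hC z ⟨hz2, Or.inl hz3⟩
  linarith

end Pool.Agent.P.MP_2e654e_an
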