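import Pool.Agent.P.MP_2e654e_an.RFour

set_option autoImplicit false

open MeasureTheory Filter Topology Complex Metric

namespace Pool.Agent.P.MP_2e654e_an.Rigid

noncomputable def phi (L : ℝ) (w : ℂ) (t : ℝ) : ℂ := exp (L * t ^ 2 + I * t * w)

lemma phi_cont (L : ℝ) (w : ℂ) : Continuous (phi L w) := by unfold phi; fun_prop

lemma phi_deriv (L : ℝ) (w : ℂ) (t : ℝ) :
    HasDerivAt (phi L w) ((2 * L * t + I * w) * phi L w t) t := by
  have h0 : HasDerivAt (fun x : ℝ => (x : ℂ)) 1 t := Complex.ofRealCLM.hasDerivAt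
  have h := (((h0.pow 2).const_mul (L : ℂ)).add ((h0.const_mul I).mul_const w)).cexp
  refine h.congr_deriv ?_
  simp only [phi, Pi.add_apply, Pi.pow_apply]
  push_cast
  ring

lemma phi_le (L : ℝ) (w : ℂ) (t : ℝ) : ‖phi L w t‖ ≤ Real.exp (L * t ^ 2 + ‖w‖ * |t|) := by
  unfold phi
  rw [Complex.exp_add, norm_mul, Real.exp_add]
  have : exp ((L : ℂ) * t ^ 2) = ((Real.exp (L * t ^ 2) : ℝ) : ℂ) := by push_cast; rfl
  rw [this, Complex.norm_real, Real.norm_eq_abs, abs_of_pos (Real.exp_pos _)]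
  exact mul_le_mul_of_nonneg_left (norm_exp_I t w le_rfl) (Real.exp_pos _).le

lemma phi_le' {L L0 R ρ t : ℝ} {w : ℂ} (h0 : 0 ≤ L) (h1 : L ≤ L0) (hw : ‖w‖ ≤ R) (ht : |t| ≤ ρ) :
    ‖phi L w t‖ ≤ Real.exp (L0 * ρ ^ 2 + R * ρ) := by
  refine (phi_le L w t).trans (Real.exp_le_exp.2 (add_le_add ?_ ?_))
  · rw [← sq_abs]
    exact mul_le_mul h1 (pow_le_pow_left₀ (abs_nonneg t) ht 2) (by positivity) (h0.trans h1)
  · exact mul_le_mul hw ht (abs_nonneg t) ((norm_nonneg w).trans hw)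

lemma dphi_le {L L0 R ρ t : ℝ} {w : ℂ} (h0 : 0 ≤ L) (h1 : L ≤ L0) (hw : ‖w‖ ≤ R) (ht : |t| ≤ ρ) :
    ‖(2 * L * t + I * w) * phi L w t‖ ≤ (2 * L0 * ρ + R) * Real.exp (L0 * ρ ^ 2 + R * ρ) := by
  have h2 : ‖(2 * L * t + I * w : ℂ)‖ ≤ 2 * L0 * ρ + R := by
    refine (norm_add_le _ _).trans (add_le_add ?_ (by simpa using hw))
    simp only [norm_mul, Complex.norm_real, Real.norm_eq_abs, abs_of_nonneg h0, Complex.norm_ofNat]
    have := mul_le_mul h1 ht (abs_nonneg t) (h0.trans h1)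
    linarith
  rw [norm_mul]
  exact mul_le_mul h2 (phi_le' h0 h1 hw ht) (norm_nonneg _) ((norm_nonneg _).trans h2)

lemma phi_shift (L M : ℝ) (w : ℂ) (t : ℝ) :
    phi L (M + w) t = phi L w t * exp (I * M * t) := by
  unfold phi; rw [← Complex.exp_add]; congr 1; ring

lemma key_pt {L M δ s a ρ D : ℝ} {w : ℂ} (hδ : 0 < δ) (hM : exp (I * M * δ) = I)
    (hs : |s| + δ ≤ ρ) (ha : |a| ≤ ρ)
    (hD : ∀ t : ℝ, |t| ≤ ρ → ‖(2 * L * t + I * w) * phi L w t‖ ≤ D) :
    ‖M * (∫ u in -δ..δ, phi L (M + w) (s + u)) - 2 * phi L w a‖ ≤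
      D * (2 * |s - a| + 4 * δ) + 2 * ‖phi L w a‖ * ‖exp (I * M * s) - 1‖ := by
  have hn : ∀ x : ℝ, ‖exp (I * M * x)‖ = 1 := by
    intro x
    have : I * M * x = ((M * x : ℝ) : ℂ) * I := by push_cast; ring
    rw [this, Complex.norm_exp_ofReal_mul_I]
  have hc := phi_cont L w
  have hc' := phi_cont L (M + w)
  set A : ℝ → ℂ := fun u =>
    (2 * L * ((s + u : ℝ) : ℂ) + I * w) * phi L w (s + u) * exp (I * M * ((s + u : ℝ) : ℂ))
    with hA
  have hAc : Continuous A := by simp only [hA]; fun_prop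
  have hH : Continuous fun u : ℝ => phi L (M + w) (s + u) := by fun_prop
  have hd : ∀ u : ℝ, HasDerivAt (fun u => phi L (M + w) (s + u))
      (A u + I * M * phi L (M + w) (s + u)) u := by
    intro u
    refine ((phi_deriv L (M + w) (s + u)).comp_const_add s u).congr_deriv ?_
    simp only [hA, phi_shift]
    ring
  have hftc := intervalIntegral.integral_eq_sub_of_hasDerivAt (a := -δ) (b := δ)
    (fun u _ => hd u) ((hAc.add (hH.const_mul _)).intervalIntegrable _ _)
  rw [intervalIntegral.integral_add (hAc.intervalIntegrable _ _)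
    ((hH.const_mul _).intervalIntegrable _ _), intervalIntegral.integral_const_mul] at hftc
  have e1 : exp (I * M * ((s + δ : ℝ) : ℂ)) = exp (I * M * s) * I := by
    rw [Complex.ofReal_add, mul_add, Complex.exp_add, hM]
  have e2 : exp (I * M * ((s + -δ : ℝ) : ℂ)) = exp (I * M * s) * -I := by
    rw [Complex.ofReal_add, mul_add, Complex.exp_add, Complex.ofReal_neg, mul_neg,
      Complex.exp_neg, hM, Complex.inv_I]
  rw [phi_shift L M w (s + δ), phi_shift L M w (s + -δ), e1, e2] at hftc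
  have e3 : M * (∫ u in -δ..δ, phi L (M + w) (s + u)) - 2 * phi L w a =
      exp (I * M * s) * ((phi L w (s + δ) - phi L w a) + (phi L w (s + -δ) - phi L w a)) +
        2 * phi L w a * (exp (I * M * s) - 1) + I * ∫ u in -δ..δ, A u := by
    linear_combination (-I) * hftc + (M * (∫ u in -δ..δ, phi L (M + w) (s + u)) -
      exp (I * M * s) * (phi L w (s + δ) + phi L w (s + -δ))) * I_sq
  have hs' := abs_le.1 (show |s| ≤ ρ - δ by linarith)
  have hD0 : 0 ≤ D := (norm_nonneg _).trans (hD a ha)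
  have mv : ∀ x : ℝ, |x| ≤ δ → ‖phi L w (s + x) - phi L w a‖ ≤ D * (|s - a| + δ) := by
    intro x hx
    have hx' := abs_le.1 hx
    have := (convex_Icc (-ρ) ρ).norm_image_sub_le_of_norm_hasDerivWithin_le
      (f := phi L w) (fun t _ => (phi_deriv L w t).hasDerivWithinAt)
      (fun t ht => hD t (abs_le.2 ht)) (abs_le.1 ha)
      (show s + x ∈ Set.Icc (-ρ) ρ from ⟨by linarith [hs'.1], by linarith [hs'.2]⟩)
    refine this.trans (mul_le_mul_of_nonneg_left ?_ hD0)
    rw [Real.norm_eq_abs, show s + x - a = (s - a) + x by ring]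
    exact (abs_add_le _ _).trans (by linarith)
  have hI : ‖∫ u in -δ..δ, A u‖ ≤ D * |δ - -δ| := by
    refine intervalIntegral.norm_integral_le_of_norm_le_const fun u hu => ?_
    rw [Set.uIoc_of_le (by linarith)] at hu
    simp only [hA]
    rw [norm_mul, hn, mul_one]
    exact hD _ (abs_le.2 ⟨by linarith [hs'.1, hu.1], by linarith [hs'.2, hu.2]⟩)
  rw [abs_of_pos (by linarith)] at hI
  have m1 := mv δ (abs_of_pos hδ).le
  have m2 := mv (-δ) (by rw [abs_neg, abs_of_pos hδ])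
  rw [e3]
  refine (norm_add₃_le).trans ?_
  rw [norm_mul, hn, one_mul, norm_mul, norm_mul, norm_mul, norm_I, one_mul, Complex.norm_ofNat]
  have := norm_add_le (phi L w (s + δ) - phi L w a) (phi L w (s + -δ) - phi L w a)
  linarith

noncomputable def rr (i : ℕ) : ℝ := ∫ y : ℝ, ‖exp (2 * Real.pi * I * P i * y) - 1‖ ∂mu

lemma core (L0 R : ℝ) : ∃ C : ℝ, 0 ≤ C ∧
    ∀ η : ℝ, 0 < η → η ≤ 1 → ∀ a : ℝ, |a| ≤ 1 → ∀ i : ℕ, ∀ M : ℝ, M * η = 2 * Real.pi * P i →
      exp (I * M * a) = 1 → ∀ L : ℝ, 0 ≤ L → L ≤ L0 → ∀ w : ℂ, ‖w‖ ≤ R →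
      ‖M * (∫ t, (kap η a t : ℂ) * phi L (M + w) t) - 2 * phi L w a‖ ≤ C * η + C * rr i := by
  obtain ⟨C0, hC0⟩ := sq_le_exp L0 (2 * L0 + 2 + R)
  set W : ℝ := ∫ y, Real.exp (Real.exp (|y| + 2)) ∂mu with hW
  have hW0 : 0 ≤ W := integral_nonneg fun _ => (Real.exp_pos _).le
  refine ⟨Real.exp (C0 + R) * W + 2 * Real.exp (L0 + R), by positivity,
    fun η h0 h1 a ha i M hM hMa L hL hLL w hw => ?_⟩
  obtain ⟨hf, hi⟩ := kap_fubini h0 h1 ha (phi_cont L (M + w)) (phi_le L (M + w))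
  have hMC : (M : ℂ) * η = 2 * Real.pi * P i := by exact_mod_cast hM
  have hδ : exp (I * M * ((η / 4 : ℝ) : ℂ)) = I := by
    obtain ⟨k, hk⟩ : ∃ k : ℕ, P i = 4 * k + 1 := ⟨P i / 4, by have := P_mod i; omega⟩
    have : I * M * ((η / 4 : ℝ) : ℂ) = k * (2 * Real.pi * I) + Real.pi / 2 * I := by
      rw [hk] at hMC
      push_cast at hMC ⊢
      linear_combination I / 4 * hMC
    rw [this, Complex.exp_add, Complex.exp_nat_mul_two_pi_mul_I, one_mul,
      Complex.exp_pi_div_two_mul_I]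
  have hri : Integrable (fun y : ℝ => ‖exp (2 * Real.pi * I * P i * y) - 1‖) mu := by
    refine Integrable.of_bound (C := 2) (by fun_prop : Continuous fun y : ℝ =>
      ‖exp (2 * Real.pi * I * P i * y) - 1‖).aestronglyMeasurable (ae_of_all _ fun y => ?_)
    have : (2 * Real.pi * I * P i * y : ℂ) = ((2 * Real.pi * P i * y : ℝ) : ℂ) * I := by
      push_cast; ring
    rw [norm_norm]
    refine (norm_sub_le _ _).trans ?_
    rw [this, Complex.norm_exp_ofReal_mul_I, norm_one]; norm_num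
  have hr0 : 0 ≤ rr i := integral_nonneg fun _ => norm_nonneg _
  have e : M * (∫ t, (kap η a t : ℂ) * phi L (M + w) t) - 2 * phi L w a =
      ∫ y, (M * (∫ u in -(η / 4)..(η / 4), phi L (M + w) (a + η * y + u)) - 2 * phi L w a) ∂mu := by
    rw [hf, integral_sub (hi.const_mul _) (integrable_const _), integral_const_mul]
    simp
  rw [e]
  have hb : ∀ y : ℝ, ‖M * (∫ u in -(η / 4)..(η / 4), phi L (M + w) (a + η * y + u)) -
      2 * phi L w a‖ ≤ η * Real.exp (C0 + R) * Real.exp (Real.exp (|y| + 2)) +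
        2 * Real.exp (L0 + R) * ‖exp (2 * Real.pi * I * P i * y) - 1‖ := by
    intro y
    have hy := abs_nonneg y
    have h2 : |η * y| = η * |y| := by rw [abs_mul, abs_of_pos h0]
    have h3 : η * |y| ≤ |y| := mul_le_of_le_one_left hy h1
    have hk := key_pt (L := L) (M := M) (s := a + η * y) (a := a) (ρ := |y| + 2) (w := w)
      (by linarith : 0 < η / 4) hδ (by linarith [abs_add_le a (η * y)]) (by linarith)
      (fun t ht => dphi_le hL hLL hw ht)
    have e4 : exp (I * M * ((a + η * y : ℝ) : ℂ)) = exp (2 * Real.pi * I * P i * y) := by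
      rw [Complex.ofReal_add, mul_add, Complex.exp_add, hMa, one_mul]
      congr 1
      push_cast
      linear_combination I * y * hMC
    rw [e4, add_sub_cancel_left, h2] at hk
    refine hk.trans (add_le_add ?_ ?_)
    · set ρ := |y| + 2 with hρ
      have hρ0 : 0 ≤ ρ := by linarith
      have a1 : 2 * L0 * ρ + R ≤ Real.exp (2 * L0 * ρ + R) := by
        linarith [Real.add_one_le_exp (2 * L0 * ρ + R)]
      have a2 : 2 * |y| + 1 ≤ Real.exp (2 * ρ) := by linarith [Real.add_one_le_exp (2 * ρ)]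
      have a3 : Real.exp (2 * L0 * ρ + R) * Real.exp (L0 * ρ ^ 2 + R * ρ) * Real.exp (2 * ρ) ≤
          Real.exp (C0 + R) * Real.exp (Real.exp ρ) := by
        rw [← Real.exp_add, ← Real.exp_add, ← Real.exp_add]
        apply Real.exp_le_exp.2
        linarith [hC0 ρ hρ0]
      have a4 : (2 * L0 * ρ + R) * Real.exp (L0 * ρ ^ 2 + R * ρ) * (2 * |y| + 1) ≤
          Real.exp (2 * L0 * ρ + R) * Real.exp (L0 * ρ ^ 2 + R * ρ) * Real.exp (2 * ρ) :=
        mul_le_mul (mul_le_mul_of_nonneg_right a1 (Real.exp_pos _).le) a2 (by linarith)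
          (by positivity)
      have a5 := mul_le_mul_of_nonneg_left (a4.trans a3) h0.le
      linarith
    · have := phi_le' hL hLL hw ha
      simp only [one_pow, mul_one] at this
      exact mul_le_mul_of_nonneg_right (by linarith) (norm_nonneg _)
  refine (norm_integral_le_of_norm_le ((mu_double.const_mul _).add (hri.const_mul _))
    (ae_of_all _ hb)).trans ?_
  simp only [Pi.add_apply]
  rw [integral_add (mu_double.const_mul _) (hri.const_mul _), integral_const_mul,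
    integral_const_mul, ← hW]
  have b1 : 0 ≤ Real.exp (L0 + R) * η := by positivity
  have b2 : 0 ≤ Real.exp (C0 + R) * W * rr i := by positivity
  unfold rr at *
  linarith

/-- a zero from the minimum principle (as in the file Heat of this folder) -/
lemma exists_zero {ψ : ℂ → ℂ} (hψ : Differentiable ℂ ψ) {c : ℂ} {r δ : ℝ} (hr : 0 < r)
    (h1 : ‖ψ c‖ < δ) (h2 : ∀ w ∈ sphere c r, δ ≤ ‖ψ w‖) : ∃ w ∈ closedBall c r, ψ w = 0 := by
  by_contra hcon
  push Not at hcon
  have hd : DifferentiableOn ℂ (fun w => (ψ w)⁻¹) (closedBall c r) :=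
    hψ.differentiableOn.inv hcon
  have hdc : DiffContOnCl ℂ (fun w => (ψ w)⁻¹) (ball c r) := by
    apply DifferentiableOn.diffContOnCl
    rwa [closure_ball c hr.ne']
  have hδ : 0 < δ := (norm_nonneg _).trans_lt h1
  have hb : ∀ w ∈ frontier (ball c r), ‖(ψ w)⁻¹‖ ≤ δ⁻¹ := by
    intro w hw
    rw [frontier_ball c hr.ne'] at hw
    rw [norm_inv]
    exact inv_anti₀ hδ (h2 w hw)
  have hc := Complex.norm_le_of_forall_mem_frontier_norm_le isBounded_ball hdc hb
    (subset_closure (mem_ball_self hr))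
  have hpos : 0 < ‖ψ c‖ := norm_pos_iff.mpr (hcon c (mem_closedBall_self hr.le))
  rw [norm_inv] at hc
  have := (inv_le_inv₀ hpos hδ).mp hc
  linarith

lemma sin_ge_im (z : ℂ) (h : 0 ≤ z.im) : z.im ≤ ‖sin z‖ := by
  have h1 : ‖exp (-z * I)‖ = Real.exp z.im := by rw [Complex.norm_exp]; simp
  have h2 : ‖exp (z * I)‖ = Real.exp (-z.im) := by rw [Complex.norm_exp]; simp
  have h3 := norm_sub_norm_le (exp (-z * I)) (exp (z * I))
  have h4 := Real.self_le_sinh_iff.2 h
  rw [Real.sinh_eq] at h4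
  rw [Complex.sin, norm_div, norm_mul, norm_I, mul_one, Complex.norm_ofNat]
  linarith

lemma sin_ge_small (z : ℂ) (h : ‖z‖ ≤ 1) : ‖z‖ / 2 ≤ ‖sin z‖ := by
  have h1 := Complex.sin_bound h
  have h2 := norm_sub_norm_le (z - z ^ 3 / 6) (sin z)
  rw [norm_sub_rev _ (sin z)] at h2
  have h3 := norm_sub_norm_le z (z ^ 3 / 6)
  rw [norm_div, norm_pow, Complex.norm_ofNat] at h3
  have h0 := norm_nonneg z
  have h4 : ‖z‖ ^ 3 ≤ ‖z‖ := pow_le_of_le_one h0 h (by norm_num)
  have h5 : ‖z‖ ^ 5 ≤ ‖z‖ := pow_le_of_le_one h0 h (by norm_num)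
  linarith

lemma model_lower {s ρ : ℝ} (hρ : 0 < ρ) (h1 : ρ ≤ 1) (hs : 2 * ρ ≤ s) {x : ℂ}
    (hx : ‖x - (Real.pi + s * I)‖ = ρ) : ρ ^ 2 / 2 ≤ ‖cos x + Real.cosh s‖ := by
  have e : (Real.cosh s : ℂ) = -cos (Real.pi + s * I) := by
    rw [add_comm, Complex.cos_add_pi, Complex.cos_mul_I]; simp
  rw [e, ← sub_eq_add_neg, Complex.cos_sub_cos, norm_mul, norm_mul, norm_neg, Complex.norm_ofNat]
  have a1 := Complex.abs_im_le_norm (x - (Real.pi + s * I))
  rw [hx] at a1
  have a2 : (x - (Real.pi + s * I)).im = x.im - s := by simp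
  rw [a2] at a1
  have a3 : ((x + (Real.pi + s * I)) / 2).im = (x.im + s) / 2 := by simp
  have a4 := sin_ge_im ((x + (Real.pi + s * I)) / 2) (by rw [a3]; linarith [(abs_le.1 a1).1])
  rw [a3] at a4
  have a5 : ‖(x - (Real.pi + s * I)) / 2‖ = ρ / 2 := by rw [norm_div, hx, Complex.norm_ofNat]
  have a6 := sin_ge_small ((x - (Real.pi + s * I)) / 2) (by rw [a5]; linarith)
  rw [a5] at a6
  have a7 : ρ ≤ ‖sin ((x + (Real.pi + s * I)) / 2)‖ := by linarith [(abs_le.1 a1).1]
  have := mul_le_mul a7 a6 (by positivity) (norm_nonneg _)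
  nlinarith

lemma cos_zero {x : ℂ} {d : ℝ} (h : (Real.cosh d : ℂ) + cos x = 0) : |x.im| ≤ |d| := by
  rw [← Complex.re_add_im x, Complex.cos_add_mul_I] at h
  have h1 := congrArg Complex.re h
  have h2 := congrArg Complex.im h
  simp only [← Complex.ofReal_cos, ← Complex.ofReal_sin, ← Complex.ofReal_cosh,
    ← Complex.ofReal_sinh, ← Complex.ofReal_mul, add_re, ofReal_re, sub_re, mul_re, I_re, I_im,
    ofReal_im, add_im, sub_im, mul_im, zero_re, zero_im, mul_zero, mul_one, sub_zero, zero_add,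
    add_zero, zero_sub, neg_eq_zero] at h1 h2
  rcases mul_eq_zero.1 h2 with h3 | h3
  · have h4 := Real.sin_sq_add_cos_sq x.re
    rw [h3] at h4
    rw [← Real.cosh_le_cosh]
    have h5 := Real.cosh_pos x.im
    have h6 := Real.cosh_pos d
    have h7 : (Real.cos x.re - 1) * (Real.cos x.re + 1) = 0 := by linarith
    rcases mul_eq_zero.1 h7 with h8 | h8
    · have : Real.cos x.re = 1 := by linarith
      rw [this] at h1; linarith
    · have : Real.cos x.re = -1 := by linarith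
      rw [this] at h1; linarith
  · rw [Real.sinh_eq_zero] at h3
    rw [h3, abs_zero]; exact abs_nonneg d

end Pool.Agent.P.MP_2e654e_an.Rigid
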