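import Pool.Agent.P.MP_2e654e_an.RMu

set_option autoImplicit false

open MeasureTheory Filter Topology Complex

namespace Pool.Agent.P.MP_2e654e_an.Rigid

lemma sq_le_exp (L R : ℝ) : ∃ C : ℝ, ∀ x : ℝ, 0 ≤ x → L * x ^ 2 + R * x ≤ Real.exp x + C := by
  set α := |L| + |R| with hα
  have h0 : 0 ≤ α := by positivity
  refine ⟨36 * α ^ 3 + |R|, fun x hx => ?_⟩
  have h1 := Real.pow_div_factorial_le_exp x hx 3
  have h2 : ((Nat.factorial 3 : ℕ) : ℝ) = 6 := by norm_num [Nat.factorial]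
  rw [h2] at h1
  have h3 : L * x ^ 2 ≤ |L| * x ^ 2 := mul_le_mul_of_nonneg_right (le_abs_self L) (sq_nonneg x)
  have h4 : R * x ≤ |R| * (1 + x ^ 2) :=
    mul_le_mul (le_abs_self R) (by nlinarith) hx (abs_nonneg R)
  have h5 : α * x ^ 2 ≤ x ^ 3 / 6 + 36 * α ^ 3 := by
    rcases le_total x (6 * α) with h | h
    · have : x ^ 2 ≤ (6 * α) ^ 2 := pow_le_pow_left₀ hx h 2
      have := mul_le_mul_of_nonneg_left this h0
      have : 0 ≤ x ^ 3 := by positivity
      nlinarith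
    · have := mul_le_mul_of_nonneg_right h (sq_nonneg x)
      have : 0 ≤ α ^ 3 := by positivity
      nlinarith
  rw [hα] at h5
  nlinarith

lemma weight_int (L R : ℝ) :
    Integrable fun t : ℝ => Real.exp (-Real.exp |t|) * Real.exp (L * t ^ 2 + R * |t|) := by
  obtain ⟨C, hC⟩ := sq_le_exp (L + 1) R
  refine ((integrable_exp_neg_mul_sq (b := 1) one_pos).const_mul (Real.exp C)).mono'
    (by fun_prop : Continuous fun t : ℝ =>
      Real.exp (-Real.exp |t|) * Real.exp (L * t ^ 2 + R * |t|)).aestronglyMeasurable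
    (ae_of_all _ fun t => ?_)
  rw [Real.norm_eq_abs, abs_of_pos (by positivity), ← Real.exp_add, ← Real.exp_add]
  apply Real.exp_le_exp.2
  have := hC |t| (abs_nonneg t)
  rw [sq_abs] at this
  linarith

noncomputable def FT (Ψ : ℝ → ℂ) (z : ℂ) : ℂ := ∫ t : ℝ, Ψ t * exp (I * t * z)

def KK (Ψ : ℝ → ℂ) : Prop :=
  AEStronglyMeasurable Ψ volume ∧ ∀ R : ℝ, Integrable fun t => ‖Ψ t‖ * Real.exp (R * |t|)

lemma norm_exp_I (t : ℝ) (z : ℂ) {R : ℝ} (h : ‖z‖ ≤ R) :
    ‖exp (I * t * z)‖ ≤ Real.exp (R * |t|) := by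
  refine (Complex.norm_exp_le_exp_norm _).trans (Real.exp_le_exp.2 ?_)
  rw [norm_mul, norm_mul, norm_I, one_mul, Complex.norm_real, Real.norm_eq_abs, mul_comm]
  exact mul_le_mul_of_nonneg_right h (abs_nonneg t)

lemma KK.mul {Ψ : ℝ → ℂ} (h : KK Ψ) : KK fun t => Ψ t * (I * t) := by
  have hm : AEStronglyMeasurable (fun t : ℝ => Ψ t * (I * t)) volume :=
    h.1.mul (by fun_prop : Continuous fun t : ℝ => I * (t : ℂ)).aestronglyMeasurable
  refine ⟨hm, fun R => (h.2 (R + 1)).mono' (hm.norm.mul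
    (by fun_prop : Continuous fun t : ℝ => Real.exp (R * |t|)).aestronglyMeasurable)
    (ae_of_all _ fun t => ?_)⟩
  rw [Real.norm_eq_abs, abs_of_nonneg (by positivity), norm_mul, norm_mul, norm_I, one_mul,
    Complex.norm_real, Real.norm_eq_abs, add_mul, one_mul, Real.exp_add, mul_assoc]
  refine mul_le_mul_of_nonneg_left ?_ (norm_nonneg _)
  rw [mul_comm]
  exact mul_le_mul_of_nonneg_left (by linarith [Real.add_one_le_exp |t|]) (Real.exp_pos _).le

lemma KK.meas {Ψ : ℝ → ℂ} (h : KK Ψ) (z : ℂ) :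
    AEStronglyMeasurable (fun t : ℝ => Ψ t * exp (I * t * z)) volume :=
  h.1.mul (by fun_prop : Continuous fun t : ℝ => exp (I * t * z)).aestronglyMeasurable

lemma KK.int {Ψ : ℝ → ℂ} (h : KK Ψ) (z : ℂ) :
    Integrable fun t : ℝ => Ψ t * exp (I * t * z) :=
  (h.2 ‖z‖).mono' (h.meas z) (ae_of_all _ fun t => by
    rw [norm_mul]
    exact mul_le_mul_of_nonneg_left (norm_exp_I t z le_rfl) (norm_nonneg _))

lemma KK.deriv {Ψ : ℝ → ℂ} (h : KK Ψ) (z : ℂ) :
    HasDerivAt (FT Ψ) (FT (fun t => Ψ t * (I * t)) z) z := by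
  refine (hasDerivAt_integral_of_dominated_loc_of_deriv_le (μ := volume)
    (F := fun w (t : ℝ) => Ψ t * exp (I * t * w))
    (F' := fun w (t : ℝ) => Ψ t * (I * t) * exp (I * t * w))
    (bound := fun t => ‖Ψ t * (I * t)‖ * Real.exp ((‖z‖ + 1) * |t|))
    (Metric.ball_mem_nhds z one_pos) (Eventually.of_forall fun w => h.meas w) (h.int z)
    (h.mul.meas z) (ae_of_all _ fun t w hw => ?_) (h.mul.2 _)
    (ae_of_all _ fun t w _ => ?_)).2
  · rw [norm_mul]
    refine mul_le_mul_of_nonneg_left (norm_exp_I t w ?_) (norm_nonneg _)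
    have := norm_sub_norm_le w z
    rw [Metric.mem_ball, dist_eq_norm] at hw
    linarith
  · have := (((hasDerivAt_id w).const_mul (I * t)).cexp).const_mul (Ψ t)
    simp only [id, mul_one] at this
    exact this.congr_deriv (by ring)

lemma KK.diff {Ψ : ℝ → ℂ} (h : KK Ψ) : Differentiable ℂ (FT Ψ) :=
  fun z => (h.deriv z).differentiableAt

lemma KK.pow {Ψ : ℝ → ℂ} (h : KK Ψ) (n : ℕ) : KK fun t => Ψ t * (I * t) ^ n := by
  induction n with
  | zero => simpa using h
  | succ n ih => simpa only [pow_succ, mul_assoc] using ih.mul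

lemma KK.iter {Ψ : ℝ → ℂ} (h : KK Ψ) (n : ℕ) :
    iteratedDeriv n (FT Ψ) = FT fun t => Ψ t * (I * t) ^ n := by
  induction n with
  | zero => simp
  | succ n ih =>
    rw [iteratedDeriv_succ, ih]
    funext z
    rw [((h.pow n).deriv z).deriv]
    simp only [pow_succ, mul_assoc]

/-- doubly exponentially decreasing kernels -/
def Good (Φ : ℝ → ℝ) : Prop :=
  Measurable Φ ∧ ∃ C : ℝ, ∀ t, |Φ t| ≤ C * Real.exp (-Real.exp |t|)

lemma Good.kk {Φ : ℝ → ℝ} (h : Good Φ) (L : ℝ) :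
    KK fun t => ((Real.exp (L * t ^ 2) * Φ t : ℝ) : ℂ) := by
  obtain ⟨hm, C, hC⟩ := h
  have h1 : Measurable fun t => ((Real.exp (L * t ^ 2) * Φ t : ℝ) : ℂ) := by fun_prop
  refine ⟨h1.aestronglyMeasurable, fun R => ((weight_int L R).const_mul C).mono'
    (by fun_prop : Measurable fun t : ℝ =>
      ‖((Real.exp (L * t ^ 2) * Φ t : ℝ) : ℂ)‖ * Real.exp (R * |t|)).aestronglyMeasurable
    (ae_of_all _ fun t => ?_)⟩
  rw [Real.norm_eq_abs, abs_of_nonneg (by positivity), Complex.norm_real, Real.norm_eq_abs,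
    abs_mul, abs_of_pos (Real.exp_pos _), Real.exp_add]
  have := mul_le_mul_of_nonneg_left (hC t)
    (mul_pos (Real.exp_pos (L * t ^ 2)) (Real.exp_pos (R * |t|))).le
  linarith

lemma Good.kk0 {Φ : ℝ → ℝ} (h : Good Φ) : KK fun t => (Φ t : ℂ) := by
  simpa using h.kk 0

lemma Good.heat {Φ : ℝ → ℝ} (h : Good Φ) {L : ℝ} (hL : 0 ≤ L) (z : ℂ) :
    HasSum (fun k : ℕ => (-(L : ℂ)) ^ k / ((Nat.factorial k : ℕ) : ℂ) *
        iteratedDeriv (2 * k) (FT fun t => (Φ t : ℂ)) z)
      (FT (fun t => ((Real.exp (L * t ^ 2) * Φ t : ℝ) : ℂ)) z) := by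
  have e : ∀ k : ℕ, (-(L : ℂ)) ^ k / ((Nat.factorial k : ℕ) : ℂ) *
      iteratedDeriv (2 * k) (FT fun t => (Φ t : ℂ)) z =
      ∫ t : ℝ, (((L * t ^ 2) ^ k / (Nat.factorial k : ℕ) : ℝ) : ℂ) *
        ((Φ t : ℂ) * exp (I * t * z)) := by
    intro k
    rw [h.kk0.iter, FT, ← integral_const_mul]
    refine integral_congr_ae (ae_of_all _ fun t => ?_)
    have : (-(L : ℂ)) ^ k * (I * t) ^ (2 * k) = ((L : ℂ) * t ^ 2) ^ k := by
      rw [pow_mul, ← mul_pow, mul_pow I, I_sq]; congr 1; ring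
    simp only
    push_cast
    rw [← this]; ring
  simp_rw [e]
  have hs : ∀ t : ℝ, HasSum (fun k : ℕ => (L * t ^ 2) ^ k / ((Nat.factorial k : ℕ) : ℝ))
      (Real.exp (L * t ^ 2)) := by
    intro t
    have := NormedSpace.expSeries_div_hasSum_exp (L * t ^ 2)
    rwa [← Real.exp_eq_exp_ℝ] at this
  unfold FT
  refine hasSum_integral_of_dominated_convergence
    (fun k t => (L * t ^ 2) ^ k / ((Nat.factorial k : ℕ) : ℝ) * ‖(Φ t : ℂ) * exp (I * t * z)‖)
    (fun k => ?_) (fun k => ae_of_all _ fun t => ?_)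
    (ae_of_all _ fun t => ((hs t).mul_right _).summable) ?_ (ae_of_all _ fun t => ?_)
  · exact (by fun_prop : Continuous fun t : ℝ =>
      (((L * t ^ 2) ^ k / (Nat.factorial k : ℕ) : ℝ) : ℂ)).aestronglyMeasurable.mul (h.kk0.meas z)
  · rw [norm_mul, Complex.norm_real, Real.norm_eq_abs, abs_of_nonneg (by positivity)]
  · refine ((h.kk L).int z).norm.congr (ae_of_all _ fun t => ?_)
    simp only
    rw [((hs t).mul_right _).tsum_eq, Complex.ofReal_mul, mul_assoc, norm_mul, Complex.norm_real,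
      Real.norm_eq_abs, abs_of_pos (Real.exp_pos _)]
  · have := (Complex.hasSum_ofReal.2 (hs t)).mul_right ((Φ t : ℂ) * exp (I * t * z))
    simpa only [Complex.ofReal_mul, mul_assoc] using this

/-- the smeared law -/
noncomputable def kap (η a t : ℝ) : ℝ :=
  ∫ y, (Set.Icc (-(η / 4)) (η / 4)).indicator (fun _ => (1 : ℝ)) (t - a - η * y) ∂mu

lemma ind_meas (η a : ℝ) : Measurable fun p : ℝ × ℝ =>
    (Set.Icc (-(η / 4)) (η / 4)).indicator (fun _ => (1 : ℝ)) (p.1 - a - η * p.2) :=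
  (measurable_const.indicator measurableSet_Icc).comp (by fun_prop)

lemma ind_nonneg (η x : ℝ) :
    0 ≤ (Set.Icc (-(η / 4)) (η / 4)).indicator (fun _ => (1 : ℝ)) x :=
  Set.indicator_nonneg (fun _ _ => zero_le_one) _

lemma ind_le {η a : ℝ} (h0 : 0 < η) (h1 : η ≤ 1) (ha : |a| ≤ 1) (t y : ℝ) :
    (Set.Icc (-(η / 4)) (η / 4)).indicator (fun _ => (1 : ℝ)) (t - a - η * y) ≤
      Real.exp (-Real.exp |t|) * Real.exp (Real.exp (|y| + 2)) := by
  by_cases h : t - a - η * y ∈ Set.Icc (-(η / 4)) (η / 4)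
  · rw [Set.indicator_of_mem h, ← Real.exp_add]
    apply Real.one_le_exp
    have h2 : |η * y| ≤ |y| := by
      rw [abs_mul, abs_of_pos h0]; exact mul_le_of_le_one_left (abs_nonneg y) h1
    have h3 : |t| ≤ |y| + 2 := by
      have := abs_le.1 ha; have := abs_le.1 h2
      rw [abs_le]; constructor <;> linarith [h.1, h.2]
    linarith [Real.exp_le_exp.2 h3]
  · rw [Set.indicator_of_notMem h]; positivity

lemma kap_nonneg (η a t : ℝ) : 0 ≤ kap η a t := integral_nonneg fun _ => ind_nonneg _ _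

lemma kap_meas (η a : ℝ) : Measurable (kap η a) :=
  ((ind_meas η a).stronglyMeasurable.integral_prod_right' (ν := mu)).measurable

lemma kap_le {η a : ℝ} (h0 : 0 < η) (h1 : η ≤ 1) (ha : |a| ≤ 1) (t : ℝ) :
    kap η a t ≤ (∫ y, Real.exp (Real.exp (|y| + 2)) ∂mu) * Real.exp (-Real.exp |t|) := by
  rw [mul_comm, ← integral_const_mul]
  exact integral_mono_of_nonneg (ae_of_all _ fun _ => ind_nonneg _ _) (mu_double.const_mul _)
    (ae_of_all _ fun y => ind_le h0 h1 ha t y)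

lemma kap_good {η a : ℝ} (h0 : 0 < η) (h1 : η ≤ 1) (ha : |a| ≤ 1) : Good (kap η a) :=
  ⟨kap_meas η a, _, fun t => by
    rw [abs_of_nonneg (kap_nonneg η a t)]; exact kap_le h0 h1 ha t⟩

lemma kap_neg (η a t : ℝ) : kap η a (-t) = kap η (-a) t := by
  unfold kap
  conv_lhs => rw [← mu_neg]
  rw [integral_map measurable_neg.aemeasurable]
  · refine integral_congr_ae (ae_of_all _ fun y => ?_)
    have : -t - a - η * -y = -(t - -a - η * y) := by ring
    simp only [this, Set.indicator, Set.mem_Icc]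
    congr 1
    apply propext
    constructor <;> rintro ⟨h1, h2⟩ <;> constructor <;> linarith
  · exact ((ind_meas η a).comp (measurable_prodMk_left (x := -t))).aestronglyMeasurable

lemma kap_fubini {η a : ℝ} (h0 : 0 < η) (h1 : η ≤ 1) (ha : |a| ≤ 1) {ψ : ℝ → ℂ}
    (hc : Continuous ψ) {L R : ℝ} (hb : ∀ t, ‖ψ t‖ ≤ Real.exp (L * t ^ 2 + R * |t|)) :
    ∫ t, (kap η a t : ℂ) * ψ t = ∫ y, (∫ u in -(η / 4)..(η / 4), ψ (a + η * y + u)) ∂mu ∧
    Integrable (fun y => ∫ u in -(η / 4)..(η / 4), ψ (a + η * y + u)) mu := by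
  set G : ℝ → ℝ → ℂ := fun t y =>
    ((Set.Icc (-(η / 4)) (η / 4)).indicator (fun _ => (1 : ℝ)) (t - a - η * y) : ℝ) * ψ t with hG
  have hi : Integrable (Function.uncurry G) (volume.prod mu) := by
    refine ((weight_int L R).mul_prod mu_double).mono' ?_ (ae_of_all _ fun p => ?_)
    · exact ((Complex.measurable_ofReal.comp (ind_meas η a)).mul
        (hc.measurable.comp measurable_fst)).aestronglyMeasurable
    · simp only [Function.uncurry, hG]
      rw [norm_mul, Complex.norm_real, Real.norm_eq_abs, abs_of_nonneg (ind_nonneg _ _)]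
      have := mul_le_mul (ind_le h0 h1 ha p.1 p.2) (hb p.1) (norm_nonneg _) (by positivity)
      linarith
  have hin : ∀ y, ∫ t, G t y = ∫ u in -(η / 4)..(η / 4), ψ (a + η * y + u) := by
    intro y
    rw [← integral_add_left_eq_self _ (a + η * y), intervalIntegral.integral_of_le (by linarith),
      ← integral_Icc_eq_integral_Ioc, ← integral_indicator measurableSet_Icc]
    refine integral_congr_ae (ae_of_all _ fun u => ?_)
    have : a + η * y + u - a - η * y = u := by ring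
    simp only [hG, this, Set.indicator]
    split_ifs <;> simp
  constructor
  · have e : ∀ t, (kap η a t : ℂ) * ψ t = ∫ y, G t y ∂mu := by
      intro t
      simp only [hG]
      rw [integral_mul_const, integral_complex_ofReal]; rfl
    simp_rw [e, ← hin]
    exact integral_integral_swap hi
  · simp_rw [← hin]
    exact hi.integral_prod_right

end Pool.Agent.P.MP_2e654e_an.Rigid
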