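import Mathlib

set_option autoImplicit false

open MeasureTheory Filter Topology Finset

namespace Pool.Agent.P.MP_2e654e_an.Rigid

/-- a very fast sequence -/
def q (j : ℕ) : ℕ := 5 ^ (3 ^ (j + 2))

def P (j : ℕ) : ℕ := q j ^ 2

lemma q_succ (j : ℕ) : q (j + 1) = q j ^ 3 := by
  unfold q; rw [← pow_mul]; congr 1

lemma q_ge (j : ℕ) : 1953125 ≤ q j := by
  unfold q
  calc 1953125 = 5 ^ (3 ^ 2) := by norm_num
    _ ≤ 5 ^ (3 ^ (j + 2)) :=
      Nat.pow_le_pow_right (by norm_num) (Nat.pow_le_pow_right (by norm_num) (by omega))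

lemma q_geR (j : ℕ) : (1953125 : ℝ) ≤ q j := by exact_mod_cast q_ge j

lemma q_pos (j : ℕ) : (0 : ℝ) < q j := lt_of_lt_of_le (by norm_num) (q_geR j)

lemma q_succR (j : ℕ) : (q (j + 1) : ℝ) = (q j : ℝ) ^ 3 := by rw [q_succ]; push_cast; ring

lemma q_three (j : ℕ) : 3 * (q j : ℝ) ≤ q (j + 1) := by
  rw [q_succR]; have := q_geR j; nlinarith [mul_pos (q_pos j) (q_pos j)]

lemma q_mono {i j : ℕ} (h : i ≤ j) : (q i : ℝ) ≤ q j := by
  induction h with
  | refl => exact le_rfl
  | @step m _ ih => have := q_three m ; have := q_pos i; linarith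

lemma q_exp (n : ℕ) : Real.exp (n + 8) + n ≤ q n := by
  have he : Real.exp 1 < 2.7182818286 := Real.exp_one_lt_d9
  induction n with
  | zero =>
    have : Real.exp 8 = Real.exp 1 ^ 8 := by rw [← Real.exp_nat_mul]; norm_num
    have h2 : Real.exp 1 ^ 8 ≤ 3 ^ 8 := pow_le_pow_left₀ (Real.exp_pos 1).le (by linarith) 8
    have := q_geR 0
    simp only [Nat.cast_zero, zero_add, add_zero]
    linarith
  | succ n ih =>
    have h1 := q_three n
    have h2 : Real.exp ((n + 1 : ℕ) + 8) = Real.exp (n + 8) * Real.exp 1 := by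
      rw [← Real.exp_add]; push_cast; ring_nf
    have h3 : (n : ℝ) + 8 + 1 ≤ Real.exp (n + 8) := Real.add_one_le_exp _
    have h4 : (0 : ℝ) ≤ n := Nat.cast_nonneg n
    rw [h2]; push_cast
    nlinarith

lemma P_pos (j : ℕ) : (0 : ℝ) < P j := by unfold P; push_cast; exact pow_pos (q_pos j) 2

lemma P_cast (j : ℕ) : (P j : ℝ) = (q j : ℝ) ^ 2 := by unfold P; push_cast; ring

lemma P_mod (j : ℕ) : P j % 4 = 1 := by
  unfold P q; rw [← pow_mul, Nat.pow_mod]; simp

lemma P_dvd {i j : ℕ} (h : j ≤ i) : P j ∣ P i := by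
  unfold P q
  exact pow_dvd_pow_of_dvd (pow_dvd_pow _ (Nat.pow_le_pow_right (by norm_num) (by omega))) 2

lemma sum_inv_q (n m : ℕ) : ∑ j ∈ range m, 1 / (q (n + j) : ℝ) ≤ 2 / q n - 2 / q (n + m) := by
  induction m with
  | zero => simp
  | succ m ih =>
    rw [sum_range_succ]
    have h1 := q_three (n + m)
    have h2 := q_pos (n + m)
    have h3 : 2 / (q (n + (m + 1)) : ℝ) ≤ 1 / q (n + m) := by
      rw [div_le_div_iff₀ (q_pos _) h2, ← add_assoc]; linarith
    have h4 : 2 / (q (n + m) : ℝ) = 1 / q (n + m) + 1 / q (n + m) := by ring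
    linarith

/-- fair coin -/
noncomputable def coin : Measure Bool :=
  (1 / 2 : ENNReal) • Measure.dirac true + (1 / 2 : ENNReal) • Measure.dirac false

instance : IsProbabilityMeasure coin := ⟨by simp [coin, ENNReal.inv_two_add_inv_two]⟩

lemma coin_int (g : Bool → ℂ) : ∫ b, g b ∂coin = (g true + g false) / 2 := by
  rw [integral_fintype Integrable.of_finite]
  simp [coin, Measure.real]; ring

lemma coin_not : coin.map (fun b => !b) = coin := by
  unfold coin
  rw [Measure.map_add _ _ (measurable_of_finite _), Measure.map_smul, Measure.map_smul,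
    Measure.map_dirac, Measure.map_dirac]
  simp [add_comm]

def sg (b : Bool) : ℤ := if b then 1 else -1

abbrev Blk (j : ℕ) := Fin (P j) → Bool

noncomputable def nu (j : ℕ) : Measure (Blk j) := Measure.pi fun _ => coin

instance (j : ℕ) : IsProbabilityMeasure (nu j) := by unfold nu; infer_instance

def S (j : ℕ) (x : Blk j) : ℤ := ∑ k, sg (x k)

noncomputable def B (j : ℕ) (x : Blk j) : ℝ := S j x / P j

lemma B_abs (j : ℕ) (x : Blk j) : |B j x| ≤ 1 := by
  unfold B S
  rw [abs_div, abs_of_pos (P_pos j), div_le_one (P_pos j)]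
  push_cast
  calc |∑ k, (sg (x k) : ℝ)| ≤ ∑ k, |(sg (x k) : ℝ)| := abs_sum_le_sum_abs _ _
    _ = ∑ _k : Fin (P j), (1 : ℝ) := by
      refine sum_congr rfl fun k _ => ?_
      unfold sg; split_ifs <;> simp
    _ ≤ P j := by simp

lemma B_not (j : ℕ) (x : Blk j) : B j (fun k => !x k) = -B j x := by
  unfold B S
  rw [← neg_div, ← Int.cast_neg, ← sum_neg_distrib]
  congr 2
  refine sum_congr rfl fun k _ => ?_
  rcases h : x k <;> simp [sg, h]

lemma B_mgf (j : ℕ) (z : ℂ) :
    ∫ x, Complex.exp (z * B j x) ∂nu j = Complex.cosh (z / P j) ^ P j := by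
  have : ∀ x : Blk j, Complex.exp (z * B j x) = ∏ k, Complex.exp (z / P j * sg (x k)) := by
    intro x
    rw [← Complex.exp_sum, ← mul_sum]; unfold B S; push_cast; congr 1; ring
  simp_rw [this]
  unfold nu
  rw [integral_fintype_prod_eq_prod (fun (_ : Fin (P j)) (b : Bool) =>
    Complex.exp (z / P j * sg b))]
  simp [coin_int, sg, Complex.cosh, div_pow]

lemma B_mgfR (j : ℕ) (s : ℝ) :
    ∫ x, Real.exp (s * B j x) ∂nu j = Real.cosh (s / P j) ^ P j := by
  have := B_mgf j s
  apply Complex.ofReal_injective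
  rw [← integral_complex_ofReal]
  push_cast
  exact this

lemma B_exp_abs (j : ℕ) {s : ℝ} (h0 : 0 ≤ s) (h1 : s ≤ q j) :
    ∫ x, Real.exp (s * |B j x|) ∂nu j ≤ Real.exp (4 * s / q j) := by
  have hq := q_pos j
  have hb : ∀ t : ℝ, t ^ 2 = (q j : ℝ) ^ 2 → ∫ x, Real.exp (t * B j x) ∂nu j ≤ 2 := by
    intro t ht
    rw [B_mgfR]
    calc Real.cosh (t / P j) ^ P j ≤ Real.exp ((t / P j) ^ 2 / 2) ^ P j :=
          pow_le_pow_left₀ (Real.cosh_pos _).le (Real.cosh_le_exp_half_sq _) _
      _ = Real.exp (1 / 2) := by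
          rw [← Real.exp_nat_mul]; congr 1
          rw [div_pow, ht, P_cast]; field_simp
      _ ≤ 2 := by
          have h := Real.exp_one_lt_d9
          have : Real.exp (1 / 2) * Real.exp (1 / 2) = Real.exp 1 := by
            rw [← Real.exp_add]; norm_num
          nlinarith [Real.exp_pos (1 / 2)]
  have hp : ∀ x : Blk j, Real.exp (s * |B j x|) ≤
      1 + s / q j * (Real.exp (q j * B j x) + Real.exp (-q j * B j x)) := by
    intro x
    have ht0 : 0 ≤ s / q j := by positivity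
    have ht1 : s / q j ≤ 1 := (div_le_one hq).2 h1
    have hc := convexOn_exp.2 (Set.mem_univ 0) (Set.mem_univ (q j * |B j x|))
      (sub_nonneg.2 ht1) ht0 (by ring)
    simp only [smul_eq_mul, mul_zero, zero_add, Real.exp_zero, mul_one] at hc
    have e : s / q j * (q j * |B j x|) = s * |B j x| := by field_simp
    rw [e] at hc
    have h2 : Real.exp (q j * |B j x|) ≤ Real.exp (q j * B j x) + Real.exp (-q j * B j x) := by
      rcases abs_cases (B j x) with h | h
      · rw [h.1]; linarith [Real.exp_pos (-q j * B j x)]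
      · rw [h.1, mul_neg, neg_mul]; linarith [Real.exp_pos (q j * B j x)]
    nlinarith
  calc ∫ x, Real.exp (s * |B j x|) ∂nu j
      ≤ ∫ x, (1 + s / q j * (Real.exp (q j * B j x) + Real.exp (-q j * B j x))) ∂nu j :=
        integral_mono Integrable.of_finite Integrable.of_finite hp
    _ = 1 + s / q j * (∫ x, Real.exp (q j * B j x) ∂nu j +
          ∫ x, Real.exp (-q j * B j x) ∂nu j) := by
        rw [integral_add Integrable.of_finite Integrable.of_finite, integral_const_mul,
          integral_add Integrable.of_finite Integrable.of_finite]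
        simp
    _ ≤ 1 + s / q j * 4 := by
        have h1 := hb (q j) rfl
        have h2 := hb (-q j) (by ring)
        have ht0 : 0 ≤ s / q j := by positivity
        nlinarith
    _ ≤ Real.exp (4 * s / q j) := by
        have := Real.add_one_le_exp (4 * s / q j)
        have e : 4 * s / q j = s / q j * 4 := by ring
        linarith

abbrev Om := (j : ℕ) → Blk j

noncomputable def Pr : Measure Om := Measure.infinitePi nu

instance : IsProbabilityMeasure Pr := by unfold Pr; infer_instance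

lemma int_prod {𝕜 : Type} [RCLike 𝕜] (s : Finset ℕ) (g : (j : ℕ) → Blk j → 𝕜) :
    ∫ ω, ∏ j ∈ s, g j (ω j) ∂Pr = ∏ j ∈ s, ∫ x, g j x ∂nu j := by
  have h := integral_restrict_infinitePi (μ := nu) (s := s)
    (f := fun y : (Π i : s, Blk i) => ∏ i : s, g i (y i))
    (measurable_of_finite _).aestronglyMeasurable
  rw [integral_fintype_prod_eq_prod (fun (i : s) (x : Blk i) => g i x)] at h
  rw [← prod_coe_sort s (fun j => ∫ x, g j x ∂nu j), ← h]
  refine integral_congr_ae (ae_of_all _ fun ω => ?_)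
  simp only [Finset.restrict]
  exact (prod_coe_sort s (fun j => g j (ω j))).symm

lemma B_meas (j : ℕ) : Measurable fun ω : Om => B j (ω j) :=
  (measurable_of_finite (B j)).comp (measurable_pi_apply j)

/-- finite pieces of the series of absolute values -/
noncomputable def Vf (n m : ℕ) (ω : Om) : ℝ := ∑ j ∈ Ico n (n + m), |B j (ω j)|

lemma Vf_meas (n m : ℕ) : Measurable (Vf n m) :=
  Finset.measurable_sum _ fun j _ => (B_meas j).abs

lemma Vf_nonneg (n m : ℕ) (ω : Om) : 0 ≤ Vf n m ω := sum_nonneg fun _ _ => abs_nonneg _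

lemma Vf_le (n m : ℕ) (ω : Om) : Vf n m ω ≤ m := by
  calc Vf n m ω ≤ ∑ _j ∈ Ico n (n + m), (1 : ℝ) := sum_le_sum fun j _ => B_abs j _
    _ = m := by simp

lemma Vf_range (n m : ℕ) (ω : Om) : Vf n m ω = ∑ j ∈ range m, |B (n + j) (ω (n + j))| := by
  unfold Vf; rw [sum_Ico_eq_sum_range]; simp

lemma Vf_mono (n : ℕ) (ω : Om) : Monotone fun m => Vf n m ω := by
  refine monotone_nat_of_le_succ fun m => ?_
  rw [Vf_range, Vf_range, sum_range_succ]
  linarith [abs_nonneg (B (n + m) (ω (n + m)))]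

lemma Vf_int (n m : ℕ) {s : ℝ} (h0 : 0 ≤ s) : Integrable (fun ω => Real.exp (s * Vf n m ω)) Pr := by
  refine Integrable.of_bound (C := Real.exp (s * m))
    ((Vf_meas n m).const_mul s).exp.aestronglyMeasurable (ae_of_all _ fun ω => ?_)
  rw [Real.norm_eq_abs, abs_of_pos (Real.exp_pos _)]
  exact Real.exp_le_exp.2 (mul_le_mul_of_nonneg_left (Vf_le n m ω) h0)

lemma Vf_exp (n m : ℕ) {s : ℝ} (h0 : 0 ≤ s) (h1 : s ≤ q n) :
    ∫ ω, Real.exp (s * Vf n m ω) ∂Pr ≤ Real.exp (8 * s / q n) := by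
  have e : ∀ ω : Om, Real.exp (s * Vf n m ω) =
      ∏ j ∈ Ico n (n + m), Real.exp (s * |B j (ω j)|) := by
    intro ω; unfold Vf; rw [mul_sum, Real.exp_sum]
  simp_rw [e]
  rw [int_prod (Ico n (n + m)) (fun j x => Real.exp (s * |B j x|))]
  calc ∏ j ∈ Ico n (n + m), ∫ x, Real.exp (s * |B j x|) ∂nu j
      ≤ ∏ j ∈ Ico n (n + m), Real.exp (4 * s / q j) :=
        prod_le_prod (fun j _ => integral_nonneg fun x => (Real.exp_pos _).le)
          fun j hj => B_exp_abs j h0 (h1.trans (q_mono (mem_Ico.1 hj).1))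
    _ = Real.exp (4 * s * ∑ j ∈ range m, 1 / (q (n + j) : ℝ)) := by
        rw [← Real.exp_sum, sum_Ico_eq_sum_range, mul_sum]
        congr 1
        simp only [add_tsub_cancel_left]
        exact sum_congr rfl fun j _ => by ring
    _ ≤ Real.exp (8 * s / q n) := by
        apply Real.exp_le_exp.2
        have h2 := sum_inv_q n m
        have h3 : 0 ≤ 2 / (q (n + m) : ℝ) := by have := q_pos (n + m); positivity
        have e : 8 * s / q n = 4 * s * (2 / q n) := by ring
        rw [e]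
        exact mul_le_mul_of_nonneg_left (by linarith) (by positivity)

lemma lint_sup (n : ℕ) {s : ℝ} (h0 : 0 ≤ s) (h1 : s ≤ q n) :
    ∫⁻ ω, ⨆ m, ENNReal.ofReal (Real.exp (s * Vf n m ω)) ∂Pr ≤
      ENNReal.ofReal (Real.exp (8 * s / q n)) := by
  rw [lintegral_iSup]
  · refine iSup_le fun m => ?_
    rw [← ofReal_integral_eq_lintegral_ofReal (Vf_int n m h0)
      (ae_of_all _ fun ω => (Real.exp_pos _).le)]
    exact ENNReal.ofReal_le_ofReal (Vf_exp n m h0 h1)
  · intro m
    exact ((Vf_meas n m).const_mul s).exp.ennreal_ofReal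
  · intro a b hab ω
    exact ENNReal.ofReal_le_ofReal
      (Real.exp_le_exp.2 (mul_le_mul_of_nonneg_left (Vf_mono n ω hab) h0))

lemma ae_summable : ∀ᵐ ω ∂Pr, Summable fun j => |B j (ω j)| := by
  have h := lint_sup 0 zero_le_one (by linarith [q_geR 0])
  have hm : Measurable fun ω : Om => ⨆ m, ENNReal.ofReal (Real.exp (1 * Vf 0 m ω)) :=
    Measurable.iSup fun m => ((Vf_meas 0 m).const_mul 1).exp.ennreal_ofReal
  filter_upwards [ae_lt_top hm (ne_top_of_le_ne_top ENNReal.ofReal_ne_top h)] with ω hω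
  refine summable_of_sum_range_le (c := (⨆ m, ENNReal.ofReal (Real.exp (1 * Vf 0 m ω))).toReal)
    (fun _ => abs_nonneg _) fun m => ?_
  have h1 : ENNReal.ofReal (Real.exp (1 * Vf 0 m ω)) ≤
      ⨆ m, ENNReal.ofReal (Real.exp (1 * Vf 0 m ω)) :=
    le_iSup (fun m => ENNReal.ofReal (Real.exp (1 * Vf 0 m ω))) m
  have h2 := (ENNReal.ofReal_le_iff_le_toReal hω.ne).1 h1
  have h3 := Real.add_one_le_exp (1 * Vf 0 m ω)
  have h4 : Vf 0 m ω = ∑ j ∈ range m, |B j (ω j)| := by unfold Vf; simp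
  linarith

/-- tail of the series of absolute values -/
noncomputable def V (n : ℕ) (ω : Om) : ℝ := ∑' j, |B (j + n) (ω (j + n))|

lemma Vf_tendsto (n : ℕ) {ω : Om} (h : Summable fun j => |B j (ω j)|) :
    Tendsto (fun m => Vf n m ω) atTop (𝓝 (V n ω)) := by
  have h1 : Summable fun j => |B (j + n) (ω (j + n))| :=
    (summable_nat_add_iff (f := fun j => |B j (ω j)|) n).2 h
  refine h1.hasSum.tendsto_sum_nat.congr fun m => ?_
  rw [Vf_range]
  exact sum_congr rfl fun j _ => by rw [add_comm n j]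

lemma V_meas (n : ℕ) : AEMeasurable (V n) Pr :=
  aemeasurable_of_tendsto_metrizable_ae' (fun m => (Vf_meas n m).aemeasurable)
    (ae_summable.mono fun _ h => Vf_tendsto n h)

lemma V_nonneg (n : ℕ) (ω : Om) : 0 ≤ V n ω := tsum_nonneg fun _ => abs_nonneg _

lemma V_exp (n : ℕ) {s : ℝ} (h0 : 0 ≤ s) (h1 : s ≤ q n) :
    Integrable (fun ω => Real.exp (s * V n ω)) Pr ∧
      ∫ ω, Real.exp (s * V n ω) ∂Pr ≤ Real.exp (8 * s / q n) := by
  have hm : AEMeasurable (fun ω => Real.exp (s * V n ω)) Pr := ((V_meas n).const_mul s).exp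
  have hl : ∫⁻ ω, ENNReal.ofReal (Real.exp (s * V n ω)) ∂Pr ≤
      ENNReal.ofReal (Real.exp (8 * s / q n)) := by
    refine le_trans (lintegral_mono_ae ?_) (lint_sup n h0 h1)
    filter_upwards [ae_summable] with ω hω
    have t := ENNReal.tendsto_ofReal
      ((Real.continuous_exp.tendsto _).comp ((Vf_tendsto n hω).const_mul s))
    exact le_of_tendsto' t fun m =>
      le_iSup (fun m => ENNReal.ofReal (Real.exp (s * Vf n m ω))) m
  have hi : Integrable (fun ω => Real.exp (s * V n ω)) Pr := by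
    refine ⟨hm.aestronglyMeasurable, ?_⟩
    rw [hasFiniteIntegral_iff_ofReal (ae_of_all _ fun ω => (Real.exp_pos _).le)]
    exact lt_of_le_of_lt hl ENNReal.ofReal_lt_top
  refine ⟨hi, ?_⟩
  rw [← ofReal_integral_eq_lintegral_ofReal hi (ae_of_all _ fun ω => (Real.exp_pos _).le)] at hl
  exact (ENNReal.ofReal_le_ofReal_iff (Real.exp_pos _).le).1 hl

lemma V_split (n : ℕ) {ω : Om} (h : Summable fun j => |B j (ω j)|) : V 0 ω ≤ n + V n ω := by
  have h1 := h.sum_add_tsum_nat_add n
  have h2 := Vf_le 0 n ω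
  have h4 : Vf 0 n ω = ∑ j ∈ range n, |B j (ω j)| := by unfold Vf; simp
  have h5 : V 0 ω = ∑' j, |B j (ω j)| := rfl
  unfold V at *
  linarith

lemma V0_exp (n : ℕ) {s : ℝ} (h0 : 0 ≤ s) (h1 : s ≤ q n) :
    Integrable (fun ω => Real.exp (s * V 0 ω)) Pr ∧
      ∫ ω, Real.exp (s * V 0 ω) ∂Pr ≤ Real.exp ((n + 1) * s) := by
  obtain ⟨hi, hb⟩ := V_exp n h0 h1
  have hle : ∀ᵐ ω ∂Pr, Real.exp (s * V 0 ω) ≤ Real.exp (s * n) * Real.exp (s * V n ω) := by
    filter_upwards [ae_summable] with ω hω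
    rw [← Real.exp_add, ← mul_add]
    exact Real.exp_le_exp.2 (mul_le_mul_of_nonneg_left (V_split n hω) h0)
  have hi0 : Integrable (fun ω => Real.exp (s * V 0 ω)) Pr := by
    refine (hi.const_mul (Real.exp (s * n))).mono'
      ((V_meas 0).const_mul s).exp.aestronglyMeasurable ?_
    filter_upwards [hle] with ω hω
    rwa [Real.norm_eq_abs, abs_of_pos (Real.exp_pos _)]
  refine ⟨hi0, (integral_mono_ae hi0 (hi.const_mul _) hle).trans ?_⟩
  rw [integral_const_mul]
  calc Real.exp (s * n) * ∫ ω, Real.exp (s * V n ω) ∂Pr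
      ≤ Real.exp (s * n) * Real.exp (8 * s / q n) :=
        mul_le_mul_of_nonneg_left hb (Real.exp_pos _).le
    _ ≤ Real.exp ((n + 1) * s) := by
        rw [← Real.exp_add]
        apply Real.exp_le_exp.2
        have : 8 * s / q n ≤ s := by
          rw [div_le_iff₀ (q_pos n)]; nlinarith [q_geR n]
        linarith

lemma exists_level (s : ℝ) : ∃ n, s ≤ q n := by
  obtain ⟨n, hn⟩ := exists_nat_ge s
  exact ⟨n, by linarith [q_exp n, Real.exp_pos ((n : ℝ) + 8)]⟩

lemma V0_int {s : ℝ} (h0 : 0 ≤ s) : Integrable (fun ω => Real.exp (s * V 0 ω)) Pr := by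
  obtain ⟨n, hn⟩ := exists_level s
  exact (V0_exp n h0 hn).1

/-- doubly exponential moment -/
lemma V0_double : Integrable (fun ω => Real.exp (Real.exp (V 0 ω + 2))) Pr := by
  have hm : AEMeasurable (fun ω => Real.exp (Real.exp (V 0 ω + 2))) Pr :=
    ((V_meas 0).add_const 2).exp.exp
  refine ⟨hm.aestronglyMeasurable, ?_⟩
  rw [hasFiniteIntegral_iff_ofReal (ae_of_all _ fun ω => (Real.exp_pos _).le)]
  set a : ℕ → ℝ := fun n => Real.exp (Real.exp (n + 8) - q n * (n + 2)) with ha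
  have hp : ∀ ω : Om, ENNReal.ofReal (Real.exp (Real.exp (V 0 ω + 2))) ≤
      ENNReal.ofReal (Real.exp (Real.exp 4)) +
        ∑' n : ℕ, ENNReal.ofReal (a n * Real.exp (q n * V 0 ω)) := by
    intro ω
    by_cases h : V 0 ω ≤ 2
    · exact le_add_right (ENNReal.ofReal_le_ofReal
        (Real.exp_le_exp.2 (Real.exp_le_exp.2 (by linarith))))
    · push Not at h
      refine le_add_left (le_trans ?_ (ENNReal.le_tsum ⌊V 0 ω - 2⌋₊))
      apply ENNReal.ofReal_le_ofReal
      have h1 := Nat.floor_le (show 0 ≤ V 0 ω - 2 by linarith)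
      have h2 := Nat.lt_floor_add_one (V 0 ω - 2)
      simp only [ha]
      rw [← Real.exp_add]
      apply Real.exp_le_exp.2
      have h3 : Real.exp (V 0 ω + 2) ≤ Real.exp (⌊V 0 ω - 2⌋₊ + 8) :=
        Real.exp_le_exp.2 (by linarith)
      have h4 := q_pos ⌊V 0 ω - 2⌋₊
      nlinarith
  refine lt_of_le_of_lt (lintegral_mono hp) ?_
  rw [lintegral_add_left measurable_const, lintegral_tsum]
  · refine ENNReal.add_lt_top.2 ⟨by simp, ?_⟩
    have hb : ∀ n : ℕ, ∫⁻ ω, ENNReal.ofReal (a n * Real.exp (q n * V 0 ω)) ∂Pr ≤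
        ENNReal.ofReal (Real.exp (-n)) := by
      intro n
      obtain ⟨hi, hb⟩ := V0_exp n (q_pos n).le le_rfl
      have ha0 : 0 < a n := Real.exp_pos _
      rw [← ofReal_integral_eq_lintegral_ofReal (hi.const_mul _)
        (ae_of_all _ fun ω => (mul_pos ha0 (Real.exp_pos _)).le), integral_const_mul]
      apply ENNReal.ofReal_le_ofReal
      refine (mul_le_mul_of_nonneg_left hb ha0.le).trans ?_
      simp only [ha]
      rw [← Real.exp_add]
      apply Real.exp_le_exp.2
      have := q_exp n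
      nlinarith
    refine lt_of_le_of_lt (ENNReal.tsum_le_tsum hb) ?_
    rw [← ENNReal.ofReal_tsum_of_nonneg (fun n => (Real.exp_pos _).le) Real.summable_exp_neg_nat]
    exact ENNReal.ofReal_lt_top
  · intro n
    exact (((V_meas 0).const_mul _).exp.const_mul _).ennreal_ofReal

end Pool.Agent.P.MP_2e654e_an.Rigid
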