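import Pool.Agent.P.MP_2e654e_an.RCore

set_option autoImplicit false

open MeasureTheory Filter Topology Complex Metric

namespace Pool.Agent.P.MP_2e654e_an.Rigid

noncomputable def Ph (c ε η t : ℝ) : ℝ := c * kap η 0 t + (kap η ε t + kap η (-ε) t) / 2

lemma Ph_nonneg {c : ℝ} (hc : 0 ≤ c) (ε η t : ℝ) : 0 ≤ Ph c ε η t := by
  have := kap_nonneg η 0 t; have := kap_nonneg η ε t; have := kap_nonneg η (-ε) t
  unfold Ph; positivity

lemma Ph_even (c ε η t : ℝ) : Ph c ε η (-t) = Ph c ε η t := by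
  unfold Ph; simp only [kap_neg, neg_zero, neg_neg]; ring

lemma Ph_good {c ε η : ℝ} (hc : 0 ≤ c) (h0 : 0 < η) (h1 : η ≤ 1) (hε : |ε| ≤ 1) :
    Good (Ph c ε η) := by
  refine ⟨((kap_meas η 0).const_mul c).add (((kap_meas η ε).add (kap_meas η (-ε))).div_const 2),
    (c + 1) * ∫ y, Real.exp (Real.exp (|y| + 2)) ∂mu, fun t => ?_⟩
  rw [abs_of_nonneg (Ph_nonneg hc ε η t)]
  have a := mul_le_mul_of_nonneg_left (kap_le h0 h1 (a := 0) (by simp) t) hc
  have b := kap_le h0 h1 hε t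
  have d := kap_le h0 h1 (a := -ε) (by rwa [abs_neg]) t
  unfold Ph; linarith

lemma FT_phi (Φ : ℝ → ℝ) (L : ℝ) (z : ℂ) (t : ℝ) :
    ((Real.exp (L * t ^ 2) * Φ t : ℝ) : ℂ) * exp (I * t * z) = (Φ t : ℂ) * phi L z t := by
  unfold phi; rw [Complex.exp_add]; push_cast; ring

lemma Good.int_phi {Φ : ℝ → ℝ} (h : Good Φ) (L : ℝ) (z : ℂ) :
    Integrable fun t => (Φ t : ℂ) * phi L z t := by
  simpa only [FT_phi] using (h.kk L).int z

lemma Ph_split (c : ℝ) {ε η : ℝ} (h0 : 0 < η) (h1 : η ≤ 1) (hε : |ε| ≤ 1) (L : ℝ) (z : ℂ) :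
    FT (fun t => ((Real.exp (L * t ^ 2) * Ph c ε η t : ℝ) : ℂ)) z =
      c * (∫ t, (kap η 0 t : ℂ) * phi L z t) +
        ((∫ t, (kap η ε t : ℂ) * phi L z t) + ∫ t, (kap η (-ε) t : ℂ) * phi L z t) / 2 := by
  have a := (kap_good h0 h1 (a := 0) (by simp)).int_phi L z
  have b := (kap_good h0 h1 hε).int_phi L z
  have d := (kap_good h0 h1 (a := -ε) (by rwa [abs_neg])).int_phi L z
  have bd : Integrable fun t =>
      ((kap η ε t : ℂ) * phi L z t + (kap η (-ε) t : ℂ) * phi L z t) / 2 := (b.add d).div_const 2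
  rw [← integral_const_mul, ← integral_add b d, ← integral_div,
    ← integral_add (a.const_mul _) bd]
  unfold FT
  refine integral_congr_ae (ae_of_all _ fun t => ?_)
  simp only [FT_phi]
  simp only [Ph]
  push_cast; ring

noncomputable def sk (η : ℝ) (z : ℂ) : ℂ := ∫ u in -(η / 4)..(η / 4), exp (I * z * u)

lemma kap_FT {η a : ℝ} (h0 : 0 < η) (h1 : η ≤ 1) (ha : |a| ≤ 1) (z : ℂ) :
    ∫ t, (kap η a t : ℂ) * phi 0 z t = exp (I * a * z) * (sk η z * F (I * η * z)) := by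
  rw [(kap_fubini h0 h1 ha (phi_cont 0 z) (phi_le 0 z)).1, ← mu_F, ← integral_const_mul,
    ← integral_const_mul]
  refine integral_congr_ae (ae_of_all _ fun y => ?_)
  simp only [sk]
  rw [← intervalIntegral.integral_mul_const, ← intervalIntegral.integral_const_mul]
  refine intervalIntegral.integral_congr fun u _ => ?_
  simp only [phi]
  rw [← Complex.exp_add, ← Complex.exp_add]
  congr 1; push_cast; ring

lemma f_prod (c : ℝ) {ε η : ℝ} (h0 : 0 < η) (h1 : η ≤ 1) (hε : |ε| ≤ 1) (z : ℂ) :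
    FT (fun t => (Ph c ε η t : ℂ)) z = (c + cos (ε * z)) * (sk η z * F (I * η * z)) := by
  have := Ph_split c h0 h1 hε 0 z
  simp only [zero_mul, Real.exp_zero, one_mul] at this
  rw [this, kap_FT h0 h1 (by simp), kap_FT h0 h1 hε, kap_FT h0 h1 (by rwa [abs_neg]),
    Complex.cos]
  have e1 : I * ε * z = ε * z * I := by ring
  have e2 : I * ((-ε : ℝ) : ℂ) * z = -(ε * z) * I := by push_cast; ring
  rw [e1, e2]; simp; ring

lemma sk_le {η : ℝ} (h0 : 0 < η) (h1 : η ≤ 1) (z : ℂ) : ‖sk η z‖ ≤ Real.exp ‖z‖ := by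
  have : ‖sk η z‖ ≤ Real.exp ‖z‖ * |η / 4 - -(η / 4)| := by
    refine intervalIntegral.norm_integral_le_of_norm_le_const fun u hu => ?_
    rw [Set.uIoc_of_le (by linarith)] at hu
    have := norm_exp_le (I * z) u 1 (abs_le.2 ⟨by linarith [hu.1], by linarith [hu.2]⟩)
    simpa using this
  rw [abs_of_pos (by linarith)] at this
  nlinarith [Real.exp_pos ‖z‖]

lemma sk_ne {η : ℝ} (h0 : 0 < η) {z : ℂ} (hz : z.im ≠ 0) : sk η z ≠ 0 := by
  have h1 : I * z ≠ 0 := mul_ne_zero I_ne_zero fun h => hz (by simp [h])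
  unfold sk
  rw [integral_exp_mul_complex h1]
  refine div_ne_zero (sub_ne_zero.2 fun h => hz ?_) h1
  have := congrArg norm h
  rw [Complex.norm_exp, Complex.norm_exp, Real.exp_eq_exp] at this
  simp only [mul_re, I_re, I_im, zero_mul, one_mul, zero_sub, ofReal_re, ofReal_im, mul_zero,
    sub_zero] at this
  have h2 : z.im * η = 0 := by linarith
  exact (mul_eq_zero.1 h2).resolve_right h0.ne'

lemma sk_ge {η : ℝ} (h0 : 0 < η) {y : ℝ} (hy : 0 < y) : η / 2 ≤ ‖sk η (-I * y)‖ := by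
  have h1 : I * (-I * y) = y := by linear_combination (-y : ℂ) * I_sq
  unfold sk
  rw [h1, integral_exp_mul_complex (by exact_mod_cast hy.ne')]
  have : (exp ((y : ℂ) * ((η / 4 : ℝ) : ℂ)) - exp ((y : ℂ) * ((-(η / 4) : ℝ) : ℂ))) / y =
      (((Real.exp (y * (η / 4)) - Real.exp (-(y * (η / 4)))) / y : ℝ) : ℂ) := by
    push_cast; ring_nf
  rw [this, Complex.norm_real, Real.norm_eq_abs]
  refine le_trans ?_ (le_abs_self _)
  have h4 := Real.self_le_sinh_iff.2 (show 0 ≤ y * (η / 4) by positivity)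
  rw [Real.sinh_eq] at h4
  rw [le_div_iff₀ hy]; linarith

lemma cos_le (z : ℂ) : ‖cos z‖ ≤ Real.exp ‖z‖ := by
  have h1 := Complex.norm_exp_le_exp_norm (z * I)
  have h2 := Complex.norm_exp_le_exp_norm (-z * I)
  simp only [norm_mul, norm_neg, norm_I, mul_one] at h1 h2
  have h3 := norm_add_le (exp (z * I)) (exp (-z * I))
  rw [Complex.cos, norm_div, Complex.norm_ofNat]
  linarith

lemma f_order {c ε η : ℝ} (hc : 0 ≤ c) (h0 : 0 < η) (h1 : η ≤ 1) (hε : |ε| ≤ 1) (θ : ℝ)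
    (hθ : 0 < θ) : ∃ R : ℝ, ∀ z : ℂ, R ≤ ‖z‖ →
      ‖FT (fun t => (Ph c ε η t : ℂ)) z‖ ≤ Real.exp (‖z‖ ^ (1 + θ)) := by
  have e1 := (isLittleO_log_rpow_atTop hθ).bound (show (0 : ℝ) < 1 / 2 by norm_num)
  have e2 := (tendsto_rpow_atTop hθ).eventually_ge_atTop (2 * (c + 4))
  obtain ⟨R, hR⟩ := eventually_atTop.1 ((e1.and e2).and (eventually_ge_atTop 1))
  refine ⟨R, fun z hz => ?_⟩
  obtain ⟨⟨a1, a2⟩, a3⟩ := hR _ hz
  have hl := Real.log_nonneg a3
  rw [Real.norm_eq_abs, Real.norm_eq_abs, abs_of_nonneg hl, abs_of_nonneg (by positivity)] at a1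
  have b0 : ‖I * η * z‖ ≤ ‖z‖ := by
    rw [norm_mul, norm_mul, norm_I, one_mul, Complex.norm_real, Real.norm_eq_abs, abs_of_pos h0]
    exact mul_le_of_le_one_left (norm_nonneg z) h1
  have b1 : ‖z‖ ≤ q ⌈Real.log ‖z‖⌉₊ := by
    have h2 := q_exp ⌈Real.log ‖z‖⌉₊
    have h3 := Nat.le_ceil (Real.log ‖z‖)
    have h4 : Real.exp (Real.log ‖z‖) ≤ Real.exp (⌈Real.log ‖z‖⌉₊ + 8) :=
      Real.exp_le_exp.2 (by linarith)
    rw [Real.exp_log (by linarith)] at h4
    linarith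
  have b2 : ‖F (I * η * z)‖ ≤ Real.exp ((Real.log ‖z‖ + 2) * ‖z‖) := by
    refine (F_upper _ _ (b0.trans b1)).trans (Real.exp_le_exp.2 ?_)
    have := Nat.ceil_lt_add_one hl
    exact mul_le_mul (by linarith) b0 (norm_nonneg _) (by linarith)
  have b3 : ‖(c : ℂ) + cos (ε * z)‖ ≤ Real.exp (c * ‖z‖) * Real.exp ‖z‖ := by
    have h2 : ‖cos (ε * z)‖ ≤ Real.exp ‖z‖ := by
      refine (cos_le _).trans (Real.exp_le_exp.2 ?_)
      rw [norm_mul, Complex.norm_real, Real.norm_eq_abs]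
      exact mul_le_of_le_one_left (norm_nonneg z) hε
    have h3 := norm_add_le (c : ℂ) (cos (ε * z))
    rw [Complex.norm_real, Real.norm_eq_abs, abs_of_nonneg hc] at h3
    have h4 := Real.add_one_le_exp (c * ‖z‖)
    have h5 : 1 ≤ Real.exp ‖z‖ := Real.one_le_exp (norm_nonneg z)
    have h6 : c ≤ c * ‖z‖ := le_mul_of_one_le_right hc a3
    nlinarith
  rw [f_prod c h0 h1 hε, norm_mul, norm_mul]
  refine (mul_le_mul b3 (mul_le_mul (sk_le h0 h1 z) b2 (norm_nonneg _) (Real.exp_pos _).le)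
    (by positivity) (by positivity)).trans ?_
  rw [← Real.exp_add, ← Real.exp_add, ← Real.exp_add, Real.rpow_add (by linarith), Real.rpow_one]
  apply Real.exp_le_exp.2
  have : c + 4 + Real.log ‖z‖ ≤ ‖z‖ ^ θ := by linarith
  nlinarith

lemma f_type {c ε η : ℝ} (hc : 0 ≤ c) (h0 : 0 < η) (h1 : η ≤ 1) (hε : |ε| ≤ 1) (C R : ℝ) :
    ∃ z : ℂ, R ≤ ‖z‖ ∧ Real.exp (C * ‖z‖) < ‖FT (fun t => (Ph c ε η t : ℂ)) z‖ := by
  obtain ⟨n, hn⟩ := exists_nat_ge ((C + 1) / η)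
  rw [div_le_iff₀ h0] at hn
  obtain ⟨b, hb⟩ := F_lower n
  set y := max (max R 1) (b - Real.log (η / 2) + 1) with hy
  have y1 : 1 ≤ y := (le_max_right _ _).trans (le_max_left _ _)
  have y2 : R ≤ y := (le_max_left _ _).trans (le_max_left _ _)
  have y3 : b - Real.log (η / 2) + 1 ≤ y := le_max_right _ _
  have hn' : ‖-I * (y : ℂ)‖ = y := by simp [abs_of_pos (show 0 < y by linarith)]
  refine ⟨-I * y, by rwa [hn'], ?_⟩
  rw [hn', f_prod c h0 h1 hε, norm_mul, norm_mul]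
  have e1 : I * η * (-I * y) = ((η * y : ℝ) : ℂ) := by
    push_cast; linear_combination (-(η : ℂ) * y) * I_sq
  have e2 : (c : ℂ) + cos (ε * (-I * y)) = ((c + Real.cosh (ε * y) : ℝ) : ℂ) := by
    rw [show (ε : ℂ) * (-I * y) = -(ε * y * I) by ring, Complex.cos_neg, Complex.cos_mul_I]
    push_cast; rfl
  have a1 : 1 ≤ ‖(c : ℂ) + cos (ε * (-I * y))‖ := by
    rw [e2, Complex.norm_real, Real.norm_eq_abs]
    exact le_trans (by linarith [Real.one_le_cosh (ε * y)]) (le_abs_self _)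
  have a2 := sk_ge h0 (show 0 < y by linarith)
  have a3 := hb (η * y)
  rw [← e1] at a3
  refine lt_of_lt_of_le ?_ (mul_le_mul a1 (mul_le_mul a2 a3 (Real.exp_pos _).le (norm_nonneg _))
    (by positivity) (norm_nonneg _))
  rw [one_mul, ← Real.exp_log (show 0 < η / 2 by linarith), ← Real.exp_add]
  apply Real.exp_lt_exp.2
  have := mul_le_mul_of_nonneg_right hn (show 0 ≤ y by linarith)
  nlinarith

lemma f_zero {d ε η : ℝ} (hd : 0 < d) (h0 : 0 < η) (h1 : η ≤ 1) (hε0 : 0 < ε) (hε : ε ≤ 1) {z : ℂ}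
    (hz : FT (fun t => (Ph (Real.cosh (ε * d)) ε η t : ℂ)) z = 0) : |z.im| ≤ d := by
  by_cases h : z.im = 0
  · rw [h, abs_zero]; exact hd.le
  rw [f_prod _ h0 h1 (by rwa [abs_of_pos hε0])] at hz
  have hF : F (I * η * z) ≠ 0 := F_ne (by simp [h, h0.ne'])
  have := cos_zero ((mul_eq_zero.1 hz).resolve_right (mul_ne_zero (sk_ne h0 h) hF))
  simp only [mul_im, ofReal_re, ofReal_im, zero_mul, add_zero, abs_mul, abs_of_pos hε0,
    abs_of_pos hd] at this
  exact le_of_mul_le_mul_left this hε0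

lemma FT_even {Φ : ℝ → ℝ} (h : ∀ t, Φ (-t) = Φ t) (z : ℂ) :
    FT (fun t => (Φ t : ℂ)) (-z) = FT (fun t => (Φ t : ℂ)) z := by
  unfold FT
  rw [← integral_neg_eq_self]
  refine integral_congr_ae (ae_of_all _ fun t => ?_)
  simp only [h]; push_cast; ring_nf

lemma FT_real {Φ : ℝ → ℝ} (h : ∀ t, Φ (-t) = Φ t) (x : ℝ) :
    (FT (fun t => (Φ t : ℂ)) x).im = 0 := by
  rw [← Complex.conj_eq_iff_im]
  conv_rhs => rw [← FT_even h]
  unfold FT
  rw [← integral_conj]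
  refine integral_congr_ae (ae_of_all _ fun t => ?_)
  simp only [map_mul, ← Complex.exp_conj, Complex.conj_ofReal, Complex.conj_I]
  ring_nf

lemma approx (L0 R : ℝ) : ∃ C : ℝ, 0 ≤ C ∧ ∀ c ε : ℝ, 0 ≤ c → 0 < ε → ε ≤ 1 → ∀ K : ℕ, 0 < K →
    ∀ i : ℕ, ∀ M : ℝ, M * ε = 2 * Real.pi * P i * K → ∀ L : ℝ, 0 ≤ L → L ≤ L0 →
    ∀ w : ℂ, ‖w‖ ≤ R →
      ‖M * FT (fun t => ((Real.exp (L * t ^ 2) * Ph c ε (ε / K) t : ℝ) : ℂ)) (M + w) -
        2 * (c + Real.exp (L * ε ^ 2) * cos (ε * w))‖ ≤ (c + 1) * (C * (ε / K) + C * rr i) := by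
  obtain ⟨C, hC0, hC⟩ := core L0 R
  refine ⟨C, hC0, fun c ε hc hε0 hε1 K hK i M hM L hL hLL w hw => ?_⟩
  have hK1 : (1 : ℝ) ≤ K := by exact_mod_cast hK
  have h0 : 0 < ε / K := by positivity
  have h1 : ε / K ≤ 1 := by rw [div_le_one (by linarith)]; linarith
  have hM' : M * (ε / K) = 2 * Real.pi * P i := by
    rw [← mul_div_assoc, hM]; field_simp
  have hε : |ε| ≤ 1 := by rwa [abs_of_pos hε0]
  have hMC : (M : ℂ) * ε = 2 * Real.pi * P i * K := by exact_mod_cast hM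
  have x1 : exp (I * M * ε) = 1 := by
    have : I * M * ε = ((P i * K : ℕ) : ℂ) * (2 * Real.pi * I) := by
      push_cast; linear_combination I * hMC
    rw [this, Complex.exp_nat_mul_two_pi_mul_I]
  have x2 : exp (I * M * ((-ε : ℝ) : ℂ)) = 1 := by
    rw [Complex.ofReal_neg, mul_neg, Complex.exp_neg, x1, inv_one]
  have a := hC _ h0 h1 0 (by simp) i M hM' (by simp) L hL hLL w hw
  have b := hC _ h0 h1 ε hε i M hM' x1 L hL hLL w hw
  have d := hC _ h0 h1 (-ε) (by rwa [abs_neg]) i M hM' x2 L hL hLL w hw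
  have p0 : phi L w 0 = 1 := by simp [phi]
  have p1 : phi L w ε + phi L w (-ε) = 2 * (Real.exp (L * ε ^ 2) * cos (ε * w)) := by
    unfold phi
    rw [Complex.exp_add, Complex.exp_add, Complex.cos]
    push_cast
    ring_nf
  rw [Ph_split c h0 h1 hε]
  rw [p0] at a
  set J0 := ∫ t, (kap (ε / K) 0 t : ℂ) * phi L (M + w) t
  set J1 := ∫ t, (kap (ε / K) ε t : ℂ) * phi L (M + w) t
  set J2 := ∫ t, (kap (ε / K) (-ε) t : ℂ) * phi L (M + w) t
  have e : M * (c * J0 + (J1 + J2) / 2) - 2 * (c + Real.exp (L * ε ^ 2) * cos (ε * w)) =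
      c * (M * J0 - 2 * 1) + ((M * J1 - 2 * phi L w ε) + (M * J2 - 2 * phi L w (-ε))) / 2 := by
    linear_combination p1
  rw [e]
  refine (norm_add_le _ _).trans ?_
  rw [norm_mul, norm_div, Complex.norm_ofNat, Complex.norm_real, Real.norm_eq_abs,
    abs_of_nonneg hc]
  have := norm_add_le (M * J1 - 2 * phi L w ε) (M * J2 - 2 * phi L w (-ε))
  have := mul_le_mul_of_nonneg_left a hc
  linarith

lemma exists_cosh {x : ℝ} (h : 1 ≤ x) : ∃ s : ℝ, 0 ≤ s ∧ Real.cosh s = x := by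
  refine ⟨Real.arsinh √(x ^ 2 - 1), Real.arsinh_nonneg_iff.2 (Real.sqrt_nonneg _), ?_⟩
  rw [Real.cosh_arsinh, Real.sq_sqrt (by nlinarith), add_sub_cancel,
    Real.sqrt_sq (by linarith)]

lemma exists_eps {d L : ℝ} (hL : 0 ≤ L) (h : L < d ^ 2 / 2) :
    ∃ ε : ℝ, 0 < ε ∧ ε ≤ 1 ∧ Real.exp (L * ε ^ 2) < Real.cosh (ε * d) := by
  have t : Tendsto (fun ε : ℝ => L * ε ^ 2) (𝓝[>] 0) (𝓝 0) := by
    have : Continuous fun ε : ℝ => L * ε ^ 2 := by fun_prop
    simpa using (this.tendsto 0).mono_left nhdsWithin_le_nhds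
  have t2 : Tendsto (fun ε : ℝ => L * (L * ε ^ 2)) (𝓝[>] 0) (𝓝 0) := by
    simpa using t.const_mul L
  have e1 := t.eventually (gt_mem_nhds zero_lt_one)
  have e2 := t2.eventually (gt_mem_nhds (sub_pos.2 h))
  obtain ⟨ε, ⟨a1, a2⟩, a3, a4⟩ := ((e1.and e2).and (Ioo_mem_nhdsGT zero_lt_one)).exists
  refine ⟨ε, a3, a4.le, ?_⟩
  have b0 : 0 ≤ L * ε ^ 2 := by positivity
  have b1 := Real.abs_exp_sub_one_sub_id_le (x := L * ε ^ 2) (by rw [abs_of_nonneg b0]; exact a1.le)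
  have b2 : 1 + (ε * d) ^ 2 / 2 ≤ Real.cosh (ε * d) := by
    have h1 := Real.cosh_two_mul (ε * d / 2)
    have h2 := Real.cosh_sq (ε * d / 2)
    have h3 : |ε * d / 2| ≤ |Real.sinh (ε * d / 2)| := by
      rw [Real.abs_sinh]; exact Real.self_le_sinh_iff.2 (abs_nonneg _)
    have h4 := sq_le_sq.2 h3
    rw [show 2 * (ε * d / 2) = ε * d by ring] at h1
    nlinarith
  have b3 := mul_lt_mul_of_pos_right a2 (pow_pos a3 2)
  have := (abs_le.1 b1).2
  nlinarith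

theorem infinite_zeros {d L0 : ℝ} (hd : 0 < d) (hL0 : 0 ≤ L0) (h : L0 < d ^ 2 / 2) :
    ∃ ε η : ℝ, 0 < ε ∧ ε ≤ 1 ∧ 0 < η ∧ η ≤ 1 ∧ ∀ L : ℝ, 0 ≤ L → L ≤ L0 →
      {z : ℂ | FT (fun t => ((Real.exp (L * t ^ 2) * Ph (Real.cosh (ε * d)) ε η t : ℝ) : ℂ)) z = 0
        ∧ z.im ≠ 0}.Infinite := by
  obtain ⟨ε, hε0, hε1, hε⟩ := exists_eps hL0 h
  set c := Real.cosh (ε * d) with hc
  have hc1 : 1 ≤ c := Real.one_le_cosh _
  have hE := Real.exp_pos (L0 * ε ^ 2)
  have hx0 : 1 < c / Real.exp (L0 * ε ^ 2) := (one_lt_div hE).2 hε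
  obtain ⟨s0, hs0, hs0'⟩ := exists_cosh hx0.le
  have hs0p : 0 < s0 := by
    refine lt_of_le_of_ne hs0 fun h0 => ?_
    rw [← h0, Real.cosh_zero] at hs0'; linarith
  set ρ := min (s0 / 2) 1 with hρ
  have hρ0 : 0 < ρ := lt_min (by linarith) one_pos
  have hρ1 : ρ ≤ 1 := min_le_right _ _
  have hρ2 : ρ ≤ s0 / 2 := min_le_left _ _
  set R := (Real.pi + d + 1) / ε with hR
  obtain ⟨C, hC0, hC⟩ := approx L0 R
  have tK : Tendsto (fun K : ℕ => (c + 1) * (C * (ε / K))) atTop (𝓝 0) := by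
    simpa using ((tendsto_const_div_atTop_nhds_zero_nat ε).const_mul C).const_mul (c + 1)
  obtain ⟨K, hK1, hK⟩ := ((tK.eventually (gt_mem_nhds (show 0 < ρ ^ 2 / 4 by positivity))).and
    (eventually_gt_atTop 0)).exists
  have hK1' : (1 : ℝ) ≤ K := by exact_mod_cast hK
  have h0 : 0 < ε / K := by positivity
  have h1 : ε / K ≤ 1 := by rw [div_le_one (by linarith)]; linarith
  refine ⟨ε, ε / K, hε0, hε1, h0, h1, fun L hL hLL hfin => ?_⟩
  obtain ⟨Bd, hBd⟩ := hfin.isBounded.exists_norm_le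
  have ti : Tendsto (fun i : ℕ => (c + 1) * (C * rr i)) atTop (𝓝 0) := by
    simpa [rr] using (mu_rigid.const_mul C).const_mul (c + 1)
  obtain ⟨i, hi1, hi2⟩ := ((ti.eventually (gt_mem_nhds (show 0 < ρ ^ 2 / 4 by positivity))).and
    (tendsto_natCast_atTop_atTop.eventually_gt_atTop (Bd + R))).exists
  set M : ℝ := 2 * Real.pi * P i * K / ε with hM
  have hM1 : M * ε = 2 * Real.pi * P i * K := by rw [hM]; field_simp
  have hM2 : (i : ℝ) ≤ M := by
    have a1 : (i : ℝ) ≤ q i := by linarith [q_exp i, Real.exp_pos ((i : ℝ) + 8)]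
    have a2 : (q i : ℝ) ≤ P i := by rw [P_cast]; nlinarith [q_geR i]
    have a3 : (P i : ℝ) ≤ P i * K := le_mul_of_one_le_right (P_pos i).le hK1'
    have a4 : (0 : ℝ) ≤ i := Nat.cast_nonneg i
    rw [hM, le_div_iff₀ hε0]
    have a5 : (i : ℝ) * ε ≤ i := mul_le_of_le_one_right a4 hε1
    have a6 := mul_le_mul_of_nonneg_right Real.pi_gt_three.le (a4.trans (a1.trans (a2.trans a3)))
    linarith only [a1, a2, a3, a4, a5, a6]
  have hE' := Real.exp_pos (L * ε ^ 2)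
  have hE1 : 1 ≤ Real.exp (L * ε ^ 2) := Real.one_le_exp (by positivity)
  have hE2 : Real.exp (L * ε ^ 2) ≤ Real.exp (L0 * ε ^ 2) :=
    Real.exp_le_exp.2 (mul_le_mul_of_nonneg_right hLL (sq_nonneg ε))
  have hx1 : c / Real.exp (L0 * ε ^ 2) ≤ c / Real.exp (L * ε ^ 2) :=
    div_le_div_of_nonneg_left (by linarith) hE' hE2
  obtain ⟨s, hs, hs'⟩ := exists_cosh (hx0.le.trans hx1)
  have s1 : s0 ≤ s := by
    have := Real.cosh_le_cosh.1 (show Real.cosh s0 ≤ Real.cosh s by rw [hs0', hs']; exact hx1)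
    rwa [abs_of_nonneg hs0, abs_of_nonneg hs] at this
  have s2 : s ≤ d := by
    have := Real.cosh_le_cosh.1 (show Real.cosh s ≤ Real.cosh (ε * d) by
      rw [hs']; exact div_le_self (by linarith) hE1)
    rw [abs_of_nonneg hs, abs_of_pos (by positivity)] at this
    exact this.trans (mul_le_of_le_one_left hd.le hε1)
  have hcs : (c : ℂ) = Real.exp (L * ε ^ 2) * Real.cosh s := by
    rw [hs', ← Complex.ofReal_mul, mul_div_cancel₀ _ hE'.ne']
  have hεC : (ε : ℂ) ≠ 0 := by exact_mod_cast hε0.ne'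
  set w0 : ℂ := (Real.pi + s * I) / ε with hw0
  have hdist : ∀ w : ℂ, ‖ε * w - (Real.pi + s * I)‖ = ε * dist w w0 := by
    intro w
    have : (ε : ℂ) * w - (Real.pi + s * I) = ε * (w - w0) := by rw [hw0]; field_simp
    rw [this, norm_mul, Complex.norm_real, Real.norm_eq_abs, abs_of_pos hε0, dist_eq_norm]
  have hball : ∀ w ∈ closedBall w0 (ρ / ε), ‖w‖ ≤ R ∧ w.im ≠ 0 := by
    intro w hw
    rw [mem_closedBall, le_div_iff₀ hε0, mul_comm, ← hdist] at hw
    constructor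
    · have a1 := norm_sub_norm_le ((ε : ℂ) * w) (Real.pi + s * I)
      have a2 := norm_add_le (Real.pi : ℂ) (s * I)
      rw [norm_mul, norm_I, Complex.norm_real, Complex.norm_real, Real.norm_eq_abs,
        Real.norm_eq_abs, abs_of_pos Real.pi_pos, abs_of_nonneg hs] at a2
      rw [norm_mul, Complex.norm_real, Real.norm_eq_abs, abs_of_pos hε0] at a1
      rw [hR, le_div_iff₀ hε0]; linarith
    · intro h0
      have a1 := (Complex.abs_im_le_norm _).trans hw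
      have a2 : ((ε : ℂ) * w - (Real.pi + s * I)).im = -s := by simp [h0]
      rw [a2, abs_neg, abs_of_nonneg hs] at a1
      linarith
  set g := FT (fun t => ((Real.exp (L * t ^ 2) * Ph c ε (ε / K) t : ℝ) : ℂ)) with hg
  have hgd : Differentiable ℂ g :=
    ((Ph_good (by linarith) h0 h1 (by rwa [abs_of_pos hε0])).kk L).diff
  have happ : ∀ w ∈ closedBall w0 (ρ / ε),
      ‖M * g (M + w) - 2 * (c + Real.exp (L * ε ^ 2) * cos (ε * w))‖ < ρ ^ 2 / 2 := by
    intro w hw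
    have := hC c ε (by linarith) hε0 hε1 K hK i M hM1 L hL hLL w (hball w hw).1
    linarith
  have hr : 0 < ρ / ε := by positivity
  obtain ⟨w, hw, hw'⟩ := exists_zero (ψ := fun w => M * g (M + w)) (by fun_prop) (c := w0)
    (δ := ρ ^ 2 / 2) hr (by
      have a1 := happ w0 (mem_closedBall_self hr.le)
      have a2 : (ε : ℂ) * w0 = s * I + Real.pi := by rw [hw0]; field_simp; ring
      rw [a2, Complex.cos_add_pi, Complex.cos_mul_I, hcs] at a1
      simpa using a1) (by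
      intro w hw
      have a1 := happ w (sphere_subset_closedBall hw)
      have a2 := model_lower hρ0 hρ1 (s := s) (by linarith) (x := ε * w) (by
        rw [hdist, mem_sphere.1 hw]; field_simp)
      have a3 : (2 : ℂ) * (c + Real.exp (L * ε ^ 2) * cos (ε * w)) =
          ((2 * Real.exp (L * ε ^ 2) : ℝ) : ℂ) * (cos (ε * w) + Real.cosh s) := by
        rw [hcs]; push_cast; ring
      have a4 := norm_sub_norm_le ((2 : ℂ) * (c + Real.exp (L * ε ^ 2) * cos (ε * w)))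
        (M * g (M + w))
      rw [norm_sub_rev _ (M * g (M + w))] at a4
      have a5 : ρ ^ 2 ≤ ‖(2 : ℂ) * (c + Real.exp (L * ε ^ 2) * cos (ε * w))‖ := by
        rw [a3, norm_mul, Complex.norm_real, Real.norm_eq_abs, abs_of_pos (by positivity)]
        have := mul_le_mul (show (2 : ℝ) ≤ 2 * Real.exp (L * ε ^ 2) by linarith only [hE1]) a2
          (by positivity) (by positivity)
        linarith only [this]
      linarith)
  obtain ⟨b1, b2⟩ := hball w hw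
  have b0 := norm_nonneg w
  have hM0 : 0 < M := by have := P_pos i; have := Real.pi_pos; rw [hM]; positivity
  have b3 : g (M + w) = 0 :=
    (mul_eq_zero.1 hw').resolve_left (by exact_mod_cast hM0.ne')
  have b4 := hBd (M + w) ⟨b3, by simpa using b2⟩
  have b5 := norm_sub_le ((M : ℂ) + w) w
  rw [add_sub_cancel_right, Complex.norm_real, Real.norm_eq_abs, abs_of_pos hM0] at b5
  linarith

end Pool.Agent.P.MP_2e654e_an.Rigid
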