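import Pool.Agent.P.MP_2e654e_an.RLaw

set_option autoImplicit false

open MeasureTheory Filter Topology Finset

namespace Pool.Agent.P.MP_2e654e_an.Rigid

noncomputable def Y (ω : Om) : ℝ := ∑' j, B j (ω j)

lemma Y_tendsto {ω : Om} (h : Summable fun j => |B j (ω j)|) :
    Tendsto (fun n => ∑ j ∈ range n, B j (ω j)) atTop (𝓝 (Y ω)) :=
  (Summable.of_abs h).hasSum.tendsto_sum_nat

lemma Y_meas : AEMeasurable Y Pr :=
  aemeasurable_of_tendsto_metrizable_ae'
    (fun n => (Finset.measurable_sum (range n) fun j _ => B_meas j).aemeasurable)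
    (ae_summable.mono fun _ h => Y_tendsto h)

lemma tail_abs (n : ℕ) {ω : Om} (h : Summable fun j => |B j (ω j)|) :
    |∑' j, B (j + n) (ω (j + n))| ≤ V n ω := by
  have h1 : Summable fun j => ‖B (j + n) (ω (j + n))‖ :=
    (summable_nat_add_iff (f := fun j => |B j (ω j)|) n).2 h
  exact norm_tsum_le_tsum_norm h1

lemma Y_abs {ω : Om} (h : Summable fun j => |B j (ω j)|) : |Y ω| ≤ V 0 ω := tail_abs 0 h

lemma norm_exp_le (z : ℂ) (x v : ℝ) (h : |x| ≤ v) :
    ‖Complex.exp (z * x)‖ ≤ Real.exp (‖z‖ * v) := by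
  refine (Complex.norm_exp_le_exp_norm _).trans (Real.exp_le_exp.2 ?_)
  rw [norm_mul, Complex.norm_real, Real.norm_eq_abs]
  exact mul_le_mul_of_nonneg_left h (norm_nonneg _)

lemma norm_exp_sub (z : ℂ) (x v : ℝ) (h : |x| ≤ v) :
    ‖Complex.exp (z * x) - 1‖ ≤ Real.exp (‖z‖ * v) - 1 := by
  have h1 : ‖Complex.exp (z * x) - 1‖ ≤ Real.exp ‖z * x‖ - 1 := by
    have h2 := Complex.norm_exp_sub_sum_le_norm_mul_exp (z * x) 0
    have hs := (NormedSpace.expSeries_div_hasSum_exp (z * (x : ℂ)))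
    have hr := (NormedSpace.expSeries_div_hasSum_exp ‖z * (x : ℂ)‖)
    rw [← Complex.exp_eq_exp_ℂ] at hs
    rw [← Real.exp_eq_exp_ℝ] at hr
    have hs1 := (hasSum_nat_add_iff' 1).2 hs
    have hr1 := (hasSum_nat_add_iff' 1).2 hr
    simp only [range_one, sum_singleton, pow_zero, Nat.factorial_zero, Nat.cast_one,
      div_one] at hs1 hr1
    refine hs1.norm_le_of_bounded hr1 fun n => ?_
    rw [norm_div, norm_pow]; simp
  refine h1.trans (sub_le_sub_right (Real.exp_le_exp.2 ?_) 1)
  rw [norm_mul, Complex.norm_real, Real.norm_eq_abs]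
  exact mul_le_mul_of_nonneg_left h (norm_nonneg _)

lemma block_mgf (s : Finset ℕ) (z : ℂ) :
    ∫ ω, Complex.exp (z * (∑ j ∈ s, B j (ω j) : ℝ)) ∂Pr =
      ∏ j ∈ s, Complex.cosh (z / P j) ^ P j := by
  have e : ∀ ω : Om, Complex.exp (z * (∑ j ∈ s, B j (ω j) : ℝ)) =
      ∏ j ∈ s, Complex.exp (z * B j (ω j)) := by
    intro ω; rw [← Complex.exp_sum, ← mul_sum]; push_cast; rfl
  simp_rw [e]
  rw [int_prod s (fun j x => Complex.exp (z * B j x))]
  exact prod_congr rfl fun j _ => B_mgf j z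

lemma exp_meas (z : ℂ) {X : Om → ℝ} (h : AEMeasurable X Pr) :
    AEStronglyMeasurable (fun ω => Complex.exp (z * X ω)) Pr :=
  ((Complex.measurable_ofReal.comp_aemeasurable h).const_mul z).cexp.aestronglyMeasurable

noncomputable def F (z : ℂ) : ℂ := ∫ ω, Complex.exp (z * Y ω) ∂Pr

lemma F_tendsto (z : ℂ) :
    Tendsto (fun n => ∏ j ∈ range n, Complex.cosh (z / P j) ^ P j) atTop (𝓝 (F z)) := by
  simp_rw [← block_mgf]
  refine tendsto_integral_of_dominated_convergence (fun ω => Real.exp (‖z‖ * V 0 ω))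
    (fun n => exp_meas z (Finset.measurable_sum (range n) fun j _ => B_meas j).aemeasurable)
    (V0_int (norm_nonneg z)) (fun n => ?_) ?_
  · filter_upwards [ae_summable] with ω hω
    refine norm_exp_le z _ _ ((abs_sum_le_sum_abs _ _).trans ?_)
    exact hω.sum_le_tsum _ fun _ _ => abs_nonneg _
  · filter_upwards [ae_summable] with ω hω
    exact (Complex.continuous_exp.tendsto _).comp
      (((Complex.continuous_ofReal.tendsto _).comp (Y_tendsto hω)).const_mul z)

lemma F_upper (n : ℕ) (z : ℂ) (h : ‖z‖ ≤ q n) : ‖F z‖ ≤ Real.exp ((n + 1) * ‖z‖) := by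
  obtain ⟨hi, hb⟩ := V0_exp n (norm_nonneg z) h
  refine le_trans (norm_integral_le_of_norm_le hi ?_) hb
  filter_upwards [ae_summable] with ω hω
  exact norm_exp_le z _ _ (Y_abs hω)

lemma F_lower (n : ℕ) : ∃ c : ℝ, ∀ y : ℝ, Real.exp (n * y - c) ≤ ‖F y‖ := by
  refine ⟨∑ j ∈ range n, (P j : ℝ), fun y => ?_⟩
  have hn : ∀ m, ‖∏ j ∈ range m, Complex.cosh ((y : ℂ) / P j) ^ P j‖ =
      ∏ j ∈ range m, Real.cosh (y / P j) ^ P j := by
    intro m
    have : ∏ j ∈ range m, Complex.cosh ((y : ℂ) / P j) ^ P j =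
        ((∏ j ∈ range m, Real.cosh (y / P j) ^ P j : ℝ) : ℂ) := by push_cast; rfl
    rw [this, Complex.norm_real, Real.norm_eq_abs, abs_of_nonneg]
    exact prod_nonneg fun j _ => pow_nonneg (Real.cosh_pos _).le _
  refine ge_of_tendsto (F_tendsto y).norm ?_
  filter_upwards [eventually_ge_atTop n] with m hm
  rw [hn]
  calc Real.exp (n * y - ∑ j ∈ range n, (P j : ℝ)) = ∏ j ∈ range n, Real.exp (y - P j) := by
        rw [← Real.exp_sum, sum_sub_distrib]; simp
    _ ≤ ∏ j ∈ range n, Real.cosh (y / P j) ^ P j := by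
        refine prod_le_prod (fun _ _ => (Real.exp_pos _).le) fun j _ => ?_
        have e : Real.exp (y - P j) = Real.exp (y / P j - 1) ^ P j := by
          rw [← Real.exp_nat_mul]; congr 1
          have := P_pos j; field_simp
        rw [e]
        refine pow_le_pow_left₀ (Real.exp_pos _).le ?_ _
        rw [Real.cosh_eq, Real.exp_sub]
        have h1 : (2 : ℝ) ≤ Real.exp 1 := by linarith [Real.add_one_le_exp (1 : ℝ)]
        have h2 : Real.exp (y / P j) / Real.exp 1 ≤ Real.exp (y / P j) / 2 :=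
          div_le_div_of_nonneg_left (Real.exp_pos _).le (by norm_num) h1
        linarith [Real.exp_pos (-(y / P j))]
    _ ≤ ∏ j ∈ range m, Real.cosh (y / P j) ^ P j :=
        prod_le_prod_of_subset_of_one_le (range_mono hm)
          (fun j _ => pow_nonneg (Real.cosh_pos _).le _)
          fun j _ _ => one_le_pow₀ (Real.one_le_cosh _)

lemma cosh_ne {w : ℂ} (h : w.re ≠ 0) : Complex.cosh w ≠ 0 := by
  intro h0
  rw [← Complex.cos_mul_I, Complex.cos_eq_zero_iff] at h0
  obtain ⟨k, hk⟩ := h0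
  have := congrArg Complex.im hk
  simp at this
  exact h this

lemma F_ne {z : ℂ} (h : z.re ≠ 0) : F z ≠ 0 := by
  obtain ⟨n, hn⟩ := exists_level (32 * ‖z‖)
  have hz := norm_nonneg z
  have hq := q_pos n
  have htail : ∀ m, 1 / 2 ≤ ‖∏ j ∈ Ico n (n + m), Complex.cosh (z / P j) ^ P j‖ := by
    intro m
    rw [← block_mgf]
    have hX : Measurable fun ω : Om => ∑ j ∈ Ico n (n + m), B j (ω j) :=
      Finset.measurable_sum _ fun j _ => B_meas j
    have hi : Integrable (fun ω => Complex.exp (z * (∑ j ∈ Ico n (n + m), B j (ω j) : ℝ))) Pr :=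
      (Vf_int n m hz).mono' (exp_meas z hX.aemeasurable)
        (ae_of_all _ fun ω => norm_exp_le z _ _ (abs_sum_le_sum_abs _ _))
    have h1 : ‖∫ ω, (Complex.exp (z * (∑ j ∈ Ico n (n + m), B j (ω j) : ℝ)) - 1) ∂Pr‖ ≤
        ∫ ω, (Real.exp (‖z‖ * Vf n m ω) - 1) ∂Pr :=
      norm_integral_le_of_norm_le ((Vf_int n m hz).sub (integrable_const _))
        (ae_of_all _ fun ω => norm_exp_sub z _ _ (abs_sum_le_sum_abs _ _))
    rw [integral_sub hi (integrable_const _), integral_sub (Vf_int n m hz) (integrable_const _)]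
      at h1
    simp only [integral_const, probReal_univ, one_smul] at h1
    have h2 := Vf_exp n m hz (by linarith)
    have h3 : Real.exp (8 * ‖z‖ / q n) ≤ Real.exp (1 / 4) :=
      Real.exp_le_exp.2 (by rw [div_le_iff₀ hq]; linarith)
    have h4 : Real.exp (1 / 4) ≤ 3 / 2 := by
      have := Real.exp_bound_div_one_sub_of_interval (x := 1 / 4) (by norm_num) (by norm_num)
      linarith
    have h5 := norm_sub_norm_le (1 : ℂ)
      (∫ ω, Complex.exp (z * (∑ j ∈ Ico n (n + m), B j (ω j) : ℝ)) ∂Pr)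
    rw [norm_sub_rev, norm_one] at h5
    linarith
  have hh : 0 < ‖∏ j ∈ range n, Complex.cosh (z / P j) ^ P j‖ := by
    refine norm_pos_iff.2 (prod_ne_zero_iff.2 fun j _ => pow_ne_zero _ (cosh_ne ?_))
    rw [Complex.div_natCast_re]
    exact div_ne_zero h (P_pos j).ne'
  have : ‖∏ j ∈ range n, Complex.cosh (z / P j) ^ P j‖ * (1 / 2) ≤ ‖F z‖ := by
    refine ge_of_tendsto (F_tendsto z).norm ?_
    filter_upwards [eventually_ge_atTop n] with m hm
    obtain ⟨m, rfl⟩ := Nat.exists_eq_add_of_le hm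
    rw [← prod_range_mul_prod_Ico _ (Nat.le_add_right n m), norm_mul]
    exact mul_le_mul_of_nonneg_left (htail m) hh.le
  intro h0
  rw [h0, norm_zero] at this
  linarith

lemma rigid_pt (i : ℕ) {ω : Om} (h : Summable fun j => |B j (ω j)|) :
    ‖Complex.exp (2 * Real.pi * Complex.I * P i * Y ω) - 1‖ ≤
      Real.exp (2 * Real.pi * P i * V (i + 1) ω) - 1 := by
  have h1 := (Summable.of_abs h).sum_add_tsum_nat_add (i + 1)
  have h2 : Complex.exp (2 * Real.pi * Complex.I * P i *
      (∑ j ∈ range (i + 1), B j (ω j) : ℝ)) = 1 := by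
    rw [Complex.exp_eq_one_iff]
    refine ⟨∑ j ∈ range (i + 1), ((P i / P j : ℕ) : ℤ) * S j (ω j), ?_⟩
    have : (P i : ℂ) * (∑ j ∈ range (i + 1), B j (ω j) : ℝ) =
        ((∑ j ∈ range (i + 1), ((P i / P j : ℕ) : ℤ) * S j (ω j) : ℤ) : ℂ) := by
      rw [Complex.ofReal_sum, mul_sum, Int.cast_sum]
      refine sum_congr rfl fun j hj => ?_
      obtain ⟨k, hk⟩ := P_dvd (Nat.lt_succ_iff.1 (mem_range.1 hj))
      have hp : 0 < P j := by exact_mod_cast P_pos j
      have hp' : (P j : ℂ) ≠ 0 := by exact_mod_cast hp.ne'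
      rw [hk, Nat.mul_div_cancel_left _ hp]
      unfold B
      push_cast
      field_simp
    rw [← this]; ring
  have h3 : Complex.exp (2 * Real.pi * Complex.I * P i * Y ω) =
      Complex.exp (2 * Real.pi * Complex.I * P i *
        (∑' j, B (j + (i + 1)) (ω (j + (i + 1))) : ℝ)) := by
    unfold Y
    rw [← h1, Complex.ofReal_add, mul_add, Complex.exp_add, h2, one_mul]
  rw [h3]
  have h4 := norm_exp_sub (2 * Real.pi * Complex.I * P i) _ _ (tail_abs (i + 1) h)
  have h5 : ‖(2 * Real.pi * Complex.I * P i : ℂ)‖ = 2 * Real.pi * P i := by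
    simp [abs_of_pos Real.pi_pos]
  rwa [h5] at h4

lemma rigid : Tendsto (fun i => ∫ ω, ‖Complex.exp (2 * Real.pi * Complex.I * P i * Y ω) - 1‖ ∂Pr)
    atTop (𝓝 0) := by
  have hb : ∀ i, ∫ ω, ‖Complex.exp (2 * Real.pi * Complex.I * P i * Y ω) - 1‖ ∂Pr ≤
      Real.exp (64 / q i) - 1 := by
    intro i
    have hπ := Real.pi_pos
    have hπ4 := Real.pi_le_four
    have hP := P_pos i
    have hq := q_geR i
    have hs : 2 * Real.pi * P i ≤ q (i + 1) := by
      rw [q_succR, P_cast]
      have : (q i : ℝ) ^ 3 = q i * q i ^ 2 := by ring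
      rw [this]
      exact mul_le_mul_of_nonneg_right (by linarith) (by positivity)
    obtain ⟨hi, hb⟩ := V_exp (i + 1) (s := 2 * Real.pi * P i) (by positivity) hs
    have h1 : ∫ ω, ‖Complex.exp (2 * Real.pi * Complex.I * P i * Y ω) - 1‖ ∂Pr ≤
        ∫ ω, (Real.exp (2 * Real.pi * P i * V (i + 1) ω) - 1) ∂Pr :=
      integral_mono_of_nonneg (ae_of_all _ fun _ => norm_nonneg _) (hi.sub (integrable_const _))
        (ae_summable.mono fun ω hω => rigid_pt i hω)
    rw [integral_sub hi (integrable_const _)] at h1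
    simp only [integral_const, probReal_univ, one_smul] at h1
    have h2 : 8 * (2 * Real.pi * P i) / q (i + 1) ≤ 64 / q i := by
      rw [q_succR, P_cast, div_le_div_iff₀ (by positivity) (by positivity)]
      have : 0 < (q i : ℝ) ^ 3 := by positivity
      nlinarith
    linarith [Real.exp_le_exp.2 h2]
  have hq : Tendsto (fun i => (q i : ℝ)) atTop atTop :=
    tendsto_atTop_mono (fun i => by linarith [q_exp i, Real.exp_pos ((i : ℝ) + 8)])
      tendsto_natCast_atTop_atTop
  have ht : Tendsto (fun i => Real.exp (64 / q i) - 1) atTop (𝓝 0) := by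
    have := ((Real.continuous_exp.tendsto 0).comp
      (tendsto_const_nhds (x := (64 : ℝ)).div_atTop hq)).sub_const 1
    simpa using this
  exact squeeze_zero (fun i => integral_nonneg fun _ => norm_nonneg _) hb ht

noncomputable def mu : Measure ℝ := Pr.map Y

instance : IsProbabilityMeasure mu := Measure.isProbabilityMeasure_map Y_meas

lemma mu_neg : mu.map (fun y => -y) = mu := by
  have hf : ∀ j, Measurable fun (x : Blk j) (k : Fin (P j)) => !x k :=
    fun j => measurable_of_finite _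
  have hnu : ∀ j, (nu j).map (fun (x : Blk j) (k : Fin (P j)) => !x k) = nu j := by
    intro j
    unfold nu
    rw [Measure.pi_map_pi (f := fun _ b => !b) fun _ => (measurable_of_finite _).aemeasurable]
    simp_rw [coin_not]
  have hPr : Pr.map (fun (ω : Om) (j : ℕ) (k : Fin (P j)) => !ω j k) = Pr := by
    unfold Pr
    rw [Measure.infinitePi_map_pi _ hf]
    simp_rw [hnu]
  have hm : Measurable fun (ω : Om) (j : ℕ) (k : Fin (P j)) => !ω j k :=
    measurable_pi_lambda _ fun j => (hf j).comp (measurable_pi_apply j)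
  unfold mu
  rw [AEMeasurable.map_map_of_aemeasurable measurable_neg.aemeasurable Y_meas]
  conv_rhs => rw [← hPr]
  rw [AEMeasurable.map_map_of_aemeasurable (by rw [hPr]; exact Y_meas) hm.aemeasurable]
  congr 1
  funext ω
  simp only [Function.comp, Y, B_not, tsum_neg]

lemma mu_double : Integrable (fun y : ℝ => Real.exp (Real.exp (|y| + 2))) mu := by
  have hc : Continuous fun y : ℝ => Real.exp (Real.exp (|y| + 2)) := by fun_prop
  unfold mu
  rw [integrable_map_measure hc.aestronglyMeasurable Y_meas]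
  refine V0_double.mono' (hc.measurable.comp_aemeasurable Y_meas).aestronglyMeasurable ?_
  filter_upwards [ae_summable] with ω hω
  simp only [Function.comp, Real.norm_eq_abs, abs_of_pos (Real.exp_pos _)]
  exact Real.exp_le_exp.2 (Real.exp_le_exp.2 (by linarith [Y_abs hω]))

lemma mu_F (z : ℂ) : ∫ y : ℝ, Complex.exp (z * y) ∂mu = F z := by
  unfold mu F
  rw [integral_map Y_meas (by fun_prop : Continuous fun y : ℝ =>
    Complex.exp (z * y)).aestronglyMeasurable]

lemma mu_rigid : Tendsto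
    (fun i => ∫ y : ℝ, ‖Complex.exp (2 * Real.pi * Complex.I * P i * y) - 1‖ ∂mu)
    atTop (𝓝 0) := by
  refine rigid.congr fun i => ?_
  unfold mu
  rw [integral_map Y_meas (by fun_prop : Continuous fun y : ℝ =>
    ‖Complex.exp (2 * Real.pi * Complex.I * P i * y) - 1‖).aestronglyMeasurable]

end Pool.Agent.P.MP_2e654e_an.Rigid
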